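import Pool.Agent.Lib.MP_be93de_nt.He.Defs

namespace Pool.Agent.Lib.MP_be93de_nt.He

open Finset Filter Pool.Agent.Lib.MP_be93de_nt.Hb
open Pool.Agent.Lib.MP_be93de_nt.Hc (one val nuF IsSF Adm Sm MonoSt)
open Pool.Agent.Lib.MP_be93de_nt.Hd (Y3 R3 Mert3St)

namespace ArithFx

theorem val_mono (ψ : ℤ × ℤ) : Monotone (val ψ) ∨ Antitone (val ψ) := by
  rcases le_total 0 ψ.1 with h | h
  · left
    intro a b hab
    have : (a : ℤ) ≤ b := by exact_mod_cast hab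
    exact Int.toNat_le_toNat (by nlinarith)
  · right
    intro a b hab
    have : (a : ℤ) ≤ b := by exact_mod_cast hab
    exact Int.toNat_le_toNat (by nlinarith)

theorem comp (g : ℕ → ℝ) (lo u v : ℕ) (ψ : ℤ × ℤ)
    (hg : MonotoneOn g (Set.Ici lo) ∨ AntitoneOn g (Set.Ici lo))
    (hv : ∀ m ∈ Set.Ico u v, lo ≤ val ψ m) :
    MonotoneOn (fun m => g (val ψ m)) (Set.Ico u v) ∨
      AntitoneOn (fun m => g (val ψ m)) (Set.Ico u v) := by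
  rcases hg with hg | hg <;> rcases val_mono ψ with h | h
  · exact Or.inl fun a ha b hb hab => hg (hv a ha) (hv b hb) (h hab)
  · exact Or.inr fun a ha b hb hab => hg (hv b hb) (hv a ha) (h hab)
  · exact Or.inr fun a ha b hb hab => hg (hv a ha) (hv b hb) (h hab)
  · exact Or.inl fun a ha b hb hab => hg (hv b hb) (hv a ha) (h hab)

/-- side indicator -/
noncomputable def sd (b : Prop) (Z t : ℕ) : ℝ := by
  classical
  exact if b then (if t < Z then 0 else 1) else (if t < Z then 1 else 0)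

theorem sd_mono (b : Prop) (Z lo : ℕ) :
    MonotoneOn (sd b Z) (Set.Ici lo) ∨ AntitoneOn (sd b Z) (Set.Ici lo) := by
  by_cases h : b
  · left
    intro x _ y _ hxy
    simp only [sd, h, if_true]
    split_ifs <;> first | omega | norm_num
  · right
    intro x _ y _ hxy
    simp only [sd, h, if_false]
    split_ifs <;> first | omega | norm_num

theorem sd_bd (b : Prop) (Z t : ℕ) : 0 ≤ sd b Z t ∧ sd b Z t ≤ 1 := by
  unfold sd
  split_ifs <;> norm_num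

theorem sd_prod (Ψ Φ : Finset (ℤ × ℤ)) (hΦ : Φ ⊆ Ψ) (Z : ℕ) (f : ℤ × ℤ → ℕ) :
    ∏ ψ ∈ Ψ, sd (ψ ∈ Φ) Z (f ψ) = if Φ = Ψ.filter (fun ψ => ¬ f ψ < Z) then 1 else 0 := by
  split_ifs with h
  · refine prod_eq_one fun ψ hψ => ?_
    by_cases h1 : f ψ < Z
    · have : ψ ∉ Φ := by rw [h]; simp [h1]
      simp [sd, this, h1]
    · have : ψ ∈ Φ := by rw [h]; exact mem_filter.2 ⟨hψ, h1⟩
      simp [sd, this, h1]
  · by_contra hc
    refine h (Finset.ext fun ψ => ?_)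
    have hne : ∀ ψ ∈ Ψ, sd (ψ ∈ Φ) Z (f ψ) ≠ 0 := fun ψ hψ h0 => hc (prod_eq_zero hψ h0)
    constructor
    · intro h1
      refine mem_filter.2 ⟨hΦ h1, fun h2 => hne ψ (hΦ h1) ?_⟩
      simp [sd, h1, h2]
    · intro h1
      obtain ⟨h2, h3⟩ := mem_filter.1 h1
      by_contra h4
      exact hne ψ h2 (by simp [sd, h4, h3])

theorem free_mono {a b t : ℕ} (h : a ≤ b) (hf : Free 0 b t) : Free 0 a t := fun p hp =>
  hf p (mem_filter.2 ⟨mem_Ioc.2 ⟨(mem_Ioc.1 (mem_filter.1 hp).1).1,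
    (mem_Ioc.1 (mem_filter.1 hp).1).2.trans h⟩, (mem_filter.1 hp).2⟩)

theorem wt_prod (c s : ℕ) (Ψ : Finset (ℤ × ℤ)) (f : ℤ × ℤ → ℕ) (Φ : Finset (ℤ × ℤ))
    (hΦ : Φ = Ψ.filter (fun ψ => ¬ f ψ < X4 c (2 * s)))
    [Decidable ((∀ ψ ∈ Ψ, Free 0 (w4 c s) (f ψ)) ∧
      ∀ ψ ∈ Φ, Free 0 (w4 c (2 * s)) (f ψ))] :
    ∏ ψ ∈ Ψ, wt5 c s (f ψ) = (∏ ψ ∈ Ψ, 1 / Real.log (f ψ)) *
      if (∀ ψ ∈ Ψ, Free 0 (w4 c s) (f ψ)) ∧ ∀ ψ ∈ Φ, Free 0 (w4 c (2 * s)) (f ψ) then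
        1 / (th 0 (w4 c s) ^ (Ψ \ Φ).card * th 0 (w4 c (2 * s)) ^ Φ.card) else 0 := by
  have hsub : Φ ⊆ Ψ := by rw [hΦ]; exact filter_subset _ _
  have hin : ∀ ψ ∈ Φ, ¬ f ψ < X4 c (2 * s) := fun ψ h => by
    rw [hΦ] at h
    exact (mem_filter.1 h).2
  have hout : ∀ ψ ∈ Ψ \ Φ, f ψ < X4 c (2 * s) := fun ψ h => by
    obtain ⟨h1, h2⟩ := mem_sdiff.1 h
    by_contra h3
    refine h2 ?_
    rw [hΦ]
    exact mem_filter.2 ⟨h1, h3⟩
  split_ifs with h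
  · rw [← prod_sdiff hsub, ← prod_sdiff hsub]
    have e1 : ∏ ψ ∈ Ψ \ Φ, wt5 c s (f ψ) =
        ∏ ψ ∈ Ψ \ Φ, (1 / Real.log (f ψ) * (1 / th 0 (w4 c s))) :=
      prod_congr rfl fun ψ hψ => by
        rw [wt5, if_pos (hout ψ hψ), wt4, if_pos (h.1 ψ (mem_sdiff.1 hψ).1), one_div_mul_one_div,
          mul_comm]
    have e2 : ∏ ψ ∈ Φ, wt5 c s (f ψ) =
        ∏ ψ ∈ Φ, (1 / Real.log (f ψ) * (1 / th 0 (w4 c (2 * s)))) :=
      prod_congr rfl fun ψ hψ => by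
        rw [wt5, if_neg (hin ψ hψ), wt4, if_pos (h.2 ψ hψ), one_div_mul_one_div, mul_comm]
    rw [e1, e2, prod_mul_distrib, prod_mul_distrib, prod_const, prod_const,
      ← one_div_mul_one_div, one_div_pow, one_div_pow]
    ring
  · rw [mul_zero]
    by_contra hc
    have hne : ∀ ψ ∈ Ψ, wt5 c s (f ψ) ≠ 0 := fun ψ hψ h0 => hc (prod_eq_zero hψ h0)
    have k2 : ∀ ψ ∈ Φ, Free 0 (w4 c (2 * s)) (f ψ) := fun ψ hψ => by
      by_contra h3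
      exact hne ψ (hsub hψ) (by rw [wt5, if_neg (hin ψ hψ), wt4, if_neg h3])
    refine h ⟨fun ψ hψ => ?_, k2⟩
    by_cases h4 : ψ ∈ Φ
    · exact free_mono (Nat.pow_le_pow_left (by omega) _) (k2 ψ h4)
    · by_contra h3
      exact hne ψ hψ (by rw [wt5, if_pos (hout ψ (mem_sdiff.2 ⟨hψ, h4⟩)), wt4, if_neg h3])

theorem small (c : ℕ) : ∀ᶠ s : ℕ in atTop, 2 ^ c ≤ s ∧ 2 ^ c * 2 ^ (s ^ 2) ≤ R3 s := by
  filter_upwards [eventually_ge_atTop (2 ^ c), eventually_ge_atTop c, eventually_ge_atTop 2]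
    with s h1 h2 h3
  refine ⟨h1, ?_⟩
  unfold R3
  rw [← pow_add]
  refine Nat.pow_le_pow_right (by norm_num) ?_
  have q1 : s ≤ s ^ 2 := Nat.le_self_pow (by norm_num) s
  have q2 : s ^ 3 ≤ s ^ 12 := Nat.pow_le_pow_right (by omega) (by norm_num)
  have q3 : s ^ 3 = s * s ^ 2 := by ring
  have q4 := Nat.mul_le_mul_right (s ^ 2) h3
  omega

end ArithFx

open ArithFx in
theorem arithf_st (h1 : Mert3St) (h2 : Wt4St) (h3 : SieveFSt) (h4 : MonoSt) :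
    ArithFSt := by
  classical
  intro c hc
  filter_upwards [h3 c hc, h2 c hc, small c, eventually_ge_atTop 2] with s hs hw hb hs2 Ψ S u v hA
    hk hS huv hv
  have hs0 : (2 : ℝ) ≤ s := by exact_mod_cast hs2
  have t1 := (h1.1 0 (w4 c s)).1
  have t2 := (h1.1 0 (w4 c (2 * s))).1
  have hL : 0 < Real.log (X4 c s) := (inv_pos.2 t1).trans_le hw.2.1
  have hX : (1 : ℝ) < X4 c s := by
    by_contra hc
    have := Real.log_nonpos (Nat.cast_nonneg (X4 c s)) (not_lt.1 hc)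
    linarith
  have a1 : 1 ≤ th 0 (w4 c s) * Real.log (X4 c s) := by
    rw [← div_le_iff₀' t1, one_div]
    exact hw.2.1
  have a2 : 1 ≤ th 0 (w4 c (2 * s)) * Real.log (X4 c s) := by
    rw [← div_le_iff₀' t2, one_div]
    exact hw.1
  have hval : ∀ m ∈ Ico u v, ∀ ψ ∈ Ψ, X4 c s ≤ val ψ m ∧
      ((val ψ m : ℕ) : ℝ) = ((ψ.1 * m + ψ.2 : ℤ) : ℝ) := by
    intro m hm ψ hψ
    have c1 := hv m hm ψ hψ
    have c2 : ((val ψ m : ℕ) : ℤ) = ψ.1 * m + ψ.2 :=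
      Int.toNat_of_nonneg ((Int.natCast_nonneg _).trans c1)
    refine ⟨by exact_mod_cast c1.trans c2.ge, ?_⟩
    rw [← c2, Int.cast_natCast]
  set θ : Finset (ℤ × ℤ) → ℝ := fun Φ =>
    th 0 (w4 c s) ^ (Ψ \ Φ).card * th 0 (w4 c (2 * s)) ^ Φ.card with hθ
  set e : Finset (ℤ × ℤ) → ℕ → ℝ := fun Φ m => 1 / Real.log (X4 c s) ^ Ψ.card *
    ((if (∀ ψ ∈ Ψ, Free 0 (w4 c s) (val ψ m)) ∧
      ∀ ψ ∈ Φ, Free 0 (w4 c (2 * s)) (val ψ m) then 1 / θ Φ else 0) - S) with hedef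
  have hsm : ∀ Φ ⊆ Ψ, Sm u v (1 / (s : ℝ) ^ (c + 1)) (2 ^ (s ^ 2)) (e Φ) := by
    intro Φ hΦ a b ha hab hbv
    have c0 := hs Ψ Φ S a b hA hk hΦ hS hab fun m hm ψ hψ =>
      (Int.natCast_nonneg _).trans (hv m (Ico_subset_Ico ha hbv hm) ψ hψ)
    have θ0 : 0 < θ Φ := by positivity
    have c1 : 1 ≤ Real.log (X4 c s) ^ Ψ.card * θ Φ := by
      rw [← card_sdiff_add_card_eq_card hΦ, pow_add]
      have d1 := one_le_pow₀ (n := (Ψ \ Φ).card) a1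
      have d2 := one_le_pow₀ (n := Φ.card) a2
      have d3 := one_le_mul_of_one_le_of_one_le d1 d2
      rw [mul_pow, mul_pow] at d3
      refine d3.trans_eq ?_
      simp only [hθ]
      ring
    have c2 : ∑ m ∈ Ico a b, e Φ m = 1 / (Real.log (X4 c s) ^ Ψ.card * θ Φ) *
        ((((Ico a b).filter (fun m => (∀ ψ ∈ Ψ, Free 0 (w4 c s) (val ψ m)) ∧
          ∀ ψ ∈ Φ, Free 0 (w4 c (2 * s)) (val ψ m))).card : ℝ) -
        ((b : ℝ) - a) * (S * θ Φ)) := by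
      simp only [hedef]
      rw [← mul_sum, sum_sub_distrib, ← sum_filter, sum_const, sum_const, Nat.card_Ico,
        nsmul_eq_mul, nsmul_eq_mul, Nat.cast_sub hab]
      field_simp
    rw [c2, abs_mul, abs_of_nonneg (by positivity)]
    have c3 : 1 / (Real.log (X4 c s) ^ Ψ.card * θ Φ) ≤ 1 := (div_le_one (by linarith)).2 c1
    refine (mul_le_of_le_one_left (abs_nonneg _) c3).trans ?_
    rw [one_div_mul_eq_div]
    simp only [hθ]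
    rw [← mul_assoc S]
    convert c0 using 4
  have hsm2 : ∀ Φ ⊆ Ψ, |∑ m ∈ Ico u v, (∏ ψ ∈ Ψ, sd (ψ ∈ Φ) (X4 c (2 * s)) (val ψ m)) *
      ((∏ ψ ∈ Ψ, Real.log (X4 c s) / Real.log (val ψ m)) * e Φ m)| ≤
      1 / (s : ℝ) ^ (c + 1) * ((v : ℝ) - u) + 2 ^ (s ^ 2) := by
    intro Φ hΦ
    have hlo : ∀ ψ ∈ Ψ, ∀ m ∈ Set.Ico u v, X4 c s ≤ val ψ m := fun ψ hψ m hm =>
      (hval m (mem_Ico.2 hm) ψ hψ).1
    have hlog : ∀ t : ℕ, X4 c s ≤ t → Real.log (X4 c s) ≤ Real.log t := fun t ht =>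
      Real.log_le_log (by linarith) (by exact_mod_cast ht)
    have b1 := h4 u v _ _ (e Φ) (ℤ × ℤ) Ψ (fun ψ m => Real.log (X4 c s) / Real.log (val ψ m))
      (by positivity) (hsm Φ hΦ) fun ψ hψ => ⟨comp (fun t => Real.log (X4 c s) / Real.log t) (X4 c s) u v ψ
        (Or.inr fun x hx y _ hxy => div_le_div_of_nonneg_left hL.le (hL.trans_le (hlog x hx))
          (Real.log_le_log (lt_of_lt_of_le (by linarith) (Nat.cast_le.2 hx))
            (Nat.cast_le.2 hxy))) (hlo ψ hψ), fun m hm => by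
        have := hlog _ (hval m hm ψ hψ).1
        exact ⟨div_nonneg hL.le (by linarith), (div_le_one (by linarith)).2 this⟩⟩
    have b2 := h4 u v _ _ _ (ℤ × ℤ) Ψ (fun ψ m => sd (ψ ∈ Φ) (X4 c (2 * s)) (val ψ m))
      (by positivity) b1 fun ψ hψ => ⟨comp _ (X4 c s) u v ψ (sd_mono _ _ _) (hlo ψ hψ),
        fun m _ => sd_bd _ _ _⟩
    exact b2 u v le_rfl huv le_rfl
  have key : ∀ m ∈ Ico u v, ∏ ψ ∈ Ψ, wt5 c s (val ψ m) -
      S * ∏ ψ ∈ Ψ, 1 / Real.log ((ψ.1 * m + ψ.2 : ℤ) : ℝ) =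
      ∑ Φ ∈ Ψ.powerset, (∏ ψ ∈ Ψ, sd (ψ ∈ Φ) (X4 c (2 * s)) (val ψ m)) *
        ((∏ ψ ∈ Ψ, Real.log (X4 c s) / Real.log (val ψ m)) * e Φ m) := by
    intro m hm
    rw [sum_congr rfl fun Φ hΦ => by rw [sd_prod Ψ Φ (mem_powerset.1 hΦ) _ (fun ψ => val ψ m)]]
    simp only [ite_mul, one_mul, zero_mul]
    rw [sum_ite_eq', if_pos (mem_powerset.2 (filter_subset _ _)),
      wt_prod c s Ψ (fun ψ => val ψ m) _ rfl]
    have c1 : ∏ ψ ∈ Ψ, 1 / Real.log ((ψ.1 * m + ψ.2 : ℤ) : ℝ) =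
        ∏ ψ ∈ Ψ, 1 / Real.log (val ψ m) := prod_congr rfl fun ψ hψ => by rw [(hval m hm ψ hψ).2]
    have c2 : ∏ ψ ∈ Ψ, Real.log (X4 c s) / Real.log (val ψ m) =
        Real.log (X4 c s) ^ Ψ.card * ∏ ψ ∈ Ψ, 1 / Real.log (val ψ m) := by
      rw [← prod_const, ← prod_mul_distrib]
      exact prod_congr rfl fun ψ _ => by rw [mul_one_div]
    rw [c1, c2]
    simp only [hedef, hθ]
    have c3 : Real.log (X4 c s) ^ Ψ.card ≠ 0 := by positivity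
    field_simp
  rw [mul_sum, ← sum_sub_distrib, sum_congr rfl key, sum_comm]
  refine (abs_sum_le_sum_abs _ _).trans ((sum_le_card_nsmul _ _ _ fun Φ hΦ =>
    hsm2 Φ (mem_powerset.1 hΦ)).trans ?_)
  rw [card_powerset, nsmul_eq_mul]
  have hvu : (0 : ℝ) ≤ (v : ℝ) - u := by
    have : (u : ℝ) ≤ v := by exact_mod_cast huv
    linarith
  have p0 : 2 ^ Ψ.card ≤ 2 ^ c := Nat.pow_le_pow_right (by norm_num) hk
  have p1 : ((2 ^ Ψ.card : ℕ) : ℝ) ≤ s := by exact_mod_cast p0.trans hb.1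
  have p2 : ((2 ^ Ψ.card : ℕ) : ℝ) * 2 ^ (s ^ 2) ≤ R3 s := by
    exact_mod_cast (Nat.mul_le_mul_right _ p0).trans hb.2
  have p3 : ((2 ^ Ψ.card : ℕ) : ℝ) * (1 / (s : ℝ) ^ (c + 1) * ((v : ℝ) - u)) ≤
      ((v : ℝ) - u) / (s : ℝ) ^ c := by
    refine (mul_le_mul_of_nonneg_right p1 (by positivity)).trans_eq ?_
    rw [pow_succ]
    field_simp
  rw [mul_add]
  linarith

end Pool.Agent.Lib.MP_be93de_nt.He
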