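import Pool.Agent.Lib.MP_be93de_nt.He.Defs

namespace Pool.Agent.Lib.MP_be93de_nt.He

open Finset Filter Pool.Agent.Lib.MP_be93de_nt.Hb
open Pool.Agent.Lib.MP_be93de_nt.Hc (val nuF Sm MonoSt)
open Pool.Agent.Lib.MP_be93de_nt.Hd (Y3 R3 er Mert3St)

namespace ArithSx

theorem val_mono (ψ : ℤ × ℤ) : Monotone (val ψ) ∨ Antitone (val ψ) := by
  rcases le_total 0 ψ.1 with h | h
  · left
    intro a b hab
    have : (a : ℤ) ≤ b := by exact_mod_cast hab
    exact Int.toNat_le_toNat (by nlinarith)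
  · right
    intro a b hab
    have : (a : ℤ) ≤ b := by exact_mod_cast hab
    exact Int.toNat_le_toNat (by nlinarith)

theorem comp (g : ℕ → ℝ) (lo u v : ℕ) (ψ : ℤ × ℤ) (hg : AntitoneOn g (Set.Ici lo))
    (hv : ∀ m ∈ Set.Ico u v, lo ≤ val ψ m) :
    MonotoneOn (fun m => g (val ψ m)) (Set.Ico u v) ∨
      AntitoneOn (fun m => g (val ψ m)) (Set.Ico u v) := by
  rcases val_mono ψ with h | h
  · exact Or.inr fun a ha b hb hab => hg (hv a ha) (hv b hb) (h hab)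
  · exact Or.inl fun a ha b hb hab => hg (hv b hb) (hv a ha) (h hab)

theorem sq_le (a u : ℕ) (ha : 2 ≤ a) (hu : 1 ≤ u) : (u : ℝ) ^ 2 / Y3 u ≤ er a u := by
  have a2 : (2 : ℝ) ≤ a := by exact_mod_cast ha
  have c1 : (u : ℝ) ^ 2 ≤ 2 ^ (u ^ 12) := by
    exact_mod_cast (Nat.pow_le_pow_right hu (by norm_num : 2 ≤ 12)).trans Nat.lt_two_pow_self.le
  have c2 : Real.exp ((u : ℝ) ^ 12 / a) ≤ 2 ^ (u ^ 12) := by
    have e : (2 : ℝ) ^ (u ^ 12) = Real.exp (((u ^ 12 : ℕ) : ℝ) * Real.log 2) := by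
      rw [Real.exp_nat_mul, Real.exp_log two_pos]
    rw [e]
    refine Real.exp_le_exp.2 ?_
    push_cast
    rw [div_le_iff₀ (by linarith), mul_assoc]
    have h3 := Real.log_two_gt_d9
    exact le_mul_of_one_le_right (by positivity) (by nlinarith)
  have c3 : ((Y3 u : ℕ) : ℝ) = 2 ^ (u ^ 12) * 2 ^ (u ^ 12) := by
    unfold Y3
    push_cast
    rw [two_mul, pow_add]
  unfold er
  rw [c3, Real.exp_neg, ← one_div, div_le_div_iff₀ (by positivity) (Real.exp_pos _), one_mul]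
  exact mul_le_mul c1 c2 (Real.exp_pos _).le (by positivity)

end ArithSx

open ArithSx in
theorem ariths_st (h1 : Mert3St) (h2 : Wt4St) (h3 : SieveSSt) (h4 : SingSSt) (h5 : Psi4St)
    (h6 : MonoSt) : ArithSSt := by
  classical
  intro a b hab
  filter_upwards [h2 b hab.1, h3 a b hab, h4 b, eventually_ge_atTop 1] with u w2 w3 w4' hu
    Ψ S s t hA hSh hk hS hst hv
  have t1 : 0 < th 0 (w4 b u) := (h1.1 _ _).1
  set θ := th 0 (w4 b u) with hθ
  have a1 : 1 ≤ θ * Real.log (X4 b u) := by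
    rw [← div_le_iff₀' t1, one_div]
    exact w2.2.1
  have hL : 0 < Real.log (X4 b u) := (inv_pos.2 t1).trans_le w2.2.1
  have hX : (0 : ℝ) < X4 b u := by
    unfold X4
    positivity
  have hlog : ∀ n : ℕ, X4 b u ≤ n → Real.log (X4 b u) ≤ Real.log n := fun n hn =>
    Real.log_le_log hX (by exact_mod_cast hn)
  have hval : ∀ m ∈ Ico s t, ∀ ψ ∈ Ψ, X4 b u ≤ val ψ m ∧
      ((val ψ m : ℕ) : ℝ) = ((ψ.1 * m + ψ.2 : ℤ) : ℝ) := by
    intro m hm ψ hψ
    have c1 := hv m hm ψ hψ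
    have c2 : ((val ψ m : ℕ) : ℤ) = ψ.1 * m + ψ.2 :=
      Int.toNat_of_nonneg ((Int.natCast_nonneg _).trans c1)
    refine ⟨by exact_mod_cast c1.trans c2.ge, ?_⟩
    rw [← c2, Int.cast_natCast]
  obtain ⟨p0, p1⟩ := h5 b u Ψ.card hu hk
  have er0 : 0 < er a u := Real.exp_pos _
  have q1 := (w4' Ψ S hSh hk hS).trans (sq_le a u (by have := hab.1; have := hab.2; omega) hu)
  have hsm : Sm s t (2 * er a u) (R3 u) (fun m => psi4 b u Ψ.card *
      (if ∀ ψ ∈ Ψ, Free 0 (w4 b u) (val ψ m) then 1 else 0) - S * θ ^ Ψ.card) := by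
    intro x y hx hxy hy
    have c0 := w3 Ψ x y hA hk hxy fun m hm ψ hψ =>
      (Int.natCast_nonneg _).trans (hv m (Ico_subset_Ico hx hy hm) ψ hψ)
    have d0 : (0 : ℝ) ≤ (y : ℝ) - x := sub_nonneg.2 (by exact_mod_cast hxy)
    rw [sum_sub_distrib, ← mul_sum, sum_boole, sum_const, Nat.card_Ico, nsmul_eq_mul,
      Nat.cast_sub hxy]
    generalize (((Ico x y).filter (fun m => ∀ ψ ∈ Ψ, Free 0 (w4 b u) (val ψ m))).card : ℝ) = N
      at c0 ⊢
    generalize ∏ p ∈ pr 0 (w4 b u), (1 - (nuF Ψ p : ℝ) / p) = Pr at c0 q1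
    have e : psi4 b u Ψ.card * N - ((y : ℝ) - x) * (S * θ ^ Ψ.card) =
        psi4 b u Ψ.card * (N - ((y : ℝ) - x) * Pr) -
          ((y : ℝ) - x) * (S * θ ^ Ψ.card - Pr * psi4 b u Ψ.card) := by ring
    rw [e]
    refine (abs_sub _ _).trans ?_
    rw [abs_mul, abs_mul, abs_of_nonneg p0, abs_of_nonneg d0]
    have c1 := mul_le_of_le_one_left (abs_nonneg (N - ((y : ℝ) - x) * Pr)) p1
    have c2 := mul_le_mul_of_nonneg_left q1 d0
    linarith
  have hg : AntitoneOn (fun n : ℕ => 1 / (θ * Real.log n)) (Set.Ici (X4 b u)) := by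
    intro x hx y _ hxy
    have c1 : 0 < Real.log x := hL.trans_le (hlog x hx)
    have c2 : (0 : ℝ) < x := hX.trans_le (by exact_mod_cast hx)
    exact one_div_le_one_div_of_le (mul_pos t1 c1)
      (mul_le_mul_of_nonneg_left (Real.log_le_log c2 (by exact_mod_cast hxy)) t1.le)
  have hm := h6 s t (2 * er a u) (R3 u) _ (ℤ × ℤ) Ψ
    (fun ψ m => 1 / (θ * Real.log (val ψ m))) (by positivity) hsm (fun ψ hψ =>
      ⟨comp (fun n : ℕ => 1 / (θ * Real.log n)) (X4 b u) s t ψ hg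
        fun m hm => (hval m (mem_Ico.2 hm) ψ hψ).1, fun m hm => by
        have c1 := mul_le_mul_of_nonneg_left (hlog _ (hval m hm ψ hψ).1) t1.le
        exact ⟨one_div_nonneg.2 (by linarith), (div_le_one (by linarith)).2 (by linarith)⟩⟩)
    s t le_rfl hst le_rfl
  rw [mul_sum, ← sum_sub_distrib, mul_comm ((t : ℝ) - s)]
  refine le_of_eq_of_le (congrArg _ (sum_congr rfl fun m hm => ?_)) hm
  have e1 : ∏ ψ ∈ Ψ, 1 / Real.log ((ψ.1 * m + ψ.2 : ℤ) : ℝ) =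
      (∏ ψ ∈ Ψ, 1 / (θ * Real.log (val ψ m))) * θ ^ Ψ.card := by
    rw [← prod_const, ← prod_mul_distrib]
    refine prod_congr rfl fun ψ hψ => ?_
    rw [← (hval m hm ψ hψ).2]
    have c1 : 0 < Real.log (val ψ m) := hL.trans_le (hlog _ (hval m hm ψ hψ).1)
    field_simp
  have e2 : ∏ ψ ∈ Ψ, wt4 b u (val ψ m) = (∏ ψ ∈ Ψ, 1 / (θ * Real.log (val ψ m))) *
      if ∀ ψ ∈ Ψ, Free 0 (w4 b u) (val ψ m) then 1 else 0 := by
    split_ifs with h
    · rw [mul_one]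
      exact prod_congr rfl fun ψ hψ => if_pos (h ψ hψ)
    · push Not at h
      obtain ⟨ψ, hψ, h⟩ := h
      rw [mul_zero]
      exact prod_eq_zero hψ (if_neg h)
  rw [e1, e2]
  ring

end Pool.Agent.Lib.MP_be93de_nt.He
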