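import Pool.Agent.Lib.MP_be93de_nt.He.Defs

/-! The mean of the mixed rank weight over a long interval is close to one. -/

namespace Pool.Agent.Lib.MP_be93de_nt.He

open Finset Filter Pool.Agent.Lib.MP_be93de_nt.Hb
open Pool.Agent.Lib.MP_be93de_nt.Hd (Y3 R3 er mean Mert3St)

namespace Avg4x

/-- the classes of `-j`, `j ∈ J` -/
def om (J : Finset ℕ) (p : ℕ) : Finset ℕ := J.image fun j => (p - j % p) % p

theorem om_sub (J : Finset ℕ) {p : ℕ} (hp : 0 < p) : om J p ⊆ range p := by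
  intro a ha
  obtain ⟨j, _, rfl⟩ := mem_image.1 ha
  exact mem_range.2 (Nat.mod_lt _ hp)

theorem neg_iff {p : ℕ} (hp : 0 < p) (m j : ℕ) : (p - j % p) % p = m % p ↔ p ∣ m + j := by
  have hj := Nat.mod_lt j hp
  have h1 : (p - j % p) + j ≡ 0 [MOD p] := by
    have h2 : (p - j % p) + j ≡ (p - j % p) + j % p [MOD p] :=
      Nat.ModEq.add_left _ (Nat.mod_modEq j p).symm
    rw [Nat.sub_add_cancel hj.le] at h2
    exact h2.trans (Nat.modEq_zero_iff_dvd.2 dvd_rfl)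
  constructor
  · intro h
    have h3 : (p - j % p) + j ≡ m + j [MOD p] := Nat.ModEq.add_right j h
    exact Nat.modEq_zero_iff_dvd.1 (h3.symm.trans h1)
  · intro h
    have h3 : (p - j % p) + j ≡ m + j [MOD p] := h1.trans (Nat.modEq_zero_iff_dvd.2 h).symm
    exact Nat.ModEq.add_right_cancel' j h3

theorem mem_om (J : Finset ℕ) {p : ℕ} (hp : 0 < p) (m : ℕ) :
    m % p ∈ om J p ↔ ∃ j ∈ J, p ∣ m + j := by
  unfold om
  rw [mem_image]
  exact exists_congr fun j => and_congr_right fun _ => neg_iff hp m j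

/-- primes dividing a nonzero difference -/
def exc (J : Finset ℕ) : Finset ℕ := (J ×ˢ J).biUnion fun z => (z.1 - z.2).primeFactors

theorem pf_card {d z : ℕ} (h : d ≤ 2 ^ z) : d.primeFactors.card ≤ z := by
  rcases Nat.eq_zero_or_pos d with rfl | hd
  · simp
  · have h1 : 2 ^ d.primeFactors.card ≤ ∏ p ∈ d.primeFactors, p :=
      pow_card_le_prod _ _ _ fun p hp => (Nat.prime_of_mem_primeFactors hp).two_le
    have h2 := Nat.le_of_dvd hd (Nat.prod_primeFactors_dvd d)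
    exact (Nat.pow_le_pow_iff_right (by norm_num)).1 (h1.trans (h2.trans h))

theorem exc_card (J : Finset ℕ) {z : ℕ} (hJ : ∀ i ∈ J, ∀ j ∈ J, i ≤ j + 2 ^ z) :
    (exc J).card ≤ J.card * J.card * z := by
  rw [← card_product]
  refine card_biUnion_le_card_mul _ _ _ fun x hx => pf_card ?_
  exact Nat.sub_le_iff_le_add'.2 (hJ _ (mem_product.1 hx).1 _ (mem_product.1 hx).2)

theorem om_card (J : Finset ℕ) {p : ℕ} (hp : p.Prime) (he : p ∉ exc J) :
    (om J p).card = J.card := by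
  have hp0 : 0 < p := hp.pos
  have aux : ∀ i ∈ J, ∀ j ∈ J, j ≡ i [MOD p] → ¬ j < i := fun i hi j hj h hlt =>
    he (mem_biUnion.2 ⟨(i, j), mem_product.2 ⟨hi, hj⟩,
      Nat.mem_primeFactors.2 ⟨hp, (Nat.modEq_iff_dvd' hlt.le).1 h, by
        show i - j ≠ 0
        omega⟩⟩)
  refine card_image_of_injOn fun i hi j hj hij => ?_
  have hij' : (p - i % p) % p = (p - j % p) % p := hij
  have h1 : p ∣ (p - j % p) + i := (neg_iff hp0 _ i).1 hij'
  have h2 : p ∣ (p - j % p) + j := (neg_iff hp0 _ j).1 rfl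
  have h3 : i ≡ j [MOD p] := Nat.ModEq.add_left_cancel' (p - j % p)
    ((Nat.modEq_zero_iff_dvd.2 h1).trans (Nat.modEq_zero_iff_dvd.2 h2).symm)
  exact le_antisymm (not_lt.1 (aux i hi j hj h3.symm)) (not_lt.1 (aux j hj i hi h3))

theorem av_eq (a b L r : ℕ) (g : ℝ) (J : Finset ℕ) :
    Av L r (G (Free a b) g J) = g ^ J.card *
      (((Ico r (r + L)).filter (fun m => ∀ p ∈ pr a b, m % p ∉ om J p)).card : ℝ) / L := by
  classical
  unfold Av
  congr 1
  have h1 : ∑ u ∈ range L, G (Free a b) g J (r + u) = ∑ m ∈ Ico r (r + L), G (Free a b) g J m := by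
    rw [sum_Ico_eq_sum_range]
    simp
  rw [h1, card_filter]
  push_cast
  rw [mul_sum]
  refine sum_congr rfl fun m _ => ?_
  have hpos : ∀ p ∈ pr a b, 0 < p := fun p hp => (mem_filter.1 hp).2.pos
  by_cases h : ∀ p ∈ pr a b, m % p ∉ om J p
  · rw [if_pos h, mul_one]
    unfold G
    rw [← prod_const]
    refine prod_congr rfl fun j hj => ind_pos fun p hp hd => ?_
    exact h p hp ((mem_om J (hpos p hp) m).2 ⟨j, hj, hd⟩)
  · rw [if_neg h, mul_zero]
    push Not at h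
    obtain ⟨p, hp, hm⟩ := h
    obtain ⟨j, hj, hd⟩ := (mem_om J (hpos p hp) m).1 hm
    exact prod_eq_zero hj (ind_neg fun hf => hf p hp hd)

theorem pr_card (a b : ℕ) : (pr a b).card ≤ b := by
  unfold pr
  refine (card_filter_le _ _).trans ?_
  rw [Nat.card_Ioc]
  omega

theorem om_card_short (J : Finset ℕ) {p y : ℕ} (hp : y < p) (hJ : ∀ i ∈ J, ∀ j ∈ J, i ≤ j + y) :
    (om J p).card = J.card := by
  have hp0 : 0 < p := by omega
  refine card_image_of_injOn fun i hi j hj hij => ?_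
  have hij' : (p - i % p) % p = (p - j % p) % p := hij
  have h1 : p ∣ (p - j % p) + i := (neg_iff hp0 _ i).1 hij'
  have h2 : p ∣ (p - j % p) + j := (neg_iff hp0 _ j).1 rfl
  have h3 : i ≡ j [MOD p] := Nat.ModEq.add_left_cancel' (p - j % p)
    ((Nat.modEq_zero_iff_dvd.2 h1).trans (Nat.modEq_zero_iff_dvd.2 h2).symm)
  have a := hJ i hi j hj
  have b := hJ j hj i hi
  exact Nat.ModEq.eq_of_abs_lt h3 (by rw [abs_lt]; constructor <;> omega)

theorem mean_av {ι : Type} (I : Finset ι) (a b L r : ℕ) (g : ι → ℝ) (J : Finset ℕ) :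
    mean I (fun i => Av L r (G (Free a b) (g i) J)) = mean I (fun i => g i ^ J.card) *
      (((Ico r (r + L)).filter (fun m => ∀ p ∈ pr a b, m % p ∉ om J p)).card : ℝ) / L := by
  unfold mean
  simp only [av_eq]
  rw [← sum_div, ← sum_mul]
  ring

theorem log_le_self' {x : ℝ} (hx : 0 < x) : Real.log x ≤ x := by
  have := Real.log_le_sub_one_of_pos hx
  linarith

theorem lam_le (a u : ℕ) (ha : 60 ≤ a) (hu : 100 * a ≤ u) :
    Real.log (1 + Real.log ((u ^ a : ℕ) : ℝ)) + 38 ≤ u := by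
  have ha' : (60 : ℝ) ≤ a := by exact_mod_cast ha
  have hu' : 100 * (a : ℝ) ≤ u := by exact_mod_cast hu
  have hu0 : (0 : ℝ) < u := by linarith
  have hL := log_le_self' hu0
  have hL0 : 0 ≤ Real.log u := Real.log_natCast_nonneg u
  have h1 : Real.log ((u ^ a : ℕ) : ℝ) = a * Real.log u := by
    push_cast
    rw [Real.log_pow]
  rw [h1]
  have h2 : (a : ℝ) * Real.log u ≤ a * u := mul_le_mul_of_nonneg_left hL (by linarith)
  have h3 : 1 + (a : ℝ) * Real.log u ≤ (100 * ((u : ℝ) / 100)) ^ 2 := by nlinarith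
  have h4 : Real.log (1 + (a : ℝ) * Real.log u) ≤ Real.log ((100 * ((u : ℝ) / 100)) ^ 2) :=
    Real.log_le_log (by positivity) h3
  rw [Real.log_pow, Real.log_mul (by norm_num) (by positivity)] at h4
  have h5 := Real.log_le_sub_one_of_pos (show (0 : ℝ) < 100 by norm_num)
  have h6 := Real.log_le_sub_one_of_pos (show (0 : ℝ) < (u : ℝ) / 100 by positivity)
  push_cast at h4
  linarith

theorem fact_le (x y : ℝ) (t : ℕ) (hx : 0 ≤ x) (hy : 0 < y) (h : x ≤ y ^ 3) :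
    x ^ t / t.factorial ≤ Real.exp (y ^ 10 - 7 * (Real.log y * t)) := by
  have h1 := Real.pow_div_factorial_le_exp (y ^ 7 * x) (by positivity) t
  have h2 : Real.exp (y ^ 7 * x) ≤ Real.exp (y ^ 10) := by
    refine Real.exp_le_exp.2 ?_
    calc y ^ 7 * x ≤ y ^ 7 * y ^ 3 := mul_le_mul_of_nonneg_left h (by positivity)
      _ = y ^ 10 := by ring
  have h3 : Real.exp (7 * (Real.log y * t)) = (y ^ 7) ^ t := by
    rw [show 7 * (Real.log y * t) = ((7 * t : ℕ) : ℝ) * Real.log y by push_cast; ring,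
      Real.exp_nat_mul, Real.exp_log hy, pow_mul]
  rw [Real.exp_sub, h3, le_div_iff₀ (by positivity)]
  calc x ^ t / t.factorial * (y ^ 7) ^ t = (y ^ 7 * x) ^ t / t.factorial := by
        rw [mul_pow]; ring
    _ ≤ _ := h1.trans h2

theorem pow_exp (y : ℝ) (hy : 0 < y) (n : ℕ) : y ^ n = Real.exp (n * Real.log y) := by
  rw [Real.exp_nat_mul, Real.exp_log hy]

theorem mean_le {ι : Type} (I : Finset ι) (hI : I.Nonempty) (f : ι → ℝ) (M : ℝ)
    (h0 : ∀ i ∈ I, 0 ≤ f i) (h : ∀ i ∈ I, f i ≤ M) : 0 ≤ mean I f ∧ mean I f ≤ M := by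
  have hc : (0 : ℝ) < I.card := by exact_mod_cast hI.card_pos
  unfold mean
  refine ⟨div_nonneg (sum_nonneg h0) hc.le, ?_⟩
  rw [div_le_iff₀ hc]
  have := sum_le_card_nsmul I f M h
  rw [nsmul_eq_mul] at this
  linarith

theorem fin (g c P R T2 T3 v z w : ℝ) (hR : Real.exp (v / 2) ≤ R)  (hg0 : 0 ≤ g)
    (hg : g ≤ Real.exp w) (hB : |c - R * P| ≤ 2 * R * T2 + T3)
    (h2 : T2 ≤ Real.exp (2 * w - 3 / 2 * z)) (h3 : T3 ≤ Real.exp (v / 4)) (hw0 : 0 ≤ w)
    (hw : 8 * w ≤ z) (hz : 60 * z ≤ v) :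
    |g * c / R - g * P| ≤ 3 * Real.exp (-z - w) ∧ 1 / R ≤ Real.exp (-z - w) := by
  have hR0 : 0 < R := (Real.exp_pos _).trans_le hR
  have a1 : 1 / R ≤ Real.exp (-(v / 2)) := by
    rw [Real.exp_neg, ← one_div]
    exact one_div_le_one_div_of_le (Real.exp_pos _) hR
  have a2 : g * c / R - g * P = g * (c - R * P) / R := by field_simp
  have a3 : |g * c / R - g * P| ≤ 2 * (Real.exp w * Real.exp (2 * w - 3 / 2 * z)) +
      Real.exp w * Real.exp (v / 4) * Real.exp (-(v / 2)) := by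
    rw [a2, abs_div, abs_mul, abs_of_nonneg hg0, abs_of_pos hR0]
    have b : |c - R * P| ≤ 2 * R * Real.exp (2 * w - 3 / 2 * z) + Real.exp (v / 4) :=
      hB.trans (add_le_add (mul_le_mul_of_nonneg_left h2 (by positivity)) h3)
    calc g * |c - R * P| / R
        ≤ Real.exp w * (2 * R * Real.exp (2 * w - 3 / 2 * z) + Real.exp (v / 4)) / R :=
          div_le_div_of_nonneg_right (mul_le_mul hg b (abs_nonneg _) (by positivity)) hR0.le
      _ = 2 * (Real.exp w * Real.exp (2 * w - 3 / 2 * z)) +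
            Real.exp w * Real.exp (v / 4) * (1 / R) := by field_simp
      _ ≤ _ := by
          have := mul_le_mul_of_nonneg_left a1
            (show 0 ≤ Real.exp w * Real.exp (v / 4) by positivity)
          linarith
  rw [← Real.exp_add, ← Real.exp_add, ← Real.exp_add] at a3
  have e1 : Real.exp (-(v / 2)) ≤ Real.exp (-z - w) := Real.exp_le_exp.2 (by linarith)
  have e2 : Real.exp (w + (2 * w - 3 / 2 * z)) ≤ Real.exp (-z - w) :=
    Real.exp_le_exp.2 (by linarith)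
  have e3 : Real.exp (w + v / 4 + -(v / 2)) ≤ Real.exp (-z - w) :=
    Real.exp_le_exp.2 (by linarith)
  exact ⟨by linarith, by linarith⟩

theorem hw_le (a u : ℕ) (ha : 60 ≤ a) (hu : 100 * a ≤ u) :
    8 * (u : ℝ) ^ 10 ≤ (u : ℝ) ^ 12 / a := by
  have ha' : (60 : ℝ) ≤ a := by exact_mod_cast ha
  have hu' : 100 * (a : ℝ) ≤ u := by exact_mod_cast hu
  rw [le_div_iff₀ (by linarith)]
  have b : 8 * (a : ℝ) ≤ (u : ℝ) ^ 2 := by nlinarith
  have := mul_le_mul_of_nonneg_left b (show 0 ≤ (u : ℝ) ^ 10 by positivity)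
  calc 8 * (u : ℝ) ^ 10 * a = (u : ℝ) ^ 10 * (8 * a) := by ring
    _ ≤ (u : ℝ) ^ 10 * (u : ℝ) ^ 2 := this
    _ = _ := by ring

theorem six_le (a u : ℕ) (hu : 6000 ≤ u) :
    6 * Real.exp (-((u : ℝ) ^ 12 / a) - (u : ℝ) ^ 10) ≤ er a u / (4 * 3 ^ u) := by
  have hu' : (6000 : ℝ) ≤ u := by exact_mod_cast hu
  have hu1 : (1 : ℝ) ≤ u := by linarith
  have p3 : 24 * (u : ℝ) ≤ (u : ℝ) ^ 3 := by
    have : 24 ≤ (u : ℝ) ^ 2 := by nlinarith
    nlinarith
  have p10 : (u : ℝ) ^ 3 ≤ (u : ℝ) ^ 10 := pow_le_pow_right₀ hu1 (by norm_num)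
  have hD : 6 * (4 * (3 : ℝ) ^ u) ≤ Real.exp ((u : ℝ) ^ 10) := by
    have b1 : (3 : ℝ) ^ u ≤ Real.exp (2 * u) := by
      rw [pow_exp 3 (by norm_num)]
      refine Real.exp_le_exp.2 ?_
      have := Real.log_le_sub_one_of_pos (show (0 : ℝ) < 3 by norm_num)
      nlinarith
    have b2 : (24 : ℝ) ≤ Real.exp u := by
      have := Real.add_one_le_exp (u : ℝ)
      linarith
    calc 6 * (4 * (3 : ℝ) ^ u) = 24 * 3 ^ u := by ring
      _ ≤ Real.exp u * Real.exp (2 * u) := mul_le_mul b2 b1 (by positivity) (by positivity)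
      _ = Real.exp (u + 2 * u) := (Real.exp_add _ _).symm
      _ ≤ _ := Real.exp_le_exp.2 (by linarith)
  unfold er
  rw [le_div_iff₀ (by positivity), Real.exp_sub, mul_comm, ← mul_assoc, ← mul_div_assoc,
    div_le_iff₀ (Real.exp_pos _)]
  have := mul_le_mul_of_nonneg_left hD (Real.exp_pos (-((u : ℝ) ^ 12 / a))).le
  linarith

theorem core (h1 : Mert3St) (h2 : BonfSt) (a u y : ℕ) (ha : 60 ≤ a) (hu : 100 * a ≤ u)
    {ι : Type} (I : Finset ι) (g : ι → ℝ) (hI : I.Nonempty) (hg : ∀ i ∈ I, 0 ≤ g i ∧ g i ≤ u)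
    (r : ℕ) (J : Finset ℕ) (hk : J.card ≤ u ^ 2) :
    |mean I (fun i => Av (R3 u) r (G (Free y (u ^ a)) (g i) J)) -
      mean I (fun i => g i ^ J.card) * ∏ p ∈ pr y (u ^ a), (1 - ((om J p).card : ℝ) / p)| ≤
      3 * Real.exp (-((u : ℝ) ^ 12 / a) - (u : ℝ) ^ 10) ∧
    1 / (R3 u : ℝ) ≤ Real.exp (-((u : ℝ) ^ 12 / a) - (u : ℝ) ^ 10) := by
  have ha' : (60 : ℝ) ≤ a := by exact_mod_cast ha
  have hu' : 100 * (a : ℝ) ≤ u := by exact_mod_cast hu
  have hu0 : (0 : ℝ) < u := by linarith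
  have hu1 : (1 : ℝ) ≤ u := by linarith
  have hL := log_le_self' hu0
  have hL0 : 0 < Real.log u := Real.log_pos (by linarith)
  have hk' : (J.card : ℝ) ≤ (u : ℝ) ^ 2 := by exact_mod_cast hk
  have hpr : ∀ p ∈ pr y (u ^ a), p.Prime := fun p hp => (mem_filter.1 hp).2
  have hcn : ∀ p, (om J p).card ≤ J.card := fun p => card_image_le
  have hcard : ∀ p, ((om J p).card : ℝ) ≤ J.card := fun p => by exact_mod_cast hcn p
  obtain ⟨t, ht1, ht2⟩ : ∃ t : ℕ, (t : ℝ) ≤ (u : ℝ) ^ 12 / (4 * (a + 3) * Real.log u) ∧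
      (u : ℝ) ^ 12 / (4 * (a + 3) * Real.log u) < t + 1 :=
    ⟨⌊(u : ℝ) ^ 12 / (4 * (a + 3) * Real.log u)⌋₊, Nat.floor_le (by positivity),
      Nat.lt_floor_add_one _⟩
  rw [le_div_iff₀ (by positivity)] at ht1
  rw [div_lt_iff₀ (by positivity)] at ht2
  have hB := h2 (pr y (u ^ a)) (om J) r (R3 u) t hpr fun p hp => om_sub J (hpr p hp).pos
  have hlam : ∑ p ∈ pr y (u ^ a), ((om J p).card : ℝ) / p ≤ (u : ℝ) ^ 3 := by
    refine (sum_le_sum fun p _ => div_le_div_of_nonneg_right (hcard p) (Nat.cast_nonneg p)).trans ?_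
    have a1 : ∑ p ∈ pr y (u ^ a), (J.card : ℝ) / p =
        J.card * ∑ p ∈ pr y (u ^ a), 1 / (p : ℝ) := by
      rw [mul_sum]; exact sum_congr rfl fun p _ => by ring
    have b := (h1.2.1 y (u ^ a)).trans (lam_le a u ha hu)
    have c : 0 ≤ ∑ p ∈ pr y (u ^ a), 1 / (p : ℝ) := sum_nonneg fun p _ => by positivity
    rw [a1]
    calc (J.card : ℝ) * ∑ p ∈ pr y (u ^ a), 1 / (p : ℝ) ≤ (u : ℝ) ^ 2 * u :=
          mul_le_mul hk' b c (by positivity)
      _ = _ := by ring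
  have hT2 := fact_le _ (u : ℝ) t (sum_nonneg fun p _ => by positivity) hu0 hlam
  have p3 : 24 * (u : ℝ) ≤ (u : ℝ) ^ 3 := by
    have : 24 ≤ (u : ℝ) ^ 2 := by nlinarith
    nlinarith
  have p10 : (u : ℝ) ^ 3 ≤ (u : ℝ) ^ 10 := pow_le_pow_right₀ hu1 (by norm_num)
  have hz0 : (0 : ℝ) ≤ (u : ℝ) ^ 12 / a := by positivity
  have hz1 : (a : ℝ) * ((u : ℝ) ^ 12 / a) = (u : ℝ) ^ 12 := by field_simp
  have hz : 60 * ((u : ℝ) ^ 12 / a) ≤ (u : ℝ) ^ 12 := by
    have := mul_le_mul_of_nonneg_right ha' hz0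
    linarith
  have hw := hw_le a u ha hu
  have hy : 3 / 2 * ((u : ℝ) ^ 12 / a) ≤ 7 * (Real.log u * t) + 7 * Real.log u := by
    generalize (u : ℝ) ^ 12 / a = z at hz0 hz1 ⊢
    rw [← hz1] at ht2
    by_contra hc
    have hc' : 14 * (Real.log u * t + Real.log u) < 3 * z := by linarith
    have b1 := mul_lt_mul_of_pos_left hc' (show (0 : ℝ) < 4 * (a + 3) by linarith)
    have b2 := mul_le_mul_of_nonneg_right (show 12 * ((a : ℝ) + 3) ≤ 14 * a by linarith) hz0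
    have b3 : ((t : ℝ) + 1) * (4 * (a + 3) * Real.log u) =
        4 * (a + 3) * (Real.log u * t + Real.log u) := by ring
    rw [b3] at ht2
    linarith
  have hT2' : (∑ p ∈ pr y (u ^ a), ((om J p).card : ℝ) / p) ^ t / t.factorial ≤
      Real.exp (2 * (u : ℝ) ^ 10 - 3 / 2 * ((u : ℝ) ^ 12 / a)) :=
    hT2.trans (Real.exp_le_exp.2 (by linarith))
  have hT3 : (1 + ∑ p ∈ pr y (u ^ a), ((om J p).card : ℝ)) ^ t ≤
      Real.exp ((u : ℝ) ^ 12 / 4) := by
    have z0 : (0 : ℝ) ≤ ∑ p ∈ pr y (u ^ a), ((om J p).card : ℝ) :=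
      sum_nonneg fun p _ => Nat.cast_nonneg _
    have z1 : ∑ p ∈ pr y (u ^ a), ((om J p).card : ℝ) ≤ ∑ _p ∈ pr y (u ^ a), (J.card : ℝ) :=
      sum_le_sum fun p _ => hcard p
    have a1 : ((pr y (u ^ a)).card : ℝ) ≤ (u : ℝ) ^ a := by exact_mod_cast pr_card _ _
    have b : (1 : ℝ) ≤ (u : ℝ) ^ a * (u : ℝ) ^ 2 :=
      one_le_mul_of_one_le_of_one_le (one_le_pow₀ hu1) (one_le_pow₀ hu1)
    have d : 1 + ∑ _p ∈ pr y (u ^ a), (J.card : ℝ) ≤ (u : ℝ) ^ (a + 3) := by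
      rw [sum_const, nsmul_eq_mul]
      have e : ((pr y (u ^ a)).card : ℝ) * J.card ≤ (u : ℝ) ^ a * (u : ℝ) ^ 2 :=
        mul_le_mul a1 hk' (by positivity) (by positivity)
      have f : (u : ℝ) ^ (a + 3) = (u : ℝ) ^ a * (u : ℝ) ^ 2 * u := by ring
      have f2 := mul_le_mul_of_nonneg_left (show (2 : ℝ) ≤ u by linarith)
        (show 0 ≤ (u : ℝ) ^ a * (u : ℝ) ^ 2 by positivity)
      rw [f]
      linarith
    calc (1 + ∑ p ∈ pr y (u ^ a), ((om J p).card : ℝ)) ^ t ≤ ((u : ℝ) ^ (a + 3)) ^ t :=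
          pow_le_pow_left₀ (by linarith) (by linarith) _
      _ = Real.exp ((((a + 3) * t : ℕ) : ℝ) * Real.log u) := by rw [← pow_mul, pow_exp _ hu0]
      _ ≤ _ := Real.exp_le_exp.2 (by push_cast; linarith)
  have hR : Real.exp ((u : ℝ) ^ 12 / 2) ≤ (R3 u : ℝ) := by
    unfold R3
    push_cast
    rw [pow_exp 2 (by norm_num)]
    refine Real.exp_le_exp.2 ?_
    have := mul_le_mul_of_nonneg_left Real.log_two_gt_d9.le (show 0 ≤ (u : ℝ) ^ 12 by positivity)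
    have h0 : 0 ≤ (u : ℝ) ^ 12 := by positivity
    push_cast
    linarith
  have hgk : (u : ℝ) ^ J.card ≤ Real.exp ((u : ℝ) ^ 10) := by
    rw [pow_exp _ hu0]
    refine Real.exp_le_exp.2 ?_
    have := mul_le_mul hk' hL hL0.le (show 0 ≤ (u : ℝ) ^ 2 by positivity)
    have e : (u : ℝ) ^ 2 * u = (u : ℝ) ^ 3 := by ring
    linarith
  obtain ⟨m0, m1⟩ := mean_le I hI (fun i => g i ^ J.card) ((u : ℝ) ^ J.card)
    (fun i hi => pow_nonneg (hg i hi).1 _) fun i hi => pow_le_pow_left₀ (hg i hi).1 (hg i hi).2 _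
  rw [mean_av]
  rw [mul_div_assoc] at hB
  exact fin _ _ _ _ _ _ _ _ _ hR m0 (m1.trans hgk) hB hT2' hT3 (by positivity) hw hz

theorem prod_cmp (Q E : Finset ℕ) (n : ℕ → ℕ) (k y : ℕ) (hy : 0 < y) (h2 : 2 * k ≤ y)
    (hQ : ∀ p ∈ Q, y < p) (hn : ∀ p ∈ Q, n p ≤ k) (hE : ∀ p ∈ Q, p ∉ E → n p = k) :
    ∏ p ∈ Q, (1 - (k : ℝ) / p) ≤ ∏ p ∈ Q, (1 - (n p : ℝ) / p) ∧
      ∏ p ∈ Q, (1 - (n p : ℝ) / p) ≤
        (∏ p ∈ Q, (1 - (k : ℝ) / p)) * Real.exp (2 * (k : ℝ) / y * E.card) := by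
  have hy' : (0 : ℝ) < y := by exact_mod_cast hy
  have h2' : 2 * (k : ℝ) ≤ y := by exact_mod_cast h2
  have hτ : (k : ℝ) / y ≤ 1 / 2 := by
    rw [div_le_iff₀ hy']
    linarith
  have hτ0 : 0 ≤ (k : ℝ) / y := by positivity
  have hs : ∀ p ∈ Q, (k : ℝ) / p ≤ (k : ℝ) / y := fun p hp =>
    div_le_div_of_nonneg_left (Nat.cast_nonneg k) hy' (by exact_mod_cast (hQ p hp).le)
  have hnk : ∀ p ∈ Q, (n p : ℝ) / p ≤ (k : ℝ) / p := fun p hp =>
    div_le_div_of_nonneg_right (by exact_mod_cast hn p hp) (Nat.cast_nonneg p)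
  have h0 : ∀ p ∈ Q, 0 ≤ 1 - (k : ℝ) / p := fun p hp => by linarith [hs p hp]
  refine ⟨prod_le_prod h0 fun p hp => by linarith [hnk p hp], ?_⟩
  have b1 : ∏ p ∈ Q, (1 - (n p : ℝ) / p) ≤
      ∏ p ∈ Q, (1 - (k : ℝ) / p) * Real.exp (if p ∈ E then 2 * (k : ℝ) / y else 0) := by
    refine prod_le_prod (fun p hp => by linarith [hnk p hp, h0 p hp]) fun p hp => ?_
    by_cases he : p ∈ E
    · rw [if_pos he]
      have c1 := Real.add_one_le_exp (2 * (k : ℝ) / y)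
      have c2 : 0 ≤ (n p : ℝ) / p := by positivity
      have c3 : (1 - (k : ℝ) / y) * (2 * (k : ℝ) / y + 1) ≤
          (1 - (k : ℝ) / p) * Real.exp (2 * (k : ℝ) / y) :=
        mul_le_mul (by linarith [hs p hp]) c1 (by positivity) (h0 p hp)
      have c4 : 2 * (k : ℝ) / y = 2 * ((k : ℝ) / y) := by ring
      have c5 : 1 ≤ (1 - (k : ℝ) / y) * (2 * (k : ℝ) / y + 1) := by
        rw [c4]
        nlinarith
      linarith
    · rw [if_neg he, hE p hp he, Real.exp_zero, mul_one]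
  rw [prod_mul_distrib, ← Real.exp_sum] at b1
  refine b1.trans (mul_le_mul_of_nonneg_left (Real.exp_le_exp.2 ?_) (prod_nonneg h0))
  rw [← sum_filter, sum_const, nsmul_eq_mul, mul_comm]
  refine mul_le_mul_of_nonneg_left ?_ (by positivity)
  exact_mod_cast card_le_card fun p hp => (mem_filter.1 hp).2

theorem far (m g P P' x d e : ℝ) (hg : 0 ≤ g) (h1 : |m - g * P'| ≤ 3 * d) (h2 : |g * P - 1| ≤ d)
    (h3 : P ≤ P') (h4 : P' ≤ P * Real.exp x) (hx0 : 0 ≤ x) (hx : 2 * x ≤ e / 2)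
    (hd : 6 * d ≤ e / 2) (he : e ≤ 1) : |m - 1| ≤ e := by
  have a1 := Real.abs_exp_sub_one_le (x := x) (by rw [abs_of_nonneg hx0]; linarith)
  rw [abs_of_nonneg hx0] at a1
  have a2 : Real.exp x ≤ 1 + 2 * x := by linarith [le_abs_self (Real.exp x - 1)]
  have d0 : 0 ≤ d := (abs_nonneg _).trans h2
  rw [abs_le] at h1 h2 ⊢
  have b1 := mul_le_mul_of_nonneg_left h3 hg
  have b2 := mul_le_mul_of_nonneg_left h4 hg
  have b3 : g * P * Real.exp x ≤ (1 + d) * (1 + 2 * x) :=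
    mul_le_mul (by linarith [h2.2]) a2 (Real.exp_pos x).le (by linarith)
  have b4 : d * (2 * x) ≤ d * 1 := mul_le_mul_of_nonneg_left (by linarith) d0
  rw [← mul_assoc] at b2
  constructor <;> nlinarith [h1.1, h1.2, h2.1, h2.2]

end Avg4x

open Avg4x in
theorem avg4_st (h1 : Mert3St) (h2 : BonfSt) (h3 : Mom4St) : Avg4St := by
  intro a b hab
  have ha : 60 ≤ a := by have := hab.1; have := hab.2; omega
  filter_upwards [h3 a b hab, eventually_ge_atTop (100 * a),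
    eventually_ge_atTop (128 * b ^ 3 * 3 ^ b)] with u hm hu hub
  obtain ⟨ι, I, g, hI, hg, hm⟩ := hm
  have hu6 : 6000 ≤ u := by omega
  have hbu : b ≤ u := by have := hab.2; omega
  have h6 := six_le a u hu6
  have hS : S4 a b u = Free (u ^ (b + 27)) (u ^ a) := rfl
  have hgt : ∀ p ∈ pr (u ^ (b + 27)) (u ^ a), u ^ (b + 27) < p := fun p hp =>
    (mem_Ioc.1 (mem_filter.1 hp).1).1
  have hu0 : (0 : ℝ) < u := by exact_mod_cast (show 0 < u by omega)
  have hu1 : (1 : ℝ) ≤ u := by exact_mod_cast (show 1 ≤ u by omega)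
  refine ⟨ι, I, g, hI, hg, fun r J hk hJ => ?_, fun r J hk hJ => ?_⟩
  · obtain ⟨c1, c2⟩ := core h1 h2 a u (u ^ (b + 27)) ha hu I g hI hg r J hk
    have hle : u ^ 27 ≤ u ^ (b + 27) := Nat.pow_le_pow_right (by omega) (by omega)
    rw [prod_congr rfl fun p hp => by rw [om_card_short J (hle.trans_lt (hgt p hp)) hJ]] at c1
    have c3 := (hm J.card hk).trans c2
    have c4 := Real.exp_pos (-((u : ℝ) ^ 12 / a) - (u : ℝ) ^ 10)
    rw [hS]
    rw [abs_le] at c1 c3 ⊢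
    constructor <;> linarith [c1.1, c1.2, c3.1, c3.2]
  · have hk2 : J.card ≤ u ^ 2 := hk.trans (by rw [sq]; exact Nat.mul_le_mul_left u hbu)
    obtain ⟨c1, c2⟩ := core h1 h2 a u (u ^ (b + 27)) ha hu I g hI hg r J hk2
    have c3 := (hm J.card hk2).trans c2
    have hy : 2 * J.card ≤ u ^ (b + 27) := by
      have e1 : u ^ 3 ≤ u ^ (b + 27) := Nat.pow_le_pow_right (by omega) (by omega)
      have e2 : 2 * u ^ 2 ≤ u * u ^ 2 := Nat.mul_le_mul_right _ (by omega)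
      have e3 : u * u ^ 2 = u ^ 3 := by ring
      omega
    obtain ⟨f1, f2⟩ := prod_cmp (pr (u ^ (b + 27)) (u ^ a)) (exc J) (fun p => (om J p).card)
      J.card (u ^ (b + 27)) (by positivity) hy hgt (fun p _ => card_image_le)
      fun p hp he => om_card J (mem_filter.1 hp).2 he
    obtain ⟨m0, -⟩ := mean_le I hI (fun i => g i ^ J.card) ((u : ℝ) ^ J.card)
      (fun i hi => pow_nonneg (hg i hi).1 _) fun i hi => pow_le_pow_left₀ (hg i hi).1 (hg i hi).2 _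
    have hb1 : (1 : ℝ) ≤ 3 ^ b := one_le_pow₀ (by norm_num)
    have hb2 : (1 : ℝ) ≤ (u : ℝ) ^ b := one_le_pow₀ hu1
    rw [hS]
    refine far _ _ _ _ _ _ _ m0 c1 c3 f1 f2 (by positivity) ?_ (h6.trans ?_) ?_
    · have e1 : ((exc J).card : ℝ) ≤ J.card * J.card * (4 * (u : ℝ) ^ 12) := by
        exact_mod_cast exc_card J hJ
      have e2 : (J.card : ℝ) ≤ u * b := by exact_mod_cast hk
      have e3 : (128 : ℝ) * (b : ℝ) ^ 3 * 3 ^ b ≤ u := by exact_mod_cast hub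
      have e4 : (u : ℝ) ≤ (u : ℝ) ^ 12 := le_self_pow₀ hu1 (by norm_num)
      have e5 : (J.card : ℝ) * (exc J).card ≤ (u * b) * ((u * b) * (u * b) * (4 * (u : ℝ) ^ 12)) :=
        calc (J.card : ℝ) * (exc J).card ≤ J.card * (J.card * J.card * (4 * (u : ℝ) ^ 12)) :=
              mul_le_mul_of_nonneg_left e1 (by positivity)
          _ ≤ _ := by gcongr
      push_cast
      rw [div_div, div_mul_eq_mul_div, ← mul_div_assoc,
        div_le_div_iff₀ (by positivity) (by positivity), one_mul]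
      calc 2 * (2 * (J.card : ℝ) * (exc J).card) * (4 * 3 ^ b * (u : ℝ) ^ b * 2)
          = ((J.card : ℝ) * (exc J).card) * (32 * 3 ^ b * (u : ℝ) ^ b) := by ring
        _ ≤ ((u * b) * ((u * b) * (u * b) * (4 * (u : ℝ) ^ 12))) * (32 * 3 ^ b * (u : ℝ) ^ b) :=
            mul_le_mul_of_nonneg_right e5 (by positivity)
        _ = (128 * (b : ℝ) ^ 3 * 3 ^ b) * ((u : ℝ) ^ 15 * (u : ℝ) ^ b) := by ring
        _ ≤ (u : ℝ) ^ 12 * ((u : ℝ) ^ 15 * (u : ℝ) ^ b) :=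
            mul_le_mul_of_nonneg_right (e3.trans e4) (by positivity)
        _ = _ := by ring
    · have hw := hw_le a u ha hu
      have e1 : (3 : ℝ) ^ b ≤ 3 ^ u := pow_le_pow_right₀ (by norm_num) hbu
      have e2 : 2 * (u : ℝ) ^ b ≤ Real.exp ((u : ℝ) ^ 12 / a) := by
        have g1 : (2 : ℝ) ≤ Real.exp 1 := by
          have := Real.add_one_le_exp (1 : ℝ)
          linarith
        have g2 : (b : ℝ) * Real.log u ≤ u * u :=
          mul_le_mul (by exact_mod_cast hbu) (log_le_self' hu0) (Real.log_nonneg hu1) hu0.le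
        have g3 : (u : ℝ) ^ 2 ≤ (u : ℝ) ^ 10 := pow_le_pow_right₀ hu1 (by norm_num)
        have g4 : (1 : ℝ) ≤ (u : ℝ) ^ 10 := one_le_pow₀ hu1
        have g5 : (u : ℝ) * u = (u : ℝ) ^ 2 := by ring
        rw [pow_exp _ hu0 b]
        calc 2 * Real.exp (b * Real.log u) ≤ Real.exp 1 * Real.exp (b * Real.log u) :=
              mul_le_mul_of_nonneg_right g1 (Real.exp_pos _).le
          _ = Real.exp (1 + b * Real.log u) := (Real.exp_add _ _).symm
          _ ≤ _ := Real.exp_le_exp.2 (by linarith)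
      unfold er
      rw [Real.exp_neg, ← one_div, div_div, div_div]
      refine one_div_le_one_div_of_le (by positivity) ?_
      calc 4 * 3 ^ b * (u : ℝ) ^ b * 2 = (2 * (u : ℝ) ^ b) * (4 * 3 ^ b) := by ring
        _ ≤ _ := mul_le_mul e2 (by linarith) (by positivity) (Real.exp_pos _).le
    · rw [div_le_one (by positivity)]
      nlinarith

end Pool.Agent.Lib.MP_be93de_nt.He
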