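import Pool.Agent.Lib.MP_be93de_nt.He.Defs

namespace Pool.Agent.Lib.MP_be93de_nt.He

open Finset Filter Pool.Agent.Lib.MP_be93de_nt.Hb
open Pool.Agent.Lib.MP_be93de_nt.Hc (one Cells2St)
open Pool.Agent.Lib.MP_be93de_nt.Hd (Y3 R3 er mean Base2St Tilt2St Comb2St Rep2)

namespace Block4x

def Zn (T u : ℕ) : Finset ℕ := (range (u + 1)).image (fun i => T + 3 * (i + 1))

theorem mem_Zn {T u a : ℕ} : a ∈ Zn T u ↔ ∃ i, i ≤ u ∧ T + 3 * (i + 1) = a := by
  simp [Zn]

theorem card_Zn (T u : ℕ) : (Zn T u).card = u + 1 := by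
  rw [Zn, card_image_of_injective _ (fun i j e => by omega), card_range]

theorem good_union {P : ℕ → Prop} {T L u r : ℕ} {B : Finset ℕ} (hu : u < L)
    (hB : ∀ a ∈ B, T + 3 * L + 3 ≤ a) (h : Good P (r + 1 + u) B) : Good P r (Zn T u ∪ B) := by
  intro a ha ha2
  have a1 : a ∈ B := by
    rcases mem_union.1 ha with e | e
    · obtain ⟨i, hi, rfl⟩ := mem_Zn.1 e
      rcases mem_union.1 ha2 with e' | e'
      · obtain ⟨j, -, hj⟩ := mem_Zn.1 e'
        omega
      · have := hB _ e'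
        omega
    · exact e
  have a0 := hB a a1
  have a2 : a + 2 ∈ B := by
    rcases mem_union.1 ha2 with e' | e'
    · obtain ⟨j, hj, hj'⟩ := mem_Zn.1 e'
      omega
    · exact e'
  have e1 : (Zn T u).filter (· ≤ a) = Zn T u := filter_true_of_mem fun x hx => by
    obtain ⟨j, hj, hj'⟩ := mem_Zn.1 hx
    omega
  have e2 : Disjoint (Zn T u) (B.filter (· ≤ a)) := disjoint_left.2 fun x hx hx' => by
    obtain ⟨j, hj, hj'⟩ := mem_Zn.1 hx
    have := hB x (mem_filter.1 hx').1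
    omega
  have := h a a1 a2
  rw [filter_union, e1, card_union_of_disjoint e2, card_Zn]
  convert this using 1
  omega

theorem sub_un {cs : List (Finset ℕ)} {c : Finset ℕ} (h : c ∈ cs) : c ⊆ un cs := by
  induction cs with
  | nil => simp at h
  | cons a l ih =>
    rcases List.mem_cons.1 h with rfl | e
    · exact subset_union_left
    · exact (ih e).trans subset_union_right

theorem one_eq (B K : Finset ℕ) : one (B : Set ℕ) K = if K ⊆ B then 1 else 0 := by
  unfold one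
  by_cases h : K ⊆ B
  · rw [if_pos h, if_pos fun t ht => mem_coe.2 (h ht)]
  · rw [if_neg h, if_neg fun k => h fun t ht => mem_coe.1 (k t ht)]

theorem mean_le {ι : Type} {I : Finset ι} (hI : I.Nonempty) {f : ι → ℝ} {x : ℝ}
    (h : ∀ i ∈ I, f i ≤ x) : mean I f ≤ x := by
  have h0 : (0 : ℝ) < I.card := by exact_mod_cast hI.card_pos
  rw [mean, div_le_iff₀ h0, mul_comm, ← nsmul_eq_mul]
  exact sum_le_card_nsmul _ _ _ h

theorem le_mean {ι : Type} {I : Finset ι} (hI : I.Nonempty) {f : ι → ℝ} {x : ℝ}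
    (h : ∀ i ∈ I, x ≤ f i) : x ≤ mean I f := by
  have h0 : (0 : ℝ) < I.card := by exact_mod_cast hI.card_pos
  rw [mean, le_div_iff₀ h0, mul_comm, ← nsmul_eq_mul]
  exact card_nsmul_le_sum _ _ _ h

theorem mean_lin {ι κ : Type} (I : Finset ι) (K : Finset κ) (d : κ → ℝ) (f : ι → κ → ℝ) :
    ∑ k ∈ K, d k * mean I (fun i => f i k) = mean I (fun i => ∑ k ∈ K, d k * f i k) := by
  simp only [mean, ← mul_div_assoc, mul_sum]
  rw [← sum_div, sum_comm]

theorem ex_le {ι : Type} {I : Finset ι} (hI : I.Nonempty) (f : ι → ℝ) :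
    ∃ i ∈ I, f i ≤ mean I f := by
  obtain ⟨i, hi, h⟩ := exists_min_image I f hI
  exact ⟨i, hi, le_mean hI h⟩

theorem abs_mean {ι : Type} {I : Finset ι} (hI : I.Nonempty) {f f' : ι → ℝ} {x : ℝ}
    (h : ∀ i ∈ I, |f i - f' i| ≤ x) : |mean I f - mean I f'| ≤ x := by
  have e : mean I f - mean I f' = mean I (fun i => f i - f' i) := by
    simp only [mean, sum_sub_distrib, sub_div]
  rw [e, abs_le]
  exact ⟨le_mean hI fun i hi => (abs_le.1 (h i hi)).1, mean_le hI fun i hi => (abs_le.1 (h i hi)).2⟩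

theorem mean_congr {ι : Type} {I : Finset ι} {f f' : ι → ℝ} (h : ∀ i ∈ I, f i = f' i) :
    mean I f = mean I f' := by
  rw [mean, mean, sum_congr rfl h]

theorem av_eq (L r : ℕ) (F : ℕ → ℝ) : Av L r F = mean (range L) (fun s => F (r + s)) := by
  rw [Av, mean, card_range]

theorem numR {a u : ℕ} (ha : 60 ≤ a) (hu : 16 ≤ u) : 1 / (R3 u : ℝ) ≤ er a u / 4 := by
  have u1 : (16 : ℝ) ≤ u := by exact_mod_cast hu
  have a1 : (60 : ℝ) ≤ a := by exact_mod_cast ha
  have v1 : (16 : ℝ) ≤ (u : ℝ) ^ 12 := u1.trans (le_self_pow₀ (by linarith) (by norm_num))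
  have l2 := Real.log_two_gt_d9
  have e1 : (R3 u : ℝ) = Real.exp ((u : ℝ) ^ 12 * Real.log 2) := by
    rw [R3, mul_comm, Real.exp_mul, Real.exp_log (by norm_num), ← Nat.cast_pow, Real.rpow_natCast]
    push_cast
    rfl
  have e2 : (4 : ℝ) = Real.exp (Real.log 2 + Real.log 2) := by
    rw [Real.exp_add, Real.exp_log (by norm_num)]; norm_num
  have e3 : (u : ℝ) ^ 12 / a ≤ (u : ℝ) ^ 12 / 60 :=
    div_le_div_of_nonneg_left (by linarith) (by norm_num) a1
  rw [e1, er, e2, one_div, ← Real.exp_neg, ← Real.exp_sub, Real.exp_le_exp]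
  nlinarith

theorem numB {x y : ℝ} {n : ℕ} (hy : 4 ≤ y) (hx : x = 1 / y ^ 2) (hn : (n : ℝ) ≤ y) :
    (1 + x) ^ n ≤ 2 * (1 - x) ^ n := by
  have y0 : 0 < y := by linarith
  have x0 : 0 ≤ x := by rw [hx]; positivity
  have x1 : x * y ^ 2 = 1 := by rw [hx]; field_simp
  have x2 : x * y ≤ 1 / 4 := by nlinarith [mul_nonneg x0 y0.le]
  have x3 : x ≤ 1 / 16 := by nlinarith
  have b1 : 1 + (n : ℝ) * (-(2 * x)) ≤ (1 + -(2 * x)) ^ n := one_add_mul_le_pow (by linarith) n
  have b2 : (1 : ℝ) / 2 ≤ (1 + -(2 * x)) ^ n := by nlinarith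
  have b3 : (1 + x) ^ n * (1 + -(2 * x)) ^ n ≤ (1 - x) ^ n := by
    rw [← mul_pow]
    exact pow_le_pow_left₀ (mul_nonneg (by linarith) (by linarith)) (by nlinarith) n
  have b4 : 0 ≤ (1 + x) ^ n := by positivity
  nlinarith

theorem prod_near {L : Finset ℕ} {f : ℕ → ℝ} {x : ℝ} (hf : ∀ t, |f t - 1| ≤ x)
    (hL : 2 * (L.card : ℝ) * x ≤ 1) : |∏ t ∈ L, f t - 1| ≤ 2 * (L.card : ℝ) * x := by
  have x0 : 0 ≤ x := (abs_nonneg _).trans (hf 0)
  induction L using Finset.induction_on with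
  | empty => simp
  | insert t L ht ih =>
    rw [card_insert_of_notMem ht] at hL ⊢
    push_cast at hL ⊢
    have k := ih (by nlinarith)
    have k1 : |∏ t ∈ L, f t| ≤ 2 := by
      rw [abs_le] at k ⊢
      constructor <;> nlinarith [k.1, k.2]
    have e : f t * ∏ t ∈ L, f t - 1 = (f t - 1) * ∏ t ∈ L, f t + (∏ t ∈ L, f t - 1) := by ring
    rw [prod_insert ht, e]
    refine (abs_add_le _ _).trans ?_
    rw [abs_mul]
    have k2 : |f t - 1| * |∏ t ∈ L, f t| ≤ x * 2 := mul_le_mul (hf t) k1 (abs_nonneg _) x0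
    linarith

theorem numD {u : ℕ} (hu : 16 ≤ u) : u * (3 * Y3 u + 1) ≤ 2 ^ (4 * u ^ 12) := by
  have a0 : u ≤ u ^ 12 := Nat.le_self_pow (by norm_num) u
  have a1 : u ≤ 2 ^ (u ^ 12) := a0.trans Nat.lt_two_pow_self.le
  have a3 : 1 ≤ 2 ^ (2 * u ^ 12) := Nat.one_le_two_pow
  have a4 : 3 * Y3 u + 1 ≤ 2 ^ (2 * u ^ 12 + 2) := by
    rw [Y3, pow_add]; omega
  calc u * (3 * Y3 u + 1) ≤ 2 ^ (u ^ 12) * 2 ^ (2 * u ^ 12 + 2) := Nat.mul_le_mul a1 a4
    _ = 2 ^ (u ^ 12 + (2 * u ^ 12 + 2)) := by rw [← pow_add]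
    _ ≤ 2 ^ (4 * u ^ 12) := Nat.pow_le_pow_right (by norm_num) (by omega)

end Block4x

open Block4x in
theorem block4_st (h1 : Cells2St) (h2 : Base2St) (h3 : Tilt2St) (h4 : FuncSt) (h5 : Comb2St)
    (h6 : Avg4St) (h7 : Many4St) (h8 : Kill4St) : Block4St := by
  intro a b hab
  have ha : 60 ≤ a := by
    have := hab.1
    have := hab.2
    omega
  filter_upwards [h6 a b hab, h7 b, h8 b, eventually_ge_atTop 16, eventually_ge_atTop (8 * b)]
    with u hA hM hK hs hub T T' r ρ ι I K d hT1 hT2 h0 hρ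
  obtain ⟨ι1, I1, g, hI1, hg, hA, hA'⟩ := hA
  obtain ⟨ι2, I2, φ, hI2, hφ', hK⟩ := hK
  have s8 : (16 : ℝ) ≤ u := by exact_mod_cast hs
  have s0 : (0 : ℝ) < u := by linarith
  have hφ : ∀ i ∈ I2, ∀ t, |φ i t - 1| ≤ 1 / (u : ℝ) ^ 2 := fun i hi t =>
    (hφ' i hi t).trans (one_div_le_one_div_of_le (by positivity)
      (pow_le_pow_right₀ (by linarith) (by omega)))
  have s1 : (1 : ℝ) ≤ u ^ 5 := one_le_pow₀ (by linarith)
  have s6 : (16 : ℝ) ≤ u ^ 6 := s8.trans (le_self_pow₀ (by linarith) (by norm_num))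
  have hρ' : ρ * (u : ℝ) ^ 11 ≤ 1 := (le_div_iff₀ (by positivity)).1 hρ
  have e8 : (u : ℝ) ^ 11 = u ^ 6 * u ^ 5 := by ring
  have ρ7 : ρ * (u : ℝ) ^ 5 ≤ 1 / 16 := by
    have : 0 ≤ ρ * (u : ℝ) ^ 5 := by positivity
    nlinarith
  have ρ1 : ρ ≤ 1 / 16 := by nlinarith
  have θ1 : 1 / (u : ℝ) ^ 2 ≤ 1 := by
    rw [div_le_one (by positivity)]
    exact one_le_pow₀ (by linarith)
  have f4 : 4 ≤ w4 b u := le_trans (by omega) (Nat.le_self_pow (by omega) u)
  have m1 : 1 ≤ u ^ 5 := Nat.one_le_pow _ _ (by omega)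
  have hU : ∀ x ∈ (Ico (T + 3 * R3 u + 3) T').filter (Free 0 (w4 b u)),
      ¬ 2 ∣ x ∧ ¬ 3 ∣ x := fun x hx => by
    have k := (mem_filter.1 hx).2
    exact ⟨k 2 (mem_filter.2 ⟨mem_Ioc.2 ⟨by norm_num, by omega⟩, Nat.prime_two⟩),
      k 3 (mem_filter.2 ⟨mem_Ioc.2 ⟨by norm_num, by omega⟩, Nat.prime_three⟩)⟩
  have n2 : 3 * R3 u + 3 ≤ Y3 u := by
    obtain ⟨x, hx⟩ := card_pos.1 (lt_of_lt_of_le m1 (hM T))
    have := mem_Ico.1 (mem_filter.1 hx).1
    omega
  obtain ⟨cs, hS, hc, hu⟩ := h1 _ (u ^ 5) m1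
    ((hM T).trans (card_le_card (filter_subset_filter _ (Ico_subset_Ico le_rfl hT1)))) hU
  have hp : ∀ i c, ∃ p : ι1 → ℕ → Finset ℕ → ℝ, i ∈ I2 → c ∈ cs →
      (∀ j ∈ I1, Prob (S4 a b u) c (p j)) ∧ Rep2 (S4 a b u) I1 g (fun t => ρ * φ i t) u c p := by
    intro i c
    by_cases hi : i ∈ I2
    swap
    · exact ⟨fun _ _ _ => 0, fun k => absurd k hi⟩
    by_cases hcs : c ∈ cs
    swap
    · exact ⟨fun _ _ _ => 0, fun _ k => absurd k hcs⟩
    have k1 : (u : ℝ) ^ 5 ≤ c.card := by exact_mod_cast (hc c hcs).1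
    have k2 : (c.card : ℝ) ≤ 2 * u ^ 5 + 1 := by exact_mod_cast (hc c hcs).2
    have lo : ∀ t, 1 - 1 / (u : ℝ) ^ 2 ≤ φ i t := fun t => by
      have := (abs_le.1 (hφ i hi t)).1
      linarith
    have up : ∀ t, φ i t ≤ 1 + 1 / (u : ℝ) ^ 2 := fun t => by
      have := (abs_le.1 (hφ i hi t)).2
      linarith
    obtain ⟨w, hb⟩ := h2 c (fun t => ρ * φ i t) u
      (fun t _ => mul_nonneg h0 (by linarith [lo t])) (by
        refine (sum_le_card_nsmul c _ (ρ * 2) fun t _ =>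
          mul_le_mul_of_nonneg_left (by linarith [up t]) h0).trans ?_
        rw [nsmul_eq_mul]
        nlinarith)
    obtain ⟨p, hp⟩ := h3 (S4 a b u) c ι1 I1 g u (fun t => ρ * φ i t) u w
      (fun x hx => (hU x (hu ▸ sub_un hcs hx)).2) (by linarith) hg (by
        refine le_trans ?_ k1
        have m2 : (u : ℝ) ^ 5 = u * u * (u * u ^ 2) := by ring
        have m3 : 0 ≤ (u : ℝ) * u ^ 2 := by positivity
        have m4 : (12 : ℝ) ≤ u * u := by nlinarith
        nlinarith) hb (fun n hn => ⟨(ρ * (1 + 1 / (u : ℝ) ^ 2)) ^ n, fun π hπ hc => by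
          have k := hb.cmp π hπ (by omega)
          have q1 : ∏ t ∈ π, ρ * φ i t ≤ (ρ * (1 + 1 / (u : ℝ) ^ 2)) ^ n := by
            rw [← hc, ← prod_const]
            exact prod_le_prod (fun t _ => mul_nonneg h0 (by linarith [lo t]))
              fun t _ => mul_le_mul_of_nonneg_left (up t) h0
          have q2 : (ρ * (1 - 1 / (u : ℝ) ^ 2)) ^ n ≤ ∏ t ∈ π, ρ * φ i t := by
            rw [← hc, ← prod_const]
            exact prod_le_prod (fun t _ => mul_nonneg h0 (by linarith))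
              fun t _ => mul_le_mul_of_nonneg_left (lo t) h0
          have q3 := mul_le_mul_of_nonneg_left
            (numB (n := n) (by linarith) rfl (show (n : ℝ) ≤ u by exact_mod_cast hn))
            (pow_nonneg h0 n)
          rw [mul_pow] at q1 q2 ⊢
          exact ⟨by linarith [k.1], k.2.trans q1⟩⟩)
    exact ⟨p, fun _ _ => hp⟩
  choose p hp using hp
  have R1 : 1 ≤ R3 u := Nat.one_le_two_pow
  have hR : (range (R3 u)).Nonempty := ⟨0, mem_range.2 R1⟩
  have hF := fun i (hi : i ∈ I2) j (hj : j ∈ I1) =>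
    (h4 (S4 a b u) (fun c => p i c j) cs).2 fun c k => (hp i c hi k).1 j hj
  obtain ⟨E, hE⟩ : ∃ E : ι2 → ι1 → ℕ → Finset ℕ → ℝ, ∀ i j s L, E i j s L =
      Ex (fun c => p i c j) cs (r + 1 + s) (fun B => if L ⊆ Zn T s ∪ B then 1 else 0) :=
    ⟨_, fun _ _ _ _ => rfl⟩
  obtain ⟨i, hi, l1⟩ := ex_le hI2 fun i => mean I1 fun j => mean (range (R3 u)) fun s =>
    ∑ k ∈ I, d k * E i j s (K k)
  obtain ⟨j, hj, l2⟩ := ex_le hI1 fun j => mean (range (R3 u)) fun s =>
    ∑ k ∈ I, d k * E i j s (K k)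
  obtain ⟨s, hs', l3⟩ := ex_le hR fun s => ∑ k ∈ I, d k * E i j s (K k)
  obtain ⟨B, hB, hG, hle⟩ := (hF i hi j hj).2.2 hS (r + 1 + s)
    (fun B => ∑ k ∈ I, d k * if K k ⊆ Zn T s ∪ B then 1 else 0)
  rw [(h4 (S4 a b u) (fun c => p i c j) cs).1] at hle
  have uR := mem_range.1 hs'
  have hBU : ∀ x ∈ un cs, T + 3 * R3 u + 3 ≤ x ∧ x < T' := fun x hx =>
    mem_Ico.1 (mem_filter.1 (hu ▸ hx)).1
  refine ⟨Zn T s ∪ B, fun L => mean I2 fun i => mean I1 fun j => mean (range (R3 u)) fun s =>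
    E i j s L, fun x hx => ?_, ⟨T + 3, mem_union_left _ (mem_Zn.2 ⟨0, Nat.zero_le _, rfl⟩)⟩,
    good_union uR (fun x hx => (hBU x (hB hx)).1) hG, ?_, ?_, fun L => ⟨?_, ?_⟩,
    fun L hL => ?_⟩
  · rcases mem_union.1 hx with e | e
    · obtain ⟨i, hi, rfl⟩ := mem_Zn.1 e
      exact mem_Ico.2 ⟨by omega, by omega⟩
    · have k := hBU x (hB e)
      exact mem_Ico.2 ⟨by omega, k.2⟩
  · simp only [one_eq, mul_sub, sum_sub_distrib, mean_lin]
    rw [sub_nonpos]
    refine hle.trans (le_trans ?_ (l3.trans (l2.trans l1)))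
    simp only [hE]
    exact le_rfl
  · have k : ∀ i ∈ I2, ∀ j ∈ I1, ∀ s, E i j s ∅ = 1 := fun i hi j hj s => by
      simp only [hE, empty_subset, if_true]
      exact (hF i hi j hj).1 _ 1
    exact le_antisymm
      (mean_le hI2 fun i hi => mean_le hI1 fun j hj => mean_le hR fun s _ => (k i hi j hj s).le)
      (le_mean hI2 fun i hi => le_mean hI1 fun j hj => le_mean hR fun s _ => (k i hi j hj s).ge)
  · refine le_mean hI2 fun i hi => le_mean hI1 fun j hj => le_mean hR fun s _ => ?_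
    rw [hE]
    exact ((hF i hi j hj).1 _ 0).symm.trans_le
      ((hF i hi j hj).2.1 _ _ _ fun B _ => by split_ifs <;> norm_num)
  · refine mean_le hI2 fun i hi => mean_le hI1 fun j hj => mean_le hR fun s _ => ?_
    rw [hE]
    exact ((hF i hi j hj).2.1 _ _ (fun _ => 1)
      fun B _ => by split_ifs <;> norm_num).trans_eq ((hF i hi j hj).1 _ 1)
  · have hz : ∀ s ∈ range (R3 u), ∀ x ∈ L, x ∉ Zn T s := fun s hs x hx k => by
      obtain ⟨i, hi, rfl⟩ := mem_Zn.1 k
      have := mem_Ico.1 (hL hx)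
      have := mem_range.1 hs
      omega
    have e0 : 0 < er a u := Real.exp_pos _
    by_cases hf : ∀ t ∈ L, Free 0 (w4 b u) t
    · rw [if_pos hf, if_pos hf]
      have hm : L ⊆ un cs := fun x hx => by
        rw [hu]; exact mem_filter.2 ⟨hL hx, hf x hx⟩
      have k0 : ∀ (η : ℝ) (κ Δ D : ℕ), (∀ J : Finset ℕ, J.card ≤ κ →
          (∀ i ∈ J, ∀ j ∈ J, i ≤ j + Δ) →
          |mean I1 (fun i => Av (R3 u) (r + 1) (G (S4 a b u) (g i) J)) - 1| ≤ η) →
          L.card ≤ u → (∀ x ∈ L, ∀ y ∈ L, x ≤ y + D) → u * L.card ≤ κ → u * (D + 1) ≤ Δ →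
          ∀ i ∈ I2, |(mean I1 fun j => mean (range (R3 u)) fun s => E i j s L) -
            ρ ^ L.card * ∏ t ∈ L, φ i t| ≤ 3 ^ L.card * η := by
        intro η κ Δ D c1 c2 c3 c4 c5 i hi
        have k := h5 (S4 a b u) ι1 I1 g (fun t => ρ * φ i t) η u κ Δ D (R3 u)
          (r + 1) (fun j c => p i c j) cs L c1 hS
          (fun c k => ⟨card_pos.1 (lt_of_lt_of_le m1 (hc c k).1), hp i c hi k⟩) hm c2 c3 c4 c5
        have k4 : (mean I1 fun j => mean (range (R3 u)) fun s => E i j s L) =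
            mean I1 fun j => Av (R3 u) (r + 1)
              (fun s => Ex (fun c => p i c j) cs s (fun B => if L ⊆ B then 1 else 0)) :=
          mean_congr fun j _ => by
            rw [av_eq]
            refine mean_congr fun s hs => ?_
            have k5 : ∀ B : Finset ℕ, L ⊆ Zn T s ∪ B ↔ L ⊆ B := fun B =>
              ⟨fun k x hx => (mem_union.1 (k hx)).resolve_left (hz s hs x hx),
                fun k => k.trans subset_union_right⟩
            simp only [hE, k5]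
        rw [prod_mul_distrib, prod_const] at k
        rw [k4]
        exact k
      have ρ2 : ρ ^ L.card ≤ 1 := pow_le_one₀ h0 (by linarith)
      refine ⟨fun hLs hLd => ?_, fun hLb => ?_⟩
      · have k1 : ∀ i ∈ I2, |(mean I1 fun j => mean (range (R3 u)) fun s => E i j s L) -
            ρ ^ L.card * ∏ t ∈ L, φ i t| ≤ er a u / 4 := fun i hi => by
          refine (k0 _ (u ^ 2) (u ^ 27) (u ^ 25) (hA (r + 1)) hLs hLd
            (by rw [pow_two]; exact Nat.mul_le_mul_left u hLs) (by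
              have b1 : 1 ≤ u ^ 25 := Nat.one_le_pow _ _ (by omega)
              have b2 : u ^ 27 = u * (u * u ^ 25) := by ring
              rw [b2]
              exact Nat.mul_le_mul_left u (by nlinarith)) i hi).trans ?_
          have b3 : (3 : ℝ) ^ L.card ≤ 3 ^ u := pow_le_pow_right₀ (by norm_num) hLs
          refine (mul_le_mul_of_nonneg_right b3 (by positivity)).trans_eq ?_
          field_simp
        have k2 := abs_mean hI2 k1
        have k3 : (mean I2 fun i => ρ ^ L.card * ∏ t ∈ L, φ i t) =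
            ρ ^ L.card * mean I2 fun i => ∏ t ∈ L, φ i t := by
          simp only [mean, ← mul_sum, mul_div_assoc]
        have k6 : |ρ ^ L.card * (mean I2 fun i => ∏ t ∈ L, φ i t) -
            ρ ^ L.card * psi4 b u L.card| ≤ er a u / 4 := by
          rw [← mul_sub, abs_mul, abs_of_nonneg (pow_nonneg h0 _)]
          exact (mul_le_of_le_one_left (abs_nonneg _) ρ2).trans
            ((hK L hLs hLd).trans (numR ha hs))
        rw [k3] at k2
        exact (abs_sub_le _ _ _).trans ((add_le_add k2 k6).trans_eq (by ring))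
      · have ub : (0 : ℝ) < (u : ℝ) ^ b := by positivity
        have k1 : ∀ i ∈ I2, |(mean I1 fun j => mean (range (R3 u)) fun s => E i j s L) -
            ρ ^ L.card| ≤ 1 / (2 * (u : ℝ) ^ b) := fun i hi => by
          have q1 : |(mean I1 fun j => mean (range (R3 u)) fun s => E i j s L) -
              ρ ^ L.card * ∏ t ∈ L, φ i t| ≤ 1 / (4 * (u : ℝ) ^ b) := by
            refine (k0 _ (u * b) (2 ^ (4 * u ^ 12)) (3 * Y3 u) (hA' (r + 1)) (by omega)
              (fun x hx y hy => by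
                have := mem_Ico.1 (hL hx)
                have := mem_Ico.1 (hL hy)
                omega) (Nat.mul_le_mul_left u hLb) (numD hs) i hi).trans ?_
            have b3 : (3 : ℝ) ^ L.card ≤ 3 ^ b := pow_le_pow_right₀ (by norm_num) hLb
            refine (mul_le_mul_of_nonneg_right b3 (by positivity)).trans_eq ?_
            field_simp
          have c1 : (8 : ℝ) * L.card ≤ u := by
            exact_mod_cast (show 8 * L.card ≤ u by omega)
          have c2 : 2 * (L.card : ℝ) * (1 / (u : ℝ) ^ (b + 2)) ≤ 1 / (4 * (u : ℝ) ^ b) := by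
            rw [mul_one_div, div_le_div_iff₀ (by positivity) (by positivity), pow_add]
            have : 8 * (L.card : ℝ) ≤ (u : ℝ) ^ 2 := by nlinarith
            nlinarith [mul_le_mul_of_nonneg_left this ub.le]
          have c3 : 1 / (4 * (u : ℝ) ^ b) ≤ 1 := by
            rw [div_le_one (by positivity)]
            have : (1 : ℝ) ≤ (u : ℝ) ^ b := one_le_pow₀ (by linarith)
            linarith
          have q2 : |ρ ^ L.card * ∏ t ∈ L, φ i t - ρ ^ L.card| ≤ 1 / (4 * (u : ℝ) ^ b) := by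
            rw [← mul_sub_one, abs_mul, abs_of_nonneg (pow_nonneg h0 _)]
            exact (mul_le_of_le_one_left (abs_nonneg _) ρ2).trans
              ((prod_near (hφ' i hi) (c2.trans c3)).trans c2)
          refine (abs_sub_le _ _ _).trans ((add_le_add q1 q2).trans_eq ?_)
          field_simp
          norm_num
        rw [abs_le]
        exact ⟨le_sub_iff_add_le.2 (le_mean hI2 fun i hi =>
            le_sub_iff_add_le.1 (abs_le.1 (k1 i hi)).1),
          sub_le_iff_le_add.2 (mean_le hI2 fun i hi => sub_le_iff_le_add.1 (abs_le.1 (k1 i hi)).2)⟩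
    · rw [if_neg hf, if_neg hf]
      have hb : ∃ x ∈ L, x ∉ un cs := by
        by_contra k
        refine hf fun t ht => ?_
        have : t ∈ un cs := by
          by_contra k'
          exact k ⟨t, ht, k'⟩
        rw [hu] at this
        exact (mem_filter.1 this).2
      obtain ⟨x, hx, hx'⟩ := hb
      have z1 : ∀ i ∈ I2, ∀ j ∈ I1, ∀ s ∈ range (R3 u), E i j s L = 0 := fun i hi j hj s hs => by
        have k : ∀ B ⊆ un cs, (if L ⊆ Zn T s ∪ B then (1 : ℝ) else 0) = 0 := fun B hB =>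
          if_neg fun k => (mem_union.1 (k hx)).elim (hz s hs x hx) fun k' => hx' (hB k')
        rw [hE]
        exact le_antisymm (((hF i hi j hj).2.1 _ _ _ fun B hB => (k B hB).le).trans_eq
          ((hF i hi j hj).1 _ 0)) (((hF i hi j hj).1 _ 0).symm.trans_le
            ((hF i hi j hj).2.1 _ _ _ fun B hB => (k B hB).ge))
      have z2 : (mean I2 fun i => mean I1 fun j => mean (range (R3 u)) fun s => E i j s L) = 0 :=
        le_antisymm (mean_le hI2 fun i hi => mean_le hI1 fun j hj => mean_le hR fun s hs =>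
            (z1 i hi j hj s hs).le)
          (le_mean hI2 fun i hi => le_mean hI1 fun j hj => le_mean hR fun s hs =>
            (z1 i hi j hj s hs).ge)
      beta_reduce
      rw [z2, sub_zero, abs_zero]
      exact ⟨fun _ _ => by positivity, fun _ => by positivity⟩

end Pool.Agent.Lib.MP_be93de_nt.He
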