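import Pool.Agent.Lib.MP_be93de_nt.He.Defs

/-! Choice of the block ends so that few points meet a zone. -/

namespace Pool.Agent.Lib.MP_be93de_nt.He

open Finset Filter Pool.Agent.Lib.MP_be93de_nt.Hb
open Pool.Agent.Lib.MP_be93de_nt.Hc (PotSt)
open Pool.Agent.Lib.MP_be93de_nt.Hd (Y3 R3 er)

namespace Bound4x

theorem win_le (f : ℕ → ℝ) (hf : ∀ t, 0 ≤ f t) (a b c d : ℕ) (h1 : a ≤ b) (h2 : c ≤ d) :
    ∑ t ∈ Ico b c, f t ≤ ∑ t ∈ Ico a d, f t :=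
  sum_le_sum_of_subset_of_nonneg (Ico_subset_Ico h1 h2) fun t _ _ => hf t

theorem mean_le (f : ℕ → ℝ) (hf : ∀ t, 0 ≤ f t) (a Yv W : ℕ) (hW : W ≤ Yv) :
    ∑ h ∈ range Yv, ∑ t ∈ Ico (a + h) (a + h + W), f t ≤ W * ∑ t ∈ Ico a (a + 2 * Yv), f t := by
  have e1 : ∀ h, ∑ t ∈ Ico (a + h) (a + h + W), f t = ∑ i ∈ range W, f (a + h + i) := by
    intro h
    rw [sum_Ico_eq_sum_range, Nat.add_sub_cancel_left]
  simp only [e1]
  rw [sum_comm]
  have e2 : ∀ i ∈ range W, ∑ h ∈ range Yv, f (a + h + i) ≤ ∑ t ∈ Ico a (a + 2 * Yv), f t := by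
    intro i hi
    have hi' := mem_range.1 hi
    have e3 : ∑ h ∈ range Yv, f (a + h + i) = ∑ t ∈ Ico (a + i) (a + i + Yv), f t := by
      rw [sum_Ico_eq_sum_range, Nat.add_sub_cancel_left]
      exact sum_congr rfl fun h _ => by rw [add_right_comm]
    rw [e3]
    exact win_le f hf _ _ _ _ (by omega) (by omega)
  refine (sum_le_sum e2).trans ?_
  rw [sum_const, card_range, nsmul_eq_mul]

theorem blocks (f : ℕ → ℝ) (a L N : ℕ) :
    ∑ j ∈ range N, ∑ t ∈ Ico (a + j * L) (a + j * L + L), f t = ∑ t ∈ Ico a (a + N * L), f t := by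
  induction N with
  | zero => simp
  | succ N ih =>
    rw [sum_range_succ, ih, sum_Ico_consecutive _ (by omega) (by omega)]
    congr 2
    ring

theorem len_le (f : ℕ → ℝ) (s : ℝ) (hf : ∀ t, f t ≤ s) (a L : ℕ) :
    ∑ t ∈ Ico a (a + L), f t ≤ s * L := by
  refine (sum_le_sum fun t _ => hf t).trans ?_
  rw [sum_const, Nat.card_Ico, Nat.add_sub_cancel_left, nsmul_eq_mul, mul_comm]

theorem core (h : PotSt) (ι : Type) (I : Finset ι) (f : ι → ℕ → ℝ) (a Yv W N : ℕ) (s P : ℝ)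
    (hs : 1 ≤ s) (hY : 1 ≤ Yv) (hP : 1 ≤ P) (hW : (W : ℝ) * P ≤ Yv) (h0 : ∀ τ t, 0 ≤ f τ t)
    (hn : ∀ τ ∈ I, ∀ t, f τ t ≤ s) :
    ∃ T : ℕ → ℕ, T 0 = a ∧ T N = a + N * (2 * Yv) ∧
      (∀ j < N, T j + Yv ≤ T (j + 1) ∧ T (j + 1) ≤ T j + 3 * Yv) ∧
      ∀ τ ∈ I, ∑ j ∈ range N, ∑ t ∈ Ico (T j) (T j + W), f τ t ≤
        2 / P * ∑ t ∈ Ico a (a + N * (2 * Yv)), f τ t +
          (Real.log (2 * I.card) * (P * (s * (2 * Yv))) + s * W) := by
  have hYr : (1 : ℝ) ≤ Yv := by exact_mod_cast hY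
  have hWY : W ≤ Yv := by
    have h1 : (W : ℝ) ≤ Yv := le_trans (le_mul_of_one_le_right (Nat.cast_nonneg W) hP) hW
    exact_mod_cast h1
  have hC : 0 < s * (2 * (Yv : ℝ)) := by positivity
  have hP0 : 0 < P := by linarith
  set c : ℕ → ι → ℝ := fun j τ =>
    ∑ t ∈ Ico (a + j * (2 * Yv)) (a + j * (2 * Yv) + 2 * Yv), f τ t with hc
  set Nn : ℕ → ℕ → ι → ℝ := fun j u τ =>
    ∑ t ∈ Ico (a + j * (2 * Yv) + u) (a + j * (2 * Yv) + u + W), f τ t with hNn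
  set mn : ℕ → ι → ℝ := fun j τ => (∑ u ∈ range Yv, Nn j u τ) / Yv with hmn
  have c0 : ∀ j τ, 0 ≤ c j τ := fun j τ => sum_nonneg fun t _ => h0 τ t
  have N0 : ∀ j u τ, 0 ≤ Nn j u τ := fun j u τ => sum_nonneg fun t _ => h0 τ t
  have N1 : ∀ j u τ, u < Yv → Nn j u τ ≤ c j τ := fun j u τ hu =>
    win_le (f τ) (h0 τ) _ _ _ _ (by omega) (by omega)
  have m0 : ∀ j τ, 0 ≤ mn j τ := fun j τ =>
    div_nonneg (sum_nonneg fun u _ => N0 j u τ) (by linarith)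
  have m1 : ∀ j τ, mn j τ ≤ 1 / P * c j τ := by
    intro j τ
    have h1 : ∑ u ∈ range Yv, Nn j u τ ≤ W * c j τ := mean_le (f τ) (h0 τ) _ Yv W hWY
    have h2 : (W : ℝ) ≤ 1 / P * Yv := by
      rw [one_div, inv_mul_eq_div, le_div_iff₀ hP0]; exact hW
    show (∑ u ∈ range Yv, Nn j u τ) / Yv ≤ _
    rw [div_le_iff₀ (by linarith)]
    have h3 := mul_le_mul_of_nonneg_right h2 (c0 j τ)
    linarith
  have hPi : 1 / P ≤ 1 := by rw [div_le_one hP0]; exact hP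
  have hl : 1 / (P * (s * (2 * (Yv : ℝ)))) * (s * (2 * (Yv : ℝ))) = 1 / P := by field_simp
  obtain ⟨st, inc, -, hst, hb⟩ := h ι ℕ I c (s * (2 * (Yv : ℝ))) (1 / (P * (s * (2 * (Yv : ℝ)))))
    (fun j _ u inc => u < Yv ∧ ∀ τ, inc τ = Nn j u τ - mn j τ) 0 (by positivity)
    (by rw [hl]; exact hPi)
    (fun j τ hτ => ⟨c0 j τ, by
      have := len_le (f τ) s (hn τ hτ) (a + j * (2 * Yv)) (2 * Yv)
      push_cast at this
      exact this⟩)
    (by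
      intro j _ d
      have hne : (range Yv).Nonempty := ⟨0, mem_range.2 hY⟩
      have hz : ∑ u ∈ range Yv, ∑ τ ∈ I, d τ * (Nn j u τ - mn j τ) ≤ ∑ _u ∈ range Yv, (0 : ℝ) := by
        rw [sum_comm, sum_const_zero]
        refine le_of_eq (sum_eq_zero fun τ _ => ?_)
        rw [← mul_sum, sum_sub_distrib, sum_const, card_range, nsmul_eq_mul]
        have : (Yv : ℝ) * mn j τ = ∑ u ∈ range Yv, Nn j u τ := by
          show (Yv : ℝ) * ((∑ u ∈ range Yv, Nn j u τ) / Yv) = _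
          field_simp
        rw [this, sub_self, mul_zero]
      obtain ⟨u, hu, hu'⟩ := exists_le_of_sum_le hne hz
      refine ⟨u, fun τ => Nn j u τ - mn j τ, ⟨mem_range.1 hu, fun _ => rfl⟩, hu', fun τ _ => ?_⟩
      have a1 := N0 j u τ
      have a2 := N1 j u τ (mem_range.1 hu)
      have a3 := m0 j τ
      have a4 := m1 j τ
      have a5 := mul_le_mul_of_nonneg_right hPi (c0 j τ)
      rw [abs_le]
      constructor <;> linarith)
  refine ⟨fun j => a + j * (2 * Yv) + if j = 0 ∨ N ≤ j then 0 else st (j + 1), by simp, by simp,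
    fun j _ => ?_, fun τ hτ => ?_⟩
  · have b1 := (hst j).1
    have b2 := (hst (j + 1)).1
    have e : (j + 1) * (2 * Yv) = j * (2 * Yv) + 2 * Yv := by ring
    simp only [e]
    constructor <;> split_ifs <;> omega
  · have t1 : ∀ j ∈ range N,
        ∑ t ∈ Ico (a + j * (2 * Yv) + if j = 0 ∨ N ≤ j then 0 else st (j + 1))
          ((a + j * (2 * Yv) + if j = 0 ∨ N ≤ j then 0 else st (j + 1)) + W), f τ t ≤
        (inc j τ + 1 / P * c j τ) + if j = 0 then s * W else 0 := by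
      intro j hj
      have hj' := mem_range.1 hj
      have b1 := (hst j).2 τ
      have b2 := m1 j τ
      have b3 := N0 j (st (j + 1)) τ
      by_cases h0' : j = 0
      · rw [if_pos (Or.inl h0'), if_pos h0']
        have := len_le (f τ) s (hn τ hτ) (a + j * (2 * Yv) + 0) W
        linarith
      · rw [if_neg (by omega), if_neg h0']
        show Nn j (st (j + 1)) τ ≤ _
        linarith
    refine (sum_le_sum t1).trans ?_
    rw [sum_add_distrib, sum_add_distrib, ← mul_sum, sum_ite_eq']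
    have b1 := (abs_le.1 (hb τ hτ N)).2
    rw [hl, div_div_eq_mul_div, div_one] at b1
    have b2 : ∑ j ∈ range N, c j τ = ∑ t ∈ Ico a (a + N * (2 * Yv)), f τ t :=
      blocks (f τ) a (2 * Yv) N
    have b3 : (if 0 ∈ range N then s * W else 0) ≤ s * (W : ℝ) := by
      split_ifs
      · exact le_rfl
      · positivity
    rw [b2] at b1 ⊢
    have b4 : 2 / P = 1 / P + 1 / P := by ring
    rw [b4]
    linarith

theorem ends (b s : ℕ) (hb : 4 ≤ b) (hs : 1 ≤ s) :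
    X4 b s + nc4 b s * (2 * Y3 s) = X4 b (2 * s) := by
  have h0 : 1 ≤ s ^ 12 := Nat.one_le_pow _ _ (by omega)
  have h1 : 2 * s ^ 12 + 1 ≤ b * s ^ 12 := by
    have := Nat.mul_le_mul_right (s ^ 12) hb
    omega
  have h2 : b * s ^ 12 ≤ b * (2 * s) ^ 12 :=
    Nat.mul_le_mul_left b (Nat.pow_le_pow_left (by omega) 12)
  have e : 2 * Y3 s = 2 ^ (2 * s ^ 12 + 1) := by
    unfold Y3; exact (pow_succ' 2 (2 * s ^ 12)).symm
  have d1 : 2 * Y3 s ∣ X4 b s := by rw [e]; exact pow_dvd_pow 2 h1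
  have d2 : 2 * Y3 s ∣ X4 b (2 * s) := by rw [e]; exact pow_dvd_pow 2 (h1.trans h2)
  have l : X4 b s ≤ X4 b (2 * s) := Nat.pow_le_pow_right (by norm_num) h2
  unfold nc4
  rw [Nat.div_mul_cancel (Nat.dvd_sub d2 d1)]
  omega

theorem scale {a s : ℕ} (ha : 4 ≤ a) (hs : 3 ≤ s) : ∃ E : ℝ, 20 * (s : ℝ) ^ 15 ≤ E ∧
    E * E ≤ R3 s ∧ 1 ≤ (er a s)⁻¹ ∧ (er a s)⁻¹ ≤ E := by
  have hs' : (3 : ℝ) ≤ s := by exact_mod_cast hs
  have ha' : (4 : ℝ) ≤ a := by exact_mod_cast ha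
  set v : ℝ := (s : ℝ) ^ 12 with hv
  have v0 : 0 ≤ v := by positivity
  have e0 : (er a s)⁻¹ = Real.exp (v / a) := by unfold er; rw [← Real.exp_neg, neg_neg]
  refine ⟨Real.exp (v / 4), ?_, ?_, ?_, ?_⟩
  · have h4 := Real.pow_div_factorial_le_exp (v / 4) (by positivity) 2
    have h5 : (v / 4) ^ 2 / ((2 : ℕ).factorial : ℝ) = (s : ℝ) ^ 9 / 32 * (s : ℝ) ^ 15 := by
      rw [hv]; norm_num [Nat.factorial]; ring
    have h6 : (3 : ℝ) ^ 9 ≤ (s : ℝ) ^ 9 := pow_le_pow_left₀ (by norm_num) hs' 9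
    have h7 : 20 * (s : ℝ) ^ 15 ≤ (s : ℝ) ^ 9 / 32 * (s : ℝ) ^ 15 :=
      mul_le_mul_of_nonneg_right (by linarith) (by positivity)
    linarith
  · have e1 : ((R3 s : ℕ) : ℝ) = 2 ^ (s ^ 12) := by unfold R3; push_cast; rfl
    have e2 : Real.exp (v / 4) * Real.exp (v / 4) = Real.exp (1 / 2) ^ (s ^ 12) := by
      rw [← Real.exp_add, ← Real.exp_nat_mul, hv]; push_cast; congr 1; ring
    have e3 : Real.exp (1 / 2) ≤ 2 := by
      have : Real.exp (1 / 2) * Real.exp (1 / 2) = Real.exp 1 := by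
        rw [← Real.exp_add]; norm_num
      nlinarith [Real.exp_one_lt_d9, Real.exp_pos (1 / 2)]
    rw [e1, e2]
    exact pow_le_pow_left₀ (Real.exp_pos _).le e3 _
  · rw [e0]; exact Real.one_le_exp (by positivity)
  · rw [e0]
    exact Real.exp_le_exp.2 (div_le_div_of_nonneg_left v0 (by norm_num) ha')

end Bound4x

open Bound4x in
theorem bound4_st (h : PotSt) : Bound4St := by
  intro a b hab
  filter_upwards [eventually_ge_atTop 3] with s hs ι I n hI hn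
  obtain ⟨E, E1, E2, hP, E3⟩ := scale (a := a) (by have := hab.1; have := hab.2; omega) hs
  have hs1 : (1 : ℝ) ≤ s := by exact_mod_cast (by omega : 1 ≤ s)
  have hY : 1 ≤ Y3 s := Nat.one_le_two_pow
  have hR : (1 : ℝ) ≤ R3 s := by exact_mod_cast (Nat.one_le_two_pow : 1 ≤ R3 s)
  have b3 : (s : ℝ) ≤ (s : ℝ) ^ 15 := le_self_pow₀ hs1 (by norm_num)
  have E6 : (6 : ℝ) ≤ E := by linarith
  have eY : ((Y3 s : ℕ) : ℝ) = R3 s * R3 s := by
    unfold Y3 R3; push_cast; rw [← pow_add, two_mul]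
  have eW : W4 s = Y3 s * R3 s := by
    unfold W4 Y3 R3; push_cast; rw [← pow_add]; congr 1; ring
  have hW : ((3 * R3 s + 3 : ℕ) : ℝ) * (er a s)⁻¹ ≤ Y3 s := by
    have a1 : ((3 * R3 s + 3 : ℕ) : ℝ) ≤ 6 * R3 s := by push_cast; linarith
    have a2 : ((3 * R3 s + 3 : ℕ) : ℝ) * (er a s)⁻¹ ≤ 6 * R3 s * E :=
      mul_le_mul a1 E3 (by linarith) (by linarith)
    have a3 : 6 * E ≤ E * E := mul_le_mul_of_nonneg_right E6 (by linarith)
    have a4 : (R3 s : ℝ) * (6 * E) ≤ R3 s * R3 s :=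
      mul_le_mul_of_nonneg_left (a3.trans E2) (by linarith)
    rw [eY]
    linarith
  obtain ⟨T, t0, t1, t2, t3⟩ := core h ι I (fun τ t => (n τ t : ℝ)) (X4 b s) (Y3 s)
    (3 * R3 s + 3) (nc4 b s) s (er a s)⁻¹ hs1 hY hP hW (fun _ _ => Nat.cast_nonneg _)
    (fun τ hτ t => by exact_mod_cast hn τ hτ t)
  rw [ends b s hab.1 (by omega)] at t1 t3
  refine ⟨T, t0, t1, t2, fun τ hτ => ?_⟩
  have h3 := t3 τ hτ
  simp only [← add_assoc, div_inv_eq_mul] at h3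
  refine h3.trans ?_
  have hc : (1 : ℝ) ≤ I.card := by exact_mod_cast card_pos.2 ⟨τ, hτ⟩
  have hl : Real.log (2 * I.card) ≤ (s : ℝ) ^ 14 + 1 := by
    have a1 : (2 : ℝ) * I.card ≤ 2 ^ (s ^ 14 + 1) := by
      have : (I.card : ℝ) ≤ 2 ^ (s ^ 14) := by exact_mod_cast hI
      rw [pow_succ]; linarith
    have a2 := Real.log_le_log (by linarith) a1
    rw [Real.log_pow] at a2
    have a3 : Real.log 2 ≤ 1 := by have := Real.log_two_lt_d9; linarith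
    have a4 : ((s ^ 14 + 1 : ℕ) : ℝ) * Real.log 2 ≤ ((s ^ 14 + 1 : ℕ) : ℝ) * 1 :=
      mul_le_mul_of_nonneg_left a3 (Nat.cast_nonneg _)
    push_cast at a2 a4
    linarith
  have hY0 : (0 : ℝ) ≤ Y3 s := Nat.cast_nonneg _
  have hZ : (0 : ℝ) ≤ E * Y3 s := mul_nonneg (by linarith) hY0
  have hW1 : ((3 * R3 s + 3 : ℕ) : ℝ) ≤ E * Y3 s := by
    have a1 : ((3 * R3 s + 3 : ℕ) : ℝ) ≤ ((3 * R3 s + 3 : ℕ) : ℝ) * (er a s)⁻¹ :=
      le_mul_of_one_le_right (Nat.cast_nonneg _) hP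
    have a2 : (Y3 s : ℝ) ≤ E * Y3 s := le_mul_of_one_le_left hY0 (by linarith)
    linarith
  have b0 : (er a s)⁻¹ * (s * (2 * (Y3 s : ℝ))) ≤ E * (s * (2 * (Y3 s : ℝ))) :=
    mul_le_mul_of_nonneg_right E3 (by positivity)
  have b1 : Real.log (2 * I.card) * ((er a s)⁻¹ * (s * (2 * (Y3 s : ℝ)))) ≤
      ((s : ℝ) ^ 14 + 1) * (E * (s * (2 * (Y3 s : ℝ)))) :=
    mul_le_mul hl b0 (mul_nonneg (by linarith) (by positivity)) (by positivity)
  have b2 : (s : ℝ) * ((3 * R3 s + 3 : ℕ) : ℝ) ≤ s * (E * Y3 s) :=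
    mul_le_mul_of_nonneg_left hW1 (by linarith)
  have b4 : (2 * (s : ℝ) ^ 15 + 3 * s) * (E * Y3 s) ≤ E / 4 * (E * Y3 s) :=
    mul_le_mul_of_nonneg_right (by linarith) hZ
  have b5 : ((s : ℝ) ^ 14 + 1) * (E * (s * (2 * (Y3 s : ℝ)))) + s * (E * Y3 s) =
      (2 * (s : ℝ) ^ 15 + 3 * s) * (E * Y3 s) := by ring
  have b6 : (Y3 s : ℝ) * (E * E) ≤ Y3 s * R3 s := mul_le_mul_of_nonneg_left E2 hY0
  have b7 : E / 4 * (E * Y3 s) = Y3 s * (E * E) / 4 := by ring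
  rw [eW]
  linarith

end Pool.Agent.Lib.MP_be93de_nt.He
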