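import Pool.Agent.Lib.MP_be93de_nt.Hd.Defs

/-! Fourth version: power saving for short tuples and all systems of boundedly many forms. -/

namespace Pool.Agent.Lib.MP_be93de_nt.He

open Finset Filter Pool.Agent.Lib.MP_be93de_nt.Hb
open Pool.Agent.Lib.MP_be93de_nt.Hc (one val nuF IsSF Adm Kall Kj)
open Pool.Agent.Lib.MP_be93de_nt.Hd (Y3 R3 er mean Part2P)

noncomputable section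

def Ok (a b : ℕ) : Prop := 4 ≤ b ∧ 60 * b ≤ a
def X4 (b u : ℕ) : ℕ := 2 ^ (b * u ^ 12)
def W4 (u : ℕ) : ℝ := 2 ^ (3 * u ^ 12)
def w4 (b u : ℕ) : ℕ := u ^ (2 * b + 60)
def S4 (a b u : ℕ) : ℕ → Prop := Free (u ^ (b + 27)) (u ^ a)
def nc4 (b u : ℕ) : ℕ := (X4 b (2 * u) - X4 b u) / (2 * Y3 u)
def psi4 (b u k : ℕ) : ℝ := ∏ p ∈ pr (w4 b u) (Y3 u), (1 - (k : ℝ) / p) / (1 - 1 / (p : ℝ)) ^ k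
def wt4 (b u t : ℕ) : ℝ := if Free 0 (w4 b u) t then 1 / (th 0 (w4 b u) * Real.log t) else 0
def wt5 (b u t : ℕ) : ℝ := if t < X4 b (2 * u) then wt4 b u t else wt4 b (2 * u) t
def Short (u : ℕ) (K : Finset ℕ) : Prop := ∀ s ∈ K, ∀ t ∈ K, s ≤ t + u ^ 25
def Sh (u : ℕ) (Ψ : Finset (ℤ × ℤ)) : Prop :=
  (∃ q : ℤ, 1 ≤ q ∧ q ≤ (u : ℤ) ^ 25 ∧ ∀ ψ ∈ Ψ, ψ.1 = q) ∧ ∀ ψ ∈ Ψ, ∀ φ ∈ Ψ, ψ.2 ≤ φ.2 + (u : ℤ) ^ 25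
def inS4 (b u : ℕ) (K : Finset ℕ) : Finset ℕ := K.filter (fun t => X4 b u ≤ t ∧ t < X4 b (2 * u))
def gam4 (b u : ℕ) (A : Set ℕ) (K : Finset ℕ) : ℝ :=
  one A (K.filter (· < X4 b u)) * ∏ t ∈ K.filter (X4 b (2 * u) ≤ ·), wt4 b (2 * u) t
def cf4 (b u : ℕ) (T : ℕ → ℕ) (B : ℕ → Finset ℕ) (j : ℕ) (K : Finset ℕ) : ℝ :=
  one ((range j).biUnion B : Finset ℕ) (K.filter (· < T j)) *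
    ∏ t ∈ K.filter (T (j + 1) ≤ ·), wt4 b u t
def Agree4 (b u : ℕ) (A : Set ℕ) (F : Finset ℕ) : Prop :=
  ∀ t, X4 b u ≤ t → t < X4 b (2 * u) → (t ∈ A ↔ t ∈ F)

def HL4 (a b u : ℕ) (A : Set ℕ) : Prop :=
  ∀ (Ψ : Finset (ℤ × ℤ)) (s t : ℕ), Adm (X4 b (4 * u)) Ψ → Ψ.card ≤ u → s ≤ t →
    t ≤ 2 * X4 b (4 * u) + 1 →
    (Ψ.card ≤ b → |∑ m ∈ Ico s t, gam4 b u A (Kall Ψ m) *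
      (one A (inS4 b u (Kall Ψ m)) - ∏ n ∈ inS4 b u (Kall Ψ m), wt4 b u n)| ≤
        ((t : ℝ) - s) * (2 * b / (u : ℝ) ^ b) + W4 u) ∧
    ((∀ m ∈ Ico s t, Kall Ψ m ⊆ Ico (X4 b u) (X4 b (2 * u)) ∧ Short u (Kall Ψ m)) →
      |∑ m ∈ Ico s t, (one A (Kall Ψ m) - psi4 b u (Kall Ψ m).card * ∏ n ∈ Kall Ψ m, wt4 b u n)| ≤
        ((t : ℝ) - s) * (6 * (u : ℝ) ^ 2 * er a u) + u * W4 u)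

structure StageW4 (a b u r : ℕ) (F : Finset ℕ) : Prop where
  sub : F ⊆ Ico (X4 b u + 3) (X4 b (2 * u))
  good : Good (S4 a b u) r F
  big : X4 b u ≤ F.card

structure GlobW4 (a b i0 : ℕ) (A : Set ℕ) : Prop where
  low : ∀ t ∈ A, X4 b (2 ^ i0) ≤ t
  st : ∀ i, i0 ≤ i → ∃ F, StageW4 a b (2 ^ i) {t ∈ A | t < X4 b (2 ^ i)}.ncard F ∧
    Agree4 b (2 ^ i) A F
  hl : ∀ i, i0 ≤ i → HL4 a b (2 ^ i) A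

structure Blk4 (a b u r : ℕ) (T : ℕ → ℕ) (B : ℕ → Finset ℕ) : Prop where
  t0 : T 0 = X4 b u
  t1 : T (nc4 b u) = X4 b (2 * u)
  gap : ∀ j < nc4 b u, T j + Y3 u ≤ T (j + 1) ∧ T (j + 1) ≤ T j + 3 * Y3 u
  sub : ∀ j < nc4 b u, B j ⊆ Ico (T j + 3) (T (j + 1))
  ne : ∀ j < nc4 b u, (B j).Nonempty
  good : ∀ j < nc4 b u, Good (S4 a b u) (r + ∑ i ∈ range j, (B i).card) (B j)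

open Classical in
/-- deviation of the count from the expected main term -/
def Dev (A : Set ℕ) (Ψ : Finset (ℤ × ℤ)) (S : ℝ) (s t : ℕ) : ℝ :=
  |(((Ico s t).filter (fun m : ℕ => ∀ ψ ∈ Ψ, (ψ.1 * m + ψ.2).toNat ∈ A)).card : ℝ) -
    S * ∑ m ∈ Ico s t, ∏ ψ ∈ Ψ, 1 / Real.log ((ψ.1 * m + ψ.2 : ℤ) : ℝ)|

def Forms (x : ℝ) (Ψ : Finset (ℤ × ℤ)) (s t : ℕ) : Prop :=
  2 ≤ x ∧ s ≤ t ∧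
    (∀ ψ ∈ Ψ, ψ.1 ≠ 0 ∧ Int.gcd ψ.1 ψ.2 = 1 ∧ ((|ψ.1| : ℤ) : ℝ) ≤ x ∧ ((|ψ.2| : ℤ) : ℝ) ≤ x) ∧
    (∀ ψ ∈ Ψ, ∀ φ ∈ Ψ, ψ ≠ φ → ψ.1 * φ.2 ≠ φ.1 * ψ.2) ∧
    ∀ m ∈ Ico s t, ∀ ψ ∈ Ψ, Real.sqrt x ≤ ((ψ.1 * m + ψ.2 : ℤ) : ℝ) ∧ ((ψ.1 * m + ψ.2 : ℤ) : ℝ) ≤ x

def Part4a (A : Set ℕ) (ε θ C : ℝ) : Prop :=
  ∀ (x : ℝ) (Ψ : Finset (ℤ × ℤ)) (s t : ℕ) (q : ℤ), Forms x Ψ s t →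
    (Ψ.card : ℝ) ≤ Real.log x ^ (1 / 13 : ℝ) → 1 ≤ q → (q : ℝ) ≤ Real.log x ^ 2 →
    (∀ ψ ∈ Ψ, ψ.1 = q ∧ ∀ φ ∈ Ψ, ((ψ.2 - φ.2 : ℤ) : ℝ) ≤ Real.log x ^ 2) →
    ∃ S : ℝ, IsSF Ψ S ∧ Dev A Ψ S s t ≤ C * (((t : ℝ) - s) * x ^ (-ε) + x ^ θ)

def Part4b (A : Set ℕ) (B : ℕ) (C : ℝ) : Prop :=
  ∀ (x : ℝ) (Ψ : Finset (ℤ × ℤ)) (s t : ℕ), Forms x Ψ s t → Ψ.card ≤ B →
    ∃ S : ℝ, IsSF Ψ S ∧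
      Dev A Ψ S s t ≤ C * (((t : ℝ) - s) / Real.log x ^ (B + 1) + x ^ (1 / (B : ℝ)))

/-! ### Statements of the steps -/

def Mom4St : Prop :=
  ∀ a b, Ok a b → ∀ᶠ u : ℕ in atTop, ∃ (ι : Type) (I : Finset ι) (g : ι → ℝ), I.Nonempty ∧
    (∀ i ∈ I, 0 ≤ g i ∧ g i ≤ u) ∧ ∀ k ≤ u ^ 2,
      |mean I (fun i => g i ^ k) * ∏ l ∈ pr (u ^ (b + 27)) (u ^ a), (1 - (k : ℝ) / l) - 1| ≤ 1 / R3 u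

def Kill4St : Prop :=
  ∀ b : ℕ, ∀ᶠ u : ℕ in atTop, ∃ (ι : Type) (I : Finset ι) (φ : ι → ℕ → ℝ), I.Nonempty ∧
    (∀ i ∈ I, ∀ t, |φ i t - 1| ≤ 1 / (u : ℝ) ^ (b + 2)) ∧
    ∀ K : Finset ℕ, K.card ≤ u → Short u K →
      |mean I (fun i => ∏ t ∈ K, φ i t) - psi4 b u K.card| ≤ 1 / R3 u

def Avg4St : Prop :=
  ∀ a b, Ok a b → ∀ᶠ u : ℕ in atTop, ∃ (ι : Type) (I : Finset ι) (g : ι → ℝ), I.Nonempty ∧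
    (∀ i ∈ I, 0 ≤ g i ∧ g i ≤ u) ∧
    (∀ (r : ℕ) (J : Finset ℕ), J.card ≤ u ^ 2 → (∀ i ∈ J, ∀ j ∈ J, i ≤ j + u ^ 27) →
      |mean I (fun i => Av (R3 u) r (G (S4 a b u) (g i) J)) - 1| ≤ er a u / (4 * 3 ^ u)) ∧
    ∀ (r : ℕ) (J : Finset ℕ), J.card ≤ u * b → (∀ i ∈ J, ∀ j ∈ J, i ≤ j + 2 ^ (4 * u ^ 12)) →
      |mean I (fun i => Av (R3 u) r (G (S4 a b u) (g i) J)) - 1| ≤ 1 / (4 * 3 ^ b * (u : ℝ) ^ b)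

def Many4St : Prop :=
  ∀ b : ℕ, ∀ᶠ u : ℕ in atTop, ∀ T : ℕ,
    u ^ 5 ≤ ((Ico (T + 3 * R3 u + 3) (T + Y3 u)).filter (Free 0 (w4 b u))).card

def Psi4St : Prop := ∀ b u k : ℕ, 1 ≤ u → k ≤ u → 0 ≤ psi4 b u k ∧ psi4 b u k ≤ 1

def Block4St : Prop :=
  ∀ a b, Ok a b → ∀ᶠ u : ℕ in atTop, ∀ (T T' r : ℕ) (ρ : ℝ) (ι : Type) (I : Finset ι)
    (K : ι → Finset ℕ) (d : ι → ℝ), T + Y3 u ≤ T' → T' ≤ T + 3 * Y3 u → 0 ≤ ρ →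
    ρ ≤ 1 / (u : ℝ) ^ 11 →
    ∃ (B : Finset ℕ) (ν : Finset ℕ → ℝ), B ⊆ Ico (T + 3) T' ∧ B.Nonempty ∧
      Good (S4 a b u) r B ∧ ∑ i ∈ I, d i * (one B (K i) - ν (K i)) ≤ 0 ∧ ν ∅ = 1 ∧
      (∀ L, 0 ≤ ν L ∧ ν L ≤ 1) ∧ ∀ L ⊆ Ico (T + 3 * R3 u + 3) T',
        (L.card ≤ u → Short u L → |ν L - if ∀ t ∈ L, Free 0 (w4 b u) t then
          ρ ^ L.card * psi4 b u L.card else 0| ≤ er a u / 2) ∧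
        (L.card ≤ b → |ν L - if ∀ t ∈ L, Free 0 (w4 b u) t then ρ ^ L.card else 0| ≤
          1 / (2 * (u : ℝ) ^ b))

def Wt4St : Prop :=
  ∀ b : ℕ, 4 ≤ b → ∀ᶠ u : ℕ in atTop, (th 0 (w4 b (2 * u)))⁻¹ ≤ Real.log (X4 b u) ∧
    (th 0 (w4 b u))⁻¹ ≤ Real.log (X4 b u) ∧
    (∀ t, X4 b u ≤ t → 0 ≤ wt4 b u t ∧ wt4 b u t ≤ 1 / (u : ℝ) ^ 11) ∧
    ∀ T : ℕ, X4 b u ≤ T → 0 ≤ 1 / (th 0 (w4 b u) * Real.log T) ∧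
      1 / (th 0 (w4 b u) * Real.log T) ≤ 1 / (u : ℝ) ^ 11 ∧
      ∀ L ⊆ Ico T (T + 3 * Y3 u), L.card ≤ u →
        |(if ∀ t ∈ L, Free 0 (w4 b u) t then (1 / (th 0 (w4 b u) * Real.log T)) ^ L.card else 0) -
          ∏ t ∈ L, wt4 b u t| ≤ 1 / R3 u

def Bound4St : Prop :=
  ∀ a b, Ok a b → ∀ᶠ u : ℕ in atTop, ∀ (ι : Type) (I : Finset ι) (n : ι → ℕ → ℕ),
    I.card ≤ 2 ^ (u ^ 14) → (∀ τ ∈ I, ∀ t, n τ t ≤ u) →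
    ∃ T : ℕ → ℕ, T 0 = X4 b u ∧ T (nc4 b u) = X4 b (2 * u) ∧
      (∀ j < nc4 b u, T j + Y3 u ≤ T (j + 1) ∧ T (j + 1) ≤ T j + 3 * Y3 u) ∧
      ∀ τ ∈ I, (∑ j ∈ range (nc4 b u), ∑ t ∈ Ico (T j) (T j + 3 * R3 u + 3), (n τ t : ℝ)) ≤
        2 * er a u * ∑ t ∈ Ico (X4 b u) (X4 b (2 * u)), (n τ t : ℝ) + W4 u / 4

def Union4St : Prop :=
  ∀ (a b u r : ℕ) (T : ℕ → ℕ) (B : ℕ → Finset ℕ), 4 ≤ b → 1 ≤ u → Blk4 a b u r T B →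
    StageW4 a b u r ((range (nc4 b u)).biUnion B)

def Run4St : Prop :=
  ∀ a b, Ok a b → ∀ᶠ u : ℕ in atTop, ∀ (r : ℕ) (ι : Type) (I : Finset ι) (Mi : ι → Finset ℕ)
    (K : ι → ℕ → Finset ℕ) (γ : ι → ℕ → ℝ) (T : ℕ → ℕ), I.card ≤ 2 ^ (u ^ 14) →
    (∀ τ ∈ I, ∀ m ∈ Mi τ, (K τ m).card ≤ u ∧ K τ m ⊆ Ico (X4 b u) (X4 b (2 * u)) ∧
      0 ≤ γ τ m ∧ γ τ m ≤ 1) →
    (∀ τ ∈ I, ∀ t, ((Mi τ).filter (fun m => t ∈ K τ m)).card ≤ u) →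
    T 0 = X4 b u → T (nc4 b u) = X4 b (2 * u) →
    (∀ j < nc4 b u, T j + Y3 u ≤ T (j + 1) ∧ T (j + 1) ≤ T j + 3 * Y3 u) →
    ∃ (B : ℕ → Finset ℕ) (ν : ℕ → Finset ℕ → ℝ), Blk4 a b u r T B ∧
      (∀ j < nc4 b u, ν j ∅ = 1 ∧ (∀ L, 0 ≤ ν j L ∧ ν j L ≤ 1) ∧
        ∀ L ⊆ Ico (T j + 3 * R3 u + 3) (T (j + 1)),
          (L.card ≤ u → Short u L → |ν j L - psi4 b u L.card * ∏ t ∈ L, wt4 b u t| ≤ er a u) ∧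
          (L.card ≤ b → |ν j L - ∏ t ∈ L, wt4 b u t| ≤ 1 / (u : ℝ) ^ b)) ∧
      ∀ τ ∈ I, |∑ j ∈ range (nc4 b u), ∑ m ∈ Mi τ, γ τ m * cf4 b u T B j (K τ m) *
          (one (B j) (Kj T j (K τ m)) - ν j (Kj T j (K τ m)))| ≤
        u * (Mi τ).card * er a u + W4 u / 4

def Stage4St : Prop :=
  ∀ a b, Ok a b → ∀ᶠ u : ℕ in atTop, ∀ (r : ℕ) (ι : Type) (I : Finset ι) (Mi : ι → Finset ℕ)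
    (K : ι → ℕ → Finset ℕ) (γ : ι → ℕ → ℝ), I.card ≤ 2 ^ (u ^ 14) →
    (∀ τ ∈ I, ∀ m ∈ Mi τ, (K τ m).card ≤ u ∧ K τ m ⊆ Ico (X4 b u) (X4 b (2 * u)) ∧
      0 ≤ γ τ m ∧ γ τ m ≤ 1) →
    (∀ τ ∈ I, ∀ t, ((Mi τ).filter (fun m => t ∈ K τ m)).card ≤ u) →
    ∃ F, StageW4 a b u r F ∧ ∀ τ ∈ I,
      ((∀ m ∈ Mi τ, (K τ m).card ≤ b) →
        |∑ m ∈ Mi τ, γ τ m * (one F (K τ m) - ∏ t ∈ K τ m, wt4 b u t)| ≤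
          (Mi τ).card * (2 * b / (u : ℝ) ^ b) + W4 u) ∧
      ((∀ m ∈ Mi τ, Short u (K τ m)) →
        |∑ m ∈ Mi τ, γ τ m * (one F (K τ m) - psi4 b u (K τ m).card * ∏ t ∈ K τ m, wt4 b u t)| ≤
          (Mi τ).card * (6 * (u : ℝ) ^ 2 * er a u) + u * W4 u)

def Level4St : Prop :=
  ∀ a b, Ok a b → ∀ᶠ u : ℕ in atTop, ∀ (r : ℕ) (P : Set ℕ), ∃ F, StageW4 a b u r F ∧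
    ∀ A : Set ℕ, (∀ t, t < X4 b u → (t ∈ A ↔ t ∈ P)) → Agree4 b u A F → HL4 a b u A

def Glob4St : Prop := ∀ a b, Ok a b → ∃ i0 A, GlobW4 a b i0 A

def SingFSt : Prop :=
  ∀ b : ℕ, 4 ≤ b → ∀ᶠ u : ℕ in atTop, ∀ Ψ : Finset (ℤ × ℤ), Adm (X4 b (4 * u)) Ψ → Ψ.card ≤ u →
    (∃ S, IsSF Ψ S) ∧ ∀ S, IsSF Ψ S → 0 ≤ S ∧
      |S * th 0 (w4 b u) ^ Ψ.card - ∏ p ∈ pr 0 (w4 b u), (1 - (nuF Ψ p : ℝ) / p)| ≤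
        1 / (4 * (u : ℝ) ^ (b + 1))

def SingSSt : Prop :=
  ∀ b : ℕ, ∀ᶠ u : ℕ in atTop, ∀ (Ψ : Finset (ℤ × ℤ)) (S : ℝ), Sh u Ψ → Ψ.card ≤ u → IsSF Ψ S →
    |S * th 0 (w4 b u) ^ Ψ.card -
      (∏ p ∈ pr 0 (w4 b u), (1 - (nuF Ψ p : ℝ) / p)) * psi4 b u Ψ.card| ≤ (u : ℝ) ^ 2 / Y3 u

open Classical in
def SieveFSt : Prop :=
  ∀ b : ℕ, 4 ≤ b → ∀ᶠ u : ℕ in atTop, ∀ (Ψ Φ : Finset (ℤ × ℤ)) (S : ℝ) (s t : ℕ),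
    Adm (X4 b (4 * u)) Ψ → Ψ.card ≤ b → Φ ⊆ Ψ → IsSF Ψ S → s ≤ t →
    (∀ m ∈ Ico s t, ∀ ψ ∈ Ψ, 0 ≤ ψ.1 * m + ψ.2) →
    |(((Ico s t).filter (fun m => (∀ ψ ∈ Ψ, Free 0 (w4 b u) (val ψ m)) ∧
        ∀ ψ ∈ Φ, Free 0 (w4 b (2 * u)) (val ψ m))).card : ℝ) -
      ((t : ℝ) - s) * (S * th 0 (w4 b u) ^ (Ψ \ Φ).card * th 0 (w4 b (2 * u)) ^ Φ.card)| ≤
      ((t : ℝ) - s) / (u : ℝ) ^ (b + 1) + 2 ^ (u ^ 2)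

open Classical in
def SieveSSt : Prop :=
  ∀ a b, Ok a b → ∀ᶠ u : ℕ in atTop, ∀ (Ψ : Finset (ℤ × ℤ)) (s t : ℕ),
    Adm (X4 b (4 * u)) Ψ → Ψ.card ≤ u → s ≤ t → (∀ m ∈ Ico s t, ∀ ψ ∈ Ψ, 0 ≤ ψ.1 * m + ψ.2) →
    |(((Ico s t).filter (fun m => ∀ ψ ∈ Ψ, Free 0 (w4 b u) (val ψ m))).card : ℝ) -
      ((t : ℝ) - s) * ∏ p ∈ pr 0 (w4 b u), (1 - (nuF Ψ p : ℝ) / p)| ≤
      ((t : ℝ) - s) * er a u + R3 u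

def ArithFSt : Prop :=
  ∀ b : ℕ, 4 ≤ b → ∀ᶠ u : ℕ in atTop, ∀ (Ψ : Finset (ℤ × ℤ)) (S : ℝ) (s t : ℕ),
    Adm (X4 b (4 * u)) Ψ → Ψ.card ≤ b → IsSF Ψ S → s ≤ t →
    (∀ m ∈ Ico s t, ∀ ψ ∈ Ψ, (X4 b u : ℤ) ≤ ψ.1 * m + ψ.2) →
    |∑ m ∈ Ico s t, ∏ ψ ∈ Ψ, wt5 b u (val ψ m) -
      S * ∑ m ∈ Ico s t, ∏ ψ ∈ Ψ, 1 / Real.log ((ψ.1 * m + ψ.2 : ℤ) : ℝ)| ≤
      ((t : ℝ) - s) / (u : ℝ) ^ b + R3 u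

def ArithSSt : Prop :=
  ∀ a b, Ok a b → ∀ᶠ u : ℕ in atTop, ∀ (Ψ : Finset (ℤ × ℤ)) (S : ℝ) (s t : ℕ),
    Adm (X4 b (4 * u)) Ψ → Sh u Ψ → Ψ.card ≤ u → IsSF Ψ S → s ≤ t →
    (∀ m ∈ Ico s t, ∀ ψ ∈ Ψ, (X4 b u : ℤ) ≤ ψ.1 * m + ψ.2) →
    |∑ m ∈ Ico s t, psi4 b u Ψ.card * ∏ ψ ∈ Ψ, wt4 b u (val ψ m) -
      S * ∑ m ∈ Ico s t, ∏ ψ ∈ Ψ, 1 / Real.log ((ψ.1 * m + ψ.2 : ℤ) : ℝ)| ≤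
      ((t : ℝ) - s) * (2 * er a u) + R3 u

open Classical in
def Tele4St : Prop :=
  ∀ a b, Ok a b → ∀ᶠ u : ℕ in atTop, ∀ (A : Set ℕ) (Ψ : Finset (ℤ × ℤ)) (s t : ℕ),
    HL4 a b u A → HL4 a b (2 * u) A → Adm (X4 b (4 * u)) Ψ → Ψ.card ≤ b → s ≤ t →
    t ≤ 2 * X4 b (4 * u) + 1 →
    (∀ m ∈ Ico s t, ∀ ψ ∈ Ψ, (X4 b u : ℤ) ≤ ψ.1 * m + ψ.2 ∧ ψ.1 * m + ψ.2 < X4 b (4 * u)) →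
    |(((Ico s t).filter (fun m : ℕ => ∀ ψ ∈ Ψ, (ψ.1 * m + ψ.2).toNat ∈ A)).card : ℝ) -
      ∑ m ∈ Ico s t, ∏ ψ ∈ Ψ, wt5 b u (val ψ m)| ≤
      ((t : ℝ) - s) * (4 * b / (u : ℝ) ^ b) + 3 * W4 (2 * u)

/-- short tuples inside one level -/
def OneSt : Prop :=
  ∀ a b, Ok a b → ∀ᶠ u : ℕ in atTop, ∀ (A : Set ℕ) (Ψ : Finset (ℤ × ℤ)) (S : ℝ) (s t : ℕ),
    HL4 a b u A → Adm (X4 b (4 * u)) Ψ → Sh u Ψ → Ψ.card ≤ u → IsSF Ψ S → s ≤ t →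
    t ≤ 2 * X4 b (4 * u) + 1 →
    (∀ m ∈ Ico s t, ∀ ψ ∈ Ψ, (X4 b u : ℤ) ≤ ψ.1 * m + ψ.2 ∧ ψ.1 * m + ψ.2 < X4 b (2 * u)) →
    Dev A Ψ S s t ≤ ((t : ℝ) - s) * (8 * (u : ℝ) ^ 2 * er a u) + 2 * u * W4 u

/-- short tuples on two levels -/
def TwoSt : Prop :=
  ∀ a b, Ok a b → ∀ᶠ u : ℕ in atTop, ∀ (A : Set ℕ) (Ψ : Finset (ℤ × ℤ)) (S : ℝ) (s t : ℕ),
    HL4 a b u A → HL4 a b (2 * u) A → Adm (X4 b (4 * u)) Ψ → Sh u Ψ → Ψ.card ≤ u → IsSF Ψ S →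
    s ≤ t → t ≤ 2 * X4 b (4 * u) + 1 →
    (∀ m ∈ Ico s t, ∀ ψ ∈ Ψ, (X4 b u : ℤ) ≤ ψ.1 * m + ψ.2 ∧ ψ.1 * m + ψ.2 < X4 b (4 * u)) →
    Dev A Ψ S s t ≤ ((t : ℝ) - s) * (32 * (u : ℝ) ^ 2 * er a u) + 8 * u * W4 (2 * u)

def HlaSt : Prop :=
  ∀ a b, Ok a b → ∀ i0 A, GlobW4 a b i0 A →
    ∃ C, 0 ≤ C ∧ Part4a A (1 / (2 * a * b * 4 ^ 12)) (4 / (b : ℝ)) C

def HlbSt : Prop :=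
  ∀ a B : ℕ, 1 ≤ B → Ok a (12 * (B + 1)) → ∀ i0 A, GlobW4 a (12 * (B + 1)) i0 A →
    ∃ C, 0 ≤ C ∧ Part4b A B C

def Free4St : Prop :=
  ∀ a b, Ok a b → ∀ᶠ u : ℕ in atTop, ∀ N : ℕ,
    (((Icc 1 N).filter (fun n => Free (u ^ (b + 27)) (u ^ a) n)).card : ℝ) ≤
      Real.exp 44 * (b : ℝ) / (a : ℝ) * N + 2 ^ (u ^ 2)

def Rank4St : Prop :=
  ∀ a b i0 A, 1 ≤ b → GlobW4 a b i0 A → A.Infinite ∧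
    ∀ m : ℕ, 1 ≤ m → Nat.nth (· ∈ A) (m - 1) + 2 ∈ A →
      ∃ i, i0 ≤ i ∧ S4 a b (2 ^ i) m ∧ m ≤ X4 b (2 ^ (i + 1)) ∧ (i = i0 ∨ X4 b (2 ^ (i - 1)) ≤ m)

def Exc4St : Prop :=
  ∀ a b, Ok a b → ∀ i0 A, GlobW4 a b i0 A → Part2P A (5 * (Real.exp 44 * (b : ℝ) / (a : ℝ)))

end

end Pool.Agent.Lib.MP_be93de_nt.He
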