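import Pool.Agent.Lib.MP_be93de_nt.He.Defs

namespace Pool.Agent.Lib.MP_be93de_nt.He

open Finset Filter Pool.Agent.Lib.MP_be93de_nt.Hb
open Pool.Agent.Lib.MP_be93de_nt.Hd (Part2P)

namespace Exc4x

theorem mono (b : ℕ) {u v : ℕ} (h : u ≤ v) : X4 b u ≤ X4 b v :=
  Nat.pow_le_pow_right two_pos (Nat.mul_le_mul_left _ (Nat.pow_le_pow_left h _))

theorem mono2 (b : ℕ) {i j : ℕ} (h : i ≤ j) : X4 b (2 ^ i) ≤ X4 b (2 ^ j) :=
  mono b (Nat.pow_le_pow_right two_pos h)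

theorem self_le (b : ℕ) (hb : 4 ≤ b) (u : ℕ) : u ≤ X4 b u := by
  have h1 : u ≤ u ^ 12 := Nat.le_self_pow (by norm_num) u
  have h2 : 4 * u ^ 12 ≤ b * u ^ 12 := Nat.mul_le_mul_right _ hb
  exact le_trans (by omega) (Nat.lt_two_pow_self (n := b * u ^ 12)).le

theorem six (b : ℕ) (hb : 4 ≤ b) (u : ℕ) (hu : 1 ≤ u) : (X4 b u * X4 b u) ^ 3 < X4 b (2 * u) := by
  unfold X4
  rw [← pow_add, ← pow_mul, mul_pow, mul_left_comm b]
  refine Nat.pow_lt_pow_right one_lt_two ?_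
  have h1 : 1 ≤ u ^ 12 := Nat.one_le_pow _ _ hu
  have h2 : 1 ≤ b * u ^ 12 := Nat.mul_pos (by omega) h1
  generalize b * u ^ 12 = w at h2
  omega

theorem small (b : ℕ) (hb : 4 ≤ b) (u v : ℕ) (hu : 2 ≤ u) (hv : v ≤ 4 * u) :
    2 ^ (v ^ 2) * 2 ^ (v ^ 2) ≤ X4 b u * X4 b u := by
  have h : 2 ^ (v ^ 2) ≤ X4 b u := by
    refine Nat.pow_le_pow_right two_pos ?_
    have h1 : v ^ 2 ≤ (4 * u) ^ 2 := Nat.pow_le_pow_left hv 2
    have h2 : 2 ^ 10 ≤ u ^ 10 := Nat.pow_le_pow_left hu 10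
    calc v ^ 2 ≤ (4 * u) ^ 2 := h1
      _ = 4 * (u ^ 2 * 4) := by ring
      _ ≤ 4 * (u ^ 2 * u ^ 10) :=
          Nat.mul_le_mul_left _ (Nat.mul_le_mul_left _ (le_trans (by norm_num) h2))
      _ = 4 * u ^ 12 := by ring
      _ ≤ b * u ^ 12 := Nat.mul_le_mul_right _ hb
  exact Nat.mul_le_mul h h

end Exc4x

open Exc4x in
theorem exc4_st (h1 : Free4St) (h2 : Rank4St) : Exc4St := by
  classical
  intro a b hab i0 A hA
  have hb : 4 ≤ b := hab.1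
  have ha : 60 * b ≤ a := hab.2
  obtain ⟨s0, hs0⟩ := eventually_atTop.1 (h1 a b hab)
  obtain ⟨-, hr⟩ := h2 a b i0 A (by omega) hA
  have ha0 : (0 : ℝ) < a := by
    have : 0 < a := by omega
    exact_mod_cast this
  obtain ⟨c, hc⟩ : ∃ c : ℝ, c = Real.exp 44 * (b : ℝ) / (a : ℝ) := ⟨_, rfl⟩
  have hc0 : 0 < c := by
    rw [hc]
    have hb0 : (0 : ℝ) < b := by
      have : 0 < b := by omega
      exact_mod_cast this
    exact div_pos (mul_pos (Real.exp_pos _) hb0) ha0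
  obtain ⟨q, hq⟩ := exists_nat_ge (2 / c)
  obtain ⟨B, hB⟩ : ∃ B, B = X4 b (2 ^ (i0 + s0 + 1)) * X4 b (2 ^ (i0 + s0 + 1)) := ⟨_, rfl⟩
  unfold Part2P
  filter_upwards [eventually_gt_atTop B, eventually_ge_atTop (q * q)] with N hNB hNq
  have hex : ∃ j : ℕ, N ≤ X4 b (2 ^ (j + 1)) * X4 b (2 ^ (j + 1)) := by
    refine ⟨N, ?_⟩
    have e1 : N ≤ 2 ^ (N + 1) := le_trans (Nat.le_succ N) Nat.lt_two_pow_self.le
    exact (e1.trans (self_le b hb _)).trans (Nat.le_mul_self _)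
  obtain ⟨j, hj⟩ : ∃ j, j = Nat.find hex := ⟨_, rfl⟩
  have j1 : N ≤ X4 b (2 ^ (j + 1)) * X4 b (2 ^ (j + 1)) := hj ▸ Nat.find_spec hex
  have j2 : ∀ i, N ≤ X4 b (2 ^ (i + 1)) * X4 b (2 ^ (i + 1)) → j ≤ i := fun i hi =>
    hj ▸ Nat.find_min' hex hi
  have j3 : i0 + s0 < j := by
    by_contra hn
    have e1 : X4 b (2 ^ (j + 1)) ≤ X4 b (2 ^ (i0 + s0 + 1)) := mono2 b (by omega)
    have e2 := j1.trans (Nat.mul_le_mul e1 e1)
    omega
  have j4 : X4 b (2 ^ j) * X4 b (2 ^ j) ≤ N := by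
    by_contra hn
    have e1 : j - 1 + 1 = j := by omega
    have := j2 (j - 1) (by rw [e1]; omega)
    omega
  have k1 : {n : ℕ | 1 ≤ n ∧ n ≤ N ∧ ∃ k : ℕ, 1 ≤ k ∧ k ≤ n ^ 2 ∧
      Nat.nth (· ∈ A) (k * n - 1) + 2 ∈ A}.ncard ≤
      (Icc 1 (Nat.sqrt N) ∪ (Ico j (j + 3)).biUnion fun i => (Icc 1 N).filter
        (fun n => Free ((2 ^ i) ^ (b + 27)) ((2 ^ i) ^ a) n)).card := by
    rw [← Set.ncard_coe_finset]
    refine Set.ncard_le_ncard (fun n hn => ?_) (finite_toSet _)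
    obtain ⟨n1, n2, k, a1, a2, a3⟩ := hn
    rw [mem_coe, mem_union]
    by_cases hq : n * n ≤ N
    · exact Or.inl (mem_Icc.2 ⟨n1, Nat.le_sqrt.2 hq⟩)
    have m1 : n ≤ k * n := Nat.le_mul_of_pos_left n a1
    obtain ⟨i, -, b2, b3, b4⟩ := hr (k * n) (n1.trans m1) a3
    have c1 : j ≤ i :=
      j2 i ((not_le.1 hq).le.trans (Nat.mul_le_mul (m1.trans b3) (m1.trans b3)))
    have c2 : i < j + 3 := by
      rcases b4 with e | b4
      · omega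
      · by_contra hn
        have d1 : k * n ≤ N ^ 3 := by
          calc k * n ≤ n ^ 2 * n := Nat.mul_le_mul_right _ a2
            _ = n ^ 3 := by ring
            _ ≤ N ^ 3 := Nat.pow_le_pow_left n2 3
        have d2 := (Nat.pow_le_pow_left j1 3).trans_lt (six b hb (2 ^ (j + 1)) Nat.one_le_two_pow)
        rw [← pow_succ'] at d2
        have d3 : X4 b (2 ^ (j + 1 + 1)) ≤ X4 b (2 ^ (i - 1)) := mono2 b (by omega)
        exact absurd (d3.trans (b4.trans d1)) (not_le.2 d2)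
    exact Or.inr (mem_biUnion.2 ⟨i, mem_Ico.2 ⟨c1, c2⟩, mem_filter.2 ⟨mem_Icc.2 ⟨n1, n2⟩,
      fun p hp hd => b2 p hp (hd.mul_left k)⟩⟩)
  have k2 := k1.trans ((card_union_le _ _).trans (Nat.add_le_add_left card_biUnion_le _))
  rw [Nat.card_Icc, Nat.add_sub_cancel] at k2
  have k3 : ∀ i ∈ Ico j (j + 3), (((Icc 1 N).filter
      (fun n => Free ((2 ^ i) ^ (b + 27)) ((2 ^ i) ^ a) n)).card : ℝ) ≤ c * N + Nat.sqrt N := by
    intro i hi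
    obtain ⟨i1, i2⟩ := mem_Ico.1 hi
    have d1 : s0 ≤ 2 ^ i := le_trans (by omega) (Nat.lt_two_pow_self (n := i)).le
    refine (hs0 _ d1 N).trans (add_le_add (by rw [hc]) ?_)
    have d2 : 2 ≤ 2 ^ j := le_trans (by omega) (Nat.lt_two_pow_self (n := j))
    have d3 : 2 ^ i ≤ 4 * 2 ^ j := by
      calc 2 ^ i ≤ 2 ^ (j + 2) := Nat.pow_le_pow_right two_pos (by omega)
        _ = 4 * 2 ^ j := by ring
    have d4 := Nat.le_sqrt.2 ((small b hb _ _ d2 d3).trans j4)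
    exact_mod_cast d4
  have k4 := sum_le_sum k3
  rw [sum_const, Nat.card_Ico, Nat.add_sub_cancel_left, nsmul_eq_mul] at k4
  have k5 := (Nat.cast_le (α := ℝ)).2 k2
  rw [Nat.cast_add, Nat.cast_sum] at k5
  have k6 : (q : ℝ) ≤ Nat.sqrt N := by exact_mod_cast Nat.le_sqrt.2 hNq
  have k7 : (Nat.sqrt N : ℝ) * Nat.sqrt N ≤ N := by exact_mod_cast Nat.sqrt_le N
  have k8 : 2 ≤ (Nat.sqrt N : ℝ) * c := by
    have := hq.trans k6
    rwa [div_le_iff₀ hc0] at this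
  have k9 : 2 * (Nat.sqrt N : ℝ) ≤ c * N := by
    calc 2 * (Nat.sqrt N : ℝ) ≤ Nat.sqrt N * c * Nat.sqrt N :=
          mul_le_mul_of_nonneg_right k8 (Nat.cast_nonneg _)
      _ = c * (Nat.sqrt N * Nat.sqrt N) := by ring
      _ ≤ c * N := mul_le_mul_of_nonneg_left k7 hc0.le
  have e : 5 * (Real.exp 44 * (b : ℝ) / (a : ℝ)) * N = 5 * (c * N) := by
    rw [hc]
    ring
  rw [e]
  push_cast at k4
  linarith

end Pool.Agent.Lib.MP_be93de_nt.He
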