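import Pool.Agent.Lib.MP_be93de_nt.He.Defs

namespace Pool.Agent.Lib.MP_be93de_nt.He

open Finset Filter Pool.Agent.Lib.MP_be93de_nt.Hb
open Pool.Agent.Lib.MP_be93de_nt.Hd (Mert3St)

namespace Free4x

theorem log_le (a s : ℕ) (hs : 10000 ≤ s) (ha : a ≤ s) :
    Real.log (1 + Real.log ((s ^ a : ℕ) : ℝ)) + 38 ≤ (s : ℝ) / 6 := by
  have h0 : (10000 : ℝ) ≤ s := by exact_mod_cast hs
  have ha' : (a : ℝ) ≤ s := by exact_mod_cast ha
  have ha0 : (0 : ℝ) ≤ a := Nat.cast_nonneg a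
  have h2 : Real.log s ≤ s := by
    have := Real.log_le_sub_one_of_pos (show (0 : ℝ) < s by linarith)
    linarith
  have h2' : 0 ≤ Real.log s := Real.log_nonneg (by linarith)
  have e : Real.log ((s ^ a : ℕ) : ℝ) = a * Real.log s := by
    push_cast
    rw [Real.log_pow]
  rw [e]
  have h7 : (a : ℝ) * Real.log s ≤ s * s := mul_le_mul ha' h2 h2' (by linarith)
  have h3 : 1 + (a : ℝ) * Real.log s ≤ (100 * ((s : ℝ) / 25)) ^ 2 := by nlinarith
  have h4 : Real.log (1 + (a : ℝ) * Real.log s) ≤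
      Real.log ((100 * ((s : ℝ) / 25)) ^ 2) := Real.log_le_log (by positivity) h3
  rw [Real.log_pow, Real.log_mul (by norm_num) (by positivity)] at h4
  have h5 := Real.log_le_sub_one_of_pos (show (0 : ℝ) < 100 by norm_num)
  have h6 := Real.log_le_sub_one_of_pos (show (0 : ℝ) < (s : ℝ) / 25 by positivity)
  push_cast at h4
  linarith

theorem tail_le (s : ℕ) (hs : 1 ≤ s) {L : ℝ} (h0 : 0 ≤ L) (hL : L ≤ (s : ℝ) / 6) :
    2 * L ^ s / s.factorial ≤ 1 / (s : ℝ) := by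
  have hs0 : (0 : ℝ) < s := by exact_mod_cast hs
  have hf : (0 : ℝ) < s.factorial := by exact_mod_cast s.factorial_pos
  have h1 := Real.pow_div_factorial_le_exp (s : ℝ) hs0.le s
  have h2 : Real.exp s ≤ 3 ^ s := by
    rw [← Real.exp_one_pow]
    exact pow_le_pow_left₀ (Real.exp_pos 1).le (Real.exp_one_lt_d9.le.trans (by norm_num)) s
  have h3 : L ^ s ≤ (s : ℝ) ^ s / 6 ^ s := by
    rw [← div_pow]; exact pow_le_pow_left₀ h0 hL s
  have h4 : (s : ℝ) ^ s ≤ 3 ^ s * s.factorial := (div_le_iff₀ hf).1 (h1.trans h2)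
  have h5 : 2 * (s : ℝ) ≤ 2 ^ s := by
    obtain ⟨k, rfl⟩ := Nat.exists_eq_add_of_le hs
    have : (k : ℝ) + 1 ≤ 2 ^ k := by exact_mod_cast Nat.lt_two_pow_self
    push_cast
    rw [pow_add]
    linarith
  have h6 : (6 : ℝ) ^ s = 2 ^ s * 3 ^ s := by rw [← mul_pow]; norm_num
  have h7 : L ^ s * 2 ^ s ≤ s.factorial := by
    rw [le_div_iff₀ (by positivity), h6] at h3
    have h8 : (0 : ℝ) < 3 ^ s := by positivity
    refine le_of_mul_le_mul_right ?_ h8
    nlinarith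
  rw [div_le_div_iff₀ hf hs0]
  have h9 := mul_le_mul_of_nonneg_left h5 (pow_nonneg h0 s)
  linarith

theorem pow_le (a : ℕ) : ∀ᶠ u : ℕ in atTop, u ^ a ≤ 2 ^ u := by
  have h := tendsto_pow_const_div_const_pow_of_one_lt a (show (1 : ℝ) < 2 by norm_num)
  filter_upwards [h.eventually (gt_mem_nhds (show (0 : ℝ) < 1 by norm_num))] with u hu
  rw [div_lt_one (by positivity)] at hu
  exact_mod_cast hu.le

theorem th_le (h1 : Mert3St) (a b s : ℕ) (hb : 4 ≤ b) (ha : 60 * b ≤ a) (hs : 3 ≤ s) :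
    th (s ^ (b + 27)) (s ^ a) ≤ 8 * b * Real.exp 40 / a := by
  have h0 : (3 : ℝ) ≤ s := by exact_mod_cast hs
  have ha0 : (0 : ℝ) < a := by exact_mod_cast (by omega : 0 < a)
  have hl : 1 ≤ Real.log s := by
    rw [Real.le_log_iff_exp_le (by linarith)]
    exact Real.exp_one_lt_d9.le.trans (by linarith)
  have e1 := h1.2.2.1 (s ^ (b + 27)) (s ^ a) (Nat.pow_le_pow_right (by omega) (by omega))
  have e2 := (h1.2.2.2 (s ^ a)).1
  have e3 := (h1.2.2.2 (s ^ (b + 27))).2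
  have p1 := (h1.1 0 (s ^ (b + 27))).1
  have p2 := (h1.1 (s ^ (b + 27)) (s ^ a)).1
  push_cast at e2 e3
  rw [Real.log_pow] at e2 e3
  rw [e1, mul_inv] at e2
  push_cast at e3
  generalize th 0 (s ^ (b + 27)) = x at e2 e3 p1
  generalize th (s ^ (b + 27)) (s ^ a) = y at e2 p2 ⊢
  have hE := Real.exp_pos 40
  have hb' : (4 : ℝ) ≤ b := by exact_mod_cast hb
  have e4 : x⁻¹ ≤ 8 * b * Real.exp 40 * Real.log s := by
    refine e3.trans ?_
    have : 1 + ((b : ℝ) + 27) * Real.log s ≤ 8 * b * Real.log s := by nlinarith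
    nlinarith
  have e5 : (a : ℝ) * Real.log s * y ≤ x⁻¹ := by
    have := mul_le_mul_of_nonneg_right e2 p2.le
    rwa [mul_assoc x⁻¹, inv_mul_cancel₀ p2.ne', mul_one] at this
  rw [le_div_iff₀ ha0]
  refine le_of_mul_le_mul_right ?_ (show 0 < Real.log s by linarith)
  linarith

end Free4x

theorem free4_st (h1 : Mert3St) (h2 : BonfSt) : Free4St := by
  intro a b hab
  obtain ⟨hb, ha⟩ := hab
  have hb' : (4 : ℝ) ≤ b := by exact_mod_cast hb
  filter_upwards [eventually_ge_atTop 10000, eventually_ge_atTop a, Free4x.pow_le a]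
    with s hs has hp2 N
  have hs1 : 1 ≤ s := by omega
  have hs0 : (0 : ℝ) < s := by exact_mod_cast hs1
  have ha0 : (0 : ℝ) < a := by exact_mod_cast (by omega : 0 < a)
  have hB := h2 (pr (s ^ (b + 27)) (s ^ a)) (fun _ => {0}) 1 N s
    (fun p hp => (mem_filter.1 hp).2)
    (fun p hp => singleton_subset_iff.2 (mem_range.2 (mem_filter.1 hp).2.pos))
  simp only [card_singleton, Nat.cast_one, sum_const, nsmul_eq_mul, mul_one] at hB
  have a1 : ∏ p ∈ pr (s ^ (b + 27)) (s ^ a), (1 - 1 / (p : ℝ)) ≤ 8 * b * Real.exp 40 / a :=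
    Free4x.th_le h1 a b s hb ha (by omega)
  have a2 := Free4x.tail_le s hs1 (sum_nonneg fun p _ => by positivity)
    ((h1.2.1 (s ^ (b + 27)) (s ^ a)).trans (Free4x.log_le a s hs has))
  have a2' : 1 / (s : ℝ) ≤ 1 / (a : ℝ) :=
    one_div_le_one_div_of_le ha0 (by exact_mod_cast has)
  have a3 : (1 + ((pr (s ^ (b + 27)) (s ^ a)).card : ℝ)) ^ s ≤ 2 ^ (s ^ 2) := by
    have c1 : (pr (s ^ (b + 27)) (s ^ a)).card ≤ s ^ a - s ^ (b + 27) :=
      (card_filter_le _ _).trans_eq (Nat.card_Ioc _ _)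
    have c2 : 0 < s ^ (b + 27) := by positivity
    have c3 : 0 < s ^ a := by positivity
    have c4 : 1 + (pr (s ^ (b + 27)) (s ^ a)).card ≤ 2 ^ s := by omega
    have c5 : (2 ^ s) ^ s = 2 ^ (s ^ 2) := by rw [← pow_mul, sq]
    exact_mod_cast (Nat.pow_le_pow_left c4 s).trans_eq c5
  have a4 : 8 * b * Real.exp 40 + 1 ≤ Real.exp 44 * b := by
    have b1 : Real.exp 44 = Real.exp 40 * Real.exp 1 ^ 4 := by
      rw [Real.exp_one_pow, ← Real.exp_add]; norm_num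
    have b2 : (5 / 2 : ℝ) ^ 4 ≤ Real.exp 1 ^ 4 :=
      pow_le_pow_left₀ (by norm_num) (le_trans (by norm_num) Real.exp_one_gt_d9.le) 4
    have b3 := Real.add_one_le_exp (40 : ℝ)
    have b4 : 9 * Real.exp 40 ≤ Real.exp 44 := by nlinarith
    have b5 : 9 * Real.exp 40 * b ≤ Real.exp 44 * b := by gcongr
    nlinarith
  have hN : (0 : ℝ) ≤ N := Nat.cast_nonneg N
  have a5 := mul_le_mul_of_nonneg_left a1 hN
  have a6 := mul_le_mul_of_nonneg_left (a2.trans a2') hN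
  have a7 : (N : ℝ) * (8 * b * Real.exp 40 / a) + N * (1 / a) ≤ Real.exp 44 * b / a * N := by
    rw [← mul_add, ← add_div, mul_comm (Real.exp 44 * b / a)]
    gcongr
  have a8 := (abs_le.1 hB).2
  have a9 : 2 * (N : ℝ) * (∑ p ∈ pr (s ^ (b + 27)) (s ^ a), 1 / (p : ℝ)) ^ s /
      s.factorial = N * (2 * (∑ p ∈ pr (s ^ (b + 27)) (s ^ a), 1 / (p : ℝ)) ^ s /
      s.factorial) := by ring
  refine le_trans (Nat.cast_le.2 (card_le_card fun m hm => ?_))
    ((sub_le_iff_le_add.1 a8).trans (by linarith))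
  simp only [mem_filter, mem_Icc, mem_Ico, Free, mem_singleton, Nat.dvd_iff_mod_eq_zero] at hm ⊢
  exact ⟨⟨hm.1.1, by omega⟩, hm.2⟩

end Pool.Agent.Lib.MP_be93de_nt.He
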