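import Pool.Agent.Lib.MP_be93de_nt.He.Defs

/-! Gluing the levels: short tuples with a power saving. -/

namespace Pool.Agent.Lib.MP_be93de_nt.He

open Finset Filter Pool.Agent.Lib.MP_be93de_nt.Hb
open Pool.Agent.Lib.MP_be93de_nt.Hc (nuF IsSF Adm)
open Pool.Agent.Lib.MP_be93de_nt.Hd (er Mert3St)

namespace Hlax

lemma half_lt_log {t : ℝ} (ht : 2 ≤ t) : 1 / 2 ≤ Real.log t := by
  have h1 := Real.log_two_gt_d9
  have h2 := Real.log_le_log (by norm_num) ht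
  linarith

lemma root_le {L b : ℝ} (n : ℕ) (hn : n ≠ 0) (hL : 0 ≤ L) (hb : 0 ≤ b) (h : L ≤ b ^ n) :
    L ^ (1 / (n : ℝ)) ≤ b := by
  have h3 : L ^ (1 / (n : ℝ)) ≤ (b ^ n) ^ (1 / (n : ℝ)) :=
    Real.rpow_le_rpow hL h (by positivity)
  rw [one_div, Real.pow_rpow_inv_natCast hb hn] at h3
  rwa [one_div]

lemma adm {Z : ℕ} {x : ℝ} (h : x ≤ Z) {Ψ : Finset (ℤ × ℤ)}
    (a1 : ∀ ψ ∈ Ψ, ψ.1 ≠ 0 ∧ Int.gcd ψ.1 ψ.2 = 1 ∧ ((|ψ.1| : ℤ) : ℝ) ≤ x ∧ ((|ψ.2| : ℤ) : ℝ) ≤ x)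
    (a2 : ∀ ψ ∈ Ψ, ∀ φ ∈ Ψ, ψ ≠ φ → ψ.1 * φ.2 ≠ φ.1 * ψ.2) : Adm Z Ψ := by
  refine ⟨fun ψ hψ => ?_, a2⟩
  obtain ⟨b1, b2, b3, b4⟩ := a1 ψ hψ
  refine ⟨b1, b2, ?_, ?_⟩
  · exact_mod_cast b3.trans h
  · exact_mod_cast b4.trans h

lemma crude {Ψ : Finset (ℤ × ℤ)} {u v : ℕ} (huv : u ≤ v) {x S M : ℝ} (hx : 2 ≤ x) (h0 : 0 ≤ S)
    (hM : 1 ≤ M) (hS : S * 2 ^ Ψ.card ≤ M) (T : Finset ℕ) (hT : T ⊆ Ico u v)
    (hv : ∀ m ∈ Ico u v, ∀ ψ ∈ Ψ, Real.sqrt x ≤ ((ψ.1 * m + ψ.2 : ℤ) : ℝ)) :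
    |(T.card : ℝ) - S * ∑ m ∈ Ico u v, ∏ ψ ∈ Ψ, 1 / Real.log ((ψ.1 * m + ψ.2 : ℤ) : ℝ)| ≤
      ((v : ℝ) - u) * M := by
  have hc : ((Ico u v).card : ℝ) = (v : ℝ) - u := by rw [Nat.card_Ico, Nat.cast_sub huv]
  have hd : (0 : ℝ) ≤ (v : ℝ) - u := by rw [← hc]; positivity
  have h1 : (T.card : ℝ) ≤ (v : ℝ) - u := by
    rw [← hc]; exact_mod_cast card_le_card hT
  have h2 : (0 : ℝ) ≤ T.card := Nat.cast_nonneg _
  have hl : ∀ m ∈ Ico u v, ∀ ψ ∈ Ψ, 1 / 2 ≤ Real.log ((ψ.1 * m + ψ.2 : ℤ) : ℝ) := by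
    intro m hm ψ hψ
    have a1 : (1 : ℝ) < Real.sqrt x := Real.lt_sqrt_of_sq_lt (by linarith)
    have a2 : (1 : ℤ) < ψ.1 * m + ψ.2 := by exact_mod_cast a1.trans_le (hv m hm ψ hψ)
    have a3 : (2 : ℤ) ≤ ψ.1 * m + ψ.2 := a2
    exact half_lt_log (by exact_mod_cast a3)
  have h3 : 0 ≤ ∑ m ∈ Ico u v, ∏ ψ ∈ Ψ, 1 / Real.log ((ψ.1 * m + ψ.2 : ℤ) : ℝ) :=
    sum_nonneg fun m hm => prod_nonneg fun ψ hψ => by
      have := hl m hm ψ hψ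
      positivity
  have h4 : ∑ m ∈ Ico u v, ∏ ψ ∈ Ψ, 1 / Real.log ((ψ.1 * m + ψ.2 : ℤ) : ℝ) ≤
      ((v : ℝ) - u) * 2 ^ Ψ.card := by
    rw [← hc, ← nsmul_eq_mul]
    refine sum_le_card_nsmul _ _ _ fun m hm => ?_
    rw [← prod_const]
    refine prod_le_prod (fun ψ hψ => ?_) (fun ψ hψ => ?_)
    · have := hl m hm ψ hψ
      positivity
    · have := hl m hm ψ hψ
      rw [div_le_iff₀ (by linarith)]
      linarith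
  have h7 : S * ∑ m ∈ Ico u v, ∏ ψ ∈ Ψ, 1 / Real.log ((ψ.1 * m + ψ.2 : ℤ) : ℝ) ≤
      ((v : ℝ) - u) * M :=
    calc _ ≤ S * (((v : ℝ) - u) * 2 ^ Ψ.card) := mul_le_mul_of_nonneg_left h4 h0
      _ = ((v : ℝ) - u) * (S * 2 ^ Ψ.card) := by ring
      _ ≤ _ := mul_le_mul_of_nonneg_left hS hd
  have h8 : (v : ℝ) - u ≤ ((v : ℝ) - u) * M := le_mul_of_one_le_right hd hM
  have h9 := mul_nonneg h0 h3
  rw [abs_le]
  constructor <;> linarith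

lemma sf_empty : IsSF ∅ 1 := by
  unfold IsSF nuF
  simp

lemma v_le {Z : ℕ} {a b : ℤ} {m : ℕ} (ha : a ≠ 0) (hb : |b| ≤ Z) (h0 : 0 ≤ a * m + b)
    (h1 : a * m + b ≤ Z) : m ≤ 2 * Z := by
  have hb' := abs_le.1 hb
  have hm : (0 : ℤ) ≤ m := Int.natCast_nonneg m
  have : (m : ℤ) ≤ 2 * Z := by
    rcases lt_or_gt_of_ne ha with h | h
    · have : a * m ≤ -1 * m := mul_le_mul_of_nonneg_right (by omega) hm
      omega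
    · have : 1 * (m : ℤ) ≤ a * m := mul_le_mul_of_nonneg_right (by omega) hm
      omega
  exact_mod_cast this

lemma log_le {b u : ℕ} {x : ℝ} (hx : 2 ≤ x) (h : x ≤ X4 b (4 * u)) :
    Real.log x ≤ b * 4 ^ 12 * (u : ℝ) ^ 12 := by
  have hl := Real.log_two_lt_d9
  refine (Real.log_le_log (by linarith) h).trans ?_
  unfold X4
  push_cast
  rw [Real.log_pow]
  push_cast
  calc b * (4 * (u : ℝ)) ^ 12 * Real.log 2 ≤ b * (4 * (u : ℝ)) ^ 12 :=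
        mul_le_of_le_one_right (by positivity) (by linarith)
    _ = b * 4 ^ 12 * (u : ℝ) ^ 12 := by ring

lemma X_mono (b : ℕ) {c d : ℕ} (h : c ≤ d) : X4 b c ≤ X4 b d :=
  Nat.pow_le_pow_right (by norm_num) (Nat.mul_le_mul_left _ (Nat.pow_le_pow_left h _))

lemma lt_X {b : ℕ} (hb : 1 ≤ b) (n : ℕ) : n < X4 b n :=
  (Nat.le_self_pow (by norm_num) n).trans_lt
    ((Nat.le_mul_of_pos_left _ hb).trans_lt Nat.lt_two_pow_self)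

lemma level {b : ℕ} (hb : 1 ≤ b) (j0 : ℕ) {x : ℝ} (hx : (X4 b (2 * 2 ^ j0) : ℝ) ≤ x) :
    ∃ j, j0 ≤ j ∧ (X4 b (2 * 2 ^ j) : ℝ) ≤ x ∧ x < X4 b (4 * 2 ^ j) := by
  classical
  have hex : ∃ n : ℕ, x < X4 b (4 * 2 ^ (j0 + n)) := by
    refine ⟨⌈x⌉₊, (Nat.le_ceil x).trans_lt (Nat.cast_lt.2 ?_)⟩
    have a1 : ⌈x⌉₊ ≤ 2 ^ (j0 + ⌈x⌉₊) :=
      (Nat.le_add_left _ _).trans (Nat.lt_two_pow_self).le
    exact a1.trans_lt ((Nat.le_mul_of_pos_left _ (by norm_num)).trans_lt (lt_X hb _))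
  refine ⟨j0 + Nat.find hex, Nat.le_add_right _ _, ?_, Nat.find_spec hex⟩
  rcases h : Nat.find hex with _ | n
  · exact hx
  · have := Nat.find_min hex (m := n) (by omega)
    rw [show 2 * 2 ^ (j0 + (n + 1)) = 4 * 2 ^ (j0 + n) by ring]
    exact not_lt.1 this

lemma sq_le {b u : ℕ} {x : ℝ} (h : (X4 b (2 * u) : ℝ) ≤ x) : (X4 b u : ℝ) ≤ Real.sqrt x := by
  refine Real.le_sqrt_of_sq_le (le_trans ?_ h)
  have : X4 b u ^ 2 ≤ X4 b (2 * u) := by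
    unfold X4
    rw [← pow_mul]
    refine Nat.pow_le_pow_right (by norm_num) ?_
    rw [mul_pow, mul_assoc]
    refine Nat.mul_le_mul_left _ ?_
    omega
  exact_mod_cast this

lemma vals {b u : ℕ} {x : ℝ} (b1 : (X4 b (2 * u) : ℝ) ≤ x) (b2 : x < X4 b (4 * u)) {z : ℤ}
    (c1 : Real.sqrt x ≤ (z : ℝ)) (c2 : (z : ℝ) ≤ x) : (X4 b u : ℤ) ≤ z ∧ z < X4 b (4 * u) := by
  have d1 := (sq_le b1).trans c1
  have d2 := c2.trans_lt b2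
  generalize X4 b u = p at d1 ⊢
  generalize X4 b (4 * u) = q at d2 ⊢
  exact ⟨by exact_mod_cast d1, by exact_mod_cast d2⟩

/-- crude bound for the singular series -/
noncomputable def MM (w u : ℕ) : ℝ := 2 * (2 * (Real.exp 40 * (1 + Real.log w))) ^ u

lemma one_le_base (w : ℕ) : (1 : ℝ) ≤ Real.exp 40 * (1 + Real.log w) := by
  have he : (1 : ℝ) ≤ Real.exp 40 := Real.one_le_exp (by norm_num)
  have hl : 0 ≤ Real.log w := Real.log_natCast_nonneg _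
  exact one_le_mul_of_one_le_of_one_le he (by linarith)

lemma one_le_M (w u : ℕ) : 1 ≤ MM w u := by
  have h := one_le_base w
  have : (1 : ℝ) ≤ (2 * (Real.exp 40 * (1 + Real.log w))) ^ u := one_le_pow₀ (by linarith)
  unfold MM
  linarith

lemma S_le (h1 : Mert3St) {w u k : ℕ} (hu : 1 ≤ u) {Ψ : Finset (ℤ × ℤ)} (hk : Ψ.card ≤ u) {S : ℝ}
    (h : |S * th 0 w ^ Ψ.card - ∏ p ∈ pr 0 w, (1 - (nuF Ψ p : ℝ) / p)| ≤
      1 / (4 * (u : ℝ) ^ k)) : S * 2 ^ Ψ.card ≤ MM w u := by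
  have hp := (h1.1 0 w).1
  have h4 := (h1.2.2.2 w).2
  have hb := one_le_base w
  have hu' : (1 : ℝ) ≤ u := by exact_mod_cast hu
  unfold MM
  generalize Real.exp 40 * (1 + Real.log w) = B at h4 hb ⊢
  have g1 : ∏ p ∈ pr 0 w, (1 - (nuF Ψ p : ℝ) / p) ≤ 1 := by
    refine prod_le_one (fun p _ => ?_) (fun p _ => ?_)
    · have : (nuF Ψ p : ℝ) ≤ p := by
        have : nuF Ψ p ≤ p := (card_filter_le _ _).trans (card_range p).le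
        exact_mod_cast this
      have := div_le_one_of_le₀ this (Nat.cast_nonneg p)
      linarith
    · have : (0 : ℝ) ≤ (nuF Ψ p : ℝ) / p := by positivity
      linarith
  have g2 : (1 : ℝ) / (4 * (u : ℝ) ^ k) ≤ 1 := by
    have : (1 : ℝ) ≤ (u : ℝ) ^ k := one_le_pow₀ hu'
    rw [div_le_one (by positivity)]
    linarith
  have h3 : S * th 0 w ^ Ψ.card ≤ 2 := by
    have := (abs_le.1 h).2
    linarith
  have h5 : S ≤ 2 * (th 0 w)⁻¹ ^ Ψ.card := by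
    rw [inv_pow, ← div_eq_mul_inv, le_div_iff₀ (pow_pos hp _)]
    exact h3
  have h6 : S ≤ 2 * B ^ Ψ.card :=
    h5.trans (mul_le_mul_of_nonneg_left (pow_le_pow_left₀ (inv_nonneg.2 hp.le) h4 _) (by norm_num))
  calc S * 2 ^ Ψ.card ≤ 2 * B ^ Ψ.card * 2 ^ Ψ.card :=
        mul_le_mul_of_nonneg_right h6 (by positivity)
    _ = 2 * (2 * B) ^ Ψ.card := by rw [mul_pow]; ring
    _ ≤ 2 * (2 * B) ^ u :=
        mul_le_mul_of_nonneg_left (pow_le_pow_right₀ (by linarith) hk) (by norm_num)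

lemma dev_crude (A : Set ℕ) {x : ℝ} {Ψ : Finset (ℤ × ℤ)} {s t : ℕ} (f : Forms x Ψ s t) {S M : ℝ}
    (h0 : 0 ≤ S) (hM : 1 ≤ M) (hS : S * 2 ^ Ψ.card ≤ M) : Dev A Ψ S s t ≤ ((t : ℝ) - s) * M := by
  classical
  unfold Dev
  exact crude f.2.1 f.1 h0 hM hS _ (filter_subset _ _)
    (fun m hm ψ hψ => (f.2.2.2.2 m hm ψ hψ).1)

lemma dev_empty (A : Set ℕ) {s t : ℕ} (_h : s ≤ t) : Dev A ∅ 1 s t = 0 := by
  unfold Dev
  simp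

lemma dev_self (A : Set ℕ) (Ψ : Finset (ℤ × ℤ)) (S : ℝ) (s : ℕ) : Dev A Ψ S s s = 0 := by
  unfold Dev
  simp

lemma t_le {Z : ℕ} {Ψ : Finset (ℤ × ℤ)} (had : Adm Z Ψ) {ψ0 : ℤ × ℤ} (h0 : ψ0 ∈ Ψ) {s t P : ℕ}
    (hlt : s < t) (hval : ∀ m ∈ Ico s t, ∀ ψ ∈ Ψ, (P : ℤ) ≤ ψ.1 * m + ψ.2 ∧ ψ.1 * m + ψ.2 < Z) :
    t ≤ 2 * Z + 1 := by
  have hm : t - 1 ∈ Ico s t :=
    mem_Ico.2 ⟨Nat.le_sub_one_of_lt hlt, Nat.sub_lt (Nat.zero_lt_of_lt hlt) one_pos⟩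
  obtain ⟨c1, c2⟩ := hval _ hm ψ0 h0
  exact Nat.le_add_of_sub_le (v_le (had.1 ψ0 h0).1 (had.1 ψ0 h0).2.2.2
    (le_trans (Int.natCast_nonneg _) c1) c2.le)

lemma thr (i0 N : ℕ) : ∃ j0, ∀ j, j0 ≤ j → i0 ≤ j ∧ N ≤ 2 ^ j :=
  ⟨i0 + N, fun j hj => ⟨by omega, le_trans (by omega) (Nat.lt_two_pow_self (n := j)).le⟩⟩

lemma fin1 {e d M η E W : ℝ} (h : e ≤ d * M) (hd : 0 ≤ d) (hM : 0 ≤ M) (hη : 0 < η) (hE : η ≤ E)
    (hW : 0 ≤ W) {c : ℝ} (hc : 0 ≤ c) : e ≤ (M / η + c) * (d * E + W) := by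
  have h1 : 0 ≤ M / η := div_nonneg hM hη.le
  have h2 : 0 ≤ d * E := mul_nonneg hd (hη.le.trans hE)
  calc e ≤ d * M := h
    _ = M / η * (d * η) := by field_simp
    _ ≤ M / η * (d * E) := mul_le_mul_of_nonneg_left (mul_le_mul_of_nonneg_left hE hd) h1
    _ ≤ _ := mul_le_mul (by linarith) (by linarith) h2 (by linarith)

lemma card_le {b u : ℕ} (hu : b ^ 2 * 4 ^ 24 ≤ u) (hb : 1 ≤ b) {L : ℝ} (hL0 : 0 ≤ L)
    (hL : L ≤ b * 4 ^ 12 * (u : ℝ) ^ 12) : L ^ (1 / 13 : ℝ) ≤ u ∧ L ^ 2 ≤ (u : ℝ) ^ 25 := by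
  have hu' : (b : ℝ) ^ 2 * 4 ^ 24 ≤ u := by exact_mod_cast hu
  have hb' : (1 : ℝ) ≤ b := by exact_mod_cast hb
  have h0 : (0 : ℝ) ≤ u := Nat.cast_nonneg _
  constructor
  · have a1 : (b : ℝ) * 4 ^ 12 ≤ u := le_trans (by nlinarith) hu'
    have a2 : L ≤ (u : ℝ) ^ 13 :=
      calc L ≤ b * 4 ^ 12 * (u : ℝ) ^ 12 := hL
        _ ≤ u * (u : ℝ) ^ 12 := mul_le_mul_of_nonneg_right a1 (by positivity)
        _ = _ := by ring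
    have := root_le 13 (by norm_num) hL0 h0 a2
    exact_mod_cast this
  · calc L ^ 2 ≤ (b * 4 ^ 12 * (u : ℝ) ^ 12) ^ 2 := pow_le_pow_left₀ hL0 hL _
      _ = (b : ℝ) ^ 2 * 4 ^ 24 * (u : ℝ) ^ 24 := by ring
      _ ≤ u * (u : ℝ) ^ 24 := mul_le_mul_of_nonneg_right hu' (by positivity)
      _ = (u : ℝ) ^ 25 := by ring

lemma er_le {a b u : ℕ} (ha : 1 ≤ a) (hb : 1 ≤ b) (hu : 2 * a ≤ u) {x : ℝ} (hx : 2 ≤ x)
    (hL : Real.log x ≤ b * 4 ^ 12 * (u : ℝ) ^ 12) :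
    32 * (u : ℝ) ^ 2 * er a u ≤ x ^ (-(1 / (2 * (a : ℝ) * b * 4 ^ 12))) := by
  have ha' : (1 : ℝ) ≤ a := by exact_mod_cast ha
  have hb' : (1 : ℝ) ≤ b := by exact_mod_cast hb
  have hu' : 2 * (a : ℝ) ≤ u := by exact_mod_cast hu
  have hu2 : (2 : ℝ) ≤ u := by linarith
  have hx0 : 0 < x := by linarith
  have h1 : Real.log x * (1 / (2 * (a : ℝ) * b * 4 ^ 12)) ≤ (u : ℝ) ^ 12 / (2 * a) :=
    calc Real.log x * (1 / (2 * (a : ℝ) * b * 4 ^ 12)) ≤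
          b * 4 ^ 12 * (u : ℝ) ^ 12 * (1 / (2 * (a : ℝ) * b * 4 ^ 12)) :=
          mul_le_mul_of_nonneg_right hL (by positivity)
      _ = (u : ℝ) ^ 12 / (2 * a) := by field_simp
  have h2 : 32 * (u : ℝ) ^ 2 ≤ (u : ℝ) ^ 12 / (2 * a) := by
    rw [le_div_iff₀ (by positivity)]
    have a1 : (32 : ℝ) ≤ (u : ℝ) ^ 9 :=
      le_trans (by norm_num) (pow_le_pow_left₀ (by norm_num) hu2 9)
    calc 32 * (u : ℝ) ^ 2 * (2 * a) ≤ (u : ℝ) ^ 9 * (u : ℝ) ^ 2 * u :=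
          mul_le_mul (mul_le_mul_of_nonneg_right a1 (by positivity)) hu' (by positivity)
            (by positivity)
      _ = (u : ℝ) ^ 12 := by ring
  have h3 : 32 * (u : ℝ) ^ 2 ≤ Real.exp ((u : ℝ) ^ 12 / (2 * a)) := by
    have := Real.add_one_le_exp ((u : ℝ) ^ 12 / (2 * a))
    linarith
  rw [Real.rpow_def_of_pos hx0, mul_neg]
  refine le_trans ?_ (Real.exp_le_exp.2 (neg_le_neg h1))
  unfold er
  refine (mul_le_mul_of_nonneg_right h3 (Real.exp_pos _).le).trans (le_of_eq ?_)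
  rw [← Real.exp_add]
  congr 1
  field_simp
  ring

lemma W_le {b u : ℕ} (hb : 1 ≤ b) (hu : 1 ≤ u) {x : ℝ} (h : (X4 b (2 * u) : ℝ) ≤ x) :
    8 * u * W4 (2 * u) ≤ x ^ (4 / (b : ℝ)) := by
  have hb' : (0 : ℝ) < b := by exact_mod_cast hb
  have h1 : 8 * u ≤ 2 ^ ((2 * u) ^ 12) := by
    refine le_trans ?_ (Nat.lt_two_pow_self).le
    have : u ≤ u ^ 12 := Nat.le_self_pow (by norm_num) u
    rw [mul_pow]
    omega
  unfold W4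
  unfold X4 at h
  generalize (2 * u) ^ 12 = v at h h1 ⊢
  have h2 : (8 * u : ℝ) ≤ 2 ^ v := by exact_mod_cast h1
  have h3 : (((2 ^ (b * v) : ℕ) : ℝ)) ^ (4 / (b : ℝ)) = 2 ^ v * 2 ^ (3 * v) := by
    rw [← pow_add, Nat.cast_pow, Nat.cast_ofNat, ← Real.rpow_natCast, ← Real.rpow_mul (by norm_num),
      ← Real.rpow_natCast]
    congr 1
    push_cast
    field_simp
    ring
  calc 8 * (u : ℝ) * 2 ^ (3 * v) ≤ 2 ^ v * 2 ^ (3 * v) :=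
        mul_le_mul_of_nonneg_right h2 (by positivity)
    _ = _ := h3.symm
    _ ≤ _ := Real.rpow_le_rpow (Nat.cast_nonneg _) h (by positivity)

lemma sh {u : ℕ} {L : ℝ} (hL : L ≤ (u : ℝ) ^ 25) {Ψ : Finset (ℤ × ℤ)} {q : ℤ} (q1 : 1 ≤ q)
    (q2 : (q : ℝ) ≤ L) (q3 : ∀ ψ ∈ Ψ, ψ.1 = q ∧ ∀ φ ∈ Ψ, ((ψ.2 - φ.2 : ℤ) : ℝ) ≤ L) : Sh u Ψ := by
  refine ⟨⟨q, q1, by exact_mod_cast q2.trans hL, fun ψ hψ => (q3 ψ hψ).1⟩, fun ψ hψ φ hφ => ?_⟩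
  have : ψ.2 - φ.2 ≤ (u : ℤ) ^ 25 := by exact_mod_cast ((q3 ψ hψ).2 φ hφ).trans hL
  exact sub_le_iff_le_add'.1 this

lemma fin2 {e d η E w W C : ℝ} (h : e ≤ d * η + w) (hd : 0 ≤ d) (hE : η ≤ E) (hw : w ≤ W)
    (hC : 0 ≤ C) (h0 : 0 ≤ d * E + W) : e ≤ (C + 1) * (d * E + W) := by
  have := mul_le_mul_of_nonneg_left hE hd
  have := mul_nonneg hC h0
  linarith

end Hlax

open Hlax in
theorem hla_st (h1 : Mert3St) (h2 : SingFSt) (h3 : TwoSt) : HlaSt := by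
  intro a b ok i0 A hA
  have hb1 : 1 ≤ b := le_trans (by norm_num) ok.1
  have ha1 : 1 ≤ a := le_trans (le_trans hb1 (Nat.le_mul_of_pos_left b (by norm_num))) ok.2
  obtain ⟨N, hN⟩ := eventually_atTop.1 (Eventually.and (h2 b ok.1) (Eventually.and (h3 a b ok)
    (Eventually.and (eventually_ge_atTop (b ^ 2 * 4 ^ 24)) (eventually_ge_atTop (2 * a)))))
  obtain ⟨j0, hbig⟩ := thr i0 N
  obtain ⟨-, hs2⟩ := hbig j0 le_rfl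
  have hs3 : 1 ≤ 2 ^ j0 := Nat.one_le_two_pow
  have hlev := fun x : ℝ => level hb1 j0 (x := x)
  generalize 2 ^ j0 = s0 at hs2 hs3 hlev
  have hM0 := one_le_M (w4 b s0) s0
  have hη : 0 < 32 * (s0 : ℝ) ^ 2 * er a s0 :=
    mul_pos (mul_pos (by norm_num) (pow_pos (Nat.cast_pos.2 hs3) 2)) (Real.exp_pos _)
  have hC0 : 0 ≤ MM (w4 b s0) s0 / (32 * (s0 : ℝ) ^ 2 * er a s0) :=
    div_nonneg (zero_le_one.trans hM0) hη.le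
  refine ⟨MM (w4 b s0) s0 / (32 * (s0 : ℝ) ^ 2 * er a s0) + 1, add_nonneg hC0 zero_le_one, ?_⟩
  intro x Ψ s t q f a0 q1 q2 q3
  have hx := f.1
  have hst := f.2.1
  have hd : (0 : ℝ) ≤ (t : ℝ) - s := sub_nonneg.2 (Nat.cast_le.2 hst)
  have hx0 : 0 ≤ x := zero_le_two.trans hx
  have hW0 : 0 ≤ x ^ (4 / (b : ℝ)) := Real.rpow_nonneg hx0 _
  have hL0 : 0 ≤ Real.log x := Real.log_nonneg (one_le_two.trans hx)
  have hR0 := add_nonneg (mul_nonneg hd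
    (Real.rpow_nonneg hx0 (-(1 / (2 * (a : ℝ) * b * 4 ^ 12))))) hW0
  rcases le_total x (X4 b (2 * s0)) with hb | hb
  · have hb' : x ≤ X4 b (4 * s0) :=
      hb.trans (Nat.cast_le.2 (X_mono b (Nat.mul_le_mul_right s0 (show 2 ≤ 4 by norm_num))))
    obtain ⟨g1, -, g3, g4⟩ := hN s0 hs2
    have hL := log_le hx hb'
    have hk : Ψ.card ≤ s0 := Nat.cast_le.1 (a0.trans (card_le g3 hb1 hL0 hL).1)
    obtain ⟨⟨S, hS⟩, hS2⟩ := g1 Ψ (adm hb' f.2.2.1 f.2.2.2.1) hk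
    obtain ⟨p0, p1⟩ := hS2 S hS
    exact ⟨S, hS, fin1 (dev_crude A f p0 hM0 (S_le h1 hs3 hk p1)) hd (zero_le_one.trans hM0) hη
      (er_le ha1 hb1 g4 hx hL) hW0 zero_le_one⟩
  · obtain ⟨j, hj, b1, b2⟩ := hlev x hb
    obtain ⟨t0, t2⟩ := hbig j hj
    have t1 : 1 ≤ 2 ^ j := Nat.one_le_two_pow
    have H1 : HL4 a b (2 ^ j) A := hA.hl j t0
    have H2 : HL4 a b (2 * 2 ^ j) A := by
      have := hA.hl (j + 1) (Nat.le_succ_of_le t0)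
      rwa [pow_succ'] at this
    generalize 2 ^ j = u at b1 b2 H1 H2 t1 t2
    obtain ⟨g1, g2, g3, g4⟩ := hN u t2
    have hL := log_le hx b2.le
    obtain ⟨c1, c2⟩ := card_le g3 hb1 hL0 hL
    have hk : Ψ.card ≤ u := Nat.cast_le.1 (a0.trans c1)
    have had := adm b2.le f.2.2.1 f.2.2.2.1
    have hR := mul_nonneg (add_nonneg hC0 zero_le_one) hR0
    rcases Ψ.eq_empty_or_nonempty with rfl | ⟨ψ0, hψ0⟩
    · exact ⟨1, sf_empty, (dev_empty A hst).trans_le hR⟩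
    obtain ⟨⟨S, hS⟩, -⟩ := g1 Ψ had hk
    refine ⟨S, hS, ?_⟩
    rcases hst.eq_or_lt with rfl | hlt
    · exact (dev_self A Ψ S s).trans_le hR
    have hval : ∀ m ∈ Ico s t, ∀ ψ ∈ Ψ,
        (X4 b u : ℤ) ≤ ψ.1 * m + ψ.2 ∧ ψ.1 * m + ψ.2 < X4 b (4 * u) := fun m hm ψ hψ =>
      vals b1 b2 (f.2.2.2.2 m hm ψ hψ).1 (f.2.2.2.2 m hm ψ hψ).2
    exact fin2 (g2 A Ψ S s t H1 H2 had (sh c2 q1 q2 q3) hk hS hst (t_le had hψ0 hlt hval) hval) hd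
      (er_le ha1 hb1 g4 hx hL) (W_le hb1 t1 b1) hC0 hR0

end Pool.Agent.Lib.MP_be93de_nt.He
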