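import Pool.Agent.Lib.MP_be93de_nt.He.Defs

/-! Gluing the levels: the count for boundedly many forms. -/

namespace Pool.Agent.Lib.MP_be93de_nt.He

open Finset Filter Pool.Agent.Lib.MP_be93de_nt.Hb
open Pool.Agent.Lib.MP_be93de_nt.Hc (one val nuF IsSF Adm Kall Kj)
open Pool.Agent.Lib.MP_be93de_nt.Hd (Y3 R3 er mean Part2P Mert3St)

namespace Hlbx

lemma half_lt_log {t : ℝ} (ht : 2 ≤ t) : 1 / 2 ≤ Real.log t := by
  have h1 := Real.log_two_gt_d9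
  have h2 := Real.log_le_log (by norm_num) ht
  linarith

lemma adm {Z : ℕ} {x : ℝ} (h : x ≤ Z) {Ψ : Finset (ℤ × ℤ)}
    (a1 : ∀ ψ ∈ Ψ, ψ.1 ≠ 0 ∧ Int.gcd ψ.1 ψ.2 = 1 ∧ ((|ψ.1| : ℤ) : ℝ) ≤ x ∧ ((|ψ.2| : ℤ) : ℝ) ≤ x)
    (a2 : ∀ ψ ∈ Ψ, ∀ φ ∈ Ψ, ψ ≠ φ → ψ.1 * φ.2 ≠ φ.1 * ψ.2) : Adm Z Ψ := by
  refine ⟨fun ψ hψ => ?_, a2⟩
  obtain ⟨b1, b2, b3, b4⟩ := a1 ψ hψ
  refine ⟨b1, b2, ?_, ?_⟩
  · exact_mod_cast b3.trans h
  · exact_mod_cast b4.trans h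

lemma crude {Ψ : Finset (ℤ × ℤ)} {u v : ℕ} (huv : u ≤ v) {x S M : ℝ} (hx : 2 ≤ x) (h0 : 0 ≤ S)
    (hM : 1 ≤ M) (hS : S * 2 ^ Ψ.card ≤ M) (T : Finset ℕ) (hT : T ⊆ Ico u v)
    (hv : ∀ m ∈ Ico u v, ∀ ψ ∈ Ψ, Real.sqrt x ≤ ((ψ.1 * m + ψ.2 : ℤ) : ℝ)) :
    |(T.card : ℝ) - S * ∑ m ∈ Ico u v, ∏ ψ ∈ Ψ, 1 / Real.log ((ψ.1 * m + ψ.2 : ℤ) : ℝ)| ≤
      ((v : ℝ) - u) * M := by
  have hc : ((Ico u v).card : ℝ) = (v : ℝ) - u := by rw [Nat.card_Ico, Nat.cast_sub huv]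
  have hd : (0 : ℝ) ≤ (v : ℝ) - u := by rw [← hc]; positivity
  have h1 : (T.card : ℝ) ≤ (v : ℝ) - u := by
    rw [← hc]; exact_mod_cast card_le_card hT
  have h2 : (0 : ℝ) ≤ T.card := Nat.cast_nonneg _
  have hl : ∀ m ∈ Ico u v, ∀ ψ ∈ Ψ, 1 / 2 ≤ Real.log ((ψ.1 * m + ψ.2 : ℤ) : ℝ) := by
    intro m hm ψ hψ
    have a1 : (1 : ℝ) < Real.sqrt x := Real.lt_sqrt_of_sq_lt (by linarith)
    have a2 : (1 : ℤ) < ψ.1 * m + ψ.2 := by exact_mod_cast a1.trans_le (hv m hm ψ hψ)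
    have a3 : (2 : ℤ) ≤ ψ.1 * m + ψ.2 := a2
    exact half_lt_log (by exact_mod_cast a3)
  have h3 : 0 ≤ ∑ m ∈ Ico u v, ∏ ψ ∈ Ψ, 1 / Real.log ((ψ.1 * m + ψ.2 : ℤ) : ℝ) :=
    sum_nonneg fun m hm => prod_nonneg fun ψ hψ => by
      have := hl m hm ψ hψ
      positivity
  have h4 : ∑ m ∈ Ico u v, ∏ ψ ∈ Ψ, 1 / Real.log ((ψ.1 * m + ψ.2 : ℤ) : ℝ) ≤
      ((v : ℝ) - u) * 2 ^ Ψ.card := by
    rw [← hc, ← nsmul_eq_mul]
    refine sum_le_card_nsmul _ _ _ fun m hm => ?_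
    rw [← prod_const]
    refine prod_le_prod (fun ψ hψ => ?_) (fun ψ hψ => ?_)
    · have := hl m hm ψ hψ
      positivity
    · have := hl m hm ψ hψ
      rw [div_le_iff₀ (by linarith)]
      linarith
  have h7 : S * ∑ m ∈ Ico u v, ∏ ψ ∈ Ψ, 1 / Real.log ((ψ.1 * m + ψ.2 : ℤ) : ℝ) ≤
      ((v : ℝ) - u) * M :=
    calc _ ≤ S * (((v : ℝ) - u) * 2 ^ Ψ.card) := mul_le_mul_of_nonneg_left h4 h0
      _ = ((v : ℝ) - u) * (S * 2 ^ Ψ.card) := by ring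
      _ ≤ _ := mul_le_mul_of_nonneg_left hS hd
  have h8 : (v : ℝ) - u ≤ ((v : ℝ) - u) * M := le_mul_of_one_le_right hd hM
  have h9 := mul_nonneg h0 h3
  rw [abs_le]
  constructor <;> linarith

lemma sf_empty : IsSF ∅ 1 := by
  unfold IsSF nuF
  simp

lemma v_le {Z : ℕ} {a b : ℤ} {m : ℕ} (ha : a ≠ 0) (hb : |b| ≤ Z) (h0 : 0 ≤ a * m + b)
    (h1 : a * m + b ≤ Z) : m ≤ 2 * Z := by
  have hb' := abs_le.1 hb
  have hm : (0 : ℤ) ≤ m := Int.natCast_nonneg m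
  have : (m : ℤ) ≤ 2 * Z := by
    rcases lt_or_gt_of_ne ha with h | h
    · have : a * m ≤ -1 * m := mul_le_mul_of_nonneg_right (by omega) hm
      omega
    · have : 1 * (m : ℤ) ≤ a * m := mul_le_mul_of_nonneg_right (by omega) hm
      omega
  exact_mod_cast this

lemma log_le {b s : ℕ} {x : ℝ} (hx : 2 ≤ x) (h : x ≤ X4 b (4 * s)) :
    Real.log x ≤ b * (4 * (s : ℝ)) ^ 12 := by
  have hl := Real.log_two_lt_d9
  refine (Real.log_le_log (by linarith) h).trans ?_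
  unfold X4
  push_cast
  rw [Real.log_pow]
  push_cast
  exact mul_le_of_le_one_right (by positivity) (by linarith)

lemma logpow_le {B b s : ℕ} (hb : b = 12 * (B + 1)) {x : ℝ} (hx : 2 ≤ x) (h : x ≤ X4 b (4 * s)) :
    Real.log x ^ (B + 1) ≤ ((b : ℝ) * 4 ^ 12) ^ (B + 1) * (s : ℝ) ^ b := by
  have h0 := half_lt_log hx
  calc Real.log x ^ (B + 1) ≤ (b * (4 * (s : ℝ)) ^ 12) ^ (B + 1) :=
        pow_le_pow_left₀ (by linarith) (log_le hx h) _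
    _ = ((b : ℝ) * 4 ^ 12) ^ (B + 1) * ((s : ℝ) ^ 12) ^ (B + 1) := by
        rw [← mul_pow, mul_pow (4 : ℝ), mul_assoc]
    _ = _ := by rw [← pow_mul, ← hb]

lemma big_le {B b s : ℕ} (hB : 1 ≤ B) (hb : b = 12 * (B + 1)) {x : ℝ}
    (h : (X4 b (2 * s) : ℝ) ≤ x) : W4 (2 * s) ≤ x ^ (1 / (B : ℝ)) := by
  have h0 : (0 : ℝ) ≤ W4 (2 * s) := by unfold W4; positivity
  have h1 : W4 (2 * s) ^ B ≤ x := by
    refine le_trans ?_ h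
    unfold W4 X4
    rw [← pow_mul, Nat.cast_pow, Nat.cast_ofNat]
    refine pow_le_pow_right₀ (by norm_num) ?_
    rw [mul_right_comm]
    exact Nat.mul_le_mul_right _ (by omega)
  have h3 : (W4 (2 * s) ^ B) ^ (1 / (B : ℝ)) ≤ x ^ (1 / (B : ℝ)) :=
    Real.rpow_le_rpow (by positivity) h1 (by positivity)
  rwa [one_div, Real.pow_rpow_inv_natCast h0 (by omega), ← one_div] at h3

lemma R_le (s : ℕ) : (R3 s : ℝ) ≤ W4 (2 * s) := by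
  unfold R3 W4
  rw [Nat.cast_pow, Nat.cast_ofNat]
  refine pow_le_pow_right₀ (by norm_num) ?_
  have : s ^ 12 ≤ (2 * s) ^ 12 := Nat.pow_le_pow_left (by omega) _
  omega

lemma X_mono (b : ℕ) {s t : ℕ} (h : s ≤ t) : X4 b s ≤ X4 b t :=
  Nat.pow_le_pow_right (by norm_num) (Nat.mul_le_mul_left _ (Nat.pow_le_pow_left h _))

lemma sq_le {b s : ℕ} {x : ℝ} (h : (X4 b (2 * s) : ℝ) ≤ x) : (X4 b s : ℝ) ≤ Real.sqrt x := by
  refine Real.le_sqrt_of_sq_le (le_trans ?_ h)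
  have : X4 b s ^ 2 ≤ X4 b (2 * s) := by
    unfold X4
    rw [← pow_mul]
    refine Nat.pow_le_pow_right (by norm_num) ?_
    rw [mul_pow, mul_assoc]
    exact Nat.mul_le_mul_left _ (by omega)
  exact_mod_cast this

lemma lt_X {b : ℕ} (hb : 1 ≤ b) (n : ℕ) : n < X4 b n := by
  have a2 : n ≤ n ^ 12 := Nat.le_self_pow (by norm_num) _
  have a3 : n ^ 12 ≤ b * n ^ 12 := Nat.le_mul_of_pos_left _ hb
  exact lt_of_le_of_lt (a2.trans a3) Nat.lt_two_pow_self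

lemma level {b : ℕ} (hb : 1 ≤ b) (j0 : ℕ) {x : ℝ} (hx : (X4 b (2 * 2 ^ j0) : ℝ) ≤ x) :
    ∃ j, j0 ≤ j ∧ (X4 b (2 * 2 ^ j) : ℝ) ≤ x ∧ x < X4 b (4 * 2 ^ j) := by
  classical
  have hex : ∃ n : ℕ, x < X4 b (4 * 2 ^ (j0 + n)) := by
    refine ⟨⌈x⌉₊, (Nat.le_ceil x).trans_lt (Nat.cast_lt.2 ?_)⟩
    have a1 : ⌈x⌉₊ ≤ 2 ^ (j0 + ⌈x⌉₊) :=
      (Nat.le_add_left _ _).trans (Nat.lt_two_pow_self).le
    have a3 := lt_X hb (4 * 2 ^ (j0 + ⌈x⌉₊))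
    omega
  refine ⟨j0 + Nat.find hex, Nat.le_add_right _ _, ?_, Nat.find_spec hex⟩
  rcases h : Nat.find hex with _ | n
  · exact hx
  · have := Nat.find_min hex (m := n) (by omega)
    rw [show 2 * 2 ^ (j0 + (n + 1)) = 4 * 2 ^ (j0 + n) by ring]
    exact not_lt.1 this

lemma one_le_inv (h1 : Mert3St) (w : ℕ) : (1 : ℝ) ≤ 2 * (th 0 w)⁻¹ := by
  have := (one_le_inv₀ (h1.1 0 w).1).2 (h1.1 0 w).2
  linarith

lemma S_le (h1 : Mert3St) {w B : ℕ} {Ψ : Finset (ℤ × ℤ)} (hk : Ψ.card ≤ B) {S e : ℝ} (he : e ≤ 1)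
    (h : |S * th 0 w ^ Ψ.card - ∏ p ∈ pr 0 w, (1 - (nuF Ψ p : ℝ) / p)| ≤ e) :
    S * 2 ^ Ψ.card ≤ 2 * (2 * (th 0 w)⁻¹) ^ B := by
  have hp := (h1.1 0 w).1
  have g1 : ∏ p ∈ pr 0 w, (1 - (nuF Ψ p : ℝ) / p) ≤ 1 := by
    refine prod_le_one (fun p _ => ?_) (fun p _ => ?_)
    · have : (nuF Ψ p : ℝ) ≤ p := by
        have : nuF Ψ p ≤ p := (card_filter_le _ _).trans (card_range p).le
        exact_mod_cast this
      have := div_le_one_of_le₀ this (Nat.cast_nonneg p)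
      linarith
    · have : (0 : ℝ) ≤ (nuF Ψ p : ℝ) / p := by positivity
      linarith
  have h3 : S * th 0 w ^ Ψ.card ≤ 2 := by
    have := (abs_le.1 h).2
    linarith
  have h5 : S ≤ 2 * (th 0 w)⁻¹ ^ Ψ.card := by
    rw [inv_pow, ← div_eq_mul_inv, le_div_iff₀ (pow_pos hp _)]
    exact h3
  calc S * 2 ^ Ψ.card ≤ 2 * (th 0 w)⁻¹ ^ Ψ.card * 2 ^ Ψ.card :=
        mul_le_mul_of_nonneg_right h5 (by positivity)
    _ = 2 * (2 * (th 0 w)⁻¹) ^ Ψ.card := by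
        rw [mul_assoc, ← mul_pow, mul_comm (th 0 w)⁻¹]
    _ ≤ _ := mul_le_mul_of_nonneg_left (pow_le_pow_right₀ (one_le_inv h1 w) hk) (by norm_num)

lemma vals {b s : ℕ} {x : ℝ} (b1 : (X4 b (2 * s) : ℝ) ≤ x) (b2 : x < X4 b (4 * s)) {z : ℤ}
    (c1 : Real.sqrt x ≤ (z : ℝ)) (c2 : (z : ℝ) ≤ x) : (X4 b s : ℤ) ≤ z ∧ z < X4 b (4 * s) := by
  have d1 := (sq_le b1).trans c1
  have d2 := c2.trans_lt b2
  generalize X4 b s = p at d1 ⊢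
  generalize X4 b (4 * s) = q at d2 ⊢
  exact ⟨by exact_mod_cast d1, by exact_mod_cast d2⟩

lemma thr (i0 N : ℕ) : ∃ j0, ∀ j, j0 ≤ j → i0 ≤ j ∧ N ≤ 2 ^ j :=
  ⟨i0 + N, fun j hj => ⟨by omega, le_trans (by omega) (Nat.lt_two_pow_self (n := j)).le⟩⟩

lemma small {d M L c K W : ℝ} (hd : 0 ≤ d) (hM : 0 ≤ M) (hL : 0 < L) (h : L ≤ c) (hK : 0 ≤ K)
    (hW : 0 ≤ W) : d * M ≤ (M * c + K) * (d / L + W) := by
  have h1 : 0 ≤ d / L := div_nonneg hd hL.le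
  have h2 : d * M = M * L * (d / L) := by field_simp
  have h3 : M * L ≤ M * c := mul_le_mul_of_nonneg_left h hM
  have h4 : 0 ≤ M * L := mul_nonneg hM hL.le
  rw [h2]
  exact mul_le_mul (by linarith) (by linarith) h1 (by linarith)

lemma fin {p q r d b U c L W w R K : ℝ} (g2 : |p - q| ≤ d * (4 * b / U) + 3 * w)
    (g1 : |q - r| ≤ d / U + R) (hd : 0 ≤ d) (hb : 0 ≤ b) (hU : 0 < U) (hL : 0 < L)
    (h : L ≤ c * U) (hR : R ≤ w) (hw : w ≤ W) (hW : 0 ≤ W) (hK : 0 ≤ K) :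
    |p - r| ≤ (K + ((4 * b + 1) * c + 4)) * (d / L + W) := by
  have h1 : 0 ≤ d / L := div_nonneg hd hL.le
  have hc : 0 ≤ c := by
    by_contra hc
    have := mul_neg_of_neg_of_pos (not_le.1 hc) hU
    linarith
  have h2 : d / U ≤ c * (d / L) := by
    rw [← mul_div_assoc, div_le_div_iff₀ hU hL]
    nlinarith [mul_le_mul_of_nonneg_left h hd]
  have h3 : d * (4 * b / U) = 4 * b * (d / U) := by ring
  have h4 := mul_le_mul_of_nonneg_left h2 (show 0 ≤ 4 * b + 1 by linarith)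
  have h5 := abs_sub_le p q r
  have h6 : 0 ≤ (4 * b + 1) * c * W := by positivity
  have h7 : 0 ≤ K * (d / L + W) := by positivity
  nlinarith

end Hlbx

open Hlbx in
theorem hlb_st (h1 : Mert3St) (h2 : SingFSt) (h3 : ArithFSt) (h4 : Tele4St) : HlbSt := by
  classical
  intro a B hB ok i0 A hA
  generalize hb : 12 * (B + 1) = b at ok hA
  have hb' : b = 12 * (B + 1) := hb.symm
  have hb1 : 1 ≤ b := by omega
  have hBb : B ≤ b := by omega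
  obtain ⟨N, hN⟩ := eventually_atTop.1 (Eventually.and (h2 b ok.1) (Eventually.and (h3 b ok.1)
    (Eventually.and (h4 a b ok) (eventually_ge_atTop b))))
  obtain ⟨j0, hbig⟩ := thr i0 N
  obtain ⟨-, hs2⟩ := hbig j0 le_rfl
  have hlev := fun x : ℝ => level hb1 j0 (x := x)
  generalize 2 ^ j0 = s0 at hs2 hlev
  have hM1 : (1 : ℝ) ≤ 2 * (2 * (th 0 (w4 b s0))⁻¹) ^ B := by
    have := one_le_pow₀ (one_le_inv h1 (w4 b s0)) (n := B)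
    linarith
  have hK0 : (0 : ℝ) ≤ (4 * b + 1) * ((b : ℝ) * 4 ^ 12) ^ (B + 1) + 4 := by positivity
  have hC0 : (0 : ℝ) ≤ 2 * (2 * (th 0 (w4 b s0))⁻¹) ^ B *
      (((b : ℝ) * 4 ^ 12) ^ (B + 1) * (s0 : ℝ) ^ b) :=
    mul_nonneg (zero_le_one.trans hM1) (by positivity)
  refine ⟨2 * (2 * (th 0 (w4 b s0))⁻¹) ^ B * (((b : ℝ) * 4 ^ 12) ^ (B + 1) * (s0 : ℝ) ^ b) +
    ((4 * b + 1) * ((b : ℝ) * 4 ^ 12) ^ (B + 1) + 4), add_nonneg hC0 hK0, ?_⟩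
  rintro x Ψ u v ⟨hx, huv, a1, a2, a3⟩ a0
  have hd : (0 : ℝ) ≤ (v : ℝ) - u := sub_nonneg.2 (Nat.cast_le.2 huv)
  have hL : 0 < Real.log x ^ (B + 1) := pow_pos (by linarith [half_lt_log hx]) _
  have hW0 : 0 ≤ x ^ (1 / (B : ℝ)) := Real.rpow_nonneg (by linarith) _
  unfold Dev
  rcases le_total x (X4 b (2 * s0)) with hx2 | hx2
  · have hx4 : x ≤ X4 b (4 * s0) :=
      hx2.trans (Nat.cast_le.2 (X_mono b (Nat.mul_le_mul_right _ (by norm_num))))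
    have hbs : b ≤ s0 := (hN s0 hs2).2.2.2
    obtain ⟨⟨S, hS⟩, hS2⟩ := (hN s0 hs2).1 Ψ (adm hx4 a1 a2) (a0.trans (hBb.trans hbs))
    obtain ⟨p0, p1⟩ := hS2 S hS
    have he : (1 : ℝ) / (4 * (s0 : ℝ) ^ (b + 1)) ≤ 1 := by
      have e1 : (1 : ℝ) ≤ s0 := by exact_mod_cast hb1.trans hbs
      have : (1 : ℝ) ≤ (s0 : ℝ) ^ (b + 1) := one_le_pow₀ e1
      rw [div_le_one (by positivity)]
      linarith
    refine ⟨S, hS, (crude huv hx p0 hM1 (S_le h1 a0 he p1) _ (filter_subset _ _)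
      (fun m hm ψ hψ => (a3 m hm ψ hψ).1)).trans ?_⟩
    exact small hd (zero_le_one.trans hM1) hL (logpow_le hb' hx hx4) hK0 hW0
  · obtain ⟨j, hj, b1, b2⟩ := hlev x hx2
    obtain ⟨t0, t2⟩ := hbig j hj
    have H1 : HL4 a b (2 ^ j) A := hA.hl j t0
    have H2 : HL4 a b (2 * 2 ^ j) A := by
      have := hA.hl (j + 1) (Nat.le_succ_of_le t0)
      rwa [pow_succ'] at this
    generalize 2 ^ j = s at b1 b2 H1 H2 t2
    have hbs : b ≤ s := (hN s t2).2.2.2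
    have hk : Ψ.card ≤ b := a0.trans hBb
    have had := adm b2.le a1 a2
    have hR := mul_nonneg (add_nonneg hC0 hK0) (add_nonneg (div_nonneg hd hL.le) hW0)
    rcases Ψ.eq_empty_or_nonempty with rfl | ⟨ψ0, hψ0⟩
    · refine ⟨1, sf_empty, le_trans (le_of_eq ?_) hR⟩
      simp [huv]
    obtain ⟨⟨S, hS⟩, -⟩ := (hN s t2).1 Ψ had (hk.trans hbs)
    refine ⟨S, hS, ?_⟩
    rcases huv.eq_or_lt with rfl | hlt
    · refine le_trans (le_of_eq ?_) hR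
      simp
    have hval : ∀ m ∈ Ico u v, ∀ ψ ∈ Ψ,
        (X4 b s : ℤ) ≤ ψ.1 * m + ψ.2 ∧ ψ.1 * m + ψ.2 < X4 b (4 * s) := fun m hm ψ hψ =>
      vals b1 b2 (a3 m hm ψ hψ).1 (a3 m hm ψ hψ).2
    have hv : v ≤ 2 * X4 b (4 * s) + 1 := by
      have hm : v - 1 ∈ Ico u v :=
        mem_Ico.2 ⟨Nat.le_sub_one_of_lt hlt, Nat.sub_lt (Nat.zero_lt_of_lt hlt) one_pos⟩
      obtain ⟨c1, c2⟩ := hval _ hm ψ0 hψ0
      exact Nat.le_add_of_sub_le (v_le (had.1 ψ0 hψ0).1 (had.1 ψ0 hψ0).2.2.2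
        (le_trans (Int.natCast_nonneg _) c1) c2.le)
    have g1 := (hN s t2).2.1 Ψ S u v had hk hS huv (fun m hm ψ hψ => (hval m hm ψ hψ).1)
    have g2 := (hN s t2).2.2.1 A Ψ u v H1 H2 had hk huv hv hval
    have hs0 : (0 : ℝ) < (s : ℝ) ^ b := pow_pos (by exact_mod_cast hb1.trans hbs) _
    exact fin g2 g1 hd (Nat.cast_nonneg _) hs0 hL (logpow_le hb' hx b2.le) (R_le s)
      (big_le hB hb' b1) hW0 hC0

end Pool.Agent.Lib.MP_be93de_nt.He
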