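import Pool.Agent.Lib.MP_be93de_nt.He.Defs

/-! One level of the construction, given the set built so far. -/

namespace Pool.Agent.Lib.MP_be93de_nt.He

open Finset Filter Pool.Agent.Lib.MP_be93de_nt.Hb
open Pool.Agent.Lib.MP_be93de_nt.Hc (one Adm Kall)
open Pool.Agent.Lib.MP_be93de_nt.Hd (er)

namespace Level4x

theorem small_sets {α : Type} [DecidableEq α] (B : Finset α) (s : ℕ) :
    (B.powerset.filter (fun Ψ => Ψ.card ≤ s)).card ≤ (B.card + 1) ^ s := by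
  have h1 : B.powerset.filter (fun Ψ => Ψ.card ≤ s) ⊆
      (range (s + 1)).biUnion (fun k => powersetCard k B) := by
    intro Ψ hΨ
    rw [mem_filter, mem_powerset] at hΨ
    exact mem_biUnion.2 ⟨Ψ.card, mem_range.2 (Nat.lt_succ_of_le hΨ.2),
      mem_powersetCard.2 ⟨hΨ.1, rfl⟩⟩
  refine (card_le_card h1).trans (card_biUnion_le.trans ?_)
  rw [add_pow]
  refine sum_le_sum fun k hk => ?_
  rw [card_powersetCard, one_pow, mul_one]
  have h2 : 1 ≤ s.choose k := Nat.choose_pos (Nat.le_of_lt_succ (mem_range.1 hk))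
  calc B.card.choose k ≤ B.card ^ k := Nat.choose_le_pow _ _
    _ = B.card ^ k * 1 := (mul_one _).symm
    _ ≤ B.card ^ k * s.choose k := Nat.mul_le_mul_left _ h2

noncomputable def box (Z : ℕ) : Finset (ℤ × ℤ) := Icc (-(Z : ℤ)) Z ×ˢ Icc (-(Z : ℤ)) Z

theorem box_card (Z : ℕ) : (box Z).card = (2 * Z + 1) ^ 2 := by
  have h : (Icc (-(Z : ℤ)) Z).card = 2 * Z + 1 := by
    rw [Int.card_Icc]; omega
  rw [box, card_product, h, sq]

open Classical in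
noncomputable def idx (Z s : ℕ) : Finset (Finset (ℤ × ℤ) × ℕ × ℕ) :=
  (((box Z).powerset.filter (fun Ψ => Ψ.card ≤ s)).filter (Adm Z)) ×ˢ
    (range (2 * Z + 2) ×ˢ range (2 * Z + 2))

theorem idx_card (Z s : ℕ) (hZ : 1 ≤ Z) : (idx Z s).card ≤ (4 * Z) ^ (2 * (s + 1)) := by
  classical
  have h1 : (idx Z s).card ≤ ((2 * Z + 1) ^ 2 + 1) ^ s * ((2 * Z + 2) * (2 * Z + 2)) := by
    rw [idx, card_product, card_product, card_range]
    refine Nat.mul_le_mul_right _ ((card_filter_le _ _).trans ?_)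
    rw [← box_card]; exact small_sets _ _
  have h2 : (2 * Z + 1) ^ 2 + 1 ≤ (4 * Z) ^ 2 := by nlinarith
  have h3 : (2 * Z + 2) * (2 * Z + 2) ≤ (4 * Z) ^ 2 := by nlinarith
  calc (idx Z s).card ≤ ((4 * Z) ^ 2) ^ s * (4 * Z) ^ 2 :=
        h1.trans (Nat.mul_le_mul (Nat.pow_le_pow_left h2 s) h3)
    _ = (4 * Z) ^ (2 * (s + 1)) := by rw [← pow_succ, ← pow_mul]

theorem expo (b s : ℕ) (hb : 1 ≤ b) (hs : 134217728 * b ≤ s) :
    (2 + b * (4 * s) ^ 12) * (2 * (s + 1)) ≤ s ^ 14 := by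
  have h0 : 1 ≤ s := by omega
  have h1 : 1 ≤ b * s ^ 12 := Nat.mul_pos hb (Nat.one_le_pow _ _ h0)
  have h2 : b * (4 * s) ^ 12 = 16777216 * (b * s ^ 12) := by rw [mul_pow]; ring
  have h3 : 2 + b * (4 * s) ^ 12 ≤ 33554432 * (b * s ^ 12) := by omega
  calc (2 + b * (4 * s) ^ 12) * (2 * (s + 1)) ≤ (33554432 * (b * s ^ 12)) * (4 * s) :=
        Nat.mul_le_mul h3 (by omega)
    _ = (134217728 * b) * (s ^ 12 * s) := by ring
    _ ≤ s * (s ^ 12 * s) := Nat.mul_le_mul_right _ hs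
    _ = s ^ 14 := by ring

theorem idx_card' (b s : ℕ) (hb : 1 ≤ b) (hs : 134217728 * b ≤ s) :
    (idx (X4 b (4 * s)) s).card ≤ 2 ^ (s ^ 14) := by
  have h1 : 1 ≤ X4 b (4 * s) := Nat.one_le_two_pow
  refine (idx_card _ s h1).trans ?_
  have h2 : 4 * X4 b (4 * s) = 2 ^ (2 + b * (4 * s) ^ 12) := by
    rw [pow_add, X4, show (2 : ℕ) ^ 2 = 4 from rfl]
  rw [h2, ← pow_mul]
  exact Nat.pow_le_pow_right (by norm_num) (expo b s hb hs)

theorem mem_idx {Z s : ℕ} {τ : Finset (ℤ × ℤ) × ℕ × ℕ} (h : τ ∈ idx Z s) :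
    τ.1.card ≤ s ∧ Adm Z τ.1 := by
  classical
  rw [idx, mem_product, mem_filter, mem_filter] at h
  exact ⟨h.1.1.2, h.1.2⟩

theorem idx_mem {Z s u v : ℕ} {Ψ : Finset (ℤ × ℤ)} (h1 : Adm Z Ψ) (h2 : Ψ.card ≤ s) (h3 : u ≤ v)
    (h4 : v ≤ 2 * Z + 1) : (Ψ, u, v) ∈ idx Z s := by
  classical
  rw [idx, mem_product, mem_filter, mem_filter, mem_powerset, mem_product, mem_range, mem_range]
  refine ⟨⟨⟨fun ψ hψ => ?_, h2⟩, h1⟩, by show u < 2 * Z + 2; omega, by show v < 2 * Z + 2; omega⟩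
  obtain ⟨-, -, a1, a2⟩ := h1.1 ψ hψ
  exact mem_product.2 ⟨mem_Icc.2 (abs_le.1 a1), mem_Icc.2 (abs_le.1 a2)⟩

theorem one_mem (A : Set ℕ) (K : Finset ℕ) : 0 ≤ one A K ∧ one A K ≤ 1 := by
  unfold one
  split_ifs <;> norm_num

theorem one_congr {A A' : Set ℕ} {K : Finset ℕ} (h : ∀ t ∈ K, t ∈ A ↔ t ∈ A') :
    one A K = one A' K := by
  have e : (∀ t ∈ K, t ∈ A) ↔ ∀ t ∈ K, t ∈ A' :=
    ⟨fun H t ht => (h t ht).1 (H t ht), fun H t ht => (h t ht).2 (H t ht)⟩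
  unfold one
  by_cases h1 : ∀ t ∈ K, t ∈ A
  · rw [if_pos h1, if_pos (e.1 h1)]
  · rw [if_neg h1, if_neg fun h2 => h1 (e.2 h2)]

theorem hits {Ψ : Finset (ℤ × ℤ)} (hΨ : ∀ ψ ∈ Ψ, ψ.1 ≠ 0) (M : Finset ℕ) (b s t : ℕ) :
    (M.filter (fun m => t ∈ inS4 b s (Kall Ψ m))).card ≤ Ψ.card := by
  have h1 : M.filter (fun m => t ∈ inS4 b s (Kall Ψ m)) ⊆
      Ψ.biUnion (fun ψ => M.filter (fun m => Hc.val ψ m = t ∧ 1 ≤ t)) := by
    intro m hm
    rw [mem_filter, inS4, mem_filter, Kall, mem_image] at hm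
    obtain ⟨hm1, ⟨ψ, hψ, e⟩, h2, -⟩ := hm
    have h3 : 1 ≤ X4 b s := Nat.one_le_two_pow
    exact mem_biUnion.2 ⟨ψ, hψ, mem_filter.2 ⟨hm1, e, h3.trans h2⟩⟩
  refine (card_le_card h1).trans ?_
  have h2 := card_biUnion_le_card_mul Ψ (fun ψ => M.filter (fun m => Hc.val ψ m = t ∧ 1 ≤ t)) 1
    fun ψ hψ => card_le_one.2 fun m hm m' hm' => by
      obtain ⟨e1, e2⟩ := (mem_filter.1 hm).2
      obtain ⟨e3, -⟩ := (mem_filter.1 hm').2
      unfold Hc.val at e1 e3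
      have e4 : ψ.1 * m = ψ.1 * m' := by omega
      exact_mod_cast mul_left_cancel₀ (hΨ ψ hψ) e4
  rwa [mul_one] at h2

theorem inS_self {b u : ℕ} {K : Finset ℕ} (h : K ⊆ Ico (X4 b u) (X4 b (2 * u))) :
    inS4 b u K = K := filter_true_of_mem fun _ ht => mem_Ico.1 (h ht)

theorem gam_self {b u : ℕ} {K : Finset ℕ} (P : Set ℕ) (h : K ⊆ Ico (X4 b u) (X4 b (2 * u))) :
    gam4 b u P K = 1 := by
  have e1 : K.filter (· < X4 b u) = ∅ :=
    filter_false_of_mem fun t ht => not_lt.2 (mem_Ico.1 (h ht)).1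
  have e2 : K.filter (X4 b (2 * u) ≤ ·) = ∅ :=
    filter_false_of_mem fun t ht => not_le.2 (mem_Ico.1 (h ht)).2
  unfold gam4 one
  rw [e1, e2, prod_empty, if_pos (fun t ht => absurd ht (notMem_empty t)), mul_one]

end Level4x

open Level4x

theorem level4_st (h1 : Stage4St) (h2 : Wt4St) : Level4St := by
  intro a b hab
  have ht : Tendsto (fun s : ℕ => 2 * s) atTop atTop :=
    tendsto_atTop_mono (fun s => by show s ≤ 2 * s; omega) tendsto_id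
  have hb : 1 ≤ b := le_trans (by norm_num) hab.1
  filter_upwards [h1 a b hab, ht.eventually (h2 b hab.1), eventually_ge_atTop (134217728 * b)]
    with s hS hW hs r P
  have hw : ∀ t, X4 b (2 * s) ≤ t → 0 ≤ wt4 b (2 * s) t ∧ wt4 b (2 * s) t ≤ 1 := by
    intro t h
    refine ⟨(hW.2.2.1 t h).1, (hW.2.2.1 t h).2.trans ?_⟩
    have k1 : (1 : ℝ) ≤ ((2 * s : ℕ) : ℝ) := by exact_mod_cast (by omega : 1 ≤ 2 * s)
    exact (div_le_one (by positivity)).2 (one_le_pow₀ k1)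
  obtain ⟨F, hF, hI⟩ := hS r (Finset (ℤ × ℤ) × ℕ × ℕ) (idx (X4 b (4 * s)) s)
    (fun τ => Ico τ.2.1 τ.2.2) (fun τ m => inS4 b s (Kall τ.1 m))
    (fun τ m => gam4 b s P (Kall τ.1 m)) (idx_card' b s hb hs)
    (by
      intro τ hτ m _
      have k1 : 0 ≤ ∏ t ∈ (Kall τ.1 m).filter (X4 b (2 * s) ≤ ·), wt4 b (2 * s) t :=
        prod_nonneg fun t h => (hw t (mem_filter.1 h).2).1
      have k2 : ∏ t ∈ (Kall τ.1 m).filter (X4 b (2 * s) ≤ ·), wt4 b (2 * s) t ≤ 1 :=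
        prod_le_one (fun t h => (hw t (mem_filter.1 h).2).1) fun t h => (hw t (mem_filter.1 h).2).2
      have k3 := one_mem P ((Kall τ.1 m).filter (· < X4 b s))
      refine ⟨((card_filter_le _ _).trans card_image_le).trans (mem_idx hτ).1,
        fun t h => mem_Ico.2 (mem_filter.1 h).2, mul_nonneg k3.1 k1, ?_⟩
      exact mul_le_one₀ k3.2 k1 k2)
    (fun τ hτ t => (hits (fun ψ hψ => ((mem_idx hτ).2.1 ψ hψ).1) _ b s t).trans (mem_idx hτ).1)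
  refine ⟨F, hF, fun A hA hAg Ψ u v a1 a2 a3 a4 => ?_⟩
  have k1 := hI (Ψ, u, v) (idx_mem a1 a2 a3 a4)
  have k2 : ∀ m, gam4 b s A (Kall Ψ m) = gam4 b s P (Kall Ψ m) := fun m => by
    unfold gam4
    rw [one_congr (A := A) (A' := P) fun t h => hA t (mem_filter.1 h).2]
  have k3 : ∀ m, one A (inS4 b s (Kall Ψ m)) = one (F : Set ℕ) (inS4 b s (Kall Ψ m)) := fun m =>
    one_congr fun t h => (hAg t (mem_filter.1 h).2.1 (mem_filter.1 h).2.2).trans mem_coe.symm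
  have k4 : ((Ico u v).card : ℝ) = (v : ℝ) - u := by rw [Nat.card_Ico, Nat.cast_sub a3]
  refine ⟨fun hc => ?_, fun hc => ?_⟩
  · simp only [k2, k3]
    rw [← k4]
    exact k1.1 fun m _ => ((card_filter_le _ _).trans card_image_le).trans hc
  · have k5 := k1.2 fun m hm => by
      show Short s (inS4 b s (Kall Ψ m))
      rw [inS_self (hc m hm).1]; exact (hc m hm).2
    have k6 : ∑ m ∈ Ico u v, (one A (Kall Ψ m) -
        psi4 b s (Kall Ψ m).card * ∏ n ∈ Kall Ψ m, wt4 b s n) =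
        ∑ m ∈ Ico u v, gam4 b s P (Kall Ψ m) * (one (F : Set ℕ) (inS4 b s (Kall Ψ m)) -
          psi4 b s (inS4 b s (Kall Ψ m)).card * ∏ n ∈ inS4 b s (Kall Ψ m), wt4 b s n) :=
      sum_congr rfl fun m hm => by
        rw [← k3 m, gam_self P (hc m hm).1, inS_self (hc m hm).1, one_mul]
    rw [k6, ← k4]
    exact k5

end Pool.Agent.Lib.MP_be93de_nt.He
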