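import Pool.Agent.Lib.MP_be93de_nt.He.Defs

namespace Pool.Agent.Lib.MP_be93de_nt.He

open Finset Filter Pool.Agent.Lib.MP_be93de_nt.Hb
open Pool.Agent.Lib.MP_be93de_nt.Hd (Y3 R3 Mert3St)

namespace Many4x

theorem log_le (s : ℕ) (hs : 20000 ≤ s) : Real.log s ≤ 98 + (s : ℝ) / 100 := by
  have h0 : (20000 : ℝ) ≤ s := by exact_mod_cast hs
  have e : (s : ℝ) = 100 * ((s : ℝ) / 100) := by ring
  have h4 : Real.log s = Real.log 100 + Real.log ((s : ℝ) / 100) := by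
    rw [← Real.log_mul (by norm_num) (by positivity), ← e]
  have h5 := Real.log_le_sub_one_of_pos (show (0 : ℝ) < 100 by norm_num)
  have h6 := Real.log_le_sub_one_of_pos (show (0 : ℝ) < (s : ℝ) / 100 by positivity)
  linarith

theorem log_pow_le (s c : ℕ) (hc : 1 ≤ c) (hs : 4 * c ^ 2 + 2 ≤ s) :
    1 + Real.log ((s ^ c : ℕ) : ℝ) ≤ s := by
  have h0 : 4 * (c : ℝ) ^ 2 + 2 ≤ s := by exact_mod_cast hs
  have hc0 : (0 : ℝ) < c := by exact_mod_cast hc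
  have hs0 : (0 : ℝ) < s := by nlinarith
  have e : (s : ℝ) = (2 * c) * ((s : ℝ) / (2 * c)) := by field_simp
  have h4 : Real.log s = Real.log (2 * c) + Real.log ((s : ℝ) / (2 * c)) := by
    rw [← Real.log_mul (by positivity) (by positivity), ← e]
  have h5 := Real.log_le_sub_one_of_pos (show (0 : ℝ) < 2 * c by positivity)
  have h6 := Real.log_le_sub_one_of_pos (show (0 : ℝ) < (s : ℝ) / (2 * c) by positivity)
  have h7 : Real.log s ≤ 2 * c + (s : ℝ) / (2 * c) := by linarith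
  have h8 := mul_le_mul_of_nonneg_left h7 hc0.le
  have h9 : (c : ℝ) * (2 * c + (s : ℝ) / (2 * c)) = 2 * (c : ℝ) ^ 2 + s / 2 := by
    field_simp
  rw [Nat.cast_pow, Real.log_pow]
  linarith

theorem tail_le (s : ℕ) (hs : 1 ≤ s) {L : ℝ} (h0 : 0 ≤ L) (hL : L ≤ (s : ℝ) / 6) :
    L ^ s / s.factorial ≤ 1 / 2 ^ s := by
  have hs0 : (0 : ℝ) < s := by exact_mod_cast hs
  have hf : (0 : ℝ) < s.factorial := by exact_mod_cast s.factorial_pos
  have h1 := Real.pow_div_factorial_le_exp (s : ℝ) hs0.le s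
  have h2 : Real.exp s ≤ 3 ^ s := by
    rw [← Real.exp_one_pow]
    exact pow_le_pow_left₀ (Real.exp_pos 1).le (Real.exp_one_lt_d9.le.trans (by norm_num)) s
  have h3 : L ^ s ≤ (s : ℝ) ^ s / 6 ^ s := by
    rw [← div_pow]; exact pow_le_pow_left₀ h0 hL s
  have h4 : (s : ℝ) ^ s ≤ 3 ^ s * s.factorial := (div_le_iff₀ hf).1 (h1.trans h2)
  have h6 : (6 : ℝ) ^ s = 2 ^ s * 3 ^ s := by rw [← mul_pow]; norm_num
  have h7 : L ^ s * 2 ^ s ≤ s.factorial := by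
    rw [le_div_iff₀ (by positivity), h6] at h3
    have h8 : (0 : ℝ) < 3 ^ s := by positivity
    refine le_of_mul_le_mul_right ?_ h8
    nlinarith
  rw [div_le_div_iff₀ hf (by positivity)]
  linarith

theorem exp_le (s : ℕ) (hs : 10000 ≤ s) : 4 * (Real.exp 42 * s) ≤ 2 ^ s := by
  have h2 : Real.exp 42 ≤ 4 ^ 42 := by
    have e : Real.exp 42 = Real.exp 1 ^ 42 := by rw [Real.exp_one_pow]; norm_num
    rw [e]
    exact pow_le_pow_left₀ (Real.exp_pos 1).le (Real.exp_one_lt_d9.le.trans (by norm_num)) 42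
  obtain ⟨k, rfl⟩ : ∃ k, s = 87 + k := ⟨s - 87, by omega⟩
  have h3 : (k : ℝ) + 1 ≤ 2 ^ k := by exact_mod_cast Nat.lt_two_pow_self
  have h4 : (100 : ℝ) ≤ k := by exact_mod_cast (by omega : 100 ≤ k)
  have h5 : ((87 + k : ℕ) : ℝ) ≤ 2 * 2 ^ k := by
    push_cast
    linarith
  have h6 := mul_le_mul h2 h5 (Nat.cast_nonneg _) (by positivity)
  have h7 : (2 : ℝ) ^ (87 + k) = 4 * (4 ^ 42 * (2 * 2 ^ k)) := by
    rw [pow_add]
    ring
  rw [h7]
  linarith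

end Many4x

theorem many4_st (h1 : Mert3St) (h2 : BonfSt) : Many4St := by
  intro b
  obtain ⟨c, hc⟩ : ∃ c, c = 2 * b + 60 := ⟨_, rfl⟩
  have hc1 : 1 ≤ c := by omega
  filter_upwards [eventually_ge_atTop 20000, eventually_ge_atTop (4 * c ^ 2 + 2),
    eventually_ge_atTop (c + 1)] with s hs hsc hsc' T
  unfold w4
  rw [← hc]
  have hs1 : 1 ≤ s := by omega
  have hs0 : (0 : ℝ) < s := by exact_mod_cast hs1
  have hsr : (20000 : ℝ) ≤ s := by exact_mod_cast hs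
  have p7 : 4 ≤ s ^ 12 := le_trans (by omega) (Nat.le_self_pow (by norm_num) s)
  have p8 : s ^ 12 + 4 ≤ 2 * s ^ 12 := by omega
  have p2 : s + (s ^ 3 + 1) ≤ 2 * s ^ 12 := by
    have c1 : s ^ 3 ≤ s ^ 12 := Nat.pow_le_pow_right hs1 (by norm_num)
    have c2 : s ^ 2 ≤ s ^ 12 := Nat.pow_le_pow_right hs1 (by norm_num)
    have c3 : s ^ 2 = s * s := sq s
    nlinarith
  have p3 : s ^ 3 = s * s * s := by ring
  have hY : 2 * (3 * R3 s + 3) ≤ Y3 s := by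
    have c1 : 2 ^ (s ^ 12 + 4) ≤ Y3 s := Nat.pow_le_pow_right (by norm_num) p8
    have c2 : 0 < R3 s := Nat.two_pow_pos _
    have c3 : 2 ^ (s ^ 12 + 4) = R3 s * 16 := pow_add 2 _ 4
    omega
  obtain ⟨L, hL⟩ : ∃ L, Y3 s = 3 * R3 s + 3 + L := ⟨Y3 s - (3 * R3 s + 3), by omega⟩
  have hlw := Many4x.log_pow_le s c hc1 hsc
  have hw2 : s ^ c ≤ 2 ^ (c * s) := by
    rw [mul_comm, pow_mul]
    exact Nat.pow_le_pow_left Nat.lt_two_pow_self.le c
  generalize s ^ c = w at hlw hw2 ⊢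
  have hB := h2 (pr 0 w) (fun _ => {0}) (T + 3 * R3 s + 3) L s
    (fun p hp => (mem_filter.1 hp).2)
    (fun p hp => singleton_subset_iff.2 (mem_range.2 (mem_filter.1 hp).2.pos))
  simp only [card_singleton, Nat.cast_one, sum_const, nsmul_eq_mul, mul_one] at hB
  have w0 : (0 : ℝ) < 2 ^ s := by positivity
  have a1 : 4 * (1 / 2 ^ s) ≤ ∏ p ∈ pr 0 w, (1 - 1 / (p : ℝ)) := by
    have c0 : 0 < th 0 w := (h1.1 _ _).1
    have c1 := (h1.2.2.2 w).2
    have c2 := Many4x.exp_le s (by omega)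
    have c4 : Real.exp 40 * (1 + Real.log w) ≤ Real.exp 42 * s :=
      (mul_le_mul_of_nonneg_left hlw (Real.exp_pos _).le).trans
        (mul_le_mul_of_nonneg_right (Real.exp_le_exp.2 (by norm_num)) hs0.le)
    have c3 : 4 * (th 0 w)⁻¹ ≤ 2 ^ s := by linarith
    rw [← div_eq_mul_inv, div_le_iff₀ c0] at c3
    show _ ≤ th 0 w
    rw [mul_one_div, div_le_iff₀ w0]
    linarith
  have a0 : ∑ p ∈ pr 0 w, 1 / (p : ℝ) ≤ (s : ℝ) / 6 := by
    have c1 := h1.2.1 0 w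
    have c2 : Real.log (1 + Real.log w) ≤ Real.log s :=
      Real.log_le_log (by have := Real.log_natCast_nonneg w; linarith) hlw
    have c3 := Many4x.log_le s hs
    linarith
  have a2 := Many4x.tail_le s hs1 (sum_nonneg fun p _ => by positivity) a0
  have a3 : (1 + ((pr 0 w).card : ℝ)) ^ s ≤ 2 ^ (s ^ 3) := by
    have c1 : (pr 0 w).card ≤ w - 0 := (card_filter_le _ _).trans_eq (Nat.card_Ioc _ _)
    have c2 : 0 < 2 ^ (c * s) := by positivity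
    have c4 : 1 + (pr 0 w).card ≤ 2 ^ (c * s + 1) := by
      rw [pow_succ]
      omega
    have c5 : (2 ^ (c * s + 1)) ^ s ≤ 2 ^ (s ^ 3) := by
      rw [← pow_mul, p3]
      exact Nat.pow_le_pow_right (by norm_num) (Nat.mul_le_mul_right s (by nlinarith))
    exact_mod_cast (Nat.pow_le_pow_left c4 s).trans c5
  have a4 : ((s ^ 5 : ℕ) : ℝ) ≤ 2 ^ (s ^ 3) := by
    have c1 : s ^ 5 ≤ (2 ^ s) ^ 5 := Nat.pow_le_pow_left Nat.lt_two_pow_self.le 5
    have c2 : (2 ^ s) ^ 5 ≤ 2 ^ (s ^ 3) := by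
      rw [← pow_mul, p3, mul_assoc]
      exact Nat.pow_le_pow_right (by norm_num) (Nat.mul_le_mul_left s (by nlinarith))
    exact_mod_cast c1.trans c2
  have a5 : (2 : ℝ) ^ (s ^ 3) ≤ L * (1 / 2 ^ s) := by
    have c1 : 2 ^ (s + (s ^ 3 + 1)) ≤ Y3 s := Nat.pow_le_pow_right (by norm_num) p2
    rw [pow_add, pow_succ 2 (s ^ 3)] at c1
    have c2 : 2 ^ (s ^ 3) * 2 ^ s ≤ L := by nlinarith
    rw [mul_one_div, le_div_iff₀ w0]
    exact_mod_cast c2
  have hN : (0 : ℝ) ≤ L := Nat.cast_nonneg L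
  have a6 := mul_le_mul_of_nonneg_left a1 hN
  have a7 := mul_le_mul_of_nonneg_left a2 hN
  have a8 := (abs_le.1 hB).1
  have a9 : 2 * (L : ℝ) * (∑ p ∈ pr 0 w, 1 / (p : ℝ)) ^ s / s.factorial =
      2 * (L * ((∑ p ∈ pr 0 w, 1 / (p : ℝ)) ^ s / s.factorial)) := by ring
  have e : (Ico (T + 3 * R3 s + 3) (T + Y3 s)).filter (Free 0 w) =
      (Ico (T + 3 * R3 s + 3) (T + 3 * R3 s + 3 + L)).filter
        (fun m => ∀ p ∈ pr 0 w, m % p ∉ ({0} : Finset ℕ)) := by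
    ext m
    simp only [mem_filter, mem_Ico, Free, mem_singleton, Nat.dvd_iff_mod_eq_zero, hL, add_assoc]
  rw [e]
  have fin : ((s ^ 5 : ℕ) : ℝ) ≤ (((Ico (T + 3 * R3 s + 3) (T + 3 * R3 s + 3 + L)).filter
        (fun m => ∀ p ∈ pr 0 w, m % p ∉ ({0} : Finset ℕ))).card : ℝ) := by
    linarith
  exact_mod_cast fin

end Pool.Agent.Lib.MP_be93de_nt.He
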