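import Pool.Agent.Lib.MP_be93de_nt.He.Defs

/-! Short tuples inside one level. -/

namespace Pool.Agent.Lib.MP_be93de_nt.He

open Finset Filter Pool.Agent.Lib.MP_be93de_nt.Hb
open Pool.Agent.Lib.MP_be93de_nt.Hc (one val nuF IsSF Adm Kall Kj)
open Pool.Agent.Lib.MP_be93de_nt.Hd (Y3 R3 er mean Part2P)

namespace Onex

theorem val_cast {ψ : ℤ × ℤ} {m : ℕ} (h : 0 ≤ ψ.1 * m + ψ.2) :
    ((val ψ m : ℕ) : ℤ) = ψ.1 * m + ψ.2 := Int.toNat_of_nonneg h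

theorem inj {u : ℕ} {Ψ : Finset (ℤ × ℤ)} (h : Sh u Ψ) {m : ℕ}
    (h0 : ∀ ψ ∈ Ψ, 0 ≤ ψ.1 * m + ψ.2) : Set.InjOn (fun ψ => val ψ m) (Ψ : Set (ℤ × ℤ)) := by
  intro ψ hψ φ hφ e
  obtain ⟨q, _, _, hq⟩ := h.1
  have e1 : ((val ψ m : ℕ) : ℤ) = ((val φ m : ℕ) : ℤ) := congrArg _ e
  rw [val_cast (h0 ψ hψ), val_cast (h0 φ hφ), hq ψ hψ, hq φ hφ] at e1
  exact Prod.ext ((hq ψ hψ).trans (hq φ hφ).symm) (by omega)

theorem short {u : ℕ} {Ψ : Finset (ℤ × ℤ)} (h : Sh u Ψ) {m : ℕ}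
    (h0 : ∀ ψ ∈ Ψ, 0 ≤ ψ.1 * m + ψ.2) : Short u (Kall Ψ m) := by
  intro x hx y hy
  obtain ⟨ψ, hψ, rfl⟩ := mem_image.1 hx
  obtain ⟨φ, hφ, rfl⟩ := mem_image.1 hy
  obtain ⟨q, _, _, hq⟩ := h.1
  have e1 := val_cast (h0 ψ hψ)
  have e2 := val_cast (h0 φ hφ)
  have e3 := h.2 ψ hψ φ hφ
  rw [hq ψ hψ] at e1
  rw [hq φ hφ] at e2
  have e4 : ((val ψ m : ℕ) : ℤ) ≤ ((val φ m + u ^ 25 : ℕ) : ℤ) := by
    push_cast
    rw [e1, e2]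
    linarith
  exact_mod_cast e4

open Classical in
theorem count (A : Set ℕ) (Ψ : Finset (ℤ × ℤ)) (I : Finset ℕ) :
    ((I.filter (fun m : ℕ => ∀ ψ ∈ Ψ, (ψ.1 * m + ψ.2).toNat ∈ A)).card : ℝ) =
      ∑ m ∈ I, one A (Kall Ψ m) := by
  rw [card_filter]
  push_cast
  refine sum_congr rfl fun m _ => ?_
  unfold one Kall
  refine if_congr ?_ rfl rfl
  rw [forall_mem_image]
  exact Iff.rfl

end Onex

theorem one_st (h : ArithSSt) : OneSt := by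
  intro a b ok
  filter_upwards [h a b ok, eventually_ge_atTop 1] with u hu u1
  intro A Ψ S s t hA hadm hsh hk hS hst ht hv
  have h0 : ∀ m ∈ Ico s t, ∀ ψ ∈ Ψ, 0 ≤ ψ.1 * m + ψ.2 := fun m hm ψ hψ =>
    le_trans (Int.natCast_nonneg _) (hv m hm ψ hψ).1
  have h1 := (hA Ψ s t hadm hk hst ht).2 fun m hm => ⟨fun x hx => by
    obtain ⟨ψ, hψ, rfl⟩ := mem_image.1 hx
    have e := Onex.val_cast (h0 m hm ψ hψ)
    have e2 := hv m hm ψ hψ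
    rw [← e] at e2
    exact mem_Ico.2 ⟨by exact_mod_cast e2.1, by exact_mod_cast e2.2⟩, Onex.short hsh (h0 m hm)⟩
  have h2 := hu Ψ S s t hadm hsh hk hS hst fun m hm ψ hψ => (hv m hm ψ hψ).1
  have e : ∑ m ∈ Ico s t, (one A (Kall Ψ m) -
      psi4 b u (Kall Ψ m).card * ∏ n ∈ Kall Ψ m, wt4 b u n) =
      ∑ m ∈ Ico s t, one A (Kall Ψ m) -
        ∑ m ∈ Ico s t, psi4 b u Ψ.card * ∏ ψ ∈ Ψ, wt4 b u (val ψ m) := by
    rw [← sum_sub_distrib]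
    refine sum_congr rfl fun m hm => ?_
    have i := Onex.inj hsh (h0 m hm)
    have c : (Kall Ψ m).card = Ψ.card := card_image_of_injOn i
    have p : ∏ n ∈ Kall Ψ m, wt4 b u n = ∏ ψ ∈ Ψ, wt4 b u (val ψ m) := prod_image i
    rw [c, p]
  rw [e] at h1
  unfold Dev
  rw [Onex.count]
  have u1' : (1 : ℝ) ≤ u := by exact_mod_cast u1
  have st : (0 : ℝ) ≤ (t : ℝ) - s := sub_nonneg.2 (by exact_mod_cast hst)
  have er0 : 0 ≤ er a u := (Real.exp_pos _).le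
  have r1 : (R3 u : ℝ) ≤ W4 u := by
    unfold R3 W4
    rw [Nat.cast_pow, Nat.cast_ofNat]
    exact pow_le_pow_right₀ (by norm_num) (by omega)
  have w0 : 0 ≤ W4 u := le_trans (Nat.cast_nonneg _) r1
  have r2 : W4 u ≤ u * W4 u := le_mul_of_one_le_left w0 u1'
  have r3 : ((t : ℝ) - s) * (2 * er a u) ≤ ((t : ℝ) - s) * (2 * (u : ℝ) ^ 2 * er a u) :=
    mul_le_mul_of_nonneg_left (mul_le_mul_of_nonneg_right (by nlinarith) er0) st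
  rw [abs_le] at h1 h2 ⊢
  constructor <;> linarith [h1.1, h1.2, h2.1, h2.2]

end Pool.Agent.Lib.MP_be93de_nt.He
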