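import Pool.Agent.Lib.MP_be93de_nt.He.Defs

/-! The blocks of one level are chosen one after the other. -/

namespace Pool.Agent.Lib.MP_be93de_nt.He

open Finset Filter Pool.Agent.Lib.MP_be93de_nt.Hb
open Pool.Agent.Lib.MP_be93de_nt.Hc (one Kj PotSt)
open Pool.Agent.Lib.MP_be93de_nt.Hd (Y3 R3 er)

namespace Run4x

noncomputable def cg (b s : ℕ) (T : ℕ → ℕ) (P : Finset ℕ) (j : ℕ) (K : Finset ℕ) : ℝ :=
  one P (K.filter (· < T j)) * ∏ t ∈ K.filter (T (j + 1) ≤ ·), wt4 b s t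

theorem one_mem (A : Set ℕ) (K : Finset ℕ) : 0 ≤ one A K ∧ one A K ≤ 1 := by
  unfold one
  split_ifs <;> norm_num

theorem one_empty (A : Set ℕ) : one A ∅ = 1 := by simp [one]

theorem cg_mem (b s : ℕ) (T : ℕ → ℕ) (P : Finset ℕ) (j : ℕ) (K : Finset ℕ)
    (h : ∀ t ∈ K, 0 ≤ wt4 b s t ∧ wt4 b s t ≤ 1) :
    0 ≤ cg b s T P j K ∧ cg b s T P j K ≤ 1 := by
  have h1 := one_mem P (K.filter (· < T j))
  have h2 : 0 ≤ ∏ t ∈ K.filter (T (j + 1) ≤ ·), wt4 b s t :=
    prod_nonneg fun t ht => (h t (mem_filter.1 ht).1).1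
  have h3 : ∏ t ∈ K.filter (T (j + 1) ≤ ·), wt4 b s t ≤ 1 :=
    prod_le_one (fun t ht => (h t (mem_filter.1 ht).1).1) fun t ht => (h t (mem_filter.1 ht).1).2
  exact ⟨mul_nonneg h1.1 h2, mul_le_one₀ h1.2 h2 h3⟩

theorem sum_Kj (T : ℕ → ℕ) (K : Finset ℕ) (n : ℕ) (h : ∀ j < n, T j ≤ T (j + 1)) :
    ∑ j ∈ range n, (Kj T j K).card ≤ (K.filter (· < T n)).card := by
  induction n with
  | zero => simp
  | succ n ih =>
    rw [sum_range_succ]
    have h1 := ih fun j hj => h j (by omega)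
    have h2 := h n (by omega)
    have h3 : Disjoint (K.filter (· < T n)) (Kj T n K) :=
      disjoint_left.2 fun a ha hb => by
        have := (mem_filter.1 ha).2
        have := (mem_filter.1 hb).2.1
        omega
    have h4 : K.filter (· < T n) ∪ Kj T n K ⊆ K.filter (· < T (n + 1)) := fun a ha => by
      rcases mem_union.1 ha with ha | ha
      · exact mem_filter.2 ⟨(mem_filter.1 ha).1, lt_of_lt_of_le (mem_filter.1 ha).2 h2⟩
      · exact mem_filter.2 ⟨(mem_filter.1 ha).1, (mem_filter.1 ha).2.2⟩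
    have h5 := card_le_card h4
    rw [card_union_of_disjoint h3] at h5
    omega

theorem sum_cnt (T : ℕ → ℕ) (M : Finset ℕ) (K : ℕ → Finset ℕ) (n s : ℕ)
    (h : ∀ j < n, T j ≤ T (j + 1)) (hK : ∀ m ∈ M, (K m).card ≤ s) :
    ∑ j ∈ range n, (M.filter fun m => (Kj T j (K m)).Nonempty).card ≤ s * M.card := by
  simp only [card_filter]
  rw [sum_comm, mul_comm, ← smul_eq_mul, ← sum_const]
  refine sum_le_sum fun m hm => ?_
  refine le_trans (sum_le_sum fun j _ => ?_)
    ((sum_Kj T (K m) n h).trans ((card_filter_le _ _).trans (hK m hm)))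
  split_ifs with h1
  · exact card_pos.2 h1
  · exact Nat.zero_le _

theorem cnt_le (T : ℕ → ℕ) (M : Finset ℕ) (K : ℕ → Finset ℕ) (j s y : ℕ)
    (h : T (j + 1) ≤ T j + y) (hK : ∀ t, (M.filter fun m => t ∈ K m).card ≤ s) :
    (M.filter fun m => (Kj T j (K m)).Nonempty).card ≤ y * s := by
  have h1 : (M.filter fun m => (Kj T j (K m)).Nonempty) ⊆
      (Ico (T j) (T (j + 1))).biUnion fun t => M.filter fun m => t ∈ K m := fun m hm => by
    obtain ⟨hm, t, ht⟩ := mem_filter.1 hm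
    obtain ⟨h1, h2⟩ := mem_filter.1 ht
    exact mem_biUnion.2 ⟨t, mem_Ico.2 h2, mem_filter.2 ⟨hm, h1⟩⟩
  refine (card_le_card h1).trans ((card_biUnion_le_card_mul _ _ s fun t _ => hK t).trans ?_)
  rw [Nat.card_Ico]
  exact Nat.mul_le_mul_right _ (by omega)

theorem log_le (v N : ℕ) (h0 : 0 < N) (h : N ≤ 2 ^ v) :
    Real.log (2 * (N : ℝ)) ≤ (v : ℝ) + 1 := by
  have h1 : (2 * (N : ℝ)) ≤ 2 ^ (v + 1) := by
    have : (N : ℝ) ≤ 2 ^ v := by exact_mod_cast h
    rw [pow_succ]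
    linarith
  have h2 : (0 : ℝ) < N := by exact_mod_cast h0
  refine (Real.log_le_log (by positivity) h1).trans ?_
  rw [Real.log_pow]
  have h3 : Real.log 2 ≤ 1 := by
    have := Real.log_two_lt_d9
    linarith
  push_cast
  exact mul_le_of_le_one_right (by positivity) h3

theorem er_pos (a u : ℕ) : 0 < er a u := Real.exp_pos _

theorem er_le_one (a u : ℕ) : er a u ≤ 1 := by
  unfold er
  apply Real.exp_le_one_iff.2
  have : (0 : ℝ) ≤ (u : ℝ) ^ 12 / a := by positivity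
  linarith

/-- the main size comparison -/
theorem big (a u : ℕ) (ha : 4 ≤ a) (hu : 3 ≤ u) :
    24 * (u : ℝ) ^ 15 ≤ (R3 u : ℝ) * er a u := by
  have h1 : (4 : ℝ) ≤ a := by exact_mod_cast ha
  have h2 : (3 : ℝ) ≤ u := by exact_mod_cast hu
  have h3 : (u : ℝ) ^ 12 / a ≤ (u : ℝ) ^ 12 / 4 :=
    div_le_div_of_nonneg_left (by positivity) (by norm_num) h1
  have h4 : (R3 u : ℝ) = Real.exp ((u : ℝ) ^ 12 * Real.log 2) := by
    unfold R3
    have : ((u : ℝ) ^ 12) = ((u ^ 12 : ℕ) : ℝ) := by push_cast; rfl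
    rw [this, Real.exp_nat_mul, Real.exp_log (by norm_num)]
    push_cast
    rfl
  have h5 := Real.log_two_gt_d9
  have h6 : (0 : ℝ) ≤ (u : ℝ) ^ 12 := by positivity
  have h7 : (u : ℝ) ^ 12 / 4 ≤ (u : ℝ) ^ 12 * Real.log 2 + -((u : ℝ) ^ 12 / a) := by nlinarith
  have h8 := Real.quadratic_le_exp_of_nonneg (show 0 ≤ (u : ℝ) ^ 12 / 4 by positivity)
  have h9 : (3 : ℝ) ^ 9 ≤ (u : ℝ) ^ 9 := pow_le_pow_left₀ (by norm_num) h2 9
  have h10 : ((u : ℝ) ^ 12 / 4) ^ 2 / 2 = (u : ℝ) ^ 9 * (u : ℝ) ^ 15 / 32 := by ring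
  have h11 : (0 : ℝ) ≤ (u : ℝ) ^ 15 := by positivity
  have h12 := mul_le_mul_of_nonneg_right h9 h11
  unfold er
  rw [h4, ← Real.exp_add]
  refine le_trans ?_ (Real.exp_le_exp.2 h7)
  norm_num at h12
  linarith

theorem grow (b : ℕ) : ∀ᶠ u : ℕ in atTop, 2 * (u : ℝ) ^ b ≤ R3 u := by
  have h := tendsto_pow_const_div_const_pow_of_one_lt b (r := 2) (by norm_num)
  filter_upwards [h.eventually_le_const (show (0 : ℝ) < 1 / 2 by norm_num)] with u h1
  rw [div_le_iff₀ (by positivity)] at h1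
  have h2 : (2 : ℝ) ^ u ≤ 2 ^ (u ^ 12) :=
    pow_le_pow_right₀ (by norm_num) (Nat.le_self_pow (by norm_num) _)
  unfold R3
  push_cast
  linarith

end Run4x

open Run4x in
theorem run4_st (h1 : PotSt) (h2 : Block4St) (h3 : Wt4St) (h4 : Psi4St) : Run4St := by
  intro a b hab
  filter_upwards [h2 a b hab, h3 b hab.1, grow b, eventually_ge_atTop 3, eventually_ge_atTop b]
    with s hB hW hg hs hbs
  intro r ι I Mi K γ T hI hK hn t0 t1 gap
  have hs3 : (3 : ℝ) ≤ s := by exact_mod_cast hs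
  have hs' : (1 : ℝ) ≤ s := by linarith
  have hbig := big a s (by have := hab.1; have := hab.2; omega) hs
  have e0 := er_pos a s
  have hR : (0 : ℝ) < R3 s := by
    unfold R3
    positivity
  have h15 : (1 : ℝ) ≤ (s : ℝ) ^ 15 := one_le_pow₀ hs'
  have hR1 : 1 / (R3 s : ℝ) ≤ er a s / 2 := by
    rw [div_le_div_iff₀ hR (by norm_num)]
    linarith
  have hR2 : 1 / (R3 s : ℝ) ≤ 1 / (2 * (s : ℝ) ^ b) :=
    one_div_le_one_div_of_le (by positivity) hg
  have hmono : ∀ j < nc4 b s, T j ≤ T (j + 1) := fun j hj =>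
    le_trans (Nat.le_add_right _ _) (gap j hj).1
  have hX : ∀ j, j < nc4 b s → X4 b s ≤ T j := fun j => by
    induction j with
    | zero => exact fun _ => t0.ge
    | succ j ih => exact fun hj => (ih (by omega)).trans (hmono j (by omega))
  have hw : ∀ τ ∈ I, ∀ m ∈ Mi τ, ∀ t ∈ K τ m, 0 ≤ wt4 b s t ∧ wt4 b s t ≤ 1 :=
    fun τ hτ m hm t ht => by
      have := hW.2.2.1 t (mem_Ico.1 ((hK τ hτ m hm).2.1 ht)).1
      exact ⟨this.1, this.2.trans (div_le_one_of_le₀ (one_le_pow₀ hs') (by positivity))⟩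
  have hY : (0 : ℝ) < Y3 s := by
    unfold Y3
    positivity
  obtain ⟨Cb, hCb⟩ : ∃ Cb : ℝ, Cb = 3 * Y3 s * s := ⟨_, rfl⟩
  have hC0 : 0 < Cb := by
    rw [hCb]
    positivity
  have hlam : er a s / Cb * Cb = er a s := div_mul_cancel₀ _ hC0.ne'
  obtain ⟨st, inc, s0, hst, hfin⟩ := h1 ι (Finset ℕ × ℕ) I
    (fun j τ => if j < nc4 b s then
      (((Mi τ).filter fun m => (Kj T j (K τ m)).Nonempty).card : ℝ) else 0)
    Cb (er a s / Cb)
    (fun j x x' e => ∃ (B : Finset ℕ) (ν : Finset ℕ → ℝ), (j < nc4 b s →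
      B ⊆ Ico (T j + 3) (T (j + 1)) ∧ B.Nonempty ∧ Good (S4 a b s) (r + x.2) B ∧ ν ∅ = 1 ∧
        (∀ L, 0 ≤ ν L ∧ ν L ≤ 1) ∧ (∀ L ⊆ Ico (T j + 3 * R3 s + 3) (T (j + 1)),
          (L.card ≤ s → Short s L → |ν L - psi4 b s L.card * ∏ t ∈ L, wt4 b s t| ≤ er a s) ∧
          (L.card ≤ b → |ν L - ∏ t ∈ L, wt4 b s t| ≤ 1 / (s : ℝ) ^ b)) ∧
        ∀ τ, e τ = ∑ m ∈ Mi τ, γ τ m * cg b s T x.1 j (K τ m) *
          (one B (Kj T j (K τ m)) - ν (Kj T j (K τ m)))) ∧ x' = (x.1 ∪ B, x.2 + B.card))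
    (∅, 0) (by positivity)
    (by
      rw [hlam]
      exact er_le_one a s)
    (fun j τ hτ => by
      split_ifs with hj
      · refine ⟨Nat.cast_nonneg _, ?_⟩
        rw [hCb]
        exact_mod_cast cnt_le T (Mi τ) (K τ) j s (3 * Y3 s) (gap j hj).2 (hn τ hτ)
      · exact ⟨le_rfl, hC0.le⟩)
    (fun j x d => by
      by_cases hj : j < nc4 b s
      · obtain ⟨w0, w1, w2⟩ := hW.2.2.2 (T j) (hX j hj)
        obtain ⟨B, ν, b1, b2, b3, b4, b5, b6, b7⟩ := hB (T j) (T (j + 1)) (r + x.2) _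
          (Σ _ : ι, ℕ) (I.sigma Mi) (fun y => Kj T j (K y.1 y.2))
          (fun y => d y.1 * (γ y.1 y.2 * cg b s T x.1 j (K y.1 y.2))) (gap j hj).1 (gap j hj).2
          w0 w1
        refine ⟨_, fun τ => ∑ m ∈ Mi τ, γ τ m * cg b s T x.1 j (K τ m) *
          (one B (Kj T j (K τ m)) - ν (Kj T j (K τ m))),
          ⟨B, ν, fun _ => ⟨b1, b2, b3, b5, b6, fun L hL => ?_, fun _ => rfl⟩, rfl⟩, ?_,
          fun τ hτ => ?_⟩
        · have hL' : L ⊆ Ico (T j) (T j + 3 * Y3 s) := fun t ht => by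
            have := mem_Ico.1 (hL ht)
            have := (gap j hj).2
            exact mem_Ico.2 ⟨by omega, by omega⟩
          refine ⟨fun hc hsh => ?_, fun hc => ?_⟩
          · have e1 := (b7 L hL).1 hc hsh
            have e2 := w2 L hL' hc
            obtain ⟨p0, p1⟩ := h4 b s L.card (by omega) hc
            have e3 : (if ∀ t ∈ L, Free 0 (w4 b s) t then
                (1 / (th 0 (w4 b s) * Real.log (T j))) ^ L.card * psi4 b s L.card else 0) =
                psi4 b s L.card * (if ∀ t ∈ L, Free 0 (w4 b s) t then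
                  (1 / (th 0 (w4 b s) * Real.log (T j))) ^ L.card else 0) := by
              split_ifs
              · exact mul_comm _ _
              · exact (mul_zero _).symm
            rw [e3] at e1
            generalize (if ∀ t ∈ L, Free 0 (w4 b s) t then
              (1 / (th 0 (w4 b s) * Real.log (T j))) ^ L.card else 0) = z at e1 e2
            have e4 : |psi4 b s L.card * z - psi4 b s L.card * ∏ t ∈ L, wt4 b s t| ≤
                1 / (R3 s : ℝ) := by
              rw [← mul_sub, abs_mul, abs_of_nonneg p0]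
              exact (mul_le_of_le_one_left (abs_nonneg _) p1).trans e2
            have e5 := abs_le.1 e1
            have e6 := abs_le.1 e4
            exact abs_le.2 ⟨by linarith [e5.1, e6.1], by linarith [e5.2, e6.2]⟩
          · have e1 := abs_le.1 ((b7 L hL).2 hc)
            have e2 := abs_le.1 (w2 L hL' (hc.trans hbs))
            have e3 : 1 / (s : ℝ) ^ b = 1 / (2 * (s : ℝ) ^ b) + 1 / (2 * (s : ℝ) ^ b) := by
              field_simp
              norm_num
            rw [e3]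
            exact abs_le.2 ⟨by linarith [e1.1, e2.1], by linarith [e1.2, e2.2]⟩
        · rw [sum_sigma] at b4
          refine le_trans (le_of_eq (sum_congr rfl fun τ _ => ?_)) b4
          rw [mul_sum]
          exact sum_congr rfl fun m _ => by ring
        · rw [if_pos hj, card_filter]
          push_cast
          refine (abs_sum_le_sum_abs _ _).trans (sum_le_sum fun m hm => ?_)
          split_ifs with hne
          · have c1 := cg_mem b s T x.1 j (K τ m) (hw τ hτ m hm)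
            have c2 := (hK τ hτ m hm).2.2
            have c3 := one_mem B (Kj T j (K τ m))
            have c4 := b6 (Kj T j (K τ m))
            rw [abs_mul, abs_of_nonneg (mul_nonneg c2.1 c1.1)]
            exact mul_le_one₀ (mul_le_one₀ c2.2 c1.1 c1.2) (abs_nonneg _)
              (abs_le.2 ⟨by linarith [c3.1, c4.2], by linarith [c3.2, c4.1]⟩)
          · rw [not_nonempty_iff_eq_empty.1 hne, one_empty, b5]
            simp
      · exact ⟨_, fun _ => 0, ⟨∅, fun _ => 0, fun h => absurd h hj, rfl⟩, by simp,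
          fun τ _ => by simp [hj]⟩)
  choose B ν hQ hnext using hst
  have hstate : ∀ j, st j = ((range j).biUnion B, ∑ i ∈ range j, (B i).card) := fun j => by
    induction j with
    | zero => simpa using s0
    | succ j ih =>
      rw [hnext j, ih, sum_range_succ, range_add_one, biUnion_insert, union_comm]
  refine ⟨B, ν, ⟨t0, t1, gap, fun j hj => (hQ j hj).1, fun j hj => (hQ j hj).2.1, fun j hj => ?_⟩,
    fun j hj => ⟨(hQ j hj).2.2.2.1, (hQ j hj).2.2.2.2.1, (hQ j hj).2.2.2.2.2.1⟩, fun τ hτ => ?_⟩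
  · have := (hQ j hj).2.2.1
    rwa [hstate j] at this
  · have e : ∑ j ∈ range (nc4 b s), ∑ m ∈ Mi τ, γ τ m * cf4 b s T B j (K τ m) *
        (one (B j) (Kj T j (K τ m)) - ν j (Kj T j (K τ m))) = ∑ j ∈ range (nc4 b s), inc j τ :=
      sum_congr rfl fun j hj => by
        rw [(hQ j (mem_range.1 hj)).2.2.2.2.2.2 τ, hstate j]
        rfl
    rw [e]
    refine (hfin τ hτ (nc4 b s)).trans (add_le_add ?_ ?_)
    · rw [hlam, sum_congr rfl fun j hj => if_pos (mem_range.1 hj), mul_comm]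
      refine mul_le_mul_of_nonneg_right ?_ e0.le
      exact_mod_cast sum_cnt T (Mi τ) (K τ) (nc4 b s) s hmono fun m hm => (hK τ hτ m hm).1
    · have h5 := log_le (s ^ 14) I.card (card_pos.2 ⟨τ, hτ⟩) hI
      have e1 : Real.log (2 * (I.card : ℝ)) / (er a s / Cb) =
          Real.log (2 * (I.card : ℝ)) * Cb / er a s := by field_simp
      have e2 : W4 s = (R3 s : ℝ) * Y3 s := by
        unfold W4 R3 Y3
        push_cast
        rw [← pow_add]
        congr 1
        ring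
      have h14 : (1 : ℝ) ≤ (s : ℝ) ^ 14 := one_le_pow₀ hs'
      rw [e1, e2, div_le_iff₀ e0]
      push_cast at h5
      calc _ ≤ (2 * (s : ℝ) ^ 14) * Cb := mul_le_mul_of_nonneg_right (by linarith) hC0.le
        _ = 24 * (s : ℝ) ^ 15 * (Y3 s / 4) := by rw [hCb]; ring
        _ ≤ (R3 s : ℝ) * er a s * (Y3 s / 4) := mul_le_mul_of_nonneg_right hbig (by positivity)
        _ = _ := by ring

end Pool.Agent.Lib.MP_be93de_nt.He
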