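import Pool.Agent.Lib.MP_be93de_nt.He.Defs

/-! The sieve count on one level, with a power saving. -/

namespace Pool.Agent.Lib.MP_be93de_nt.He

open Finset Filter Pool.Agent.Lib.MP_be93de_nt.Hb
open Pool.Agent.Lib.MP_be93de_nt.Hc (val nuF Adm RootSt)
open Pool.Agent.Lib.MP_be93de_nt.Hd (Mert3St R3 er)

namespace SieveSx

/-- classes mod `p` on which some form vanishes -/
def rts (Ψ : Finset (ℤ × ℤ)) (p : ℕ) : Finset ℕ :=
  (range p).filter (fun m : ℕ => ∃ ψ ∈ Ψ, (p : ℤ) ∣ ψ.1 * m + ψ.2)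

lemma card_rts (Ψ : Finset (ℤ × ℤ)) (p : ℕ) : (rts Ψ p).card = nuF Ψ p := rfl

lemma mem_pr {a b p : ℕ} : p ∈ pr a b ↔ a < p ∧ p ≤ b ∧ p.Prime := by
  simp [pr, and_assoc]

lemma dvd_val {ψ : ℤ × ℤ} {m p : ℕ} (h : 0 ≤ ψ.1 * m + ψ.2) :
    p ∣ val ψ m ↔ (p : ℤ) ∣ ψ.1 * ((m % p : ℕ) : ℤ) + ψ.2 := by
  unfold Hc.val
  rw [← Int.natCast_dvd_natCast, Int.toNat_of_nonneg h]
  have e : (m : ℤ) = p * ((m / p : ℕ) : ℤ) + ((m % p : ℕ) : ℤ) := by
    exact_mod_cast (Nat.div_add_mod m p).symm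
  have e2 : ψ.1 * m + ψ.2 = (ψ.1 * ((m % p : ℕ) : ℤ) + ψ.2) + p * (ψ.1 * ((m / p : ℕ) : ℤ)) := by
    conv_lhs => rw [e]
    ring
  rw [e2]
  exact dvd_add_left (dvd_mul_right _ _)

lemma mod_mem {Ψ : Finset (ℤ × ℤ)} {m p : ℕ} (hp : 0 < p) (h : ∀ ψ ∈ Ψ, 0 ≤ ψ.1 * m + ψ.2) :
    m % p ∉ rts Ψ p ↔ ∀ ψ ∈ Ψ, ¬ p ∣ val ψ m := by
  unfold rts
  rw [mem_filter, mem_range]
  constructor
  · intro hn ψ hψ hd
    exact hn ⟨Nat.mod_lt _ hp, ψ, hψ, (dvd_val (h ψ hψ)).1 hd⟩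
  · rintro hn ⟨-, ψ, hψ, hd⟩
    exact hn ψ hψ ((dvd_val (h ψ hψ)).2 hd)

lemma cond_iff {Ψ : Finset (ℤ × ℤ)} {w m : ℕ} (h : ∀ ψ ∈ Ψ, 0 ≤ ψ.1 * m + ψ.2) :
    (∀ ψ ∈ Ψ, Free 0 w (val ψ m)) ↔ ∀ p ∈ pr 0 w, m % p ∉ rts Ψ p := by
  constructor
  · intro h1 p hp
    exact (mod_mem (mem_pr.1 hp).1 h).2 fun ψ hψ => h1 ψ hψ p hp
  · intro H ψ hψ p hp
    exact (mod_mem (mem_pr.1 hp).1 h).1 (H p hp) ψ hψ

lemma card_pr (w : ℕ) : (pr 0 w).card ≤ w := by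
  unfold pr
  exact (card_filter_le _ _).trans (by simp)

theorem tail_le (t : ℕ) {L A : ℝ} (h0 : 0 ≤ L) (hA : 0 < A) (hL : 3 * (L * A) ≤ (t : ℝ)) :
    L ^ t / t.factorial ≤ 1 / A ^ t := by
  have hs0 : (0 : ℝ) ≤ t := Nat.cast_nonneg t
  have hf : (0 : ℝ) < t.factorial := by exact_mod_cast t.factorial_pos
  have h1 := Real.pow_div_factorial_le_exp (t : ℝ) hs0 t
  have h2 : Real.exp t ≤ 3 ^ t := by
    rw [← Real.exp_one_pow]
    exact pow_le_pow_left₀ (Real.exp_pos 1).le (Real.exp_one_lt_d9.le.trans (by norm_num)) t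
  have h3 : (3 * (L * A)) ^ t ≤ (t : ℝ) ^ t := pow_le_pow_left₀ (by positivity) hL t
  have h4 : (t : ℝ) ^ t ≤ 3 ^ t * t.factorial := (div_le_iff₀ hf).1 (h1.trans h2)
  rw [mul_pow, mul_pow] at h3
  have h7 : L ^ t * A ^ t ≤ t.factorial :=
    le_of_mul_le_mul_left (h3.trans h4) (by positivity)
  rw [div_le_div_iff₀ hf (by positivity)]
  linarith

theorem er_ge (a u k : ℕ) (ha : 0 < a) (h : u ^ 12 ≤ 2 * (a * k)) :
    1 / (2 : ℝ) ^ (4 * k) ≤ er a u := by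
  unfold er
  rw [Real.exp_neg, one_div]
  refine inv_anti₀ (Real.exp_pos _) ?_
  have h2 : (u : ℝ) ^ 12 ≤ 2 * (a * k) := by exact_mod_cast h
  have h3 := Real.log_two_gt_d9
  have a0 : (0 : ℝ) < a := by exact_mod_cast ha
  have h4 : (0 : ℝ) ≤ (a : ℝ) * k := by positivity
  calc Real.exp ((u : ℝ) ^ 12 / a) ≤ Real.exp (((4 * k : ℕ) : ℝ) * Real.log 2) := by
        refine Real.exp_le_exp.2 ?_
        rw [div_le_iff₀ a0]
        push_cast
        have e : 4 * (k : ℝ) * Real.log 2 * a = 4 * Real.log 2 * (a * k) := by ring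
        rw [e]
        nlinarith
    _ = 2 ^ (4 * k) := by
        rw [Real.exp_nat_mul, Real.exp_log (by norm_num)]

theorem par (a b u : ℕ) (ok : Ok a b) (hu : 2 * b + 61 ≤ u) : ∃ n t : ℕ, 2 ^ n ≤ u ∧
    u ^ 10 ≤ t ∧ 1 ≤ n * t ∧ u ^ 12 ≤ 2 * (a * (n * t)) ∧
    (1 + u ^ (2 * b + 61)) ^ t ≤ 2 ^ (u ^ 12) := by
  obtain ⟨hb, ha⟩ := ok
  obtain ⟨n, h1, h2⟩ : ∃ n, 2 ^ n ≤ u ∧ u < 2 ^ (n + 1) :=
    ⟨Nat.log 2 u, Nat.pow_log_le_self 2 (by omega), Nat.lt_pow_succ_log_self (by norm_num) u⟩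
  have h3 : n < u := (Nat.lt_two_pow_self).trans_le h1
  have h4 : 1 ≤ n := by
    rcases n with _ | n
    · omega
    · omega
  have hm : 0 < (n + 1) * (2 * b + 61) := by positivity
  have t1 : u ^ 10 ≤ u ^ 12 / ((n + 1) * (2 * b + 61)) := by
    rw [Nat.le_div_iff_mul_le hm, show u ^ 12 = u ^ 10 * (u * u) by ring]
    exact Nat.mul_le_mul_left _ (Nat.mul_le_mul (by omega) hu)
  have t2 := Nat.div_add_mod (u ^ 12) ((n + 1) * (2 * b + 61))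
  have t3 := Nat.mod_lt (u ^ 12) hm
  have t4 : 1 ≤ u ^ 10 := Nat.one_le_pow _ _ (by omega)
  have t5 : (n + 1) * (2 * b + 61) * (u ^ 12 / ((n + 1) * (2 * b + 61))) ≤ u ^ 12 :=
    Nat.mul_div_le _ _
  refine ⟨n, u ^ 12 / ((n + 1) * (2 * b + 61)), h1, t1, Nat.mul_pos h4 (by omega), ?_, ?_⟩
  · generalize u ^ 12 / ((n + 1) * (2 * b + 61)) = t at t1 t2 ⊢
    have z1 : u ^ 12 ≤ (n + 1) * (2 * b + 61) * (t + 1) := by
      rw [mul_add_one]
      omega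
    calc u ^ 12 ≤ (n + 1) * (2 * b + 61) * (t + 1) := z1
      _ ≤ (2 * n) * (18 * b) * (2 * t) :=
          Nat.mul_le_mul (Nat.mul_le_mul (by omega) (by omega)) (by omega)
      _ = (72 * b) * (n * t) := by ring
      _ ≤ (2 * a) * (n * t) := Nat.mul_le_mul_right _ (by omega)
      _ = _ := by ring
  · have e1 : u ^ (2 * b + 61) < (2 ^ (n + 1)) ^ (2 * b + 61) := Nat.pow_lt_pow_left h2 (by omega)
    have e2 : 1 + u ^ (2 * b + 61) ≤ 2 ^ ((n + 1) * (2 * b + 61)) := by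
      rw [pow_mul, add_comm]
      exact e1
    refine (Nat.pow_le_pow_left e2 _).trans ?_
    rw [← pow_mul]
    exact Nat.pow_le_pow_right (by norm_num) t5

end SieveSx

open SieveSx in
theorem sieves_st (h1 : Mert3St) (h2 : BonfSt) (h3 : RootSt) : SieveSSt := by
  unfold SieveSSt
  intro a b ok
  filter_upwards [eventually_ge_atTop (2 * b + 61)] with u hu
  intro Ψ s t hA hk hst hpos
  obtain ⟨Exc, -, hR⟩ := h3 (b * (4 * u) ^ 12) Ψ hA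
  obtain ⟨n, k, n1, k1, k2, k3, k4⟩ := par a b u ok hu
  have a0 : 0 < a := by have := ok.1; have := ok.2; omega
  have uR : (61 : ℝ) ≤ u := by exact_mod_cast (by omega : 61 ≤ u)
  have hcard : ∀ p ∈ pr 0 (w4 b u), ((rts Ψ p).card : ℝ) ≤ u := by
    intro p hp
    have : (rts Ψ p).card ≤ u := (hR p (mem_pr.1 hp).2.2 Ψ (Subset.refl _)).1.trans hk
    exact_mod_cast this
  have hb := h2 (pr 0 (w4 b u)) (rts Ψ) s (t - s) k (fun p hp => (mem_pr.1 hp).2.2)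
    (fun p _ => filter_subset _ _)
  rw [Nat.add_sub_cancel' hst, Nat.cast_sub hst] at hb
  have L0 : (0 : ℝ) ≤ (t : ℝ) - s := by
    have : (s : ℝ) ≤ t := by exact_mod_cast hst
    linarith
  have b1 : ∑ p ∈ pr 0 (w4 b u), ((rts Ψ p).card : ℝ) / p ≤ (u : ℝ) ^ 4 := by
    have m1 := h1.2.1 0 (w4 b u)
    have l1 : Real.log (w4 b u) ≤ (u : ℝ) ^ 2 := by
      unfold w4
      rw [Nat.cast_pow, Real.log_pow]
      have c1 : ((2 * b + 60 : ℕ) : ℝ) ≤ u := by exact_mod_cast (by omega : 2 * b + 60 ≤ u)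
      have c2 : Real.log u ≤ u := (Real.log_le_sub_one_of_pos (by linarith)).trans (by linarith)
      have c3 : 0 ≤ Real.log u := Real.log_natCast_nonneg u
      rw [pow_two]
      exact mul_le_mul c1 c2 c3 (by linarith)
    have l0 : 0 ≤ Real.log (w4 b u) := Real.log_natCast_nonneg _
    have l2 : Real.log (1 + Real.log (w4 b u)) ≤ (u : ℝ) ^ 2 := by
      have := Real.log_le_sub_one_of_pos (show 0 < 1 + Real.log (w4 b u) by linarith)
      linarith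
    calc ∑ p ∈ pr 0 (w4 b u), ((rts Ψ p).card : ℝ) / p
        ≤ ∑ p ∈ pr 0 (w4 b u), (u : ℝ) * (1 / p) := by
          refine sum_le_sum fun p hp => ?_
          rw [mul_one_div]
          exact div_le_div_of_nonneg_right (hcard p hp) (Nat.cast_nonneg p)
      _ = u * ∑ p ∈ pr 0 (w4 b u), 1 / (p : ℝ) := (mul_sum _ _ _).symm
      _ ≤ u * (u : ℝ) ^ 3 := by
          refine mul_le_mul_of_nonneg_left ?_ (by linarith)
          have c1 : (61 : ℝ) ≤ (u : ℝ) ^ 2 := by nlinarith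
          have c2 : 61 * (u : ℝ) ^ 2 ≤ (u : ℝ) ^ 3 := by
            rw [pow_succ (u : ℝ) 2, mul_comm]
            exact mul_le_mul_of_nonneg_left uR (by positivity)
          linarith
      _ = (u : ℝ) ^ 4 := by ring
  have b2 : ∑ p ∈ pr 0 (w4 b u), ((rts Ψ p).card : ℝ) ≤ (u : ℝ) ^ (2 * b + 61) := by
    have c1 : ((pr 0 (w4 b u)).card : ℝ) ≤ (u : ℝ) ^ (2 * b + 60) := by
      have := card_pr (w4 b u)
      unfold w4 at this ⊢
      exact_mod_cast this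
    calc ∑ p ∈ pr 0 (w4 b u), ((rts Ψ p).card : ℝ) ≤ (pr 0 (w4 b u)).card • (u : ℝ) :=
          sum_le_card_nsmul _ _ _ hcard
      _ = (pr 0 (w4 b u)).card * (u : ℝ) := nsmul_eq_mul _ _
      _ ≤ (u : ℝ) ^ (2 * b + 60) * u := mul_le_mul_of_nonneg_right c1 (by linarith)
      _ = _ := (pow_succ _ _).symm
  have n2 : (1 + ∑ p ∈ pr 0 (w4 b u), ((rts Ψ p).card : ℝ)) ^ k ≤ R3 u := by
    have c0 : (0 : ℝ) ≤ ∑ p ∈ pr 0 (w4 b u), ((rts Ψ p).card : ℝ) :=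
      sum_nonneg fun p _ => by positivity
    have c1 : (1 + (u : ℝ) ^ (2 * b + 61)) ^ k ≤ R3 u := by
      unfold R3
      exact_mod_cast k4
    exact (pow_le_pow_left₀ (by linarith) (by linarith) k).trans c1
  have n3 : 2 * ((∑ p ∈ pr 0 (w4 b u), ((rts Ψ p).card : ℝ) / p) ^ k / (k.factorial : ℝ)) ≤
      er a u := by
    have c0 : (0 : ℝ) ≤ ∑ p ∈ pr 0 (w4 b u), ((rts Ψ p).card : ℝ) / p :=
      sum_nonneg fun p _ => by positivity
    have c1 : (2 : ℝ) ^ n ≤ u := by exact_mod_cast n1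
    have c2 : (u : ℝ) ^ 10 ≤ k := by exact_mod_cast k1
    have c3 : ((2 : ℝ) ^ n) ^ 5 ≤ (u : ℝ) ^ 5 := pow_le_pow_left₀ (by positivity) c1 5
    have c4 := tail_le k (A := ((2 : ℝ) ^ n) ^ 5) c0 (by positivity) (by
      calc 3 * ((∑ p ∈ pr 0 (w4 b u), ((rts Ψ p).card : ℝ) / p) * ((2 : ℝ) ^ n) ^ 5)
          ≤ u * ((u : ℝ) ^ 4 * (u : ℝ) ^ 5) :=
            mul_le_mul (by linarith) (mul_le_mul b1 c3 (by positivity) (by positivity))
              (by positivity) (by linarith)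
        _ = (u : ℝ) ^ 10 := by ring
        _ ≤ k := c2)
    have c5 : 2 * (1 / (((2 : ℝ) ^ n) ^ 5) ^ k) ≤ 1 / (2 : ℝ) ^ (4 * (n * k)) := by
      rw [← pow_mul, ← pow_mul, mul_one_div, div_le_div_iff₀ (by positivity) (by positivity),
        one_mul, ← pow_succ']
      refine pow_le_pow_right₀ (by norm_num) ?_
      rw [show n * (5 * k) = 5 * (n * k) by ring]
      omega
    have c6 := er_ge a u (n * k) a0 k3
    linarith
  rw [filter_congr (fun m hm => cond_iff (hpos m hm))]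
  simp only [← card_rts]
  refine hb.trans (add_le_add ?_ n2)
  calc 2 * ((t : ℝ) - s) * (∑ p ∈ pr 0 (w4 b u), ((rts Ψ p).card : ℝ) / p) ^ k /
        (k.factorial : ℝ)
      = ((t : ℝ) - s) * (2 * ((∑ p ∈ pr 0 (w4 b u), ((rts Ψ p).card : ℝ) / p) ^ k /
          (k.factorial : ℝ))) := by ring
    _ ≤ _ := mul_le_mul_of_nonneg_left n3 L0

end Pool.Agent.Lib.MP_be93de_nt.He
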