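import Pool.Agent.Lib.MP_be93de_nt.He.Defs

namespace Pool.Agent.Lib.MP_be93de_nt.He

open Finset Filter Topology Pool.Agent.Lib.MP_be93de_nt.Hb
open Pool.Agent.Lib.MP_be93de_nt.Hc (nuF IsSF Adm RootSt TailSt)

namespace SingFx

theorem mem_pr {a b p : ℕ} : p ∈ pr a b ↔ a < p ∧ p ≤ b ∧ p.Prime := by
  simp [pr, and_assoc]

theorem th_pos (a b : ℕ) : 0 < th a b := by
  refine prod_pos fun p hp => sub_pos.2 ?_
  have : (1 : ℝ) < p := by exact_mod_cast (mem_pr.1 hp).2.2.one_lt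
  exact (div_lt_one (by linarith)).2 this

theorem split {w n : ℕ} (h : w ≤ n) (f : ℕ → ℝ) :
    ∏ p ∈ (range (n + 1)).filter Nat.Prime, f p = (∏ p ∈ pr 0 w, f p) * ∏ p ∈ pr w n, f p := by
  rw [← prod_union (disjoint_left.2 fun p h1 h2 => by
    have := mem_pr.1 h1; have := mem_pr.1 h2; omega)]
  refine prod_congr ?_ fun _ _ => rfl
  ext p
  simp only [mem_filter, mem_range, mem_union, mem_pr]
  constructor
  · rintro ⟨h1, h2⟩
    have := h2.pos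
    rcases le_or_gt p w with h3 | h3
    exacts [Or.inl ⟨this, h3, h2⟩, Or.inr ⟨h3, by omega, h2⟩]
  · rintro (⟨-, h1, h2⟩ | ⟨-, h1, h2⟩)
    exacts [⟨by omega, h2⟩, ⟨by omega, h2⟩]

theorem fac_mem (Ψ : Finset (ℤ × ℤ)) {p : ℕ} (hp : 0 < p) :
    0 ≤ 1 - (nuF Ψ p : ℝ) / p ∧ 1 - (nuF Ψ p : ℝ) / p ≤ 1 := by
  have h1 : nuF Ψ p ≤ p := (card_filter_le _ _).trans (card_range p).le
  have h2 : (nuF Ψ p : ℝ) ≤ p := by exact_mod_cast h1
  have h3 : (0 : ℝ) < p := by exact_mod_cast hp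
  exact ⟨sub_nonneg.2 ((div_le_one h3).2 h2), sub_le_self _ (by positivity)⟩

theorem num {b u : ℕ} (h : 2 ^ 32 * (b + 1) ≤ u) :
    (2 : ℝ) ^ 30 * (b + 1) * ((u : ℝ) ^ 15 / (u : ℝ) ^ (2 * b + 60)) ≤ 1 / (4 * (u : ℝ) ^ (b + 1)) := by
  have h1 : (2 : ℝ) ^ 32 * (b + 1) ≤ u := by exact_mod_cast h
  have b0 : (0 : ℝ) ≤ b := Nat.cast_nonneg _
  have u1 : (1 : ℝ) ≤ u := by nlinarith
  rw [← mul_div_assoc, div_le_div_iff₀ (by positivity) (by positivity)]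
  calc (2 : ℝ) ^ 30 * (b + 1) * (u : ℝ) ^ 15 * (4 * (u : ℝ) ^ (b + 1))
      = (2 ^ 32 * (b + 1)) * (u : ℝ) ^ (b + 16) := by ring
    _ ≤ u * (u : ℝ) ^ (b + 16) := by gcongr
    _ = (u : ℝ) ^ (b + 17) := by ring
    _ ≤ _ := by rw [one_mul]; exact pow_le_pow_right₀ u1 (by omega)

end SingFx

open SingFx in
theorem singf_st (h1 : RootSt) (h2 : TailSt) : SingFSt := by
  intro b _
  filter_upwards [eventually_ge_atTop (2 ^ 32 * (b + 1)), eventually_ge_atTop 1] with s hs0 s1 Ψ hΨ k2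
  have hs := num hs0
  clear hs0
  obtain ⟨Exc, hE, hn⟩ := h1 (b * (4 * s) ^ 12) Ψ hΨ
  set w := w4 b s with hw
  have w1 : s ≤ w := Nat.le_self_pow (by omega) _
  have w2 : Ψ.card ≤ w := k2.trans w1
  have w0 : 1 ≤ w := s1.trans w1
  set k := Ψ.card with hk
  set Pw := ∏ p ∈ pr 0 w, (1 - (nuF Ψ p : ℝ) / p) with hPw
  set t : ℕ → ℝ := fun n => ∏ p ∈ pr w n, (1 - (nuF Ψ p : ℝ) / p) / (1 - 1 / (p : ℝ)) ^ k with ht
  have hth : 0 < th 0 w ^ k := pow_pos (th_pos 0 w) k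
  have P0 : 0 ≤ Pw := prod_nonneg fun p hp => (fac_mem Ψ (mem_pr.1 hp).1).1
  have P1 : Pw ≤ 1 := prod_le_one (fun p hp => (fac_mem Ψ (mem_pr.1 hp).1).1)
    fun p hp => (fac_mem Ψ (mem_pr.1 hp).1).2
  have hT := fun n => h2 (pr w n) Exc (nuF Ψ) k w w0 w2 (fun p hp => (mem_pr.1 hp).1)
    (fun p hp => (hn p (mem_pr.1 hp).2.2 Ψ Subset.rfl).1)
    (fun p hp => (hn p (mem_pr.1 hp).2.2 Ψ Subset.rfl).2)
  have t0 : ∀ n, 0 ≤ t n := fun n => prod_nonneg fun p hp => by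
    have hp' := (mem_pr.1 hp).2.2
    have : (1 : ℝ) < p := by exact_mod_cast hp'.one_lt
    have : 0 < 1 - 1 / (p : ℝ) := sub_pos.2 ((div_lt_one (by linarith)).2 this)
    exact div_nonneg (fac_mem Ψ hp'.pos).1 (by positivity)
  have key : ∀ᶠ n in atTop, ∏ p ∈ (range (n + 1)).filter Nat.Prime,
      (1 - (nuF Ψ p : ℝ) / p) / (1 - 1 / (p : ℝ)) ^ k = Pw / th 0 w ^ k * t n := by
    filter_upwards [eventually_ge_atTop w] with n hn
    rw [split hn, prod_div_distrib, prod_pow]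
    rfl
  have anti : Antitone (fun n => t (n + Exc.sup id)) := by
    intro a b hab
    have hs : pr w (a + Exc.sup id) ⊆ pr w (b + Exc.sup id) := fun p hp => by
      obtain ⟨h1, h2, h3⟩ := mem_pr.1 hp
      exact mem_pr.2 ⟨h1, by omega, h3⟩
    have h3 := (h2 (pr w (b + Exc.sup id) \ pr w (a + Exc.sup id)) ∅ (nuF Ψ) k w w0 w2
      (fun p hp => (mem_pr.1 (mem_sdiff.1 hp).1).1)
      (fun p hp => (hn p (mem_pr.1 (mem_sdiff.1 hp).1).2.2 Ψ Subset.rfl).1)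
      (fun p hp _ => (hn p (mem_pr.1 (mem_sdiff.1 hp).1).2.2 Ψ Subset.rfl).2 (fun hx => by
        obtain ⟨q1, q2⟩ := mem_sdiff.1 hp
        obtain ⟨q3, -, q4⟩ := mem_pr.1 q1
        have : p ≤ Exc.sup id := le_sup (f := id) hx
        exact q2 (mem_pr.2 ⟨q3, by omega, q4⟩)))).2
    simp only [card_empty, Nat.cast_zero, mul_zero, zero_div, Real.exp_zero] at h3
    simp only [ht]
    rw [← prod_sdiff hs]
    exact mul_le_of_le_one_left (t0 _) h3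
  refine ⟨⟨Pw / th 0 w ^ k * ⨅ n, t (n + Exc.sup id), ?_⟩, fun S hS => ?_⟩
  · have h0 := tendsto_atTop_ciInf anti ⟨0, by rintro _ ⟨n, rfl⟩; exact t0 _⟩
    have h1 := ((tendsto_add_atTop_iff_nat (f := t) (Exc.sup id)).1 h0).const_mul
      (Pw / th 0 w ^ k)
    exact (tendsto_add_atTop_iff_nat 1).1 (h1.congr' (key.mono fun n hn => hn.symm))
  · have h1 := (((tendsto_add_atTop_iff_nat 1).2 hS).congr' key).mul_const (th 0 w ^ k)
    have h2 : Tendsto (fun n => Pw * t n) atTop (𝓝 (S * th 0 w ^ k)) :=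
      h1.congr fun n => by field_simp
    have h4 : 0 ≤ S * th 0 w ^ k := ge_of_tendsto' h2 fun n => mul_nonneg P0 (t0 n)
    have s1' : (1 : ℝ) ≤ s := by exact_mod_cast s1
    have ks : (k : ℝ) ≤ s := by exact_mod_cast k2
    have k0 : (0 : ℝ) ≤ k := Nat.cast_nonneg _
    have b0 : (0 : ℝ) ≤ b := Nat.cast_nonneg _
    have hw' : (w : ℝ) = (s : ℝ) ^ (2 * b + 60) := by rw [hw, w4]; push_cast; rfl
    have wpos : (0 : ℝ) < (s : ℝ) ^ (2 * b + 60) := by positivity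
    have hE' : (Exc.card : ℝ) ≤ (s : ℝ) ^ 2 * (2 ^ 25 * (b + 1) * (s : ℝ) ^ 12) := by
      have a1 : (Exc.card : ℝ) ≤ (k : ℝ) ^ 2 * (2 * (b * (4 * (s : ℝ)) ^ 12) + 1) := by
        exact_mod_cast hE
      have a2 : (1 : ℝ) ≤ (s : ℝ) ^ 12 := one_le_pow₀ s1'
      refine a1.trans (mul_le_mul (by gcongr) (by nlinarith) (by positivity) (by positivity))
    set e : ℝ := (b + 1) * ((s : ℝ) ^ 15 / (s : ℝ) ^ (2 * b + 60)) with he
    have hq' : 2 * (k : ℝ) * Exc.card / w ≤ 2 ^ 26 * e := by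
      rw [hw', he, ← mul_div_assoc, ← mul_div_assoc]
      refine div_le_div_of_nonneg_right ?_ wpos.le
      calc 2 * (k : ℝ) * Exc.card
          ≤ 2 * s * ((s : ℝ) ^ 2 * (2 ^ 25 * (b + 1) * (s : ℝ) ^ 12)) := by gcongr
        _ = _ := by ring
    have hq2 : (k : ℝ) ^ 2 / w ≤ e := by
      rw [hw', he, ← mul_div_assoc]
      refine div_le_div_of_nonneg_right ?_ wpos.le
      have := (pow_le_pow_left₀ k0 ks 2).trans (pow_le_pow_right₀ s1' (show 2 ≤ 15 by norm_num))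
      have : (0 : ℝ) ≤ b * (s : ℝ) ^ 15 := by positivity
      linarith
    have e0 : 0 ≤ e := by positivity
    have hs' : 2 ^ 30 * e ≤ 1 / (4 * (s : ℝ) ^ (b + 1)) := by rw [he, ← mul_assoc]; exact hs
    have b1 : (1 : ℝ) / (4 * (s : ℝ) ^ (b + 1)) ≤ 1 := by
      have : (1 : ℝ) ≤ (s : ℝ) ^ (b + 1) := one_le_pow₀ s1'
      rw [div_le_one (by positivity)]
      linarith
    have hx : Real.exp (2 * (k : ℝ) * Exc.card / w) ≤ 1 + 2 ^ 27 * e := by
      refine (Real.exp_le_exp.2 hq').trans ?_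
      have a1 : |(2 : ℝ) ^ 26 * e| ≤ 1 := by
        rw [abs_of_nonneg (by positivity)]
        linarith
      have a2 := Real.abs_exp_sub_one_le a1
      rw [abs_of_nonneg (show (0 : ℝ) ≤ 2 ^ 26 * e by positivity)] at a2
      have := le_abs_self (Real.exp (2 ^ 26 * e) - 1)
      linarith
    have u1 : S * th 0 w ^ k ≤ Pw + 2 ^ 27 * e := le_of_tendsto' h2 fun n => by
      have a1 := mul_le_mul_of_nonneg_left ((hT n).2.trans hx) P0
      have a2 : Pw * (2 ^ 27 * e) ≤ 2 ^ 27 * e := mul_le_of_le_one_left (by positivity) P1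
      simp only [ht]
      linarith
    have u2 : Pw - e ≤ S * th 0 w ^ k := ge_of_tendsto' h2 fun n => by
      have a1 := mul_le_mul_of_nonneg_left (hT n).1 P0
      have a2 : Pw * ((k : ℝ) ^ 2 / w) ≤ (k : ℝ) ^ 2 / w := mul_le_of_le_one_left (by positivity) P1
      simp only [ht]
      linarith
    refine ⟨nonneg_of_mul_nonneg_left h4 hth, abs_le.2 ⟨by linarith, by linarith⟩⟩

end Pool.Agent.Lib.MP_be93de_nt.He
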