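import Pool.Agent.Lib.MP_be93de_nt.He.Defs

/-! The singular series of a short system is close to its truncation times the middle factor. -/

namespace Pool.Agent.Lib.MP_be93de_nt.He

open Finset Filter Topology Pool.Agent.Lib.MP_be93de_nt.Hb
open Pool.Agent.Lib.MP_be93de_nt.Hc (nuF IsSF)
open Pool.Agent.Lib.MP_be93de_nt.Hd (Y3)

namespace SingSx

theorem nu_eq {q v : ℤ} {p : ℕ} {Ψ : Finset (ℤ × ℤ)} (hp : p.Prime) (h1 : 1 ≤ q) (h2 : q ≤ v)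
    (hv : v < p) (hq : ∀ ψ ∈ Ψ, ψ.1 = q) (hd : ∀ ψ ∈ Ψ, ∀ φ ∈ Ψ, ψ.2 ≤ φ.2 + v) :
    nuF Ψ p = Ψ.card := by
  have := Fact.mk hp
  have hq0 : (q : ZMod p) ≠ 0 := fun h =>
    absurd (Int.le_of_dvd (by omega) ((ZMod.intCast_zmod_eq_zero_iff_dvd q p).1 h)) (by omega)
  refine (card_bij (fun ψ _ => (-(ψ.2 : ZMod p) / q).val) (fun ψ hψ => ?_)
    (fun ψ hψ φ hφ h => ?_) fun m hm => ?_).symm
  · refine mem_filter.2 ⟨mem_range.2 (ZMod.val_lt _), ψ, hψ, ?_⟩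
    rw [← ZMod.intCast_zmod_eq_zero_iff_dvd, hq ψ hψ]
    push_cast
    rw [ZMod.natCast_zmod_val]
    field_simp
    ring
  · have h3 := ZMod.val_injective p h
    rw [div_left_inj' hq0, neg_inj] at h3
    have h4 := (ZMod.intCast_eq_intCast_iff_dvd_sub _ _ _).1 h3
    have h5 := hd ψ hψ φ hφ
    have h6 := hd φ hφ ψ hψ
    have h7 := Int.eq_zero_of_abs_lt_dvd h4 (abs_lt.2 ⟨by omega, by omega⟩)
    exact Prod.ext ((hq ψ hψ).trans (hq φ hφ).symm) (by omega)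
  · obtain ⟨h3, ψ, hψ, h4⟩ := mem_filter.1 hm
    refine ⟨ψ, hψ, ?_⟩
    rw [← ZMod.intCast_zmod_eq_zero_iff_dvd, hq ψ hψ] at h4
    push_cast at h4
    have h5 : -(ψ.2 : ZMod p) / q = (m : ZMod p) := by
      rw [div_eq_iff hq0]
      linear_combination -h4
    show (-(ψ.2 : ZMod p) / q).val = m
    rw [h5, ZMod.val_cast_of_lt (mem_range.1 h3)]

theorem mem_pr {a b p : ℕ} : p ∈ pr a b ↔ a < p ∧ p ≤ b ∧ p.Prime := by
  simp [pr, and_assoc]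

theorem th_pos (a b : ℕ) : 0 < th a b := by
  refine prod_pos fun p hp => sub_pos.2 ?_
  have : (1 : ℝ) < p := by exact_mod_cast (mem_pr.1 hp).2.2.one_lt
  exact (div_lt_one (by linarith)).2 this

theorem split {w n : ℕ} (h : w ≤ n) (f : ℕ → ℝ) :
    ∏ p ∈ (range (n + 1)).filter Nat.Prime, f p = (∏ p ∈ pr 0 w, f p) * ∏ p ∈ pr w n, f p := by
  rw [← prod_union (disjoint_left.2 fun p h1 h2 => by
    have := mem_pr.1 h1; have := mem_pr.1 h2; omega)]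
  refine prod_congr ?_ fun _ _ => rfl
  ext p
  simp only [mem_filter, mem_range, mem_union, mem_pr]
  constructor
  · rintro ⟨h1, h2⟩
    have := h2.pos
    rcases le_or_gt p w with h3 | h3
    exacts [Or.inl ⟨this, h3, h2⟩, Or.inr ⟨h3, by omega, h2⟩]
  · rintro (⟨-, h1, h2⟩ | ⟨-, h1, h2⟩)
    exacts [⟨by omega, h2⟩, ⟨by omega, h2⟩]

theorem fac_mem (Ψ : Finset (ℤ × ℤ)) {p : ℕ} (hp : 0 < p) :
    0 ≤ 1 - (nuF Ψ p : ℝ) / p ∧ 1 - (nuF Ψ p : ℝ) / p ≤ 1 := by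
  have h1 : nuF Ψ p ≤ p := (card_filter_le _ _).trans (card_range p).le
  have h2 : (nuF Ψ p : ℝ) ≤ p := by exact_mod_cast h1
  have h3 : (0 : ℝ) < p := by exact_mod_cast hp
  exact ⟨sub_nonneg.2 ((div_le_one h3).2 h2), sub_le_self _ (by positivity)⟩

theorem split2 {w W n : ℕ} (h : w ≤ W) (h' : W ≤ n) (f : ℕ → ℝ) :
    ∏ p ∈ pr w n, f p = (∏ p ∈ pr w W, f p) * ∏ p ∈ pr W n, f p := by
  rw [← prod_union (disjoint_left.2 fun p h1 h2 => by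
    have := mem_pr.1 h1; have := mem_pr.1 h2; omega)]
  refine prod_congr ?_ fun _ _ => rfl
  ext p
  simp only [mem_union, mem_pr]
  constructor
  · rintro ⟨h1, h2, h3⟩
    rcases le_or_gt p W with h4 | h4
    exacts [Or.inl ⟨h1, h4, h3⟩, Or.inr ⟨h4, h2, h3⟩]
  · rintro (⟨h1, h2, h3⟩ | ⟨h1, h2, h3⟩)
    exacts [⟨h1, by omega, h3⟩, ⟨by omega, h2, h3⟩]

theorem w_le (a : ℕ) : ∀ᶠ u : ℕ in atTop, u ^ a ≤ Y3 u := by
  have h := tendsto_pow_const_div_const_pow_of_one_lt a (show (1 : ℝ) < 2 by norm_num)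
  filter_upwards [h.eventually (gt_mem_nhds (show (0 : ℝ) < 1 by norm_num))] with u hu
  rw [div_lt_one (by positivity)] at hu
  have h1 : u ^ a ≤ 2 ^ u := by exact_mod_cast hu.le
  refine h1.trans (Nat.pow_le_pow_right two_pos ?_)
  have h2 : u ≤ u ^ 12 := Nat.le_self_pow (by norm_num) u
  omega

end SingSx

theorem sings_st (h : FacSt) : SingSSt := by
  intro b
  filter_upwards [SingSx.w_le (2 * b + 60), eventually_ge_atTop 1] with u hwW hu Ψ S hSh k2 hS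
  obtain ⟨⟨q, q1, q2, hq⟩, hd⟩ := hSh
  have hu0 : 0 < u := by omega
  have w0 : 1 ≤ w4 b u := Nat.one_le_pow _ _ hu0
  have w1 : u ^ 25 ≤ w4 b u := Nat.pow_le_pow_right hu0 (by omega)
  have w2 : Ψ.card ≤ w4 b u := k2.trans (Nat.le_self_pow (by omega) u)
  have hwW' : w4 b u ≤ Y3 u := hwW
  have hps : 0 ≤ psi4 b u Ψ.card ∧ psi4 b u Ψ.card ≤ 1 :=
    (h (pr (w4 b u) (Y3 u)) Ψ.card (w4 b u) w0 w2 fun p hp => (SingSx.mem_pr.1 hp).1).2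
  have hpe : psi4 b u Ψ.card = ∏ p ∈ pr (w4 b u) (Y3 u),
      (1 - (Ψ.card : ℝ) / p) / (1 - 1 / (p : ℝ)) ^ Ψ.card := rfl
  have w1' : (u : ℤ) ^ 25 ≤ (w4 b u : ℤ) := by exact_mod_cast w1
  clear hwW w1
  generalize psi4 b u Ψ.card = ψ at hps hpe ⊢
  generalize Y3 u = W at hwW' hpe ⊢
  generalize w4 b u = w at hwW' hpe w0 w1' w2 ⊢
  generalize (u : ℤ) ^ 25 = v at q2 hd w1'
  set k := Ψ.card with hk
  set Pw := ∏ p ∈ pr 0 w, (1 - (nuF Ψ p : ℝ) / p) with hPw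
  set t : ℕ → ℝ := fun n => ∏ p ∈ pr W n, (1 - (k : ℝ) / p) / (1 - 1 / (p : ℝ)) ^ k with ht
  have hth : 0 < th 0 w ^ k := pow_pos (SingSx.th_pos 0 w) k
  have P0 : 0 ≤ Pw := prod_nonneg fun p hp => (SingSx.fac_mem Ψ (SingSx.mem_pr.1 hp).1).1
  have P1 : Pw ≤ 1 := prod_le_one (fun p hp => (SingSx.fac_mem Ψ (SingSx.mem_pr.1 hp).1).1)
    fun p hp => (SingSx.fac_mem Ψ (SingSx.mem_pr.1 hp).1).2
  have Q0 : 0 ≤ Pw * ψ := mul_nonneg P0 hps.1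
  have Q1 : Pw * ψ ≤ 1 := mul_le_one₀ P1 hps.1 hps.2
  have hT := fun n => h (pr W n) k W (w0.trans hwW') (w2.trans hwW')
    fun p hp => (SingSx.mem_pr.1 hp).1
  have key : ∀ᶠ n in atTop, ∏ p ∈ (range (n + 1)).filter Nat.Prime,
      (1 - (nuF Ψ p : ℝ) / p) / (1 - 1 / (p : ℝ)) ^ k = Pw * ψ / th 0 w ^ k * t n := by
    filter_upwards [eventually_ge_atTop W] with n hn
    have e : ∏ p ∈ pr w n, (1 - (nuF Ψ p : ℝ) / p) / (1 - 1 / (p : ℝ)) ^ k = ψ * t n := by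
      rw [hpe, ← SingSx.split2 hwW' hn]
      refine prod_congr rfl fun p hp => ?_
      obtain ⟨h1, -, h2⟩ := SingSx.mem_pr.1 hp
      rw [SingSx.nu_eq h2 q1 q2 (by omega) hq hd]
    rw [SingSx.split (hwW'.trans hn), e, prod_div_distrib, prod_pow]
    show Pw / th 0 w ^ k * (ψ * t n) = _
    ring
  have h1 := (((tendsto_add_atTop_iff_nat 1).2 hS).congr' key).mul_const (th 0 w ^ k)
  have h2 : Tendsto (fun n => Pw * ψ * t n) atTop (𝓝 (S * th 0 w ^ k)) :=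
    h1.congr fun n => by field_simp
  have h3 : S * th 0 w ^ k ≤ Pw * ψ :=
    le_of_tendsto' h2 fun n => mul_le_of_le_one_right Q0 (hT n).2.2
  have h6 : (k : ℝ) ^ 2 / W ≤ (u : ℝ) ^ 2 / W := by
    have : (k : ℝ) ≤ u := by exact_mod_cast k2
    gcongr
  have h7 : Pw * ψ * ((k : ℝ) ^ 2 / W) ≤ (k : ℝ) ^ 2 / W :=
    mul_le_of_le_one_left (by positivity) Q1
  have h8 : Pw * ψ - (u : ℝ) ^ 2 / W ≤ S * th 0 w ^ k := ge_of_tendsto' h2 fun n => by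
    have h5 := mul_le_mul_of_nonneg_left (hT n).1 Q0
    simp only [ht]
    linarith
  have h9 : 0 ≤ (u : ℝ) ^ 2 / W := by positivity
  exact abs_le.2 ⟨by linarith, by linarith⟩

end Pool.Agent.Lib.MP_be93de_nt.He
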