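import Pool.Agent.Lib.MP_be93de_nt.He.Defs

/-! One level: telescoping over the blocks, far tuples and short tuples. -/

namespace Pool.Agent.Lib.MP_be93de_nt.He

open Finset Filter Pool.Agent.Lib.MP_be93de_nt.Hb
open Pool.Agent.Lib.MP_be93de_nt.Hc (one val nuF IsSF Adm Kall Kj)
open Pool.Agent.Lib.MP_be93de_nt.Hd (Y3 R3 er mean Part2P)

namespace Stage4x

theorem one_pos {A : Set ℕ} {K : Finset ℕ} (h : ∀ t ∈ K, t ∈ A) : one A K = 1 := if_pos h

theorem one_neg {A : Set ℕ} {K : Finset ℕ} (h : ¬ ∀ t ∈ K, t ∈ A) : one A K = 0 := if_neg h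

theorem one_mem (A : Set ℕ) (K : Finset ℕ) : 0 ≤ one A K ∧ one A K ≤ 1 := by
  by_cases h : ∀ t ∈ K, t ∈ A
  · rw [one_pos h]; norm_num
  · rw [one_neg h]; norm_num

theorem one_split {A A1 A2 : Set ℕ} {K K1 K2 : Finset ℕ}
    (h : (∀ t ∈ K, t ∈ A) ↔ (∀ t ∈ K1, t ∈ A1) ∧ ∀ t ∈ K2, t ∈ A2) :
    one A K = one A1 K1 * one A2 K2 := by
  by_cases h1 : ∀ t ∈ K1, t ∈ A1
  · by_cases h2 : ∀ t ∈ K2, t ∈ A2
    · rw [one_pos (h.2 ⟨h1, h2⟩), one_pos h1, one_pos h2, mul_one]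
    · rw [one_neg fun k => h2 (h.1 k).2, one_neg h2, mul_zero]
  · rw [one_neg fun k => h1 (h.1 k).1, one_neg h1, zero_mul]

theorem T_mono {a b u r : ℕ} {T : ℕ → ℕ} {B : ℕ → Finset ℕ} (h : Blk4 a b u r T B) {i j : ℕ} (hij : i ≤ j)
    (hj : j ≤ nc4 b u) : T i ≤ T j := by
  induction j, hij using Nat.le_induction with
  | base => exact le_rfl
  | succ j hij ih =>
    have h1 := (h.gap j (by omega)).1
    have h2 := ih (by omega)
    omega

/-- past indicator times the weight of the future -/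
noncomputable def Zf (b u : ℕ) (T : ℕ → ℕ) (B : ℕ → Finset ℕ) (K : Finset ℕ) (j : ℕ) : ℝ :=
  one ((range j).biUnion B : Finset ℕ) (K.filter (· < T j)) * ∏ t ∈ K.filter (T j ≤ ·), wt4 b u t

theorem Zf_step {a b u r : ℕ} {T : ℕ → ℕ} {B : ℕ → Finset ℕ} (h : Blk4 a b u r T B) (K : Finset ℕ) {j : ℕ}
    (hj : j < nc4 b u) : Zf b u T B K (j + 1) - Zf b u T B K j =
      cf4 b u T B j K * (one (B j) (Kj T j K) - ∏ t ∈ Kj T j K, wt4 b u t) := by
  have hT : T j ≤ T (j + 1) := T_mono h (Nat.le_succ j) hj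
  have hU : ∀ t, t ∈ (range j).biUnion B → t < T j := by
    intro t ht
    obtain ⟨i, hi, hti⟩ := mem_biUnion.1 ht
    have hi' := mem_range.1 hi
    have h1 := (mem_Ico.1 (h.sub i (by omega) hti)).2
    have h2 : T (i + 1) ≤ T j := T_mono h hi' hj.le
    omega
  have hB : ∀ t, t ∈ B j → T j ≤ t := by
    intro t ht
    have := (mem_Ico.1 (h.sub j hj ht)).1
    omega
  have hS : ∀ t, t ∈ (range (j + 1)).biUnion B ↔ t ∈ B j ∨ t ∈ (range j).biUnion B := by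
    intro t
    rw [range_add_one, biUnion_insert, mem_union]
  have e1 : one ((range (j + 1)).biUnion B : Finset ℕ) (K.filter (· < T (j + 1))) =
      one ((range j).biUnion B : Finset ℕ) (K.filter (· < T j)) * one (B j) (Kj T j K) := by
    refine one_split ⟨fun k => ⟨fun t ht => ?_, fun t ht => ?_⟩, fun k t ht => ?_⟩
    · have h1 := mem_filter.1 ht
      rcases (hS t).1 (mem_coe.1 (k t (mem_filter.2 ⟨h1.1, h1.2.trans_le hT⟩))) with h2 | h2
      · exact absurd (hB t h2) (not_le.2 h1.2)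
      · exact mem_coe.2 h2
    · have h1 := mem_filter.1 ht
      rcases (hS t).1 (mem_coe.1 (k t (mem_filter.2 ⟨h1.1, h1.2.2⟩))) with h2 | h2
      · exact mem_coe.2 h2
      · exact absurd (hU t h2) (not_lt.2 h1.2.1)
    · have h1 := mem_filter.1 ht
      refine mem_coe.2 ((hS t).2 ?_)
      by_cases h2 : t < T j
      · exact Or.inr (mem_coe.1 (k.1 t (mem_filter.2 ⟨h1.1, h2⟩)))
      · exact Or.inl (mem_coe.1 (k.2 t (mem_filter.2 ⟨h1.1, not_lt.1 h2, h1.2⟩)))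
  have e2 : ∏ t ∈ K.filter (T j ≤ ·), wt4 b u t =
      (∏ t ∈ Kj T j K, wt4 b u t) * ∏ t ∈ K.filter (T (j + 1) ≤ ·), wt4 b u t := by
    rw [← prod_union]
    · refine prod_congr ?_ fun _ _ => rfl
      ext t
      rw [mem_union, Kj, mem_filter, mem_filter, mem_filter]
      constructor
      · rintro ⟨h1, h2⟩
        by_cases h3 : t < T (j + 1)
        · exact Or.inl ⟨h1, h2, h3⟩
        · exact Or.inr ⟨h1, not_lt.1 h3⟩
      · rintro (⟨h1, h2, -⟩ | ⟨h1, h2⟩)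
        · exact ⟨h1, h2⟩
        · exact ⟨h1, hT.trans h2⟩
    · exact disjoint_left.2 fun t h1 h2 =>
        absurd (mem_filter.1 h1).2.2 (not_lt.2 (mem_filter.1 h2).2)
  unfold Zf cf4
  rw [e1, e2]
  ring

theorem tele {a b u r : ℕ} {T : ℕ → ℕ} {B : ℕ → Finset ℕ} (h : Blk4 a b u r T B) {K : Finset ℕ}
    (hK : K ⊆ Ico (X4 b u) (X4 b (2 * u))) :
    one ((range (nc4 b u)).biUnion B : Finset ℕ) K - ∏ t ∈ K, wt4 b u t =
      ∑ j ∈ range (nc4 b u), cf4 b u T B j K * (one (B j) (Kj T j K) - ∏ t ∈ Kj T j K, wt4 b u t) := by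
  rw [← sum_congr rfl fun j hj => Zf_step h K (mem_range.1 hj), sum_range_sub (Zf b u T B K)]
  have a1 : K.filter (· < T (nc4 b u)) = K :=
    filter_true_of_mem fun t ht => by rw [h.t1]; exact (mem_Ico.1 (hK ht)).2
  have a2 : K.filter (T (nc4 b u) ≤ ·) = ∅ :=
    filter_false_of_mem fun t ht => by rw [h.t1]; exact not_le.2 (mem_Ico.1 (hK ht)).2
  have a3 : K.filter (· < T 0) = ∅ :=
    filter_false_of_mem fun t ht => by rw [h.t0]; exact not_lt.2 (mem_Ico.1 (hK ht)).1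
  have a4 : K.filter (T 0 ≤ ·) = K :=
    filter_true_of_mem fun t ht => by rw [h.t0]; exact (mem_Ico.1 (hK ht)).1
  unfold Zf
  rw [a1, a2, a3, a4, prod_empty, mul_one, one_pos (K := ∅) (fun t ht => absurd ht (notMem_empty t)),
    one_mul]

theorem sum_Kj {a b u r : ℕ} {T : ℕ → ℕ} {B : ℕ → Finset ℕ} (h : Blk4 a b u r T B) (K : Finset ℕ) :
    ∀ n ≤ nc4 b u, ∑ j ∈ range n, (Kj T j K).card ≤ (K.filter (· < T n)).card := by
  intro n
  induction n with
  | zero => intro _; simp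
  | succ n ih =>
    intro hn
    have hT : T n ≤ T (n + 1) := T_mono h (Nat.le_succ n) hn
    have h1 := ih (by omega)
    have h2 : (K.filter (· < T n)).card + (Kj T n K).card ≤ (K.filter (· < T (n + 1))).card := by
      rw [← card_union_of_disjoint (disjoint_left.2 fun t h1 h2 =>
        absurd (mem_filter.1 h1).2 (not_lt.2 (mem_filter.1 h2).2.1))]
      refine card_le_card fun t ht => ?_
      rcases mem_union.1 ht with k | k
      · exact mem_filter.2 ⟨(mem_filter.1 k).1, (mem_filter.1 k).2.trans_le hT⟩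
      · exact mem_filter.2 ⟨(mem_filter.1 k).1, (mem_filter.1 k).2.2⟩
    rw [sum_range_succ]
    omega

theorem dc (M Z : Finset ℕ) (K : ℕ → Finset ℕ) :
    ∑ t ∈ Z, ((M.filter (fun m => t ∈ K m)).card : ℝ) =
      ∑ m ∈ M, ((Z.filter (fun t => t ∈ K m)).card : ℝ) := by
  simp only [card_filter]
  push_cast
  exact sum_comm

theorem prod_mem {w : ℕ → ℝ} {L : Finset ℕ} (h : ∀ t ∈ L, 0 ≤ w t ∧ w t ≤ 1) :
    0 ≤ ∏ t ∈ L, w t ∧ ∏ t ∈ L, w t ≤ 1 :=
  ⟨prod_nonneg fun t ht => (h t ht).1, prod_le_one (fun t ht => (h t ht).1) fun t ht => (h t ht).2⟩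

theorem term_le {T : ℕ → ℕ} {j s z : ℕ} {K : Finset ℕ} {ν : Finset ℕ → ℝ} {w : ℕ → ℝ} {ε : ℝ}
    (hε : 0 ≤ ε) (hK : K.card ≤ s) (hw : ∀ t ∈ K, 0 ≤ w t ∧ w t ≤ 1) (h0 : ν ∅ = 1)
    (h1 : ∀ L, 0 ≤ ν L ∧ ν L ≤ 1)
    (h2 : ∀ L ⊆ Ico z (T (j + 1)), L.card ≤ s → |ν L - ∏ t ∈ L, w t| ≤ ε) :
    |ν (Kj T j K) - ∏ t ∈ Kj T j K, w t| ≤
      ε * (Kj T j K).card + (((Ico (T j) z).filter (fun t => t ∈ K)).card : ℝ) := by
  have c1 : (0 : ℝ) ≤ (Kj T j K).card := Nat.cast_nonneg _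
  have c2 : (0 : ℝ) ≤ (((Ico (T j) z).filter (fun t => t ∈ K)).card : ℝ) := Nat.cast_nonneg _
  have c3 := mul_nonneg hε c1
  rcases (Kj T j K).eq_empty_or_nonempty with he | hne
  · rw [he, h0, prod_empty, sub_self, abs_zero, card_empty, Nat.cast_zero, mul_zero, zero_add]
    exact c2
  · by_cases hs : Kj T j K ⊆ Ico z (T (j + 1))
    · have k1 := h2 _ hs ((card_le_card (filter_subset _ _)).trans hK)
      have k2 : (1 : ℝ) ≤ (Kj T j K).card := by exact_mod_cast card_pos.2 hne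
      have k3 := mul_le_mul_of_nonneg_left k2 hε
      linarith
    · obtain ⟨t, ht, ht'⟩ := not_subset.1 hs
      have k0 := mem_filter.1 ht
      have k1 : t < z := by
        by_contra hc
        exact ht' (mem_Ico.2 ⟨not_lt.1 hc, k0.2.2⟩)
      have k2 : (1 : ℝ) ≤ (((Ico (T j) z).filter (fun t => t ∈ K)).card : ℝ) := by
        exact_mod_cast card_pos.2 ⟨t, mem_filter.2 ⟨mem_Ico.2 ⟨k0.2.1, k1⟩, k0.1⟩⟩
      have k3 := prod_mem (w := w) (L := Kj T j K) fun t ht => hw t (mem_filter.1 ht).1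
      have k4 := h1 (Kj T j K)
      have k5 : |ν (Kj T j K) - ∏ t ∈ Kj T j K, w t| ≤ 1 :=
        abs_le.2 ⟨by linarith [k3.2, k4.1], by linarith [k3.1, k4.2]⟩
      linarith

theorem term_one {L : Finset ℕ} {ν : Finset ℕ → ℝ} {w : ℕ → ℝ}
    (hw : ∀ t ∈ L, 0 ≤ w t ∧ w t ≤ 1) (h0 : ν ∅ = 1) (h1 : ∀ L, 0 ≤ ν L ∧ ν L ≤ 1) :
    |ν L - ∏ t ∈ L, w t| ≤ L.card := by
  rcases L.eq_empty_or_nonempty with he | hne
  · rw [he, h0, prod_empty, sub_self, abs_zero]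
    exact Nat.cast_nonneg _
  · have k2 : (1 : ℝ) ≤ L.card := by exact_mod_cast card_pos.2 hne
    have k3 := prod_mem hw
    have k4 := h1 L
    exact abs_le.2 ⟨by linarith [k3.2, k4.1], by linarith [k3.1, k4.2]⟩

theorem find (T : ℕ → ℕ) (t : ℕ) : ∀ n, T 0 ≤ t → t < T n → ∃ j < n, T j ≤ t ∧ t < T (j + 1) := by
  intro n
  induction n with
  | zero => intro h1 h2; omega
  | succ n ih =>
    intro h1 h2
    by_cases h3 : t < T n
    · obtain ⟨j, hj, k⟩ := ih h1 h3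
      exact ⟨j, by omega, k⟩
    · exact ⟨n, by omega, not_lt.1 h3, h2⟩

/-- a short set that meets no zone lies in one block -/
theorem one_block {a b u r z : ℕ} {T : ℕ → ℕ} {B : ℕ → Finset ℕ} (h : Blk4 a b u r T B)
    {K : Finset ℕ} (hK : K ⊆ Ico (X4 b u) (X4 b (2 * u))) (hs : Short u K) (hz : u ^ 25 ≤ z)
    (hne : K.Nonempty) (hno : ∀ j < nc4 b u, ∀ t ∈ K, ¬ (T j ≤ t ∧ t < T j + z)) :
    ∃ j < nc4 b u, K ⊆ Ico (T j + z) (T (j + 1)) := by
  have h0 := mem_Ico.1 (hK (K.min'_mem hne))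
  obtain ⟨j, hj, k1, k2⟩ := find T (K.min' hne) (nc4 b u) (by rw [h.t0]; exact h0.1)
    (by rw [h.t1]; exact h0.2)
  refine ⟨j, hj, fun t ht => mem_Ico.2 ⟨?_, ?_⟩⟩
  · have a1 := K.min'_le t ht
    have a2 := hno j hj t ht
    omega
  · by_contra hc
    have a1 := hs t ht _ (K.min'_mem hne)
    have a2 := (mem_Ico.1 (hK ht)).2
    rcases (by omega : j + 1 < nc4 b u ∨ j + 1 = nc4 b u) with k | k
    · have a3 := hno (j + 1) k t ht
      omega
    · rw [k, h.t1] at hc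
      exact hc a2

theorem short_le {a b u r z : ℕ} {T : ℕ → ℕ} {B : ℕ → Finset ℕ} (h : Blk4 a b u r T B)
    {K : Finset ℕ} (hK : K ⊆ Ico (X4 b u) (X4 b (2 * u))) (hs : Short u K) (hz : u ^ 25 ≤ z)
    (hc : K.card ≤ u) {ν : ℕ → Finset ℕ → ℝ} {ε : ℝ} (hε : 0 ≤ ε) {ψ : ℕ → ℝ} (p0 : ψ 0 = 1)
    (p1 : 0 ≤ ψ K.card ∧ ψ K.card ≤ 1) (hw : ∀ t ∈ K, 0 ≤ wt4 b u t ∧ wt4 b u t ≤ 1)
    (hν : ∀ j < nc4 b u, ν j ∅ = 1 ∧ (∀ L, 0 ≤ ν j L ∧ ν j L ≤ 1) ∧
      (K ⊆ Ico (T j + z) (T (j + 1)) → |ν j K - ψ K.card * ∏ t ∈ K, wt4 b u t| ≤ ε)) :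
    |(1 - ψ K.card) * ∏ t ∈ K, wt4 b u t + ∑ j ∈ range (nc4 b u), cf4 b u T B j K *
        (ν j (Kj T j K) - ∏ t ∈ Kj T j K, wt4 b u t)| ≤ ε + ((u : ℝ) + 1) *
      ∑ j ∈ range (nc4 b u), (((Ico (T j) (T j + z)).filter (fun t => t ∈ K)).card : ℝ) := by
  have z0 : (0 : ℝ) ≤
      ∑ j ∈ range (nc4 b u), (((Ico (T j) (T j + z)).filter (fun t => t ∈ K)).card : ℝ) :=
    sum_nonneg fun j _ => Nat.cast_nonneg _
  have u0 : (0 : ℝ) ≤ (u : ℝ) + 1 := by positivity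
  have z1 := mul_nonneg u0 z0
  have hemp : ∀ j < nc4 b u, Kj T j K = ∅ →
      cf4 b u T B j K * (ν j (Kj T j K) - ∏ t ∈ Kj T j K, wt4 b u t) = 0 := fun j hj he => by
    rw [he, (hν j hj).1, prod_empty, sub_self, mul_zero]
  by_cases hno : ∀ j < nc4 b u, ∀ t ∈ K, ¬ (T j ≤ t ∧ t < T j + z)
  · rcases K.eq_empty_or_nonempty with he | hne
    · rw [sum_eq_zero fun j hj => hemp j (mem_range.1 hj) (by rw [he, Kj, filter_empty])]
      have : K.card = 0 := by rw [he, card_empty]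
      rw [this, p0, sub_self, zero_mul, add_zero, abs_zero]
      linarith
    · obtain ⟨j, hj, hs'⟩ := one_block h hK hs hz hne hno
      have b1 : ∀ t ∈ K, T j ≤ t ∧ t < T (j + 1) := fun t ht => by
        have := mem_Ico.1 (hs' ht)
        omega
      have e1 : Kj T j K = K := filter_true_of_mem b1
      have e2 : K.filter (· < T j) = ∅ := filter_false_of_mem fun t ht => not_lt.2 (b1 t ht).1
      have e3 : K.filter (T (j + 1) ≤ ·) = ∅ := filter_false_of_mem fun t ht => not_le.2 (b1 t ht).2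
      have e4 : cf4 b u T B j K = 1 := by
        unfold cf4
        rw [e2, e3, prod_empty, mul_one, one_pos fun t ht => absurd ht (notMem_empty t)]
      rw [sum_eq_single_of_mem j (mem_range.2 hj) fun i hi hij => hemp i (mem_range.1 hi) (by
        refine filter_false_of_mem fun t ht k => ?_
        have b2 := b1 t ht
        have hi' := mem_range.1 hi
        rcases lt_or_gt_of_ne hij with k' | k'
        · have := T_mono h (i := i + 1) (j := j) k' hj.le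
          omega
        · have := T_mono h (i := j + 1) (j := i) k' hi'.le
          omega), e1, e4]
      have k1 := (hν j hj).2.2 hs'
      have k2 : (1 - ψ K.card) * ∏ t ∈ K, wt4 b u t + 1 * (ν j K - ∏ t ∈ K, wt4 b u t) =
          ν j K - ψ K.card * ∏ t ∈ K, wt4 b u t := by ring
      rw [k2]
      linarith
  · push Not at hno
    obtain ⟨j, hj, t, ht, k1, k2⟩ := hno
    have c0 : (1 : ℝ) ≤ (((Ico (T j) (T j + z)).filter (fun t => t ∈ K)).card : ℝ) := by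
      exact_mod_cast card_pos.2 ⟨t, mem_filter.2 ⟨mem_Ico.2 ⟨k1, k2⟩, ht⟩⟩
    have c1 := c0.trans (single_le_sum
      (f := fun j => (((Ico (T j) (T j + z)).filter (fun t => t ∈ K)).card : ℝ))
      (fun i _ => Nat.cast_nonneg _) (mem_range.2 hj))
    have c2 := mul_le_mul_of_nonneg_left c1 u0
    have c3 : ((∑ j ∈ range (nc4 b u), (Kj T j K).card : ℕ) : ℝ) ≤ u := by
      exact_mod_cast (sum_Kj h K _ le_rfl).trans ((card_le_card (filter_subset _ _)).trans hc)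
    rw [Nat.cast_sum] at c3
    have c4 : |∑ j ∈ range (nc4 b u), cf4 b u T B j K *
        (ν j (Kj T j K) - ∏ t ∈ Kj T j K, wt4 b u t)| ≤ u := by
      refine (abs_sum_le_sum_abs _ _).trans (le_trans (sum_le_sum fun i hi => ?_) c3)
      obtain ⟨n0, n1, -⟩ := hν i (mem_range.1 hi)
      have d1 := term_one (L := Kj T i K) (w := wt4 b u) (fun t ht => hw t (mem_filter.1 ht).1) n0 n1
      have d2 := one_mem ((range i).biUnion B : Finset ℕ) (K.filter (· < T i))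
      have d3 := prod_mem (w := wt4 b u) (L := K.filter (T (i + 1) ≤ ·))
        fun t ht => hw t (mem_filter.1 ht).1
      have d4 : 0 ≤ cf4 b u T B i K := mul_nonneg d2.1 d3.1
      have d5 : cf4 b u T B i K ≤ 1 := mul_le_one₀ d2.2 d3.1 d3.2
      rw [abs_mul, abs_of_nonneg d4]
      exact (mul_le_of_le_one_left (abs_nonneg _) d5).trans d1
    have c5 := prod_mem hw
    have c6 : 0 ≤ (1 - ψ K.card) * ∏ t ∈ K, wt4 b u t := mul_nonneg (by linarith [p1.2]) c5.1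
    have c7 : (1 - ψ K.card) * ∏ t ∈ K, wt4 b u t ≤ 1 := mul_le_one₀ (by linarith [p1.1]) c5.1 c5.2
    refine (abs_add_le _ _).trans ?_
    rw [abs_of_nonneg c6]
    linarith

theorem num1 (a b : ℕ) (ha : 1 ≤ a) : ∀ᶠ u : ℕ in atTop, (u : ℝ) * er a u ≤ 1 / (u : ℝ) ^ b := by
  have h := (Real.tendsto_pow_mul_exp_neg_atTop_nhds_zero (b + 1)).comp
    (tendsto_natCast_atTop_atTop (R := ℝ))
  filter_upwards [h.eventually (eventually_le_nhds (zero_lt_one' ℝ)), eventually_ge_atTop a]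
    with u h1 h2
  have a1 : (1 : ℝ) ≤ a := by exact_mod_cast ha
  have a2 : (a : ℝ) ≤ u := by exact_mod_cast h2
  have u1 : (1 : ℝ) ≤ u := a1.trans a2
  have k1 : (u : ℝ) ≤ (u : ℝ) ^ 12 / a := by
    rw [le_div_iff₀ (by linarith)]
    calc (u : ℝ) * a ≤ u * u := mul_le_mul_of_nonneg_left a2 (by linarith)
      _ = (u : ℝ) ^ 2 := (sq _).symm
      _ ≤ (u : ℝ) ^ 12 := pow_le_pow_right₀ u1 (by norm_num)
  have k2 : er a u ≤ Real.exp (-(u : ℝ)) := Real.exp_le_exp.2 (neg_le_neg k1)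
  have k3 : (u : ℝ) ^ (b + 1) * Real.exp (-(u : ℝ)) ≤ 1 := h1
  rw [le_div_iff₀ (by positivity)]
  calc (u : ℝ) * er a u * (u : ℝ) ^ b = (u : ℝ) ^ (b + 1) * er a u := by ring
    _ ≤ (u : ℝ) ^ (b + 1) * Real.exp (-(u : ℝ)) := mul_le_mul_of_nonneg_left k2 (by positivity)
    _ ≤ 1 := k3

theorem num2 (u : ℕ) (hu : 2 ≤ u) : u ^ 25 ≤ 3 * R3 u + 3 := by
  have h1 : u ^ 25 ≤ (2 ^ u) ^ 25 := Nat.pow_le_pow_left Nat.lt_two_pow_self.le _
  have h2 : 2 ^ 11 ≤ u ^ 11 := Nat.pow_le_pow_left hu _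
  have h3 : u * 25 ≤ u ^ 12 := by
    rw [pow_succ' u 11]
    exact Nat.mul_le_mul_left u (by omega)
  have h4 : (2 ^ u) ^ 25 ≤ R3 u := by
    rw [← pow_mul]
    exact Nat.pow_le_pow_right (by norm_num) h3
  omega

end Stage4x

open Stage4x in
theorem stage4_st (h1 : Run4St) (h2 : Bound4St) (h3 : Union4St) (h4 : Wt4St) (h5 : Psi4St) :
    Stage4St := by
  intro a b ok
  have hb4 : 4 ≤ b := ok.1
  have ha1 : 1 ≤ a := by have := ok.2; omega
  filter_upwards [h1 a b ok, h2 a b ok, h4 b hb4, num1 a b ha1, eventually_ge_atTop 2]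
    with u hR hB hW hN hs
  intro r ι I Mi K γ hI hK hn
  obtain ⟨T, t0, t1, tg, hz⟩ :=
    hB ι I (fun τ t => ((Mi τ).filter (fun m => t ∈ K τ m)).card) hI hn
  obtain ⟨B, ν, hb, hν, hr⟩ := hR r ι I Mi K γ T hI hK hn t0 t1 tg
  refine ⟨(range (nc4 b u)).biUnion B, h3 a b u r T B hb4 (by omega) hb, fun τ hτ => ?_⟩
  have hs1 : (1 : ℝ) ≤ u := by exact_mod_cast (by omega : 1 ≤ u)
  have hw : ∀ t, X4 b u ≤ t → 0 ≤ wt4 b u t ∧ wt4 b u t ≤ 1 := fun t ht =>
    ⟨(hW.2.2.1 t ht).1, (hW.2.2.1 t ht).2.trans (by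
      rw [div_le_one (by positivity)]; exact one_le_pow₀ hs1)⟩
  have e0 : 0 ≤ er a u := (Real.exp_pos _).le
  have W0 : 0 ≤ W4 u := by unfold W4; positivity
  have M0 : (0 : ℝ) ≤ (Mi τ).card := Nat.cast_nonneg _
  have r1 := hr τ hτ
  have z1 := hz τ hτ
  have hall : ∑ t ∈ Ico (X4 b u) (X4 b (2 * u)),
      (((Mi τ).filter (fun m => t ∈ K τ m)).card : ℝ) ≤ (Mi τ).card * u := by
    rw [dc, ← nsmul_eq_mul, ← sum_const]
    refine sum_le_sum fun m hm => ?_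
    exact_mod_cast (card_le_card fun t ht => (mem_filter.1 ht).2).trans (hK τ hτ m hm).1
  have hzone : ∑ m ∈ Mi τ, ∑ j ∈ range (nc4 b u),
        (((Ico (T j) (T j + 3 * R3 u + 3)).filter (fun t => t ∈ K τ m)).card : ℝ) =
      ∑ j ∈ range (nc4 b u), ∑ t ∈ Ico (T j) (T j + 3 * R3 u + 3),
        (((Mi τ).filter (fun m => t ∈ K τ m)).card : ℝ) := by
    rw [sum_comm]
    exact sum_congr rfl fun j _ => (dc _ _ _).symm
  have q1 := mul_le_mul_of_nonneg_left hall (mul_nonneg (zero_le_two (α := ℝ)) e0)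
  have z2 := z1.trans (add_le_add q1 le_rfl)
  rw [← hzone] at z2
  refine ⟨fun hf => ?_, fun hsh => ?_⟩
  · obtain ⟨ε, hε⟩ : ∃ ε : ℝ, ε = 1 / (u : ℝ) ^ b := ⟨_, rfl⟩
    have ε0 : 0 ≤ ε := by rw [hε]; positivity
    have hsplit : ∑ m ∈ Mi τ, γ τ m *
          (one ((range (nc4 b u)).biUnion B : Finset ℕ) (K τ m) - ∏ t ∈ K τ m, wt4 b u t) =
        (∑ j ∈ range (nc4 b u), ∑ m ∈ Mi τ, γ τ m * cf4 b u T B j (K τ m) *
            (one (B j) (Kj T j (K τ m)) - ν j (Kj T j (K τ m)))) +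
          ∑ m ∈ Mi τ, ∑ j ∈ range (nc4 b u), γ τ m * cf4 b u T B j (K τ m) *
            (ν j (Kj T j (K τ m)) - ∏ t ∈ Kj T j (K τ m), wt4 b u t) := by
      rw [sum_comm (s := range (nc4 b u)), ← sum_add_distrib]
      refine sum_congr rfl fun m hm => ?_
      rw [tele hb (hK τ hτ m hm).2.1, mul_sum, ← sum_add_distrib]
      exact sum_congr rfl fun j _ => by ring
    have hone : ∀ m ∈ Mi τ, |∑ j ∈ range (nc4 b u), γ τ m * cf4 b u T B j (K τ m) *
          (ν j (Kj T j (K τ m)) - ∏ t ∈ Kj T j (K τ m), wt4 b u t)| ≤ ε * b +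
        ∑ j ∈ range (nc4 b u),
          (((Ico (T j) (T j + 3 * R3 u + 3)).filter (fun t => t ∈ K τ m)).card : ℝ) := by
      intro m hm
      obtain ⟨-, k2, k3, k4⟩ := hK τ hτ m hm
      have k1 := hf m hm
      have hwK : ∀ t ∈ K τ m, 0 ≤ wt4 b u t ∧ wt4 b u t ≤ 1 :=
        fun t ht => hw t (mem_Ico.1 (k2 ht)).1
      have c1 : ((∑ j ∈ range (nc4 b u), (Kj T j (K τ m)).card : ℕ) : ℝ) ≤ b := by
        exact_mod_cast (sum_Kj hb (K τ m) _ le_rfl).trans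
          ((card_le_card (filter_subset _ _)).trans k1)
      rw [Nat.cast_sum] at c1
      have c2 := mul_le_mul_of_nonneg_left c1 ε0
      refine (abs_sum_le_sum_abs _ _).trans (le_trans (sum_le_sum (g := fun j =>
        ε * (Kj T j (K τ m)).card +
          (((Ico (T j) (T j + 3 * R3 u + 3)).filter (fun t => t ∈ K τ m)).card : ℝ))
        fun j hj => ?_) ?_)
      · obtain ⟨n0, n1, n2⟩ := hν j (mem_range.1 hj)
        have d1 := term_le (T := T) (j := j) ε0 k1 hwK n0 n1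
          (fun L hL hc => by rw [hε]; exact (n2 L hL).2 hc)
        have d2 := one_mem ((range j).biUnion B : Finset ℕ) ((K τ m).filter (· < T j))
        have d3 := prod_mem (w := wt4 b u) (L := (K τ m).filter (T (j + 1) ≤ ·))
          fun t ht => hwK t (mem_filter.1 ht).1
        have d4 : 0 ≤ cf4 b u T B j (K τ m) := mul_nonneg d2.1 d3.1
        have d5 : cf4 b u T B j (K τ m) ≤ 1 := mul_le_one₀ d2.2 d3.1 d3.2
        rw [abs_mul, abs_of_nonneg (mul_nonneg k3 d4)]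
        exact (mul_le_of_le_one_left (abs_nonneg _) (mul_le_one₀ k4 d4 d5)).trans d1
      · rw [sum_add_distrib, ← mul_sum]
        linarith
    have r2 := (abs_sum_le_sum_abs _ _).trans (sum_le_sum hone)
    rw [sum_add_distrib, sum_const, nsmul_eq_mul] at r2
    rw [← hε] at hN
    have b4 : (4 : ℝ) ≤ b := by exact_mod_cast hb4
    have q2 := mul_le_mul_of_nonneg_left hN M0
    have q3 := mul_le_mul_of_nonneg_left b4 (mul_nonneg M0 ε0)
    have q4 : ((Mi τ).card : ℝ) * (2 * b / (u : ℝ) ^ b) = 2 * ((Mi τ).card * ε * b) := by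
      rw [hε]; ring
    have q5 := mul_nonneg M0 ε0
    rw [hsplit, q4]
    refine (abs_add_le _ _).trans ?_
    linarith
  · have hsplit : ∑ m ∈ Mi τ, γ τ m *
          (one ((range (nc4 b u)).biUnion B : Finset ℕ) (K τ m) -
            psi4 b u (K τ m).card * ∏ t ∈ K τ m, wt4 b u t) =
        (∑ j ∈ range (nc4 b u), ∑ m ∈ Mi τ, γ τ m * cf4 b u T B j (K τ m) *
            (one (B j) (Kj T j (K τ m)) - ν j (Kj T j (K τ m)))) +
          ∑ m ∈ Mi τ, γ τ m * ((1 - psi4 b u (K τ m).card) * ∏ t ∈ K τ m, wt4 b u t +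
            ∑ j ∈ range (nc4 b u), cf4 b u T B j (K τ m) *
              (ν j (Kj T j (K τ m)) - ∏ t ∈ Kj T j (K τ m), wt4 b u t)) := by
      rw [sum_comm (s := range (nc4 b u)), ← sum_add_distrib]
      refine sum_congr rfl fun m hm => ?_
      have e1 := tele hb (hK τ hτ m hm).2.1
      have e2 : ∑ j ∈ range (nc4 b u), γ τ m * cf4 b u T B j (K τ m) *
            (one (B j) (Kj T j (K τ m)) - ν j (Kj T j (K τ m))) +
          γ τ m * ∑ j ∈ range (nc4 b u), cf4 b u T B j (K τ m) *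
            (ν j (Kj T j (K τ m)) - ∏ t ∈ Kj T j (K τ m), wt4 b u t) =
          γ τ m * ∑ j ∈ range (nc4 b u), cf4 b u T B j (K τ m) *
            (one (B j) (Kj T j (K τ m)) - ∏ t ∈ Kj T j (K τ m), wt4 b u t) := by
        rw [mul_sum, mul_sum, ← sum_add_distrib]
        exact sum_congr rfl fun j _ => by ring
      rw [← e1] at e2
      linarith
    have p0 : psi4 b u 0 = 1 := by
      unfold psi4
      exact prod_eq_one fun p _ => by simp
    have u0 : (0 : ℝ) ≤ (u : ℝ) + 1 := by positivity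
    have hone : ∀ m ∈ Mi τ, |γ τ m * ((1 - psi4 b u (K τ m).card) * ∏ t ∈ K τ m, wt4 b u t +
            ∑ j ∈ range (nc4 b u), cf4 b u T B j (K τ m) *
              (ν j (Kj T j (K τ m)) - ∏ t ∈ Kj T j (K τ m), wt4 b u t))| ≤
        er a u + ((u : ℝ) + 1) * ∑ j ∈ range (nc4 b u),
          (((Ico (T j) (T j + 3 * R3 u + 3)).filter (fun t => t ∈ K τ m)).card : ℝ) := by
      intro m hm
      obtain ⟨k1, k2, k3, k4⟩ := hK τ hτ m hm
      have d1 := short_le (z := 3 * R3 u + 3) (ν := ν) (ψ := psi4 b u) hb k2 (hsh m hm) (num2 u hs)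
        k1 e0 p0 (h5 b u _ (by omega) k1) (fun t ht => hw t (mem_Ico.1 (k2 ht)).1)
        fun j hj => ⟨(hν j hj).1, (hν j hj).2.1,
          fun hL => ((hν j hj).2.2 _ hL).1 k1 (hsh m hm)⟩
      rw [abs_mul, abs_of_nonneg k3]
      exact (mul_le_of_le_one_left (abs_nonneg _) k4).trans d1
    have r2 := (abs_sum_le_sum_abs _ _).trans (sum_le_sum hone)
    rw [sum_add_distrib, sum_const, nsmul_eq_mul, ← mul_sum] at r2
    have q2 := mul_le_mul_of_nonneg_left z2 u0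
    have q3 := mul_nonneg M0 e0
    have q4 : 2 * (u : ℝ) ^ 2 + 3 * u + 1 ≤ 6 * (u : ℝ) ^ 2 := by nlinarith
    have q5 := mul_le_mul_of_nonneg_left q4 q3
    have q6 := mul_le_mul_of_nonneg_right hs1 W0
    rw [hsplit]
    refine (abs_add_le _ _).trans ?_
    nlinarith

end Pool.Agent.Lib.MP_be93de_nt.He
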