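import Pool.Agent.Lib.MP_be93de_nt.He.Defs

/-! Short tuples on two levels: cut the interval where the values cross the level boundary. -/

namespace Pool.Agent.Lib.MP_be93de_nt.He

open Finset Filter Pool.Agent.Lib.MP_be93de_nt.Hb
open Pool.Agent.Lib.MP_be93de_nt.Hc (nuF IsSF Adm)
open Pool.Agent.Lib.MP_be93de_nt.Hd (Mert3St er)

namespace Twox

theorem dev_add (A : Set ℕ) (Ψ : Finset (ℤ × ℤ)) (S : ℝ) {s m t : ℕ} (h1 : s ≤ m) (h2 : m ≤ t) :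
    Dev A Ψ S s t ≤ Dev A Ψ S s m + Dev A Ψ S m t := by
  classical
  unfold Dev
  have hd : Disjoint (Ico s m) (Ico m t) := Ico_disjoint_Ico_consecutive s m t
  rw [← Ico_union_Ico_eq_Ico h1 h2, filter_union, card_union_of_disjoint
    (disjoint_filter_filter hd), sum_union hd]
  refine le_trans (le_of_eq ?_) (abs_add_le _ _)
  congr 1
  push_cast
  ring

theorem dev_triv (A : Set ℕ) (Ψ : Finset (ℤ × ℤ)) (S : ℝ) {s t : ℕ} (h1 : s ≤ t)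
    (h : ∀ m ∈ Ico s t, 0 ≤ S * ∏ ψ ∈ Ψ, 1 / Real.log ((ψ.1 * m + ψ.2 : ℤ) : ℝ) ∧
      S * ∏ ψ ∈ Ψ, 1 / Real.log ((ψ.1 * m + ψ.2 : ℤ) : ℝ) ≤ 2) :
    Dev A Ψ S s t ≤ 2 * ((t : ℝ) - s) := by
  classical
  unfold Dev
  rw [mul_sum]
  have c0 : ((Ico s t).card : ℝ) = (t : ℝ) - s := by
    rw [Nat.card_Ico, Nat.cast_sub h1]
  have a1 := sum_nonneg (fun m hm => (h m hm).1)
  have a2 := sum_le_card_nsmul _ _ _ (fun m hm => (h m hm).2)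
  rw [nsmul_eq_mul, c0] at a2
  have a3 : (((Ico s t).filter (fun m : ℕ => ∀ ψ ∈ Ψ, (ψ.1 * m + ψ.2).toNat ∈ A)).card : ℝ) ≤
      (t : ℝ) - s := by
    rw [← c0]
    exact_mod_cast card_filter_le _ _
  have a4 : (0 : ℝ) ≤
      (((Ico s t).filter (fun m : ℕ => ∀ ψ ∈ Ψ, (ψ.1 * m + ψ.2).toNat ∈ A)).card : ℝ) :=
    Nat.cast_nonneg _
  exact abs_le.2 ⟨by linarith, by linarith⟩

theorem prod_le (Ψ : Finset (ℤ × ℤ)) (w : ℕ) :
    ∏ p ∈ pr 0 w, (1 - (nuF Ψ p : ℝ) / p) ≤ 1 := by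
  refine prod_le_one (fun p hp => ?_) (fun p _ => ?_)
  · have h1 : 0 < p := (mem_filter.1 hp).2.pos
    have h2 : nuF Ψ p ≤ p := (card_filter_le _ _).trans (card_range p).le
    have h3 : (nuF Ψ p : ℝ) / p ≤ 1 := by
      rw [div_le_one (by exact_mod_cast h1)]
      exact_mod_cast h2
    linarith
  · have : (0 : ℝ) ≤ (nuF Ψ p : ℝ) / p := by positivity
    linarith

theorem X_mono (b : ℕ) {u v : ℕ} (h : u ≤ v) : X4 b u ≤ X4 b v :=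
  Nat.pow_le_pow_right (by norm_num) (Nat.mul_le_mul_left _ (Nat.pow_le_pow_left h _))

theorem W_mono (u : ℕ) : W4 u ≤ W4 (2 * u) :=
  pow_le_pow_right₀ (by norm_num) (Nat.mul_le_mul_left _ (Nat.pow_le_pow_left (by omega) _))

theorem pow_W (u : ℕ) : (u : ℝ) ^ 24 ≤ W4 (2 * u) := by
  refine le_trans ?_ (W_mono u)
  have h1 : u ^ 12 ≤ 2 ^ (u ^ 12) := Nat.lt_two_pow_self.le
  have h2 : u ^ 24 ≤ 2 ^ (3 * u ^ 12) :=
    calc u ^ 24 = (u ^ 12) ^ 2 := by ring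
      _ ≤ (2 ^ (u ^ 12)) ^ 2 := Nat.pow_le_pow_left h1 _
      _ = 2 ^ (u ^ 12 * 2) := (pow_mul _ _ _).symm
      _ ≤ 2 ^ (3 * u ^ 12) := Nat.pow_le_pow_right (by norm_num) (by omega)
  unfold W4
  exact_mod_cast h2

theorem er_mono (a u : ℕ) : er a (2 * u) ≤ er a u := by
  unfold er
  refine Real.exp_le_exp.2 (neg_le_neg (div_le_div_of_nonneg_right ?_ (Nat.cast_nonneg _)))
  refine pow_le_pow_left₀ (Nat.cast_nonneg _) ?_ _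
  exact_mod_cast (by omega : u ≤ 2 * u)

end Twox

open Twox in
theorem two_st (h1 : Mert3St) (h2 : Wt4St) (h3 : SingFSt) (h4 : OneSt) : TwoSt := by
  classical
  intro a b ok
  have t2 : Tendsto (fun u : ℕ => 2 * u) atTop atTop :=
    tendsto_atTop_mono (fun u => by simp only [id]; omega) tendsto_id
  filter_upwards [h4 a b ok, t2.eventually (h4 a b ok), h2 b ok.1, h3 b ok.1,
    eventually_ge_atTop 1] with u o1 o2 w sf u1 A Ψ S s t l1 l2 ad sh ck iS st tb vals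
  obtain ⟨⟨q, q1, q2, q3⟩, sh2⟩ := sh
  have hex : ∃ m, s ≤ m ∧ (t ≤ m ∨ ∃ ψ ∈ Ψ, (X4 b (2 * u) : ℤ) ≤ ψ.1 * m + ψ.2) :=
    ⟨t, st, Or.inl le_rfl⟩
  obtain ⟨s1, ⟨a1, a2⟩, a3⟩ : ∃ s1 : ℕ,
      (s ≤ s1 ∧ (t ≤ s1 ∨ ∃ ψ ∈ Ψ, (X4 b (2 * u) : ℤ) ≤ ψ.1 * s1 + ψ.2)) ∧ ∀ m < s1,
        ¬ (s ≤ m ∧ (t ≤ m ∨ ∃ ψ ∈ Ψ, (X4 b (2 * u) : ℤ) ≤ ψ.1 * m + ψ.2)) :=
    ⟨Nat.find hex, Nat.find_spec hex, fun m hm => Nat.find_min hex hm⟩
  have a4 : s1 ≤ t := by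
    by_contra h
    exact a3 t (by omega) ⟨st, Or.inl le_rfl⟩
  obtain ⟨s2, hs2⟩ : ∃ s2, s2 = min t (s1 + u ^ 25) := ⟨_, rfl⟩
  have b1 : s1 ≤ s2 := by omega
  have b2 : s2 ≤ t := by omega
  have b3 : s2 ≤ s1 + u ^ 25 := by omega
  have d1 := o1 A Ψ S s s1 l1 ad ⟨⟨q, q1, q2, q3⟩, sh2⟩ ck iS a1 (by omega) (fun m hm ψ hψ => by
    have k := mem_Ico.1 hm
    refine ⟨(vals m (mem_Ico.2 ⟨k.1, by omega⟩) ψ hψ).1, ?_⟩
    by_contra h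
    exact a3 m k.2 ⟨k.1, Or.inr ⟨ψ, hψ, not_lt.1 h⟩⟩)
  have xm : X4 b (4 * u) ≤ X4 b (4 * (2 * u)) := X_mono b (by omega)
  have xz : (X4 b (4 * u) : ℤ) ≤ X4 b (4 * (2 * u)) := by exact_mod_cast xm
  have pm : (u : ℤ) ^ 25 ≤ ((2 * u : ℕ) : ℤ) ^ 25 :=
    pow_le_pow_left₀ (Nat.cast_nonneg _) (by exact_mod_cast (by omega : u ≤ 2 * u)) _
  have d3 := o2 A Ψ S s2 t l2
    ⟨fun ψ hψ => ⟨(ad.1 ψ hψ).1, (ad.1 ψ hψ).2.1, (ad.1 ψ hψ).2.2.1.trans xz,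
      (ad.1 ψ hψ).2.2.2.trans xz⟩, ad.2⟩
    ⟨⟨q, q1, q2.trans pm, q3⟩, fun ψ hψ φ hφ => (sh2 ψ hψ φ hφ).trans (by linarith)⟩
    (by omega) iS b2 (by omega) (fun m hm φ hφ => by
      have k := mem_Ico.1 hm
      refine ⟨?_, ?_⟩
      · rcases a2 with h | ⟨ψ, hψ, h⟩
        · omega
        · have k1 : s1 + u ^ 25 ≤ m := by omega
          have k2 : (s1 : ℤ) + (u : ℤ) ^ 25 ≤ m := by exact_mod_cast k1
          have k3 := sh2 ψ hψ φ hφ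
          have k4 : (0 : ℤ) ≤ (u : ℤ) ^ 25 := by positivity
          rw [q3 ψ hψ] at h
          rw [q3 φ hφ]
          nlinarith
      · rw [show 2 * (2 * u) = 4 * u by ring]
        exact (vals m (mem_Ico.2 ⟨by omega, k.2⟩) φ hφ).2)
  obtain ⟨S0, S1⟩ := (sf Ψ ad ck).2 S iS
  have U1 : (1 : ℝ) ≤ u := by exact_mod_cast u1
  have th0 := (h1.1 0 (w4 b u)).1
  have S2 : S * th 0 (w4 b u) ^ Ψ.card ≤ 2 := by
    have k1 := (abs_le.1 S1).2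
    have k2 := prod_le Ψ (w4 b u)
    have k3 : 1 / (4 * (u : ℝ) ^ (b + 1)) ≤ 1 := by
      have := one_le_pow₀ (n := b + 1) U1
      rw [div_le_one (by linarith)]
      linarith
    linarith
  have d2 := dev_triv A Ψ S b1 (fun m hm => by
    have k := mem_Ico.1 hm
    have e : ∀ ψ ∈ Ψ, 0 ≤ 1 / Real.log ((ψ.1 * m + ψ.2 : ℤ) : ℝ) ∧
        1 / Real.log ((ψ.1 * m + ψ.2 : ℤ) : ℝ) ≤ th 0 (w4 b u) := fun ψ hψ => by
      have k1 := (vals m (mem_Ico.2 ⟨by omega, by omega⟩) ψ hψ).1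
      have k2 : (X4 b u : ℝ) ≤ ((ψ.1 * m + ψ.2 : ℤ) : ℝ) := by exact_mod_cast k1
      have k3 : (0 : ℝ) < X4 b u := by exact_mod_cast Nat.two_pow_pos _
      have k4 := (w.2.1).trans (Real.log_le_log k3 k2)
      have k5 := inv_pos.2 th0
      refine ⟨by have := k5.trans_le k4; positivity, ?_⟩
      rw [one_div]
      exact inv_le_of_inv_le₀ th0 k4
    refine ⟨mul_nonneg S0 (prod_nonneg fun ψ hψ => (e ψ hψ).1), le_trans ?_ S2⟩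
    refine mul_le_mul_of_nonneg_left ?_ S0
    rw [← prod_const]
    exact prod_le_prod (fun ψ hψ => (e ψ hψ).1) (fun ψ hψ => (e ψ hψ).2))
  have e1 := dev_add A Ψ S a1 a4
  have e2 := dev_add A Ψ S b1 b2
  have r1 : (s : ℝ) ≤ s1 := by exact_mod_cast a1
  have r2 : (s1 : ℝ) ≤ s2 := by exact_mod_cast b1
  have r3 : (s2 : ℝ) ≤ t := by exact_mod_cast b2
  have r4 : (s2 : ℝ) ≤ s1 + (u : ℝ) ^ 25 := by exact_mod_cast b3
  have E0 : 0 ≤ er a u := (Real.exp_pos _).le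
  have F0 : 0 ≤ (u : ℝ) ^ 2 * er a u := by positivity
  have g1 : ((t : ℝ) - s2) * (8 * ((2 * u : ℕ) : ℝ) ^ 2 * er a (2 * u)) ≤
      ((t : ℝ) - s1) * (32 * (u : ℝ) ^ 2 * er a u) := by
    have := mul_le_mul_of_nonneg_left (er_mono a u) (by positivity : 0 ≤ 32 * (u : ℝ) ^ 2)
    refine mul_le_mul (by linarith) ?_ (mul_nonneg (by positivity) (Real.exp_pos _).le)
      (by linarith)
    push_cast
    linarith
  have g2 : ((s1 : ℝ) - s) * (8 * (u : ℝ) ^ 2 * er a u) ≤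
      ((s1 : ℝ) - s) * (32 * (u : ℝ) ^ 2 * er a u) :=
    mul_le_mul_of_nonneg_left (by linarith) (by linarith)
  have g3 := mul_le_mul_of_nonneg_left (W_mono u) (by positivity : (0 : ℝ) ≤ 2 * u)
  have g4 := mul_le_mul_of_nonneg_left (pow_W u) (by positivity : (0 : ℝ) ≤ 2 * u)
  have g5 : 2 * (u : ℝ) * (u : ℝ) ^ 24 = 2 * (u : ℝ) ^ 25 := by ring
  have g6 : 2 * ((2 * u : ℕ) : ℝ) * W4 (2 * u) = 4 * u * W4 (2 * u) := by
    push_cast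
    ring
  linarith

end Pool.Agent.Lib.MP_be93de_nt.He
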