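import Pool.Agent.Lib.MP_be93de_nt.He.Defs

namespace Pool.Agent.Lib.MP_be93de_nt.He

open Finset Filter Pool.Agent.Lib.MP_be93de_nt.Hb
open Pool.Agent.Lib.MP_be93de_nt.Hd (Y3 R3 Mert3St)

namespace Wt4x

theorem prod_diff (L : Finset ℕ) (a b : ℕ → ℝ) (ha : ∀ t ∈ L, 0 ≤ a t ∧ a t ≤ 1)
    (hb : ∀ t ∈ L, 0 ≤ b t ∧ b t ≤ 1) :
    |∏ t ∈ L, a t - ∏ t ∈ L, b t| ≤ ∑ t ∈ L, |a t - b t| := by
  classical
  induction L using Finset.induction_on with
  | empty => simp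
  | insert x L hx ih =>
    rw [prod_insert hx, prod_insert hx, sum_insert hx]
    have ih' := ih (fun t ht => ha t (mem_insert_of_mem ht))
      (fun t ht => hb t (mem_insert_of_mem ht))
    have hA0 : 0 ≤ ∏ t ∈ L, a t := prod_nonneg fun t ht => (ha t (mem_insert_of_mem ht)).1
    have hA1 : ∏ t ∈ L, a t ≤ 1 := prod_le_one (fun t ht => (ha t (mem_insert_of_mem ht)).1)
      (fun t ht => (ha t (mem_insert_of_mem ht)).2)
    obtain ⟨hb0, hb1⟩ := hb x (mem_insert_self x L)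
    have e : a x * ∏ t ∈ L, a t - b x * ∏ t ∈ L, b t =
        (a x - b x) * ∏ t ∈ L, a t + b x * (∏ t ∈ L, a t - ∏ t ∈ L, b t) := by ring
    rw [e]
    refine (abs_add_le _ _).trans (add_le_add ?_ ?_)
    · rw [abs_mul, abs_of_nonneg hA0]
      exact mul_le_of_le_one_right (abs_nonneg _) hA1
    · rw [abs_mul, abs_of_nonneg hb0]
      exact (mul_le_of_le_one_left (abs_nonneg _) hb1).trans ih'

theorem log_ge (b u t : ℕ) (hb : 4 ≤ b) (ht : X4 b u ≤ t) : 2 * (u : ℝ) ^ 12 ≤ Real.log t := by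
  have h1 : ((2 : ℝ) ^ (b * u ^ 12)) ≤ t := by
    have : ((X4 b u : ℕ) : ℝ) ≤ t := by exact_mod_cast ht
    simpa [X4] using this
  have h2 := Real.log_le_log (by positivity) h1
  rw [Real.log_pow] at h2
  have h3 : (1 / 2 : ℝ) ≤ Real.log 2 := by have := Real.log_two_gt_d9; linarith
  have h4 : (0 : ℝ) ≤ (u : ℝ) ^ 12 := by positivity
  have h5 : (4 : ℝ) ≤ b := by exact_mod_cast hb
  push_cast at h2
  have h6 : 4 * (u : ℝ) ^ 12 ≤ b * (u : ℝ) ^ 12 := mul_le_mul_of_nonneg_right h5 h4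
  have h7 : (b * (u : ℝ) ^ 12) * (1 / 2) ≤ (b * (u : ℝ) ^ 12) * Real.log 2 :=
    mul_le_mul_of_nonneg_left h3 (by positivity)
  linarith

theorem rho_le (θ : ℝ) (b u t : ℕ) (hb : 4 ≤ b) (hθ : 0 < θ) (hi : θ⁻¹ ≤ u) (hs2 : 2 ≤ u)
    (ht : X4 b u ≤ t) :
    0 ≤ 1 / (θ * Real.log t) ∧ 1 / (θ * Real.log t) ≤ 1 / (u : ℝ) ^ 11 := by
  have hl := log_ge b u t hb ht
  have hs0 : (0 : ℝ) < u := by exact_mod_cast (by omega : 0 < u)
  have hlp : 0 < Real.log t := lt_of_lt_of_le (by positivity) hl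
  refine ⟨by positivity, ?_⟩
  apply one_div_le_one_div_of_le (by positivity)
  have h1 : 1 ≤ θ * u := by
    have := mul_le_mul_of_nonneg_left hi hθ.le
    rwa [mul_inv_cancel₀ hθ.ne'] at this
  have h3 : (0 : ℝ) ≤ (u : ℝ) ^ 11 := by positivity
  have h4 : (0 : ℝ) ≤ (u : ℝ) ^ 12 := by positivity
  calc (u : ℝ) ^ 11 ≤ (u : ℝ) ^ 11 * (θ * u) := le_mul_of_one_le_right h3 h1
    _ = θ * (u : ℝ) ^ 12 := by ring
    _ ≤ θ * Real.log t := mul_le_mul_of_nonneg_left (by linarith) hθ.le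

theorem size (b u : ℕ) (hb : 4 ≤ b) (hs : 2 ≤ u) : u * (3 * Y3 u) * R3 u ≤ X4 b u := by
  have h1 : u ≤ 2 ^ u := Nat.lt_two_pow_self.le
  have h2 : u ≤ u ^ 11 := Nat.le_self_pow (by norm_num) u
  have h3 : 2 * u ^ 11 ≤ u ^ 12 := by
    have : u ^ 12 = u * u ^ 11 := by ring
    rw [this]
    exact Nat.mul_le_mul_right _ hs
  have h5 : 4 * u ^ 12 ≤ b * u ^ 12 := Nat.mul_le_mul_right _ hb
  have h4 : u + (2 + 2 * u ^ 12) + u ^ 12 ≤ b * u ^ 12 := by omega
  unfold X4 Y3 R3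
  calc u * (3 * 2 ^ (2 * u ^ 12)) * 2 ^ (u ^ 12)
      ≤ 2 ^ u * (2 ^ 2 * 2 ^ (2 * u ^ 12)) * 2 ^ (u ^ 12) :=
        Nat.mul_le_mul_right _ (Nat.mul_le_mul h1 (Nat.mul_le_mul_right _ (by norm_num)))
    _ = 2 ^ (u + (2 + 2 * u ^ 12) + u ^ 12) := by rw [pow_add, pow_add, pow_add]
    _ ≤ 2 ^ (b * u ^ 12) := Nat.pow_le_pow_right (by norm_num) h4

theorem diff_le (θ T t D : ℝ) (hθ : 0 < θ) (hT : 0 < T) (hl : 1 ≤ Real.log T) (h1 : T ≤ t)
    (h2 : t ≤ T + D) (hρ : 1 / (θ * Real.log T) ≤ 1) :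
    |1 / (θ * Real.log T) - 1 / (θ * Real.log t)| ≤ D / T := by
  have hm : Real.log T ≤ Real.log t := Real.log_le_log hT h1
  have hd : Real.log t - Real.log T ≤ D / T := by
    rw [← Real.log_div (hT.trans_le h1).ne' hT.ne']
    refine (Real.log_le_sub_one_of_pos (div_pos (hT.trans_le h1) hT)).trans ?_
    rw [sub_le_iff_le_add, div_le_iff₀ hT, add_mul, div_mul_cancel₀ _ hT.ne']
    linarith
  have hp : 0 < Real.log T := by linarith
  have hp' : 0 < Real.log t := by linarith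
  have e : 1 / (θ * Real.log T) - 1 / (θ * Real.log t) =
      1 / (θ * Real.log T) * ((Real.log t - Real.log T) / Real.log t) := by
    field_simp
  have h0 : 0 ≤ (Real.log t - Real.log T) / Real.log t := div_nonneg (by linarith) hp'.le
  rw [e, abs_of_nonneg (mul_nonneg (by positivity) h0)]
  refine (mul_le_of_le_one_left h0 hρ).trans (le_trans ?_ hd)
  exact div_le_self (by linarith) (by linarith)

theorem small (E K : ℝ) (hK : 0 < K) : ∃ N : ℕ, ∀ u : ℕ, N ≤ u → ∀ x : ℝ, 0 < x → x ≤ 2 * u →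
    E + K * Real.log x ≤ u := by
  obtain ⟨N, hN⟩ := exists_nat_ge (2 * (E + K * Real.log (4 * K)))
  refine ⟨N, fun u hu x hx hx2 => ?_⟩
  have hu' : (N : ℝ) ≤ u := by exact_mod_cast hu
  have h1 : Real.log (x / (4 * K)) ≤ x / (4 * K) - 1 :=
    Real.log_le_sub_one_of_pos (by positivity)
  rw [Real.log_div hx.ne' (by positivity)] at h1
  have h2 := mul_le_mul_of_nonneg_left h1 hK.le
  have h3 : K * (x / (4 * K) - 1) = x / 4 - K := by field_simp
  rw [h3, mul_sub] at h2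
  linarith

theorem th_le (h : Mert3St) (b : ℕ) : ∃ N : ℕ, ∀ u : ℕ, N ≤ u → ∀ x : ℕ, 0 < x → x ≤ 2 * u →
    (th 0 (w4 b x))⁻¹ ≤ u := by
  obtain ⟨N, hN⟩ := small (Real.exp 40) (Real.exp 40 * ((2 * b + 60 : ℕ) : ℝ)) (by positivity)
  refine ⟨N, fun u hu x hx hx2 => (h.2.2.2 (w4 b x)).2.trans ?_⟩
  have h1 := hN u hu x (by exact_mod_cast hx) (by exact_mod_cast hx2)
  have h2 : Real.log ((w4 b x : ℕ) : ℝ) = ((2 * b + 60 : ℕ) : ℝ) * Real.log x := by
    unfold w4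
    rw [Nat.cast_pow, Real.log_pow]
  rw [h2]
  linarith

end Wt4x

open Wt4x in
theorem wt4_st (h : Mert3St) : Wt4St := by
  intro b hb
  obtain ⟨N, hN⟩ := th_le h b
  refine eventually_atTop.2 ⟨max N 2, fun s hs => ?_⟩
  have hs2 : 2 ≤ s := (le_max_right _ _).trans hs
  have hsN : N ≤ s := (le_max_left _ _).trans hs
  have hθ := (h.1 0 (w4 b s)).1
  have hi := hN s hsN s (by omega) (by omega)
  have hi2 := hN s hsN (2 * s) (by omega) le_rfl
  have hρ := fun t ht => rho_le _ b s t hb hθ hi hs2 ht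
  have hs1 : (1 : ℝ) ≤ s := by exact_mod_cast (by omega : 1 ≤ s)
  have h12 : (s : ℝ) ≤ (s : ℝ) ^ 12 := le_self_pow₀ hs1 (by norm_num)
  have hlX := log_ge b s (X4 b s) hb le_rfl
  have h8 : 1 / (s : ℝ) ^ 11 ≤ 1 := by
    rw [div_le_one (by positivity)]
    exact one_le_pow₀ hs1
  refine ⟨by linarith, by linarith, fun t ht => ?_,
    fun T hT => ⟨(hρ T hT).1, (hρ T hT).2, fun L hL hc => ?_⟩⟩
  · unfold wt4
    split_ifs
    · exact hρ t ht
    · exact ⟨le_rfl, by positivity⟩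
  · split_ifs with hF
    · have hw : ∏ t ∈ L, wt4 b s t = ∏ t ∈ L, 1 / (th 0 (w4 b s) * Real.log t) :=
        prod_congr rfl fun t ht => by unfold wt4; rw [if_pos (hF t ht)]
      have hX : ∀ t ∈ L, X4 b s ≤ t := fun t ht => hT.trans (mem_Ico.1 (hL ht)).1
      have hX0 : (0 : ℝ) < X4 b s := by unfold X4; positivity
      have hR0 : (0 : ℝ) < R3 s := by unfold R3; positivity
      have hXT : ((X4 b s : ℕ) : ℝ) ≤ T := by exact_mod_cast hT
      have hT0 : (0 : ℝ) < T := hX0.trans_le hXT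
      have hl : 1 ≤ Real.log T := by
        refine le_trans ?_ (log_ge b s T hb hT)
        linarith
      rw [hw, ← prod_const]
      refine (prod_diff L _ _ (fun t _ => ⟨(hρ T hT).1, (hρ T hT).2.trans h8⟩)
        (fun t ht => ⟨(hρ t (hX t ht)).1, (hρ t (hX t ht)).2.trans h8⟩)).trans ?_
      have hterm : ∀ t ∈ L, |1 / (th 0 (w4 b s) * Real.log T) -
          1 / (th 0 (w4 b s) * Real.log t)| ≤ ((3 * Y3 s : ℕ) : ℝ) / X4 b s := by
        intro t ht
        obtain ⟨h1, h2⟩ := mem_Ico.1 (hL ht)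
        refine (diff_le _ T t ((3 * Y3 s : ℕ) : ℝ) hθ hT0 hl (by exact_mod_cast h1)
          (by exact_mod_cast h2.le) ((hρ T hT).2.trans h8)).trans ?_
        exact div_le_div_of_nonneg_left (by positivity) hX0 hXT
      refine (sum_le_card_nsmul _ _ _ hterm).trans ?_
      rw [nsmul_eq_mul]
      have hc' : (L.card : ℝ) ≤ s := by exact_mod_cast hc
      refine (mul_le_mul_of_nonneg_right hc' (by positivity)).trans ?_
      rw [← mul_div_assoc, div_le_div_iff₀ hX0 hR0, one_mul]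
      exact_mod_cast size b s hb hs2
    · push Not at hF
      obtain ⟨t, ht, hn⟩ := hF
      have hw : ∏ t ∈ L, wt4 b s t = 0 := prod_eq_zero ht (by unfold wt4; rw [if_neg hn])
      have hR0 : (0 : ℝ) < R3 s := by unfold R3; positivity
      rw [hw, sub_zero, abs_zero]
      positivity

end Pool.Agent.Lib.MP_be93de_nt.He
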