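import Pool.Agent.Lib.MP_be93de_nt.Hb.Alt
import Pool.Agent.Lib.MP_be93de_nt.Hb.Crt
import Pool.Agent.Lib.MP_be93de_nt.Hb.Bonf
import Pool.Agent.Lib.MP_be93de_nt.Hb.Fac
import Pool.Agent.Lib.MP_be93de_nt.Hb.Rare
import Pool.Agent.Lib.MP_be93de_nt.Hb.Func
import Pool.Agent.Lib.MP_be93de_nt.Hc.Cells2
import Pool.Agent.Lib.MP_be93de_nt.Hc.Pot
import Pool.Agent.Lib.MP_be93de_nt.Hc.Tail
import Pool.Agent.Lib.MP_be93de_nt.Hc.Root
import Pool.Agent.Lib.MP_be93de_nt.Hc.Mono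
import Pool.Agent.Lib.MP_be93de_nt.Hd.Mert3
import Pool.Agent.Lib.MP_be93de_nt.Hd.Pareto
import Pool.Agent.Lib.MP_be93de_nt.Hd.Soft
import Pool.Agent.Lib.MP_be93de_nt.Hd.Base2
import Pool.Agent.Lib.MP_be93de_nt.Hd.Tilt2
import Pool.Agent.Lib.MP_be93de_nt.Hd.Comb2
import Pool.Agent.Lib.MP_be93de_nt.He.Mom4
import Pool.Agent.Lib.MP_be93de_nt.He.Kill4
import Pool.Agent.Lib.MP_be93de_nt.He.Avg4
import Pool.Agent.Lib.MP_be93de_nt.He.Many4
import Pool.Agent.Lib.MP_be93de_nt.He.Psi4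
import Pool.Agent.Lib.MP_be93de_nt.He.Block4
import Pool.Agent.Lib.MP_be93de_nt.He.Wt4
import Pool.Agent.Lib.MP_be93de_nt.He.Bound4
import Pool.Agent.Lib.MP_be93de_nt.He.Union4
import Pool.Agent.Lib.MP_be93de_nt.He.Run4
import Pool.Agent.Lib.MP_be93de_nt.He.Stage4
import Pool.Agent.Lib.MP_be93de_nt.He.Level4
import Pool.Agent.Lib.MP_be93de_nt.He.Glob4
import Pool.Agent.Lib.MP_be93de_nt.He.SingF
import Pool.Agent.Lib.MP_be93de_nt.He.SingS
import Pool.Agent.Lib.MP_be93de_nt.He.SieveF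
import Pool.Agent.Lib.MP_be93de_nt.He.SieveS
import Pool.Agent.Lib.MP_be93de_nt.He.ArithF
import Pool.Agent.Lib.MP_be93de_nt.He.ArithS
import Pool.Agent.Lib.MP_be93de_nt.He.Tele4
import Pool.Agent.Lib.MP_be93de_nt.He.One
import Pool.Agent.Lib.MP_be93de_nt.He.Two
import Pool.Agent.Lib.MP_be93de_nt.He.Hla
import Pool.Agent.Lib.MP_be93de_nt.He.Hlb
import Pool.Agent.Lib.MP_be93de_nt.He.Free4
import Pool.Agent.Lib.MP_be93de_nt.He.Rank4
import Pool.Agent.Lib.MP_be93de_nt.He.Exc4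

/-! The model set, fourth version: assembly of the steps. -/

namespace Pool.Agent.Lib.MP_be93de_nt.He

open Pool.Agent.Lib.MP_be93de_nt.Hb
open Pool.Agent.Lib.MP_be93de_nt.Hc (PotSt TailSt Cells2St RootSt MonoSt)
open Pool.Agent.Lib.MP_be93de_nt.Hd (Mert3St ParetoSt SoftSt Base2St Tilt2St Comb2St Part2P)

theorem main (m : Mert3St) (bonf : BonfSt) (fac : FacSt) (func : FuncSt) (cells : Cells2St)
    (pot : PotSt) (tail : TailSt) (root : RootSt) (mono : MonoSt) (par : ParetoSt) (soft : SoftSt)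
    (base : Base2St) (tilt : Tilt2St) (comb : Comb2St) (δ : ℝ) (hδ : 0 < δ) (B : ℕ) (hB : 1 ≤ B) :
    ∃ (ε : ℝ) (A : Set ℕ) (C : ℝ), 0 < ε ∧ A.Infinite ∧ Part4a A ε (1 / (B : ℝ)) C ∧
      Part4b A B C ∧ Part2P A δ := by
  have wt := wt4_st m
  have psi := psi4_st fac
  have sf := singf_st root tail
  have bl := block4_st cells base tilt func comb (avg4_st m bonf (mom4_st m fac par))
    (many4_st m bonf) (kill4_st m fac soft)
  obtain ⟨b, hb⟩ : ∃ b, b = 12 * (B + 1) := ⟨_, rfl⟩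
  obtain ⟨a, ha⟩ := exists_nat_ge (max (60 * (b : ℝ)) (5 * (Real.exp 44 * b) / δ))
  have a1 : 60 * (b : ℝ) ≤ a := (le_max_left _ _).trans ha
  have ok : Ok a b := ⟨by omega, by exact_mod_cast a1⟩
  have b0 : (0 : ℝ) < b := by exact_mod_cast (by omega : 0 < b)
  have B0 : (0 : ℝ) < B := by exact_mod_cast hB
  have a0 : (0 : ℝ) < a := by linarith
  obtain ⟨i0, A, hA⟩ := glob4_st (level4_st (stage4_st (run4_st pot bl wt psi) (bound4_st pot)
    union4_st wt psi) wt) a b ok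
  obtain ⟨C1, p1, h1⟩ := hla_st m sf (two_st m wt sf (one_st (ariths_st m wt
    (sieves_st m bonf root) (sings_st fac) psi mono))) a b ok i0 A hA
  obtain ⟨C2, p2, h2⟩ := hlb_st m sf (arithf_st m wt (sievef_st m bonf root tail sf) mono)
    (tele4_st wt) a B hB (hb ▸ ok) i0 A (hb ▸ hA)
  have len : ∀ {s t : ℕ}, s ≤ t → (0 : ℝ) ≤ (t : ℝ) - s := fun h => sub_nonneg.2 (Nat.cast_le.2 h)
  refine ⟨1 / (2 * a * b * 4 ^ 12), A, C1 + C2, by positivity, (rank4_st a b i0 A (by omega) hA).1,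
    ?_, ?_, ?_⟩
  · intro x Ψ s t q f c1 c2 c3 c4
    obtain ⟨S, hS, h⟩ := h1 x Ψ s t q f c1 c2 c3 c4
    have x1 : 1 ≤ x := by linarith [f.1]
    have l := len f.2.1
    have e : x ^ (4 / (b : ℝ)) ≤ x ^ (1 / (B : ℝ)) := by
      refine Real.rpow_le_rpow_of_exponent_le x1 ?_
      rw [div_le_div_iff₀ b0 B0, hb]
      push_cast
      linarith
    refine ⟨S, hS, h.trans (mul_le_mul (by linarith) (by linarith) (by positivity) (by linarith))⟩
  · intro x Ψ s t f c1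
    obtain ⟨S, hS, h⟩ := h2 x Ψ s t f c1
    have x1 : 1 ≤ x := by linarith [f.1]
    have l := len f.2.1
    have := Real.log_nonneg x1
    exact ⟨S, hS, h.trans (mul_le_mul_of_nonneg_right (by linarith) (by positivity))⟩
  · filter_upwards [exc4_st (free4_st m bonf) rank4_st a b ok i0 A hA] with N hN
    refine hN.trans (mul_le_mul_of_nonneg_right ?_ (Nat.cast_nonneg _))
    have := (le_max_right _ _).trans ha
    rw [div_le_iff₀ hδ] at this
    rw [← mul_div_assoc, div_le_iff₀ a0]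
    linarith

theorem main' (δ : ℝ) (hδ : 0 < δ) (B : ℕ) (hB : 1 ≤ B) :
    ∃ (ε : ℝ) (A : Set ℕ) (C : ℝ), 0 < ε ∧ A.Infinite ∧ Part4a A ε (1 / (B : ℝ)) C ∧
      Part4b A B C ∧ Part2P A δ :=
  main Hd.mert3_st (bonf_st alt_st crt_st) fac_st func_st Hc.cells2_st Hc.pot_st (Hc.tail_st fac_st)
    Hc.root_st Hc.mono_st Hd.pareto_st Hd.soft_st Hd.base2_st (Hd.tilt2_st rare_st)
    (Hd.comb2_st func_st) δ hδ B hB

end Pool.Agent.Lib.MP_be93de_nt.He
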