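import Pool.Agent.Lib.MP_be93de_nt.He.Defs

namespace Pool.Agent.Lib.MP_be93de_nt.He

open Finset Pool.Agent.Lib.MP_be93de_nt.Hb

theorem psi4_st (h : FacSt) : Psi4St := by
  intro b u k hu hk
  have h1 : u ≤ w4 b u := Nat.le_self_pow (by omega) _
  exact (h _ k (w4 b u) (hu.trans h1) (hk.trans h1)
    (fun p hp => (mem_Ioc.1 (mem_filter.1 hp).1).1)).2

end Pool.Agent.Lib.MP_be93de_nt.He
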