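import Pool.Agent.Lib.MP_be93de_nt.He.Defs

/-! The sieve count for two levels at once, boundedly many forms. -/

namespace Pool.Agent.Lib.MP_be93de_nt.He

open Finset Filter Pool.Agent.Lib.MP_be93de_nt.Hb
open Pool.Agent.Lib.MP_be93de_nt.Hc (val nuF IsSF Adm TailSt RootSt)
open Pool.Agent.Lib.MP_be93de_nt.Hd (Mert3St)

namespace SieveFx

/-- classes mod `p` on which some form vanishes -/
def rts (Ψ : Finset (ℤ × ℤ)) (p : ℕ) : Finset ℕ :=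
  (range p).filter (fun m : ℕ => ∃ ψ ∈ Ψ, (p : ℤ) ∣ ψ.1 * m + ψ.2)

lemma card_rts (Ψ : Finset (ℤ × ℤ)) (p : ℕ) : (rts Ψ p).card = nuF Ψ p := rfl

lemma nuF_le (Ψ : Finset (ℤ × ℤ)) (p : ℕ) : nuF Ψ p ≤ p := by
  unfold nuF
  exact (card_filter_le _ _).trans (by simp)

lemma mem_pr {a b p : ℕ} : p ∈ pr a b ↔ a < p ∧ p ≤ b ∧ p.Prime := by
  simp [pr, and_assoc]

lemma dvd_val {ψ : ℤ × ℤ} {m p : ℕ} (h : 0 ≤ ψ.1 * m + ψ.2) :
    p ∣ val ψ m ↔ (p : ℤ) ∣ ψ.1 * ((m % p : ℕ) : ℤ) + ψ.2 := by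
  unfold Hc.val
  rw [← Int.natCast_dvd_natCast, Int.toNat_of_nonneg h]
  have e : (m : ℤ) = p * ((m / p : ℕ) : ℤ) + ((m % p : ℕ) : ℤ) := by
    exact_mod_cast (Nat.div_add_mod m p).symm
  have e2 : ψ.1 * m + ψ.2 = (ψ.1 * ((m % p : ℕ) : ℤ) + ψ.2) + p * (ψ.1 * ((m / p : ℕ) : ℤ)) := by
    conv_lhs => rw [e]
    ring
  rw [e2]
  exact dvd_add_left (dvd_mul_right _ _)

lemma mod_mem {Ψ : Finset (ℤ × ℤ)} {m p : ℕ} (hp : 0 < p) (h : ∀ ψ ∈ Ψ, 0 ≤ ψ.1 * m + ψ.2) :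
    m % p ∉ rts Ψ p ↔ ∀ ψ ∈ Ψ, ¬ p ∣ val ψ m := by
  unfold rts
  rw [mem_filter, mem_range]
  constructor
  · intro hn ψ hψ hd
    exact hn ⟨Nat.mod_lt _ hp, ψ, hψ, (dvd_val (h ψ hψ)).1 hd⟩
  · rintro hn ⟨-, ψ, hψ, hd⟩
    exact hn ψ hψ ((dvd_val (h ψ hψ)).2 hd)

/-- the sifted classes -/
def Om (Ψ Φ : Finset (ℤ × ℤ)) (w p : ℕ) : Finset ℕ := if p ≤ w then rts Ψ p else rts Φ p

lemma cond_iff {Ψ Φ : Finset (ℤ × ℤ)} (hs : Φ ⊆ Ψ) {w1 w2 m : ℕ} (hw : w1 ≤ w2)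
    (h : ∀ ψ ∈ Ψ, 0 ≤ ψ.1 * m + ψ.2) :
    ((∀ ψ ∈ Ψ, Free 0 w1 (val ψ m)) ∧ ∀ ψ ∈ Φ, Free 0 w2 (val ψ m)) ↔
      ∀ p ∈ pr 0 w2, m % p ∉ Om Ψ Φ w1 p := by
  have h' : ∀ ψ ∈ Φ, 0 ≤ ψ.1 * m + ψ.2 := fun ψ hψ => h ψ (hs hψ)
  constructor
  · rintro ⟨h1, h2⟩ p hp
    obtain ⟨p0, -, pp⟩ := mem_pr.1 hp
    unfold Om
    split_ifs with hc
    · exact (mod_mem p0 h).2 fun ψ hψ => h1 ψ hψ p (mem_pr.2 ⟨p0, hc, pp⟩)
    · exact (mod_mem p0 h').2 fun ψ hψ => h2 ψ hψ p hp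
  · intro H
    refine ⟨fun ψ hψ p hp => ?_, fun ψ hψ p hp => ?_⟩
    · obtain ⟨p0, pw, pp⟩ := mem_pr.1 hp
      have := H p (mem_pr.2 ⟨p0, pw.trans hw, pp⟩)
      unfold Om at this
      rw [if_pos pw] at this
      exact (mod_mem p0 h).1 this ψ hψ
    · obtain ⟨p0, pw, pp⟩ := mem_pr.1 hp
      have := H p hp
      unfold Om at this
      split_ifs at this with hc
      · exact (mod_mem p0 h).1 this ψ (hs hψ)
      · exact (mod_mem p0 h').1 this ψ hψ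

lemma prod_split {w1 w2 : ℕ} (hw : w1 ≤ w2) (f : ℕ → ℝ) :
    ∏ p ∈ pr 0 w2, f p = (∏ p ∈ pr 0 w1, f p) * ∏ p ∈ pr w1 w2, f p := by
  rw [← prod_union]
  · congr 1
    ext p
    simp only [mem_union, mem_pr]
    constructor
    · rintro ⟨a, b, c⟩
      by_cases h : p ≤ w1
      · exact Or.inl ⟨a, h, c⟩
      · exact Or.inr ⟨by omega, b, c⟩
    · rintro (⟨a, b, c⟩ | ⟨a, b, c⟩)
      · exact ⟨a, b.trans hw, c⟩
      · exact ⟨by omega, b, c⟩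
  · rw [disjoint_left]
    intro p h1 h2
    have := mem_pr.1 h1
    have := mem_pr.1 h2
    omega

lemma card_pr (w : ℕ) : (pr 0 w).card ≤ w := by
  unfold pr
  exact (card_filter_le _ _).trans (by simp)

lemma evp (C : ℝ) (N : ℕ) : ∀ᶠ u : ℕ in atTop, C * (u : ℝ) ^ N ≤ 2 ^ u := by
  have h := tendsto_pow_const_div_const_pow_of_one_lt N (r := (2 : ℝ)) (by norm_num)
  have h2 := h.eventually (ge_mem_nhds (show (0 : ℝ) < 1 / (|C| + 1) by positivity))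
  filter_upwards [h2] with u hu
  rw [div_le_div_iff₀ (by positivity) (by positivity)] at hu
  have a1 : C ≤ |C| + 1 := (le_abs_self C).trans (by linarith)
  have a2 : (0 : ℝ) ≤ (u : ℝ) ^ N := by positivity
  calc C * (u : ℝ) ^ N ≤ (|C| + 1) * (u : ℝ) ^ N := mul_le_mul_of_nonneg_right a1 a2
    _ ≤ 2 ^ u := by linarith

lemma num1 (b : ℕ) : ∀ᶠ u : ℕ in atTop, ∀ B : ℝ, 0 ≤ B →
    B ≤ b * (((2 * b + 60 : ℕ) : ℝ) * Real.log (2 * u) + 38) →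
    2 * B ^ u / (u.factorial : ℝ) ≤ 1 / (4 * (u : ℝ) ^ (b + 1)) := by
  filter_upwards [evp (8 * Real.exp (76 * b) * 2 ^ (2 * b * (2 * b + 60)))
    (2 * b * (2 * b + 60) + (b + 1)), eventually_ge_atTop 1] with u hu u1 B h0 hB
  have uR : (1 : ℝ) ≤ u := by exact_mod_cast u1
  have h1 : (2 * B) ^ u / (u.factorial : ℝ) ≤ Real.exp (2 * B) :=
    Real.pow_div_factorial_le_exp _ (by linarith) _
  have h2 : Real.exp (2 * B) ≤
      Real.exp (76 * b) * (2 ^ (2 * b * (2 * b + 60)) * (u : ℝ) ^ (2 * b * (2 * b + 60))) := by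
    calc Real.exp (2 * B) ≤
          Real.exp (76 * b + ((2 * b * (2 * b + 60) : ℕ) : ℝ) * Real.log (2 * u)) := by
          apply Real.exp_le_exp.2
          push_cast at hB ⊢
          linarith
      _ = _ := by
          rw [Real.exp_add, Real.exp_nat_mul, Real.exp_log (by linarith), mul_pow]
  set q : ℝ := B ^ u / (u.factorial : ℝ) with hq
  have q0 : 0 ≤ q := by positivity
  have h6 : (2 : ℝ) ^ u * q ≤
      Real.exp (76 * b) * (2 ^ (2 * b * (2 * b + 60)) * (u : ℝ) ^ (2 * b * (2 * b + 60))) := by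
    have : (2 * B) ^ u / (u.factorial : ℝ) = 2 ^ u * q := by
      rw [mul_pow, hq, mul_div_assoc]
    rw [← this]
    exact h1.trans h2
  rw [pow_add] at hu
  set E : ℝ := Real.exp (76 * b)
  set F : ℝ := (2 : ℝ) ^ (2 * b * (2 * b + 60))
  set G : ℝ := (u : ℝ) ^ (2 * b * (2 * b + 60))
  set H : ℝ := (u : ℝ) ^ (b + 1) with hH
  have H0 : 0 < H := by positivity
  have h7 : (8 * H * q) * 2 ^ u ≤ 1 * (2 : ℝ) ^ u := by
    calc (8 * H * q) * 2 ^ u = 8 * H * (2 ^ u * q) := by ring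
      _ ≤ 8 * H * (E * (F * G)) := mul_le_mul_of_nonneg_left h6 (by positivity)
      _ = 8 * E * F * (G * H) := by ring
      _ ≤ _ := by rw [one_mul]; exact hu
  have h8 : 8 * H * q ≤ 1 := le_of_mul_le_mul_right h7 (by positivity)
  rw [mul_div_assoc, ← hq, le_div_iff₀ (by positivity)]
  linarith

lemma num2 (b : ℕ) : ∀ᶠ u : ℕ in atTop, ∀ B : ℝ, 0 ≤ B → B ≤ (2 * (u : ℝ)) ^ (2 * b + 60) * b →
    (1 + B) ^ u ≤ 2 ^ (u ^ 2) := by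
  filter_upwards [evp (1 + 2 ^ (2 * b + 60) * b) (2 * b + 60), eventually_ge_atTop 1]
    with u hu u1 B h0 hB
  have uR : (1 : ℝ) ≤ u := by exact_mod_cast u1
  have a2 : (1 : ℝ) ≤ (u : ℝ) ^ (2 * b + 60) := one_le_pow₀ uR
  have a3 : 1 + B ≤ 2 ^ u := by
    rw [mul_pow] at hB
    refine le_trans ?_ hu
    rw [add_mul, one_mul]
    have : (2 : ℝ) ^ (2 * b + 60) * (u : ℝ) ^ (2 * b + 60) * b =
        2 ^ (2 * b + 60) * b * (u : ℝ) ^ (2 * b + 60) := by ring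
    linarith
  calc (1 + B) ^ u ≤ ((2 : ℝ) ^ u) ^ u := by gcongr
    _ = 2 ^ (u ^ 2) := by rw [← pow_mul, sq]

lemma num3 (b : ℕ) : ∀ᶠ u : ℕ in atTop,
    2 * (b : ℝ) * ((b : ℝ) ^ 2 * (2 * (b * (4 * (u : ℝ)) ^ 12) + 1)) / (u : ℝ) ^ (2 * b + 60) ≤
      1 / (8 * (u : ℝ) ^ (b + 1)) := by
  filter_upwards [eventually_ge_atTop (16 * b ^ 3 * (2 * b * 4 ^ 12 + 1)), eventually_ge_atTop 1]
    with u hu u1
  have uR : (1 : ℝ) ≤ u := by exact_mod_cast u1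
  have hC : (16 * (b : ℝ) ^ 3 * (2 * b * 4 ^ 12 + 1)) ≤ u := by exact_mod_cast hu
  rw [div_le_div_iff₀ (by positivity) (by positivity), one_mul]
  have a1 : (1 : ℝ) ≤ (u : ℝ) ^ 12 := one_le_pow₀ uR
  have b0 : (0 : ℝ) ≤ b := Nat.cast_nonneg b
  calc 2 * (b : ℝ) * ((b : ℝ) ^ 2 * (2 * (b * (4 * (u : ℝ)) ^ 12) + 1)) * (8 * (u : ℝ) ^ (b + 1))
      ≤ 2 * (b : ℝ) * ((b : ℝ) ^ 2 * (2 * (b * (4 * (u : ℝ)) ^ 12) + (u : ℝ) ^ 12)) *
          (8 * (u : ℝ) ^ (b + 1)) := by gcongr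
    _ = (16 * (b : ℝ) ^ 3 * (2 * b * 4 ^ 12 + 1)) * ((u : ℝ) ^ 12 * (u : ℝ) ^ (b + 1)) := by ring
    _ ≤ u * ((u : ℝ) ^ 12 * (u : ℝ) ^ (b + 1)) := by gcongr
    _ = (u : ℝ) ^ (b + 14) := by ring
    _ ≤ _ := pow_le_pow_right₀ uR (by omega)

lemma main_term {P1 r a c ε : ℝ} (h0 : 0 ≤ P1) (h1 : P1 ≤ 1) (c0 : 0 ≤ c) (c1 : c ≤ 1)
    (hr : |r - 1| ≤ ε) (ha : |a - P1| ≤ ε) : |P1 * (c * r) - a * c| ≤ 2 * ε := by
  have e0 : 0 ≤ ε := (abs_nonneg _).trans hr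
  have e : P1 * (c * r) - a * c = c * (P1 * (r - 1) - (a - P1)) := by ring
  rw [e, abs_mul, abs_of_nonneg c0]
  have b1 : |P1 * (r - 1)| ≤ ε := by
    rw [abs_mul, abs_of_nonneg h0]
    calc P1 * |r - 1| ≤ 1 * ε := by gcongr
      _ = ε := one_mul _
  have b2 : |P1 * (r - 1) - (a - P1)| ≤ 2 * ε := (abs_sub _ _).trans (by linarith)
  calc c * |P1 * (r - 1) - (a - P1)| ≤ 1 * (2 * ε) := by gcongr
    _ = 2 * ε := one_mul _

end SieveFx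

open SieveFx in
theorem sievef_st (h1 : Mert3St) (h2 : BonfSt) (h3 : RootSt) (h4 : TailSt) (h5 : SingFSt) :
    SieveFSt := by
  unfold SieveFSt
  intro b hb4
  filter_upwards [h5 b hb4, num1 b, num2 b, num3 b, eventually_ge_atTop b] with s hsing hn1 hn2 hnum hs
  intro Ψ Φ S u v hA hk hΦ hS huv hpos
  obtain ⟨Exc, hE, hR⟩ := h3 (b * (4 * s) ^ 12) Ψ hA
  obtain ⟨-, hS1⟩ := (hsing Ψ hA (hk.trans hs)).2 S hS
  have s1 : 1 ≤ s := by omega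
  have sR : (1 : ℝ) ≤ s := by exact_mod_cast s1
  have bR : (4 : ℝ) ≤ b := by exact_mod_cast hb4
  have w1R : ((w4 b s : ℕ) : ℝ) = (s : ℝ) ^ (2 * b + 60) := by
    unfold w4
    push_cast
    rfl
  have w2R : ((w4 b (2 * s) : ℕ) : ℝ) = (2 * (s : ℝ)) ^ (2 * b + 60) := by
    unfold w4
    push_cast
    rfl
  have hw : w4 b s ≤ w4 b (2 * s) := Nat.pow_le_pow_left (by omega) _
  have sw : s ≤ w4 b s := Nat.le_self_pow (by omega) s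
  set w1 : ℕ := w4 b s with hw1
  set w2 : ℕ := w4 b (2 * s) with hw2
  have kΦ : Φ.card ≤ b := (card_le_card hΦ).trans hk
  have hcard : ∀ p ∈ pr 0 w2, ((Om Ψ Φ w1 p).card : ℝ) ≤ b := by
    intro p hp
    have pp := (mem_pr.1 hp).2.2
    have : (Om Ψ Φ w1 p).card ≤ b := by
      unfold Om
      split_ifs
      · exact (hR p pp Ψ (Subset.refl _)).1.trans hk
      · exact (hR p pp Φ hΦ).1.trans kΦ
    exact_mod_cast this
  have hb := h2 (pr 0 w2) (Om Ψ Φ w1) u (v - u) s (fun p hp => (mem_pr.1 hp).2.2)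
    (fun p _ => by
      unfold Om rts
      split_ifs <;> exact filter_subset _ _)
  rw [Nat.add_sub_cancel' huv, Nat.cast_sub huv] at hb
  have L0 : (0 : ℝ) ≤ (v : ℝ) - u := by
    have : (u : ℝ) ≤ v := by exact_mod_cast huv
    linarith
  set L : ℝ := (v : ℝ) - u with hL
  have b1 : ∑ p ∈ pr 0 w2, ((Om Ψ Φ w1 p).card : ℝ) / p ≤
      b * (((2 * b + 60 : ℕ) : ℝ) * Real.log (2 * s) + 38) := by
    have m1 := h1.2.1 0 w2
    have l1 : Real.log w2 = ((2 * b + 60 : ℕ) : ℝ) * Real.log (2 * s) := by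
      rw [w2R, Real.log_pow]
    have l0 : 0 ≤ Real.log w2 := Real.log_natCast_nonneg _
    have l2 : Real.log (1 + Real.log w2) ≤ ((2 * b + 60 : ℕ) : ℝ) * Real.log (2 * s) := by
      have := Real.log_le_sub_one_of_pos (show 0 < 1 + Real.log w2 by linarith)
      linarith
    calc ∑ p ∈ pr 0 w2, ((Om Ψ Φ w1 p).card : ℝ) / p ≤ ∑ p ∈ pr 0 w2, (b : ℝ) * (1 / p) := by
          refine sum_le_sum fun p hp => ?_
          rw [mul_one_div]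
          exact div_le_div_of_nonneg_right (hcard p hp) (Nat.cast_nonneg p)
      _ = b * ∑ p ∈ pr 0 w2, 1 / (p : ℝ) := (mul_sum _ _ _).symm
      _ ≤ _ := by
          refine mul_le_mul_of_nonneg_left ?_ (by linarith)
          linarith
  have b2 : ∑ p ∈ pr 0 w2, ((Om Ψ Φ w1 p).card : ℝ) ≤ (2 * (s : ℝ)) ^ (2 * b + 60) * b := by
    have c1 : ((pr 0 w2).card : ℝ) ≤ (2 * (s : ℝ)) ^ (2 * b + 60) := by
      rw [← w2R]
      exact_mod_cast card_pr w2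
    calc ∑ p ∈ pr 0 w2, ((Om Ψ Φ w1 p).card : ℝ) ≤ (pr 0 w2).card • (b : ℝ) :=
          sum_le_card_nsmul _ _ _ hcard
      _ = (pr 0 w2).card * (b : ℝ) := nsmul_eq_mul _ _
      _ ≤ _ := by gcongr
  have n1 := hn1 _ (sum_nonneg fun p _ => by positivity) b1
  have n2 := hn2 _ (sum_nonneg fun p _ => by positivity) b2
  have hb' : |(((Ico u v).filter (fun m => ∀ p ∈ pr 0 w2, m % p ∉ Om Ψ Φ w1 p)).card : ℝ) -
      L * ∏ p ∈ pr 0 w2, (1 - ((Om Ψ Φ w1 p).card : ℝ) / p)| ≤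
      L * (1 / (4 * (s : ℝ) ^ (b + 1))) + 2 ^ (s ^ 2) := by
    refine hb.trans (add_le_add ?_ n2)
    calc 2 * L * (∑ p ∈ pr 0 w2, ((Om Ψ Φ w1 p).card : ℝ) / p) ^ s / (s.factorial : ℝ)
        = L * (2 * (∑ p ∈ pr 0 w2, ((Om Ψ Φ w1 p).card : ℝ) / p) ^ s /
            (s.factorial : ℝ)) := by ring
      _ ≤ _ := mul_le_mul_of_nonneg_left n1 L0
  obtain ⟨t1, t2⟩ := h4 (pr w1 w2) Exc (nuF Φ) Φ.card w1 (by omega) ((kΦ.trans hs).trans sw)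
    (fun p hp => (mem_pr.1 hp).1) (fun p hp => (hR p (mem_pr.1 hp).2.2 Φ hΦ).1)
    (fun p hp => (hR p (mem_pr.1 hp).2.2 Φ hΦ).2)
  set ρ : ℝ := ∏ p ∈ pr w1 w2, (1 - (nuF Φ p : ℝ) / p) / (1 - 1 / (p : ℝ)) ^ Φ.card with hρ
  have kR : (Φ.card : ℝ) ≤ b := by exact_mod_cast kΦ
  have eR : (Exc.card : ℝ) ≤ (b : ℝ) ^ 2 * (2 * (b * (4 * (s : ℝ)) ^ 12) + 1) := by
    have : Exc.card ≤ b ^ 2 * (2 * (b * (4 * s) ^ 12) + 1) :=
      hE.trans (Nat.mul_le_mul_right _ (Nat.pow_le_pow_left hk 2))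
    exact_mod_cast this
  have e3 : (1 : ℝ) ≤ (s : ℝ) ^ (b + 1) := one_le_pow₀ sR
  have half : (1 : ℝ) / (4 * (s : ℝ) ^ (b + 1)) = 2 * (1 / (8 * (s : ℝ) ^ (b + 1))) := by
    field_simp
    norm_num
  have hr : |ρ - 1| ≤ 1 / (4 * (s : ℝ) ^ (b + 1)) := by
    set x : ℝ := 2 * (b : ℝ) * ((b : ℝ) ^ 2 * (2 * (b * (4 * (s : ℝ)) ^ 12) + 1)) /
      (s : ℝ) ^ (2 * b + 60) with hx
    have x0 : 0 ≤ x := by positivity
    have x1 : x ≤ 1 := hnum.trans (by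
      rw [div_le_one (by positivity)]
      linarith)
    have u1 : ρ ≤ Real.exp x := by
      refine t2.trans (Real.exp_le_exp.2 ?_)
      rw [w1R, hx]
      gcongr
    have u2 : Real.exp x - 1 ≤ 2 * x := by
      have := Real.abs_exp_sub_one_le (x := x) (by rw [abs_of_nonneg x0]; exact x1)
      rw [abs_of_nonneg x0] at this
      exact (le_abs_self _).trans this
    have u3 : (Φ.card : ℝ) ^ 2 / w1 ≤ x := by
      rw [w1R, hx]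
      refine div_le_div_of_nonneg_right ?_ (by positivity)
      have a1 : (0 : ℝ) ≤ b * (4 * (s : ℝ)) ^ 12 := by positivity
      have a2 : (Φ.card : ℝ) ^ 2 ≤ (b : ℝ) ^ 2 := by gcongr
      have a3 : (b : ℝ) ^ 2 * 1 ≤ (b : ℝ) ^ 2 * (2 * (b * (4 * (s : ℝ)) ^ 12) + 1) :=
        mul_le_mul_of_nonneg_left (by linarith) (by positivity)
      calc (Φ.card : ℝ) ^ 2 ≤ 1 * ((b : ℝ) ^ 2 * (2 * (b * (4 * (s : ℝ)) ^ 12) + 1)) := by linarith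
        _ ≤ _ := mul_le_mul_of_nonneg_right (by linarith) (by positivity)
    rw [abs_le, half]
    constructor <;> linarith
  have hP : ∏ p ∈ pr 0 w2, (1 - ((Om Ψ Φ w1 p).card : ℝ) / p) =
      (∏ p ∈ pr 0 w1, (1 - (nuF Ψ p : ℝ) / p)) * (th w1 w2 ^ Φ.card * ρ) := by
    rw [prod_split hw]
    congr 1
    · refine prod_congr rfl fun p hp => ?_
      unfold Om
      rw [if_pos (mem_pr.1 hp).2.1, card_rts]
    · rw [hρ, th, ← prod_pow, ← prod_mul_distrib]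
      refine prod_congr rfl fun p hp => ?_
      obtain ⟨a, -, pp⟩ := mem_pr.1 hp
      unfold Om
      rw [if_neg (by omega), card_rts]
      have p2 : (2 : ℝ) ≤ p := by exact_mod_cast pp.two_le
      have : (0 : ℝ) < 1 - 1 / (p : ℝ) := by
        have : 1 / (p : ℝ) ≤ 1 / 2 := by gcongr
        linarith
      rw [mul_div_cancel₀ _ (pow_pos this _).ne']
  have hT : S * th 0 w1 ^ (Ψ \ Φ).card * th 0 w2 ^ Φ.card =
      S * th 0 w1 ^ Ψ.card * th w1 w2 ^ Φ.card := by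
    have e1 : th 0 w2 = th 0 w1 * th w1 w2 := prod_split hw _
    have e2 : Ψ.card = (Ψ \ Φ).card + Φ.card := (card_sdiff_add_card_eq_card hΦ).symm
    rw [e1, mul_pow]
    conv_rhs => rw [e2, pow_add]
    ring
  have f01 : ∀ p ∈ pr 0 w1, 0 ≤ 1 - (nuF Ψ p : ℝ) / p ∧ 1 - (nuF Ψ p : ℝ) / p ≤ 1 := by
    intro p hp
    have p0 : (0 : ℝ) < p := by exact_mod_cast (mem_pr.1 hp).1
    have a1 : (nuF Ψ p : ℝ) ≤ p := by exact_mod_cast nuF_le Ψ p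
    have a2 : (nuF Ψ p : ℝ) / p ≤ 1 := (div_le_one p0).2 a1
    have a3 : 0 ≤ (nuF Ψ p : ℝ) / p := by positivity
    constructor <;> linarith
  have hm := main_term (prod_nonneg fun p hp => (f01 p hp).1)
    (prod_le_one (fun p hp => (f01 p hp).1) fun p hp => (f01 p hp).2)
    (pow_nonneg (h1.1 w1 w2).1.le Φ.card) (pow_le_one₀ (h1.1 w1 w2).1.le (h1.1 w1 w2).2) hr hS1
  rw [← hP, ← hT] at hm
  rw [filter_congr (fun m hm => cond_iff hΦ hw (hpos m hm))]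
  set N : ℝ := (((Ico u v).filter (fun m => ∀ p ∈ pr 0 w2, m % p ∉ Om Ψ Φ w1 p)).card : ℝ)
  set P : ℝ := ∏ p ∈ pr 0 w2, (1 - ((Om Ψ Φ w1 p).card : ℝ) / p)
  set T : ℝ := S * th 0 w1 ^ (Ψ \ Φ).card * th 0 w2 ^ Φ.card
  have g1 : |L * P - L * T| ≤ L * (2 * (1 / (4 * (s : ℝ) ^ (b + 1)))) := by
    rw [← mul_sub, abs_mul, abs_of_nonneg L0]
    exact mul_le_mul_of_nonneg_left hm L0
  have g2 : L / (s : ℝ) ^ (b + 1) = 4 * (L * (1 / (4 * (s : ℝ) ^ (b + 1)))) := by field_simp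
  have g3 : 0 ≤ L * (1 / (4 * (s : ℝ) ^ (b + 1))) := by positivity
  have g4 := abs_sub_le N (L * P) (L * T)
  rw [g2]
  linarith

end Pool.Agent.Lib.MP_be93de_nt.He
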